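import Pool.Agent.T2H40.BR.Pkg.H1P

/-!
# Package H1: real pair inequalities
-/

set_option autoImplicit false

namespace Pool.Agent.T2H40.BR

namespace H1

/-- a quadratic with nonpositive discriminant -/
theorem quad {A B C q : ℝ} (hA : 0 < A) (h : B ^ 2 ≤ A * C) : 0 ≤ A * q ^ 2 - 2 * B * q + C := by
  have h1 : 0 ≤ A * (A * q ^ 2 - 2 * B * q + C) := by nlinarith [sq_nonneg (A * q - B)]
  exact nonneg_of_mul_nonneg_right h1 hA

theorem ps_pos {t : ℝ} (h1 : t ≤ 1 / 2) : 0 < ps t := by unfold ps; linarith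
theorem ps_le {t : ℝ} (h0 : 0 ≤ t) : ps t ≤ 1 := by unfold ps; linarith

theorem ps_sq_le {t : ℝ} (h0 : 0 ≤ t) (h1 : t ≤ 1 / 2) : ps t ^ 2 ≤ 1 := by
  have := ps_pos h1; have := ps_le h0; nlinarith

theorem ch_le {t : ℝ} (h0 : 0 ≤ t) (h1 : t ≤ 1 / 2) : ch t ≤ 1 - t := by
  have := ps_sq_le h0 h1
  unfold ch
  nlinarith

theorem ch_ge {t : ℝ} (h0 : 0 ≤ t) (h1 : t ≤ 1 / 2) : 3 / 20 ≤ ch t := by
  have h2 : 113 / 200 ≤ ps t := by unfold ps; linarith
  have h3 : (113 / 200 : ℝ) ^ 2 ≤ ps t ^ 2 := by nlinarith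
  unfold ch
  nlinarith

/-! ### `S`, `S` -/

theorem ch_tan {e r : ℝ} (h0 : 0 ≤ e) (h1 : e ≤ 1 / 2) (he : e ^ 2 = r * (1 - e)) :
    43 / 100 - 672 / 1000 * r ≤ ch e := by
  have h := pt h0 h1
  have h2 : 0 ≤ (1 - e) * (ch e - 43 / 100 + 672 / 1000 * r) := by
    rw [he] at h
    linarith
  have h3 : 0 < 1 - e := by linarith
  have := nonneg_of_mul_nonneg_right h2 h3
  linarith

theorem ss_E {e f r s q : ℝ} (h0 : 0 ≤ e) (h1 : e ≤ 1 / 2) (he : e ^ 2 = r * (1 - e))
    (k0 : 0 ≤ f) (k1 : f ≤ 1 / 2) (hf : f ^ 2 = s * (1 - f)) (hrs : r + s ≤ 1 / 2)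
    (hq : q ^ 2 ≤ r * s) : 0 ≤ (ch e + ch f - 52 / 100) * (r * s - q ^ 2) := by
  have a := ch_tan h0 h1 he
  have b := ch_tan k0 k1 hf
  exact mul_nonneg (by linarith) (by linarith)

theorem ss_f {r s q : ℝ} (hr : 0 ≤ r) (hs : 0 ≤ s) (hrs : r + s ≤ 1 / 2) (hq : q ^ 2 ≤ r * s) :
    r + s + 2 * q - 1 ≤ 0 := by
  have h1 : q ^ 2 ≤ ((r + s) / 2) ^ 2 := by nlinarith [sq_nonneg (r - s)]
  have h2 := abs_le_of_sq_le_sq' h1 (by linarith)
  linarith [h2.2]

/-! ### `C`, `C` -/

theorem cc_main {x y q : ℝ} (hx : 0 < x) (hy : 0 < y) (hxy : x + y ≤ 1 / 2) :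
    0 ≤ (be x + be y + 52 / 100) * (x * y)
      + (1 / x - ps x ^ 2 - 26 / 100 + be x * x / (1 - x)
        + (1 / y - ps y ^ 2 - 26 / 100 + be y * y / (1 - y))) * q ^ 2
      - 2 * (1 - ps x * ps y * (1 - x - y)) * q := by
  have hx1 : 0 < 1 - x := by linarith
  have hy1 : 0 < 1 - y := by linarith
  set s : ℝ := x + y with hs
  have hs0 : 0 < s := by positivity
  set t : ℝ := x * y / s ^ 2 with ht
  have hst : x * y = s ^ 2 * t := by rw [ht]; field_simp
  have ht0 : 0 ≤ t := by positivity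
  have ht4 : t ≤ 1 / 4 := by
    rw [ht, div_le_iff₀ (by positivity)]
    nlinarith [sq_nonneg (x - y)]
  have hP := p3 hs0.le hxy ht0 ht4
  have hbe : 0 < be x + be y + 52 / 100 := by unfold be; linarith
  have hDen : (1 - x) * (1 - y) = 1 - s + s ^ 2 * t := by rw [← hst, hs]; ring
  have hD0 : 0 < 1 - s + s ^ 2 * t := by rw [← hDen]; positivity
  -- the coefficient
  set G : ℝ := 1 / x - ps x ^ 2 - 26 / 100 + be x * x / (1 - x)
        + (1 / y - ps y ^ 2 - 26 / 100 + be y * y / (1 - y)) with hG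
  set W : ℝ := (1 - s + s ^ 2 * t) -
      s * t * ((2 - 2 * (87 / 100) * s + (87 / 100) ^ 2 * s ^ 2 * (1 - 2 * t) + 52 / 100)
        * (1 - s + s ^ 2 * t) - s * (57 / 100 - 92 / 100 * s * (1 - 2 * t)
          - s * t * (114 / 100 - 92 / 100 * s))) with hW
  have hx2 : x ^ 2 + y ^ 2 = s ^ 2 * (1 - 2 * t) := by
    have : x ^ 2 + y ^ 2 = s ^ 2 - 2 * (x * y) := by rw [hs]; ring
    rw [this, hst]; ring
  have hGW : G * (x * y) * (1 - s + s ^ 2 * t) = s * W := by
    have e1 : G * (x * y) * ((1 - x) * (1 - y)) =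
        (x + y) * ((1 - x) * (1 - y)) - (x * y) * ((ps x ^ 2 + ps y ^ 2 + 52 / 100)
          * ((1 - x) * (1 - y)) - (be x * x * (1 - y) + be y * y * (1 - x))) := by
      rw [hG]
      field_simp
      ring
    have e2 : ps x ^ 2 + ps y ^ 2 = 2 - 2 * (87 / 100) * s + (87 / 100) ^ 2 * (x ^ 2 + y ^ 2) := by
      rw [hs]; simp only [ps]; ring
    have e3 : be x * x * (1 - y) + be y * y * (1 - x) =
        57 / 100 * s - 92 / 100 * (x ^ 2 + y ^ 2) - (x * y) * (114 / 100 - 92 / 100 * s) := by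
      rw [hs]; simp only [be]; ring
    rw [← hDen, e1, hDen, e2, e3, hx2, hst, hW, ← hs]
    ring
  have hB : 1 - ps x * ps y * (1 - x - y)
      = s * (1 + 87 / 100 - 87 / 100 * s - (87 / 100) ^ 2 * s * t * (1 - s)) := by
    have e1 : ps x * ps y = 1 - 87 / 100 * s + (87 / 100) ^ 2 * (x * y) := by
      rw [hs]; simp only [ps]; ring
    have e2 : 1 - x - y = 1 - s := by rw [hs]; ring
    rw [e1, e2, hst]; ring
  have hbe' : be x + be y = 114 / 100 - 92 / 100 * s := by rw [hs]; simp only [be]; ring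
  set L : ℝ := 1 + 87 / 100 - 87 / 100 * s - (87 / 100) ^ 2 * s * t * (1 - s) with hL
  -- positivity of `G`
  have hG0 : 0 < G := by
    have h1 : ps x ^ 2 ≤ 1 := ps_sq_le hx.le (by linarith)
    have h2 : ps y ^ 2 ≤ 1 := ps_sq_le hy.le (by linarith)
    have h3 : 2 ≤ 1 / x := by rw [le_div_iff₀ hx]; linarith
    have h4 : 2 ≤ 1 / y := by rw [le_div_iff₀ hy]; linarith
    have h5 : 0 ≤ be x * x / (1 - x) := by
      have : 0 ≤ be x := by unfold be; linarith
      positivity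
    have h6 : 0 ≤ be y * y / (1 - y) := by
      have : 0 ≤ be y := by unfold be; linarith
      positivity
    rw [hG]; linarith
  have hdisc : (1 - ps x * ps y * (1 - x - y)) ^ 2 ≤ G * ((be x + be y + 52 / 100) * (x * y)) := by
    have h1 : 0 ≤ s * ((be x + be y + 52 / 100) * W - s * L ^ 2 * (1 - s + s ^ 2 * t)) := by
      refine mul_nonneg hs0.le ?_
      rw [hbe']
      exact hP
    have h2 : 0 ≤ (1 - s + s ^ 2 * t) * (G * ((be x + be y + 52 / 100) * (x * y))
        - (1 - ps x * ps y * (1 - x - y)) ^ 2) := by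
      refine h1.trans (le_of_eq ?_)
      rw [hB]
      have : (be x + be y + 52 / 100) * (G * (x * y) * (1 - s + s ^ 2 * t))
          = (be x + be y + 52 / 100) * (s * W) := by rw [hGW]
      linear_combination -this
    have h3 := nonneg_of_mul_nonneg_right h2 hD0
    linarith
  have := quad (q := q) hG0 hdisc
  linarith

theorem cc_f {x y q : ℝ} (hx : 0 < x) (hy : 0 < y) (hxy : x + y ≤ 1 / 2) (hq : q ^ 2 ≤ x * y) :
    0 ≤ 1 - x - y + 2 * q := by
  have h1 : q ^ 2 ≤ ((x + y) / 2) ^ 2 := by nlinarith [sq_nonneg (x - y)]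
  have h2 := abs_le_of_sq_le_sq' h1 (by linarith)
  linarith [h2.1]

/-! ### `C`, `S`, nonnegativity -/

/-- `E` for a pair of types `C` (`x`), `S` (`r`, `e`) -/
noncomputable def Ecs (x r e q : ℝ) : ℝ :=
  r - (be x + ch e) * (x * r) + (1 / x - ps x ^ 2 + be x * x / (1 - x) - ch e) * q ^ 2
    + 2 * (ps x * (e * ps e)) * q

theorem cs_E {x r e q : ℝ} (hx : 0 < x) (hx1 : x ≤ 1 / 2) (h0 : 0 ≤ e) (h1 : e ≤ 1 / 2)
    (he : e ^ 2 = r * (1 - e)) : 0 ≤ Ecs x r e q := by
  have hP := pe hx.le hx1 (ch_ge h0 h1) ((ch_le h0 h1).trans (by linarith))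
  have hxx : 0 < 1 - x := by linarith
  have hee : 0 < 1 - e := by linarith
  have hr : r = e ^ 2 / (1 - e) := by rw [he]; field_simp
  set A : ℝ := (1 - e) * ((1 - x) * (1 - x * ps x ^ 2) - x * (1 - x) * ch e + be x * x ^ 2) with hA
  set B : ℝ := -(x * (1 - x) * (1 - e) * (ps x * ps e) * e) with hB
  set C : ℝ := x * (1 - x) * e ^ 2 * (1 - x * (ch e + be x)) with hC
  have key : x * (1 - x) * (1 - e) * Ecs x r e q = A * q ^ 2 - 2 * B * q + C := by
    rw [hA, hB, hC, hr]
    unfold Ecs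
    field_simp
    ring
  have hApos : 0 < A := by
    rw [hA]
    refine mul_pos hee ?_
    have h2 := ch_le h0 h1
    have h3 := ps_sq_le hx.le hx1
    have h4 : 0 ≤ be x := by unfold be; linarith
    have h5 : ch e ≤ 1 := by linarith
    have h6 : ps x ^ 2 < 1 := by
      have := ps_pos hx1
      have h7 : ps x < 1 := by unfold ps; linarith
      nlinarith
    have h7 : 0 ≤ be x * x ^ 2 := by positivity
    have h8 : x * (1 - x) * ch e ≤ x * (1 - x) * 1 := mul_le_mul_of_nonneg_left h5 (by positivity)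
    have h9 : x * ps x ^ 2 < x := by nlinarith
    nlinarith
  have hdisc : B ^ 2 ≤ A * C := by
    have h2 : A * C - B ^ 2 = e ^ 2 * (x * (1 - x)) * (1 - e) *
        ((1 - x * be x - x * ch e) * ((1 - x) * (1 - x * ps x ^ 2) + be x * x ^ 2
      - x * (1 - x) * ch e) - x * (1 - x) * ps x ^ 2 * ch e) := by
      rw [hA, hB, hC]
      have : ch e = (1 - e) * ps e ^ 2 := rfl
      have h3 : x * (1 - x) * ps x ^ 2 * ch e = x * (1 - x) * ps x ^ 2 * ((1 - e) * ps e ^ 2) := by
        rw [this]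
      rw [h3]
      ring
    have h3 : 0 ≤ e ^ 2 * (x * (1 - x)) * (1 - e) := by positivity
    have := mul_nonneg h3 hP
    linarith
  have h4 := quad (q := q) hApos hdisc
  rw [← key] at h4
  exact nonneg_of_mul_nonneg_right h4 (by positivity)

/-! ### `C`, `S`, edges -/

/-- divided difference of `χ` at `e`, `x` -/
noncomputable def X1 (e x : ℝ) : ℝ :=
  -(1 + 2 * (87 / 100)) + (2 * (87 / 100) + (87 / 100) ^ 2) * (e + x)
    - (87 / 100) ^ 2 * (e ^ 2 + e * x + x ^ 2)

/-- the discriminant divided by `(e - x)² x² (1 - e)` -/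
noncomputable def D1 (e x : ℝ) : ℝ :=
  (1 - e) * (2 * (87 / 100) * ps e - (87 / 100) ^ 2 * x) * (e + x) ^ 2
    - ch e * e * (1 - e * X1 e x) * (e + x)
    + ww e * ((e + x) - x * e * (1 - e * X1 e x)) * (e + x)
    - (ch e + x * ww e) ^ 2 * (1 - x) * e ^ 2

theorem D1_nonneg {e x : ℝ} (h0 : 0 ≤ e) (h1 : e ≤ 1 / 2) (hx : 0 < x) (hx1 : x ≤ 1 / 2) :
    0 ≤ D1 e x := by
  rcases le_total x e with h | h
  · have he : 0 < e := lt_of_lt_of_le hx h
    have hxt : x = x / e * e := by field_simp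
    have ht0 : 0 ≤ x / e := by positivity
    have ht1 : x / e ≤ 1 := by rw [div_le_one he]; exact h
    have hP := pa h0 h1 ht0 ht1
    set t : ℝ := x / e with ht
    have key : D1 e x = e ^ 2 * ((1 - e) * (2 * (87 / 100) * ps e - (87 / 100) ^ 2 * (t * e))
      * (1 + t) ^ 2 - ch e * (1 - e * cd e t) * (1 + t)
      + ww e * ((1 + t) - t * e * (1 - e * cd e t)) * (1 + t)
      - (ch e + t * e * ww e) ^ 2 * (1 - t * e)) := by
      have : X1 e x = cd e t := by
        rw [hxt]; simp only [X1, cd]; ring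
      simp only [D1]
      rw [this, hxt]
      ring
    rw [key]
    exact mul_nonneg (sq_nonneg e) hP
  · have hxt : e = e / x * x := by field_simp
    have ht0 : 0 ≤ e / x := by positivity
    have ht1 : e / x ≤ 1 := by rw [div_le_one hx]; exact h
    have hP := pb hx.le hx1 ht0 ht1
    set t : ℝ := e / x with ht
    rw [← hxt] at hP
    have key : D1 e x = x ^ 2 * ((1 - e) * (2 * (87 / 100) * ps e - (87 / 100) ^ 2 * x)
      * (1 + t) ^ 2
      - ch e * t * (1 - e * cd x t) * (1 + t)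
      + ww e * ((1 + t) - x * t * (1 - e * cd x t)) * (1 + t)
      - (ch e + x * ww e) ^ 2 * (1 - x) * t ^ 2) := by
      have h2 : X1 e x = cd x t := by
        rw [hxt]; simp only [X1, cd]; ring
      simp only [D1]
      rw [h2]
      generalize ch e = a
      generalize ww e = b
      generalize ps e = c
      generalize cd x t = d
      rw [hxt]
      ring
    rw [key]
    exact mul_nonneg (sq_nonneg x) hP

theorem apos {x e : ℝ} (hx : 0 < x) (hx1 : x ≤ 1 / 2) (h0 : 0 ≤ e) (h1 : e ≤ 1 / 2) :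
    0 < (e + x) * (1 - x * ps x ^ 2) - (ch e + x * ww e) * (e - x) * x := by
  have h2 : ch e ≤ 1 - e := ch_le h0 h1
  have h3 : ps x ^ 2 < 1 := by
    have h4 : ps x < 1 := by unfold ps; linarith
    have := ps_pos hx1
    nlinarith
  have h4 : x * ps x ^ 2 < x := by
    have := mul_lt_mul_of_pos_left h3 hx
    linarith
  have h5 : (ch e + x * ww e) * (e - x) * x ≤ (e + x) * x := by
    refine mul_le_mul_of_nonneg_right ?_ hx.le
    rcases le_total e x with h | h
    · have h6 : 0 ≤ ch e + x * ww e := by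
        have h7 := ch_ge h0 h1
        have h8 : -(14 / 100) ≤ ww e := by unfold ww; linarith
        nlinarith
      have h7 : (ch e + x * ww e) * (e - x) ≤ 0 := mul_nonpos_of_nonneg_of_nonpos h6 (by linarith)
      linarith
    · have h6 : ch e + x * ww e ≤ 1 := by
        have h8 : ww e ≤ 1 := by unfold ww; linarith
        have : x * ww e ≤ x * 1 := mul_le_mul_of_nonneg_left h8 hx.le
        linarith
      have h7 : (ch e + x * ww e) * (e - x) ≤ 1 * (e - x) :=
        mul_le_mul_of_nonneg_right h6 (by linarith)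
      linarith
  have h6 : (e + x) * x < (e + x) * (1 - x * ps x ^ 2) :=
    mul_lt_mul_of_pos_left (by linarith) (by linarith)
  linarith

theorem cs_F {x r e q : ℝ} (hx : 0 < x) (hx1 : x ≤ 1 / 2) (h0 : 0 ≤ e) (h1 : e ≤ 1 / 2)
    (he : e ^ 2 = r * (1 - e)) (hq : q ^ 2 ≤ (1 - x) * r) : r - x + 2 * q ≤ Ecs x r e q := by
  have hxx : 0 < 1 - x := by linarith
  have hee : 0 < 1 - e := by linarith
  have hu : 0 < e + x := by linarith
  have hr : r = e ^ 2 / (1 - e) := by rw [he]; field_simp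
  have hM : 0 ≤ (1 - x) * r - q ^ 2 := by linarith
  -- the two coefficients of `M`
  have hk : (ch e + x * ww e) * (e - x) / (e + x) ≤ ch e - be x * x / (1 - x) := by
    have hP := mul_nonneg hx.le (pk h0 h1 hx.le hx1)
    have : ch e - be x * x / (1 - x) - (ch e + x * ww e) * (e - x) / (e + x)
        = x * ((2 * ch e - ww e * (e - x)) * (1 - x) - be x * (e + x)) / ((1 - x) * (e + x)) := by
      field_simp
      ring
    have h2 : 0 ≤ ch e - be x * x / (1 - x) - (ch e + x * ww e) * (e - x) / (e + x) := by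
      rw [this]
      exact div_nonneg hP (by positivity)
    linarith
  have id1 : Ecs x r e q - (r - x + 2 * q) = (q - x) ^ 2 / x
      + (ch e - be x * x / (1 - x)) * ((1 - x) * r - q ^ 2) - (ps x * q - e * ps e) ^ 2 := by
    have h2 : e ^ 2 * ps e ^ 2 = r * ch e := by
      have : ch e = (1 - e) * ps e ^ 2 := rfl
      rw [this, he]; ring
    have h3 : (ps x * q - e * ps e) ^ 2 = ps x ^ 2 * q ^ 2 - 2 * (ps x * (e * ps e)) * q
        + r * ch e := by rw [← h2]; ring
    rw [h3]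
    unfold Ecs
    field_simp
    ring
  set w : ℝ := ch e + x * ww e with hw
  set A : ℝ := (1 - e) * (e + x) * (1 - x * ps x ^ 2) - w * (e - x) * x * (1 - e) with hA
  set B : ℝ := x * (1 - e) * (e + x) * (1 - ps x * ps e * e) with hB
  set C : ℝ := x ^ 2 * (1 - e) * (e + x) + w * (e - x) * x * (1 - x) * e ^ 2
    - x * (1 - e) * (e + x) * e ^ 2 * ps e ^ 2 with hC
  have key : x * (1 - e) * (e + x) * ((q - x) ^ 2 / x
      + w * (e - x) / (e + x) * ((1 - x) * r - q ^ 2) - (ps x * q - e * ps e) ^ 2)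
      = A * q ^ 2 - 2 * B * q + C := by
    rw [hA, hB, hC, hr]
    field_simp
    ring
  have hdisc : B ^ 2 ≤ A * C := by
    have h2 : A * C - B ^ 2 = (e - x) ^ 2 * x ^ 2 * (1 - e) * D1 e x := by
      rw [hA, hB, hC, hw]
      simp only [D1, X1, ch, ps, ww]
      ring
    have h3 : 0 ≤ (e - x) ^ 2 * x ^ 2 * (1 - e) := by positivity
    have := mul_nonneg h3 (D1_nonneg h0 h1 hx hx1)
    linarith
  have hApos : 0 < A := by
    have h6 : A = (1 - e) * ((e + x) * (1 - x * ps x ^ 2) - w * (e - x) * x) := by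
      rw [hA]; ring
    rw [h6]
    exact mul_pos hee (apos hx hx1 h0 h1)
  have h4 := quad (q := q) hApos hdisc
  rw [← key] at h4
  have h5 := nonneg_of_mul_nonneg_right h4 (by positivity)
  have h6 := mul_le_mul_of_nonneg_right hk hM
  linarith

end H1

end Pool.Agent.T2H40.BR
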