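import Pool.Agent.T2H40.BR.Pkg.S1
import Pool.Agent.T2H40.BR.Pkg.H1R

/-!
# Package H1: the range `a ≤ 1/2`

Certificate (no `g`, `a0 = a`). `C`: `x = ε`, `S`: `x = r = e² / (1 - e)` (so `e ≥ 0`, `e² = r (1 - e)`).
`ψ t = 1 - 0.87 t`, `λ = 0.52`, `β ε = 0.57 - 0.92 ε`.
* `C`: `v = (1 - ε) ψ ε`, `u = - ε ψ ε`, `B = (β ε + λ/2) ε`,
  `γ = 1/ε - ψ ε ^ 2 - λ/2 + β ε * ε / (1 - ε)` (equality in `hBc`).
* `S`: `v = u = e ψ e`, `σ² = χ(e) = (1 - e) ψ e ^ 2`, `B = (σ² - λ/2) r`, `γ = - (σ² - λ/2)`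
  (equality in `hBs`).
The pair inequalities are in `H1R`, the polynomial inequalities behind them in `H1P`.
-/

set_option autoImplicit false

open Finset

namespace Pool.Agent.T2H40.BR

namespace H1

variable {V : Type*} [Fintype V] [DecidableEq V]

omit [DecidableEq V] in
theorem cs1 {P : V → V → ℝ} (hs : ∀ i j, P i j = P j i)
    (hid : ∀ i j, ∑ l, P i l * P l j = P i j) (i j : V) : P i j ^ 2 ≤ P i i * P j j := by
  have h1 := Finset.sum_mul_sq_le_sq_mul_sq univ (fun l => P i l) (fun l => P l j)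
  rw [hid i j] at h1
  have h2 : ∑ l, P i l ^ 2 = P i i := Pool.Agent.Y339.SB.row_sq hs hid i
  have h3 : ∑ l, P l j ^ 2 = P j j := by
    rw [← Pool.Agent.Y339.SB.row_sq hs hid j]
    exact Finset.sum_congr rfl fun l _ => by rw [hs l j]
  rw [h2, h3] at h1
  exact h1

theorem cs2 {P : V → V → ℝ} (hs : ∀ i j, P i j = P j i)
    (hid : ∀ i j, ∑ l, P i l * P l j = P i j) {i j : V} (hij : i ≠ j) :
    P i j ^ 2 ≤ (1 - P i i) * (1 - P j j) := by
  have h := cs1 (P := fun i j => (if i = j then 1 else 0) - P i j)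
    (fun i j => by
      simp only [hs i j]
      by_cases h : i = j
      · rw [if_pos h, if_pos h.symm]
      · rw [if_neg h, if_neg (fun h' => h h'.symm)])
    (fun i j => by
      have e : ∀ l, ((if i = l then (1 : ℝ) else 0) - P i l) * ((if l = j then 1 else 0) - P l j) =
          (if i = l then (if l = j then 1 else 0) else 0) - (if i = l then P l j else 0) -
            (if l = j then P i l else 0) + P i l * P l j := by
        intro l
        split_ifs <;> ring
      simp only [e, Finset.sum_add_distrib, Finset.sum_sub_distrib, hid]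
      rw [Finset.sum_ite_eq univ i, Finset.sum_ite_eq univ i, Finset.sum_ite_eq' univ j,
        if_pos (Finset.mem_univ _), if_pos (Finset.mem_univ _), if_pos (Finset.mem_univ _)]
      ring) i j
  simp only [if_neg hij, if_true, zero_sub] at h
  rw [neg_sq] at h
  exact h

/-- the solution `e` of `e² = r (1 - e)` -/
noncomputable def er (r : ℝ) : ℝ := (-r + Real.sqrt (r ^ 2 + 4 * r)) / 2

theorem er_spec {r : ℝ} (h0 : 0 ≤ r) : er r ^ 2 = r * (1 - er r) := by
  have h : Real.sqrt (r ^ 2 + 4 * r) ^ 2 = r ^ 2 + 4 * r := Real.sq_sqrt (by positivity)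
  unfold er
  linear_combination h / 4

theorem er_nonneg {r : ℝ} (h0 : 0 ≤ r) : 0 ≤ er r := by
  have h : r ≤ Real.sqrt (r ^ 2 + 4 * r) := Real.le_sqrt_of_sq_le (by linarith)
  unfold er
  linarith

theorem er_le {r : ℝ} (h0 : 0 ≤ r) (h1 : r ≤ 1 / 2) : er r ≤ 1 / 2 := by
  by_contra hc
  push Not at hc
  have h2 := er_spec h0
  nlinarith

/-- `B` -/
noncomputable def hB (C : Finset V) (x : V → ℝ) (i : V) : ℝ :=
  if i ∈ C then (be (x i) + 26 / 100) * x i else (ch (er (x i)) - 26 / 100) * x i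
/-- `v` -/
noncomputable def hv (C : Finset V) (x : V → ℝ) (i : V) : ℝ :=
  if i ∈ C then (1 - x i) * ps (x i) else er (x i) * ps (er (x i))
/-- `u` -/
noncomputable def hu (C : Finset V) (x : V → ℝ) (i : V) : ℝ :=
  if i ∈ C then - (x i * ps (x i)) else er (x i) * ps (er (x i))
/-- `γ` -/
noncomputable def hγ (C : Finset V) (x : V → ℝ) (i : V) : ℝ :=
  if i ∈ C then 1 / x i - ps (x i) ^ 2 - 26 / 100 + be (x i) * x i / (1 - x i)
  else - (ch (er (x i)) - 26 / 100)

/-- the pair function of the certificate -/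
noncomputable def hE (P : V → V → ℝ) (C : Finset V) (x : V → ℝ) (i j : V) : ℝ :=
  pairE P C x (hB C x) (fun _ => 0) (hv C x) (hu C x) (hγ C x) i j

theorem hE_symm {P : V → V → ℝ} (hs : ∀ i j, P i j = P j i) (C : Finset V)
    (x : V → ℝ) (i j : V) : hE P C x i j = hE P C x j i := by
  unfold hE pairE base
  rw [hs j i]
  split_ifs <;> ring

theorem hE_cc {P : V → V → ℝ} {C : Finset V} {x : V → ℝ} {i j : V} (hi : i ∈ C) (hj : j ∈ C) :
    hE P C x i j = 1 - x i - x j + ((be (x i) + be (x j) + 52 / 100) * (x i * x j)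
      + (1 / x i - ps (x i) ^ 2 - 26 / 100 + be (x i) * x i / (1 - x i)
        + (1 / x j - ps (x j) ^ 2 - 26 / 100 + be (x j) * x j / (1 - x j))) * P i j ^ 2
      - 2 * (1 - ps (x i) * ps (x j) * (1 - x i - x j)) * P i j) + 2 * P i j := by
  unfold hE pairE base hB hv hu hγ
  simp only [if_pos hi, if_pos hj]
  ring

theorem hE_cs {P : V → V → ℝ} {C : Finset V} {x : V → ℝ} {i j : V} (hi : i ∈ C) (hj : j ∉ C) :
    hE P C x i j = Ecs (x i) (x j) (er (x j)) (P i j) := by
  unfold hE pairE base hB hv hu hγ Ecs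
  simp only [if_pos hi, if_neg hj]
  ring

theorem hE_ss {P : V → V → ℝ} {C : Finset V} {x : V → ℝ} {i j : V} (hi : i ∉ C) (hj : j ∉ C) :
    hE P C x i j = (ch (er (x i)) + ch (er (x j)) - 52 / 100) * (x i * x j - P i j ^ 2) := by
  unfold hE pairE base hB hv hu hγ
  simp only [if_neg hi, if_neg hj]
  ring

end H1

variable {V : Type*} [Fintype V] [DecidableEq V]

open H1 in
theorem bound_half {P : V → V → ℝ} (hs : ∀ i j, P i j = P j i)
    (hid : ∀ i j, ∑ l, P i l * P l j = P i j) (C : Finset V) (k : ℕ) (hk : C.card = k)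
    (htr : ∑ i, P i i = (k : ℝ)) (x : V → ℝ)
    (hx : ∀ i, x i = if i ∈ C then 1 - P i i else P i i)
    (ha : ∑ i ∈ C, x i ≤ 1 / 2)
    (A : V → V → Prop) [DecidableRel A] (hirr : ∀ i, ¬ A i i) :
    ∑ i, ∑ j, (if A i j then P i i + P j j + 2 * P i j - 1 else 0) ≤ (k : ℝ) ^ 2 + k := by
  classical
  have hxc : ∀ i ∈ C, P i i = 1 - x i := by
    intro i hi; rw [hx i, if_pos hi]; ring
  have hxs : ∀ i, i ∉ C → P i i = x i := by
    intro i hi; rw [hx i, if_neg hi]
  have hx0 : ∀ i, 0 ≤ x i := by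
    intro i
    rw [hx i]
    split_ifs
    · have := Pool.Agent.Y339.SB.diag_le_one hs hid i; linarith
    · exact Pool.Agent.Y339.SB.diag_nonneg hs hid i
  have ha' : ∑ i ∈ Cᶜ, x i ≤ 1 / 2 := by
    have h := htr
    rw [← Finset.sum_add_sum_compl C, Finset.sum_congr rfl hxc,
      Finset.sum_congr rfl (fun i hi => hxs i (Finset.mem_compl.1 hi)),
      Finset.sum_sub_distrib, Finset.sum_const, nsmul_eq_mul, mul_one, hk] at h
    linarith
  have hle : ∀ i, x i ≤ 1 / 2 := by
    intro i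
    by_cases hi : i ∈ C
    · exact (Finset.single_le_sum (fun j _ => hx0 j) hi).trans ha
    · exact (Finset.single_le_sum (fun j _ => hx0 j) (Finset.mem_compl.2 hi)).trans ha'
  have hpairc : ∀ i ∈ C, ∀ j ∈ C, i ≠ j → x i + x j ≤ 1 / 2 := by
    intro i hi j hj hij
    have h1 : ∑ l ∈ {i, j}, x l ≤ ∑ l ∈ C, x l :=
      Finset.sum_le_sum_of_subset_of_nonneg (by
        intro l hl
        rcases Finset.mem_insert.1 hl with rfl | hl
        · exact hi
        · rw [Finset.mem_singleton.1 hl]; exact hj) (fun l _ _ => hx0 l)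
    rw [Finset.sum_pair hij] at h1
    linarith
  have hpairs : ∀ i, i ∉ C → ∀ j, j ∉ C → i ≠ j → x i + x j ≤ 1 / 2 := by
    intro i hi j hj hij
    have h1 : ∑ l ∈ {i, j}, x l ≤ ∑ l ∈ Cᶜ, x l :=
      Finset.sum_le_sum_of_subset_of_nonneg (by
        intro l hl
        rcases Finset.mem_insert.1 hl with rfl | hl
        · exact Finset.mem_compl.2 hi
        · rw [Finset.mem_singleton.1 hl]; exact Finset.mem_compl.2 hj) (fun l _ _ => hx0 l)
    rw [Finset.sum_pair hij] at h1
    linarith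
  -- the cases
  have hcc : ∀ i ∈ C, ∀ j ∈ C, i ≠ j →
      P i i + P j j + 2 * P i j - 1 ≤ hE P C x i j ∧ 0 ≤ hE P C x i j := by
    intro i hi j hj hij
    have hij' := hpairc i hi j hj hij
    rw [hE_cc hi hj, hxc i hi, hxc j hj]
    rcases eq_or_lt_of_le (hx0 i) with h0 | h0
    · have hP : P i j = 0 := Pool.Agent.Y339.SB.off_zero hs hid hij (by rw [hxc i hi, ← h0]; ring)
      rw [hP, ← h0]
      have := hle j
      constructor <;> nlinarith
    rcases eq_or_lt_of_le (hx0 j) with h0' | h0'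
    · have hP : P i j = 0 := by
        rw [hs i j]
        exact Pool.Agent.Y339.SB.off_zero hs hid hij.symm (by rw [hxc j hj, ← h0']; ring)
      rw [hP, ← h0']
      have := hle i
      constructor <;> nlinarith
    have hq : P i j ^ 2 ≤ x i * x j := by
      have := cs2 hs hid hij
      rw [hxc i hi, hxc j hj] at this
      linarith
    have h1 := cc_main (q := P i j) h0 h0' hij'
    have h2 := cc_f h0 h0' hij' hq
    constructor <;> linarith
  have hcs : ∀ i ∈ C, ∀ j, j ∉ C → i ≠ j →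
      P i i + P j j + 2 * P i j - 1 ≤ hE P C x i j ∧ 0 ≤ hE P C x i j := by
    intro i hi j hj hij
    rw [hE_cs hi hj, hxc i hi, hxs j hj]
    rcases eq_or_lt_of_le (hx0 i) with h0 | h0
    · have hP : P i j = 0 := Pool.Agent.Y339.SB.off_zero hs hid hij (by rw [hxc i hi, ← h0]; ring)
      rw [hP, ← h0]
      have := hx0 j
      unfold Ecs
      constructor <;> nlinarith
    have hq : P i j ^ 2 ≤ (1 - x i) * x j := by
      have := cs1 hs hid i j
      rw [hxc i hi, hxs j hj] at this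
      exact this
    have e0 := er_nonneg (hx0 j)
    have e1 := er_le (hx0 j) (hle j)
    have e2 := er_spec (hx0 j)
    have h1 := cs_F h0 (hle i) e0 e1 e2 hq
    have h2 := cs_E (q := P i j) h0 (hle i) e0 e1 e2
    constructor <;> linarith
  have hss : ∀ i, i ∉ C → ∀ j, j ∉ C → i ≠ j →
      P i i + P j j + 2 * P i j - 1 ≤ hE P C x i j ∧ 0 ≤ hE P C x i j := by
    intro i hi j hj hij
    rw [hE_ss hi hj, hxs i hi, hxs j hj]
    have hq : P i j ^ 2 ≤ x i * x j := by
      have := cs1 hs hid i j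
      rw [hxs i hi, hxs j hj] at this
      exact this
    have hij' := hpairs i hi j hj hij
    have h1 := ss_E (er_nonneg (hx0 i)) (er_le (hx0 i) (hle i)) (er_spec (hx0 i))
      (er_nonneg (hx0 j)) (er_le (hx0 j) (hle j)) (er_spec (hx0 j)) hij' hq
    have h2 := ss_f (hx0 i) (hx0 j) hij' hq
    constructor <;> linarith
  have hall : ∀ i j, i ≠ j →
      P i i + P j j + 2 * P i j - 1 ≤ hE P C x i j ∧ 0 ≤ hE P C x i j := by
    intro i j hij
    by_cases hi : i ∈ C
    · by_cases hj : j ∈ C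
      · exact hcc i hi j hj hij
      · exact hcs i hi j hj hij
    · by_cases hj : j ∈ C
      · have h := hcs j hj i hi hij.symm
        rw [hE_symm hs C x i j, hs i j]
        constructor
        · linarith [h.1]
        · exact h.2
      · exact hss i hi j hj hij
  refine cert_bound hs hid C k hk htr x hx (∑ i ∈ C, x i) (52 / 100) (hB C x) (fun _ => 0)
    (hv C x) (hu C x) (hγ C x) (Or.inl rfl) ?_ ?_ A hirr (fun i j h => (hall i j h).1)
    (fun i j h => (hall i j h).2)
  · intro i hi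
    unfold hB hv hu hγ
    simp only [if_pos hi]
    rcases eq_or_lt_of_le (hx0 i) with h0 | h0
    · rw [← h0]; norm_num
    · have h1 : 1 - x i ≠ 0 := by have := hle i; linarith
      refine le_of_eq ?_
      field_simp
      ring
  · intro i hi
    unfold hB hv hu hγ
    simp only [if_neg hi]
    have e2 := er_spec (hx0 i)
    have h3 : (er (x i) * ps (er (x i))) ^ 2 = x i * ch (er (x i)) := by
      have : ch (er (x i)) = (1 - er (x i)) * ps (er (x i)) ^ 2 := rfl
      rw [this, mul_pow, e2]; ring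
    rw [h3]
    refine le_of_eq ?_
    ring

end Pool.Agent.T2H40.BR
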