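import Pool.Agent.T2H40.BR.Pkg.S1
import Pool.Agent.T2H40.BR.RDefs

/-!
# Package A1: from the pair inequalities to the bound

Apply `cert_bound` (S1) with, for `i ∈ C`, `t = x i`:
`B = (dl t - gc t + lam / 2) * t`, `g = gc t`, `v = √(1 - t) * Vc t`, `u = 0`,
`γ = 1 / t - Vc t ^ 2 - lam / 2 + (t * dl t + (ar - t) * gc t) / (1 - t)`;
for `i ∉ C`, `r = x i`:
`B = (1 - r) * (r * A) - lam / 2 * r - ar * gs r * r` (`A = An r / Ad r`), `g = gs r`,
`v = √r * Vs r`, `u = 0`, `γ = lam / 2 + ar * gs r + r * A - Vs r ^ 2`.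
(`hBc`, `hBs` then hold with equality, for `t < 1`.) The pair functions are `ECC`, `ECS`, `ESS`.
`x i = 0` for `i ∈ C`: `P i j = 0` (`off_zero`) and the pair inequalities are trivial.
`x i < 1` for `i ∈ C`, since otherwise `P i i = 0`, hence `P j j = 0` for `j ∉ C` and `∑ i ∈ C, x i = 0`.
`r < 1` since `∑ i ∈ C, x i > 0`. `P i j ^ 2 ≤ P i i * P j j` and `≤ (1 - P i i) * (1 - P j j)`.
-/

set_option autoImplicit false
set_option linter.unusedSectionVars false

open Finset

namespace Pool.Agent.T2H40.BR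

/-- pair inequalities at `a` (sum of the `x i`) with resource `ar` -/
structure PairOK (a ar lam : ℝ) (Vc gc dl Vs gs An Ad : ℝ → ℝ) : Prop where
  ad : ∀ r, 0 ≤ r → r < 1 → r ≤ a → 0 < Ad r
  cc : ∀ x y q, 0 < y → y ≤ x → x < 1 → x + y ≤ a → q ^ 2 ≤ x * y → q ^ 2 ≤ (1 - x) * (1 - y) →
    0 ≤ ECC ar lam x y q (Vc x) (Vc y) (gc x) (gc y) (dl x) (dl y) ∧
    1 - x - y + 2 * q ≤ ECC ar lam x y q (Vc x) (Vc y) (gc x) (gc y) (dl x) (dl y)
  cs : ∀ x r q, 0 < x → x < 1 → x ≤ a → 0 ≤ r → r < 1 → r ≤ a → r ≤ 1 - x →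
    q ^ 2 ≤ (1 - x) * r → q ^ 2 ≤ x * (1 - r) →
    0 ≤ ECS ar x r q (Vc x) (Vs r) (gc x) (gs r) (dl x) (An r) (Ad r) ∧
    r - x + 2 * q ≤ ECS ar x r q (Vc x) (Vs r) (gc x) (gs r) (dl x) (An r) (Ad r)
  ss : ∀ r s q, 0 ≤ s → s ≤ r → r < 1 → r + s ≤ a → q ^ 2 ≤ r * s → q ^ 2 ≤ (1 - r) * (1 - s) →
    0 ≤ ESS ar lam r s q (Vs r) (Vs s) (gs r) (gs s) (An r) (Ad r) (An s) (Ad s) ∧
    r + s + 2 * q - 1 ≤ ESS ar lam r s q (Vs r) (Vs s) (gs r) (gs s) (An r) (Ad r) (An s) (Ad s)

variable {V : Type*} [Fintype V] [DecidableEq V]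

/-! ### auxiliary facts -/

omit [DecidableEq V] in
theorem a1_cs {P : V → V → ℝ} (hs : ∀ i j, P i j = P j i)
    (hid : ∀ i j, ∑ l, P i l * P l j = P i j) (i j : V) : P i j ^ 2 ≤ P i i * P j j := by
  have h1 := Finset.sum_mul_sq_le_sq_mul_sq univ (fun l => P i l) (fun l => P l j)
  rw [hid i j] at h1
  have h2 : ∑ l, P i l ^ 2 = P i i := Pool.Agent.Y339.SB.row_sq hs hid i
  have h3 : ∑ l, P l j ^ 2 = P j j := by
    rw [← Pool.Agent.Y339.SB.row_sq hs hid j]
    exact Finset.sum_congr rfl fun l _ => by rw [hs l j]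
  rw [h2, h3] at h1
  exact h1

theorem a1_cs' {P : V → V → ℝ} (hs : ∀ i j, P i j = P j i)
    (hid : ∀ i j, ∑ l, P i l * P l j = P i j) {i j : V} (hij : i ≠ j) :
    P i j ^ 2 ≤ (1 - P i i) * (1 - P j j) := by
  have h := a1_cs (P := fun i j => (if i = j then 1 else 0) - P i j)
    (fun i j => by
      simp only [hs i j]
      by_cases h : i = j
      · rw [if_pos h, if_pos h.symm]
      · rw [if_neg h, if_neg (fun h' => h h'.symm)])
    (fun i j => by
      have e : ∀ l, ((if i = l then (1 : ℝ) else 0) - P i l) * ((if l = j then 1 else 0) - P l j) =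
          (if i = l then (if l = j then 1 else 0) else 0) - (if i = l then P l j else 0) -
            (if l = j then P i l else 0) + P i l * P l j := by
        intro l
        split_ifs <;> ring
      simp only [e, Finset.sum_add_distrib, Finset.sum_sub_distrib, hid]
      rw [Finset.sum_ite_eq univ i, Finset.sum_ite_eq univ i, Finset.sum_ite_eq' univ j,
        if_pos (Finset.mem_univ _), if_pos (Finset.mem_univ _), if_pos (Finset.mem_univ _)]
      ring) i j
  simp only [if_neg hij, if_true, zero_sub] at h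
  rw [neg_sq] at h
  exact h

theorem pairE_symm {P : V → V → ℝ} (hs : ∀ i j, P i j = P j i) (C : Finset V)
    (x B g v u γ : V → ℝ) (i j : V) : pairE P C x B g v u γ i j = pairE P C x B g v u γ j i := by
  unfold pairE base
  rw [hs j i]
  split_ifs <;> ring

/-- the functions of the certificate -/
noncomputable def cB (ar lam : ℝ) (gc dl gs An Ad : ℝ → ℝ) (C : Finset V) (x : V → ℝ) (i : V) : ℝ :=
  if i ∈ C then (dl (x i) - gc (x i) + lam / 2) * x i
  else (1 - x i) * (x i * (An (x i) / Ad (x i))) - lam / 2 * x i - ar * gs (x i) * x i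

/-- the functions of the certificate -/
noncomputable def cg (gc gs : ℝ → ℝ) (C : Finset V) (x : V → ℝ) (i : V) : ℝ :=
  if i ∈ C then gc (x i) else gs (x i)

/-- the functions of the certificate -/
noncomputable def cv (Vc Vs : ℝ → ℝ) (C : Finset V) (x : V → ℝ) (i : V) : ℝ :=
  if i ∈ C then Real.sqrt (1 - x i) * Vc (x i) else Real.sqrt (x i) * Vs (x i)

/-- the functions of the certificate -/
noncomputable def cγ (ar lam : ℝ) (Vc gc dl Vs gs An Ad : ℝ → ℝ) (C : Finset V) (x : V → ℝ)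
    (i : V) : ℝ :=
  if i ∈ C then 1 / x i - Vc (x i) ^ 2 - lam / 2 +
    (x i * dl (x i) + (ar - x i) * gc (x i)) / (1 - x i)
  else lam / 2 + ar * gs (x i) + x i * (An (x i) / Ad (x i)) - Vs (x i) ^ 2

theorem pairE_cc {P : V → V → ℝ} (C : Finset V) (x : V → ℝ) (ar lam : ℝ)
    (Vc gc dl Vs gs An Ad : ℝ → ℝ) {i j : V} (hi : i ∈ C) (hj : j ∈ C) (h1 : x i < 1)
    (h2 : x j < 1) :
    pairE P C x (cB ar lam gc dl gs An Ad C x) (cg gc gs C x) (cv Vc Vs C x) (fun _ => 0)
      (cγ ar lam Vc gc dl Vs gs An Ad C x) i j =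
    ECC ar lam (x i) (x j) (P i j) (Vc (x i)) (Vc (x j)) (gc (x i)) (gc (x j)) (dl (x i))
      (dl (x j)) := by
  have h3 : 1 - x i ≠ 0 := by linarith
  have h4 : 1 - x j ≠ 0 := by linarith
  unfold pairE base cB cv cγ ECC G1
  simp only [if_pos hi, if_pos hj]
  have e1 : (x i * dl (x i) + (ar - x i) * gc (x i) - (1 - x i) * (Vc (x i) * Vc (x i) + lam / 2)) /
      (1 - x i) = (x i * dl (x i) + (ar - x i) * gc (x i)) / (1 - x i) -
        (Vc (x i) * Vc (x i) + lam / 2) := by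
    rw [sub_div, mul_div_cancel_left₀ _ h3]
  have e2 : (x j * dl (x j) + (ar - x j) * gc (x j) - (1 - x j) * (Vc (x j) * Vc (x j) + lam / 2)) /
      (1 - x j) = (x j * dl (x j) + (ar - x j) * gc (x j)) / (1 - x j) -
        (Vc (x j) * Vc (x j) + lam / 2) := by
    rw [sub_div, mul_div_cancel_left₀ _ h4]
  rw [e1, e2]
  ring

theorem pairE_cs {P : V → V → ℝ} (C : Finset V) (x : V → ℝ) (ar lam : ℝ)
    (Vc gc dl Vs gs An Ad : ℝ → ℝ) {i j : V} (hi : i ∈ C) (hj : j ∉ C) :
    pairE P C x (cB ar lam gc dl gs An Ad C x) (cg gc gs C x) (cv Vc Vs C x) (fun _ => 0)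
      (cγ ar lam Vc gc dl Vs gs An Ad C x) i j =
    ECS ar (x i) (x j) (P i j) (Vc (x i)) (Vs (x j)) (gc (x i)) (gs (x j)) (dl (x i))
      (An (x j)) (Ad (x j)) := by
  unfold pairE base cB cv cγ cg ECS GCS
  simp only [if_pos hi, if_neg hj]
  ring

theorem pairE_ss {P : V → V → ℝ} (C : Finset V) (x : V → ℝ) (ar lam : ℝ)
    (Vc gc dl Vs gs An Ad : ℝ → ℝ) {i j : V} (hi : i ∉ C) (hj : j ∉ C) :
    pairE P C x (cB ar lam gc dl gs An Ad C x) (cg gc gs C x) (cv Vc Vs C x) (fun _ => 0)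
      (cγ ar lam Vc gc dl Vs gs An Ad C x) i j =
    ESS ar lam (x i) (x j) (P i j) (Vs (x i)) (Vs (x j)) (gs (x i)) (gs (x j)) (An (x i))
      (Ad (x i)) (An (x j)) (Ad (x j)) := by
  unfold pairE base cB cv cγ ESS
  simp only [if_neg hi, if_neg hj]
  ring

/-- the pairs with `x i = 0`, `i ∈ C` -/
theorem pairE_zero {P : V → V → ℝ} (C : Finset V) (x : V → ℝ) (ar lam : ℝ)
    (Vc gc dl Vs gs An Ad : ℝ → ℝ) {i j : V} (hi : i ∈ C) (h0 : x i = 0) (hP : P i j = 0) :
    pairE P C x (cB ar lam gc dl gs An Ad C x) (cg gc gs C x) (cv Vc Vs C x) (fun _ => 0)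
      (cγ ar lam Vc gc dl Vs gs An Ad C x) i j = if j ∈ C then 1 - x j else x j := by
  unfold pairE base cB
  simp only [if_pos hi, h0, hP]
  split_ifs <;> ring

theorem bound_of_pairs {P : V → V → ℝ} (hs : ∀ i j, P i j = P j i)
    (hid : ∀ i j, ∑ l, P i l * P l j = P i j) (C : Finset V) (k : ℕ) (hk : C.card = k)
    (htr : ∑ i, P i i = (k : ℝ)) (x : V → ℝ)
    (hx : ∀ i, x i = if i ∈ C then 1 - P i i else P i i)
    (htop : ∀ i ∈ C, ∀ j, j ∉ C → P j j ≤ P i i)
    (hpos : 0 < ∑ i ∈ C, x i)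
    (ar lam : ℝ) (Vc gc dl Vs gs An Ad : ℝ → ℝ)
    (har : ar = ∑ i ∈ C, x i ∨ (ar ≤ ∑ i ∈ C, x i ∧ (∀ t, 0 ≤ t → t < 1 → 0 ≤ gc t) ∧
      ∀ t, 0 ≤ t → t < 1 → 0 ≤ gs t))
    (h : PairOK (∑ i ∈ C, x i) ar lam Vc gc dl Vs gs An Ad)
    (A : V → V → Prop) [DecidableRel A] (hirr : ∀ i, ¬ A i i) :
    ∑ i, ∑ j, (if A i j then P i i + P j j + 2 * P i j - 1 else 0) ≤ (k : ℝ) ^ 2 + k := by
  classical
  set a : ℝ := ∑ i ∈ C, x i with ha
  have hxc : ∀ i ∈ C, P i i = 1 - x i := by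
    intro i hi; rw [hx i, if_pos hi]; ring
  have hxs : ∀ i, i ∉ C → P i i = x i := by
    intro i hi; rw [hx i, if_neg hi]
  have hd0 : ∀ i, 0 ≤ P i i := fun i => Pool.Agent.Y339.SB.diag_nonneg hs hid i
  have hd1 : ∀ i, P i i ≤ 1 := fun i => Pool.Agent.Y339.SB.diag_le_one hs hid i
  have hx0 : ∀ i, 0 ≤ x i := by
    intro i
    rw [hx i]
    split_ifs
    · linarith [hd1 i]
    · exact hd0 i
  have ha' : ∑ i ∈ Cᶜ, x i = a := by
    have h := htr
    rw [← Finset.sum_add_sum_compl C, Finset.sum_congr rfl hxc,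
      Finset.sum_congr rfl (fun i hi => hxs i (Finset.mem_compl.1 hi)),
      Finset.sum_sub_distrib, Finset.sum_const, nsmul_eq_mul, mul_one, hk] at h
    linarith
  -- `x i < 1`
  have hlt : ∀ i, x i < 1 := by
    intro i
    by_cases hi : i ∈ C
    · by_contra hc
      have h1 : P i i ≤ 0 := by rw [hxc i hi]; linarith
      have h2 : ∑ j ∈ Cᶜ, x j = 0 := by
        refine Finset.sum_eq_zero fun j hj => ?_
        have hj' := Finset.mem_compl.1 hj
        have h3 := htop i hi j hj'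
        have h4 := hd0 j
        rw [← hxs j hj']
        linarith
      rw [ha'] at h2
      exact absurd h2 hpos.ne'
    · by_contra hc
      have h1 : 1 ≤ P i i := by rw [hxs i hi]; linarith
      have h2 : ∑ j ∈ C, x j = 0 := by
        refine Finset.sum_eq_zero fun j hj => ?_
        have h3 := htop j hj i hi
        have h4 := hd1 j
        have h5 := hxc j hj
        linarith
      exact absurd h2 hpos.ne'
  have hle1 : ∀ i, x i ≤ a := by
    intro i
    by_cases hi : i ∈ C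
    · exact Finset.single_le_sum (f := x) (fun j _ => hx0 j) hi
    · rw [← ha']
      exact Finset.single_le_sum (f := x) (fun j _ => hx0 j) (Finset.mem_compl.2 hi)
  have hle2 : ∀ (S : Finset V) (i j : V), i ∈ S → j ∈ S → i ≠ j → x i + x j ≤ ∑ l ∈ S, x l := by
    intro S i j hi hj hij
    rw [← Finset.sum_pair hij]
    refine Finset.sum_le_sum_of_subset_of_nonneg ?_ fun l _ _ => hx0 l
    intro l hl
    rw [Finset.mem_insert, Finset.mem_singleton] at hl
    rcases hl with rfl | rfl <;> assumption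
  -- all pairs
  have key : ∀ i j, i ≠ j → 0 ≤ pairE P C x (cB ar lam gc dl gs An Ad C x) (cg gc gs C x)
      (cv Vc Vs C x) (fun _ => 0) (cγ ar lam Vc gc dl Vs gs An Ad C x) i j ∧
      P i i + P j j + 2 * P i j - 1 ≤ pairE P C x (cB ar lam gc dl gs An Ad C x) (cg gc gs C x)
      (cv Vc Vs C x) (fun _ => 0) (cγ ar lam Vc gc dl Vs gs An Ad C x) i j := by
    -- two indices in `C`, ordered
    have kcc : ∀ i j, i ∈ C → j ∈ C → i ≠ j → x j ≤ x i → 0 ≤ pairE P C x
        (cB ar lam gc dl gs An Ad C x) (cg gc gs C x)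
        (cv Vc Vs C x) (fun _ => 0) (cγ ar lam Vc gc dl Vs gs An Ad C x) i j ∧
        P i i + P j j + 2 * P i j - 1 ≤ pairE P C x (cB ar lam gc dl gs An Ad C x) (cg gc gs C x)
        (cv Vc Vs C x) (fun _ => 0) (cγ ar lam Vc gc dl Vs gs An Ad C x) i j := by
      intro i j hi hj hij hle
      rcases (hx0 j).eq_or_lt with h0 | h0
      · have hP : P j i = 0 := Pool.Agent.Y339.SB.off_zero hs hid hij.symm
          (by rw [hxc j hj, ← h0, sub_zero])
        rw [pairE_symm hs, pairE_zero C x ar lam Vc gc dl Vs gs An Ad hj h0.symm hP, if_pos hi,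
          hxc i hi, hxc j hj, hs i j, hP, ← h0]
        constructor <;> linarith [hlt i]
      · rw [pairE_cc C x ar lam Vc gc dl Vs gs An Ad hi hj (hlt i) (hlt j)]
        have h1 := a1_cs hs hid i j
        have h2 := a1_cs' hs hid hij
        rw [hxc i hi, hxc j hj] at h1 h2
        have h3 := h.cc (x i) (x j) (P i j) h0 hle (hlt i) (hle2 C i j hi hj hij)
          (by linarith [h2]) h1
        rw [hxc i hi, hxc j hj]
        exact ⟨h3.1, by linarith [h3.2]⟩
    have kcs : ∀ i j, i ∈ C → j ∉ C → 0 ≤ pairE P C x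
        (cB ar lam gc dl gs An Ad C x) (cg gc gs C x)
        (cv Vc Vs C x) (fun _ => 0) (cγ ar lam Vc gc dl Vs gs An Ad C x) i j ∧
        P i i + P j j + 2 * P i j - 1 ≤ pairE P C x (cB ar lam gc dl gs An Ad C x) (cg gc gs C x)
        (cv Vc Vs C x) (fun _ => 0) (cγ ar lam Vc gc dl Vs gs An Ad C x) i j := by
      intro i j hi hj
      have hij : i ≠ j := by rintro rfl; exact hj hi
      rcases (hx0 i).eq_or_lt with h0 | h0
      · have hP : P i j = 0 := Pool.Agent.Y339.SB.off_zero hs hid hij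
          (by rw [hxc i hi, ← h0, sub_zero])
        rw [pairE_zero C x ar lam Vc gc dl Vs gs An Ad hi h0.symm hP, if_neg hj,
          hxc i hi, hxs j hj, hP, ← h0]
        constructor <;> linarith [hx0 j]
      · rw [pairE_cs C x ar lam Vc gc dl Vs gs An Ad hi hj]
        have h1 := a1_cs hs hid i j
        have h2 := a1_cs' hs hid hij
        have h4 := htop i hi j hj
        rw [hxc i hi, hxs j hj] at h1 h2 h4
        have h3 := h.cs (x i) (x j) (P i j) h0 (hlt i) (hle1 i) (hx0 j) (hlt j) (hle1 j) h4 h1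
          (by linarith [h2])
        rw [hxc i hi, hxs j hj]
        exact ⟨h3.1, by linarith [h3.2]⟩
    have kss : ∀ i j, i ∉ C → j ∉ C → i ≠ j → x j ≤ x i → 0 ≤ pairE P C x
        (cB ar lam gc dl gs An Ad C x) (cg gc gs C x)
        (cv Vc Vs C x) (fun _ => 0) (cγ ar lam Vc gc dl Vs gs An Ad C x) i j ∧
        P i i + P j j + 2 * P i j - 1 ≤ pairE P C x (cB ar lam gc dl gs An Ad C x) (cg gc gs C x)
        (cv Vc Vs C x) (fun _ => 0) (cγ ar lam Vc gc dl Vs gs An Ad C x) i j := by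
      intro i j hi hj hij hle
      rw [pairE_ss C x ar lam Vc gc dl Vs gs An Ad hi hj]
      have h1 := a1_cs hs hid i j
      have h2 := a1_cs' hs hid hij
      rw [hxs i hi, hxs j hj] at h1 h2
      have h5 := hle2 Cᶜ i j (Finset.mem_compl.2 hi) (Finset.mem_compl.2 hj) hij
      rw [ha'] at h5
      have h3 := h.ss (x i) (x j) (P i j) (hx0 j) hle (hlt i) h5 h1 h2
      rw [hxs i hi, hxs j hj]
      exact ⟨h3.1, by linarith [h3.2]⟩
    intro i j hij
    by_cases hi : i ∈ C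
    · by_cases hj : j ∈ C
      · rcases le_total (x j) (x i) with hle | hle
        · exact kcc i j hi hj hij hle
        · have h3 := kcc j i hj hi hij.symm hle
          rw [pairE_symm hs, hs i j]
          exact ⟨h3.1, by linarith [h3.2]⟩
      · exact kcs i j hi hj
    · by_cases hj : j ∈ C
      · have h3 := kcs j i hj hi
        rw [pairE_symm hs, hs i j]
        exact ⟨h3.1, by linarith [h3.2]⟩
      · rcases le_total (x j) (x i) with hle | hle
        · exact kss i j hi hj hij hle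
        · have h3 := kss j i hj hi hij.symm hle
          rw [pairE_symm hs, hs i j]
          exact ⟨h3.1, by linarith [h3.2]⟩
  refine cert_bound hs hid C k hk htr x hx ar lam (cB ar lam gc dl gs An Ad C x) (cg gc gs C x)
    (cv Vc Vs C x) (fun _ => 0) (cγ ar lam Vc gc dl Vs gs An Ad C x) ?_ ?_ ?_ A hirr
    (fun i j hij => (key i j hij).2) (fun i j hij => (key i j hij).1)
  · rcases har with h1 | ⟨h1, h2, h3⟩
    · exact Or.inl h1
    · refine Or.inr ⟨h1, fun i => ?_⟩
      unfold cg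
      split_ifs
      · exact h2 _ (hx0 i) (hlt i)
      · exact h3 _ (hx0 i) (hlt i)
  · intro i hi
    have h1 : 0 < 1 - x i := by linarith [hlt i]
    unfold cγ cv cB cg
    simp only [if_pos hi]
    rcases (hx0 i).eq_or_lt with h0 | h0
    · rw [← h0]
      ring_nf
      norm_num
    · have h2 : (Real.sqrt (1 - x i) * Vc (x i)) ^ 2 = (1 - x i) * Vc (x i) ^ 2 := by
        rw [mul_pow, Real.sq_sqrt h1.le]
      rw [h2]
      apply le_of_eq
      field_simp
      ring
  · intro i hi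
    have h1 : 0 < 1 - x i := by linarith [hlt i]
    unfold cγ cv cB cg
    simp only [if_neg hi]
    have h2 : (Real.sqrt (x i) * Vs (x i)) ^ 2 = x i * Vs (x i) ^ 2 := by
      rw [mul_pow, Real.sq_sqrt (hx0 i)]
    rw [h2]
    apply le_of_eq
    ring

end Pool.Agent.T2H40.BR
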