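import Pool.Agent.T2H40.BR.Pkg.A1

/-!
# Package A1D: from the pair inequalities on a restricted domain to the bound

As `bound_of_pairs` (A1); the pair inequalities are needed only for `x i <= X` (`i` in `C`) and
`x i <= R` (`i` not in `C`).
-/

set_option autoImplicit false
set_option linter.unusedSectionVars false

open Finset

namespace Pool.Agent.T2H40.BR

/-- pair inequalities for `x <= X`, `r <= R`, with resource `ar` -/
structure PairOKD (ar lam X R : ℝ) (Vc gc dl Vs gs An Ad : ℝ → ℝ) : Prop where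
  ad : ∀ r, 0 ≤ r → r < 1 → r ≤ R → 0 < Ad r
  cc : ∀ x y q, 0 < y → y ≤ x → x < 1 → x ≤ X → q ^ 2 ≤ x * y → q ^ 2 ≤ (1 - x) * (1 - y) →
    0 ≤ ECC ar lam x y q (Vc x) (Vc y) (gc x) (gc y) (dl x) (dl y) ∧
    1 - x - y + 2 * q ≤ ECC ar lam x y q (Vc x) (Vc y) (gc x) (gc y) (dl x) (dl y)
  cs : ∀ x r q, 0 < x → x < 1 → x ≤ X → 0 ≤ r → r < 1 → r ≤ R → r ≤ 1 - x →
    q ^ 2 ≤ (1 - x) * r → q ^ 2 ≤ x * (1 - r) →
    0 ≤ ECS ar x r q (Vc x) (Vs r) (gc x) (gs r) (dl x) (An r) (Ad r) ∧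
    r - x + 2 * q ≤ ECS ar x r q (Vc x) (Vs r) (gc x) (gs r) (dl x) (An r) (Ad r)
  ss : ∀ r s q, 0 ≤ s → s ≤ r → r < 1 → r ≤ R → q ^ 2 ≤ r * s → q ^ 2 ≤ (1 - r) * (1 - s) →
    0 ≤ ESS ar lam r s q (Vs r) (Vs s) (gs r) (gs s) (An r) (Ad r) (An s) (Ad s) ∧
    r + s + 2 * q - 1 ≤ ESS ar lam r s q (Vs r) (Vs s) (gs r) (gs s) (An r) (Ad r) (An s) (Ad s)

variable {V : Type*} [Fintype V] [DecidableEq V]

theorem bound_of_pairsD {P : V → V → ℝ} (hs : ∀ i j, P i j = P j i)
    (hid : ∀ i j, ∑ l, P i l * P l j = P i j) (C : Finset V) (k : ℕ) (hk : C.card = k)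
    (htr : ∑ i, P i i = (k : ℝ)) (x : V → ℝ)
    (hx : ∀ i, x i = if i ∈ C then 1 - P i i else P i i)
    (htop : ∀ i ∈ C, ∀ j, j ∉ C → P j j ≤ P i i)
    (hpos : 0 < ∑ i ∈ C, x i) {X R : ℝ}
    (hX : ∀ i ∈ C, x i ≤ X) (hR : ∀ i, i ∉ C → x i ≤ R)
    (ar lam : ℝ) (Vc gc dl Vs gs An Ad : ℝ → ℝ)
    (har : ar ≤ ∑ i ∈ C, x i)
    (hgc : ∀ t, 0 ≤ t → t < 1 → t ≤ X → 0 ≤ gc t)
    (hgs : ∀ t, 0 ≤ t → t < 1 → t ≤ R → 0 ≤ gs t)
    (h : PairOKD ar lam X R Vc gc dl Vs gs An Ad)
    (A : V → V → Prop) [DecidableRel A] (hirr : ∀ i, ¬ A i i) :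
    ∑ i, ∑ j, (if A i j then P i i + P j j + 2 * P i j - 1 else 0) ≤ (k : ℝ) ^ 2 + k := by
  classical
  set a : ℝ := ∑ i ∈ C, x i with ha
  have hxc : ∀ i ∈ C, P i i = 1 - x i := by
    intro i hi; rw [hx i, if_pos hi]; ring
  have hxs : ∀ i, i ∉ C → P i i = x i := by
    intro i hi; rw [hx i, if_neg hi]
  have hd0 : ∀ i, 0 ≤ P i i := fun i => Pool.Agent.Y339.SB.diag_nonneg hs hid i
  have hd1 : ∀ i, P i i ≤ 1 := fun i => Pool.Agent.Y339.SB.diag_le_one hs hid i
  have hx0 : ∀ i, 0 ≤ x i := by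
    intro i
    rw [hx i]
    split_ifs
    · linarith [hd1 i]
    · exact hd0 i
  have ha' : ∑ i ∈ Cᶜ, x i = a := by
    have h := htr
    rw [← Finset.sum_add_sum_compl C, Finset.sum_congr rfl hxc,
      Finset.sum_congr rfl (fun i hi => hxs i (Finset.mem_compl.1 hi)),
      Finset.sum_sub_distrib, Finset.sum_const, nsmul_eq_mul, mul_one, hk] at h
    linarith
  -- `x i < 1`
  have hlt : ∀ i, x i < 1 := by
    intro i
    by_cases hi : i ∈ C
    · by_contra hc
      have h1 : P i i ≤ 0 := by rw [hxc i hi]; linarith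
      have h2 : ∑ j ∈ Cᶜ, x j = 0 := by
        refine Finset.sum_eq_zero fun j hj => ?_
        have hj' := Finset.mem_compl.1 hj
        have h3 := htop i hi j hj'
        have h4 := hd0 j
        rw [← hxs j hj']
        linarith
      rw [ha'] at h2
      exact absurd h2 hpos.ne'
    · by_contra hc
      have h1 : 1 ≤ P i i := by rw [hxs i hi]; linarith
      have h2 : ∑ j ∈ C, x j = 0 := by
        refine Finset.sum_eq_zero fun j hj => ?_
        have h3 := htop j hj i hi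
        have h4 := hd1 j
        have h5 := hxc j hj
        linarith
      exact absurd h2 hpos.ne'
  have hle1 : ∀ i, x i ≤ a := by
    intro i
    by_cases hi : i ∈ C
    · exact Finset.single_le_sum (f := x) (fun j _ => hx0 j) hi
    · rw [← ha']
      exact Finset.single_le_sum (f := x) (fun j _ => hx0 j) (Finset.mem_compl.2 hi)
  have hle2 : ∀ (S : Finset V) (i j : V), i ∈ S → j ∈ S → i ≠ j → x i + x j ≤ ∑ l ∈ S, x l := by
    intro S i j hi hj hij
    rw [← Finset.sum_pair hij]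
    refine Finset.sum_le_sum_of_subset_of_nonneg ?_ fun l _ _ => hx0 l
    intro l hl
    rw [Finset.mem_insert, Finset.mem_singleton] at hl
    rcases hl with rfl | rfl <;> assumption
  -- all pairs
  have key : ∀ i j, i ≠ j → 0 ≤ pairE P C x (cB ar lam gc dl gs An Ad C x) (cg gc gs C x)
      (cv Vc Vs C x) (fun _ => 0) (cγ ar lam Vc gc dl Vs gs An Ad C x) i j ∧
      P i i + P j j + 2 * P i j - 1 ≤ pairE P C x (cB ar lam gc dl gs An Ad C x) (cg gc gs C x)
      (cv Vc Vs C x) (fun _ => 0) (cγ ar lam Vc gc dl Vs gs An Ad C x) i j := by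
    -- two indices in `C`, ordered
    have kcc : ∀ i j, i ∈ C → j ∈ C → i ≠ j → x j ≤ x i → 0 ≤ pairE P C x
        (cB ar lam gc dl gs An Ad C x) (cg gc gs C x)
        (cv Vc Vs C x) (fun _ => 0) (cγ ar lam Vc gc dl Vs gs An Ad C x) i j ∧
        P i i + P j j + 2 * P i j - 1 ≤ pairE P C x (cB ar lam gc dl gs An Ad C x) (cg gc gs C x)
        (cv Vc Vs C x) (fun _ => 0) (cγ ar lam Vc gc dl Vs gs An Ad C x) i j := by
      intro i j hi hj hij hle
      rcases (hx0 j).eq_or_lt with h0 | h0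
      · have hP : P j i = 0 := Pool.Agent.Y339.SB.off_zero hs hid hij.symm
          (by rw [hxc j hj, ← h0, sub_zero])
        rw [pairE_symm hs, pairE_zero C x ar lam Vc gc dl Vs gs An Ad hj h0.symm hP, if_pos hi,
          hxc i hi, hxc j hj, hs i j, hP, ← h0]
        constructor <;> linarith [hlt i]
      · rw [pairE_cc C x ar lam Vc gc dl Vs gs An Ad hi hj (hlt i) (hlt j)]
        have h1 := a1_cs hs hid i j
        have h2 := a1_cs' hs hid hij
        rw [hxc i hi, hxc j hj] at h1 h2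
        have h3 := h.cc (x i) (x j) (P i j) h0 hle (hlt i) (hX i hi)
          (by linarith [h2]) h1
        rw [hxc i hi, hxc j hj]
        exact ⟨h3.1, by linarith [h3.2]⟩
    have kcs : ∀ i j, i ∈ C → j ∉ C → 0 ≤ pairE P C x
        (cB ar lam gc dl gs An Ad C x) (cg gc gs C x)
        (cv Vc Vs C x) (fun _ => 0) (cγ ar lam Vc gc dl Vs gs An Ad C x) i j ∧
        P i i + P j j + 2 * P i j - 1 ≤ pairE P C x (cB ar lam gc dl gs An Ad C x) (cg gc gs C x)
        (cv Vc Vs C x) (fun _ => 0) (cγ ar lam Vc gc dl Vs gs An Ad C x) i j := by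
      intro i j hi hj
      have hij : i ≠ j := by rintro rfl; exact hj hi
      rcases (hx0 i).eq_or_lt with h0 | h0
      · have hP : P i j = 0 := Pool.Agent.Y339.SB.off_zero hs hid hij
          (by rw [hxc i hi, ← h0, sub_zero])
        rw [pairE_zero C x ar lam Vc gc dl Vs gs An Ad hi h0.symm hP, if_neg hj,
          hxc i hi, hxs j hj, hP, ← h0]
        constructor <;> linarith [hx0 j]
      · rw [pairE_cs C x ar lam Vc gc dl Vs gs An Ad hi hj]
        have h1 := a1_cs hs hid i j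
        have h2 := a1_cs' hs hid hij
        have h4 := htop i hi j hj
        rw [hxc i hi, hxs j hj] at h1 h2 h4
        have h3 := h.cs (x i) (x j) (P i j) h0 (hlt i) (hX i hi) (hx0 j) (hlt j) (hR j hj) h4 h1
          (by linarith [h2])
        rw [hxc i hi, hxs j hj]
        exact ⟨h3.1, by linarith [h3.2]⟩
    have kss : ∀ i j, i ∉ C → j ∉ C → i ≠ j → x j ≤ x i → 0 ≤ pairE P C x
        (cB ar lam gc dl gs An Ad C x) (cg gc gs C x)
        (cv Vc Vs C x) (fun _ => 0) (cγ ar lam Vc gc dl Vs gs An Ad C x) i j ∧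
        P i i + P j j + 2 * P i j - 1 ≤ pairE P C x (cB ar lam gc dl gs An Ad C x) (cg gc gs C x)
        (cv Vc Vs C x) (fun _ => 0) (cγ ar lam Vc gc dl Vs gs An Ad C x) i j := by
      intro i j hi hj hij hle
      rw [pairE_ss C x ar lam Vc gc dl Vs gs An Ad hi hj]
      have h1 := a1_cs hs hid i j
      have h2 := a1_cs' hs hid hij
      rw [hxs i hi, hxs j hj] at h1 h2
      have h3 := h.ss (x i) (x j) (P i j) (hx0 j) hle (hlt i) (hR i hi) h1 h2
      rw [hxs i hi, hxs j hj]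
      exact ⟨h3.1, by linarith [h3.2]⟩
    intro i j hij
    by_cases hi : i ∈ C
    · by_cases hj : j ∈ C
      · rcases le_total (x j) (x i) with hle | hle
        · exact kcc i j hi hj hij hle
        · have h3 := kcc j i hj hi hij.symm hle
          rw [pairE_symm hs, hs i j]
          exact ⟨h3.1, by linarith [h3.2]⟩
      · exact kcs i j hi hj
    · by_cases hj : j ∈ C
      · have h3 := kcs j i hj hi
        rw [pairE_symm hs, hs i j]
        exact ⟨h3.1, by linarith [h3.2]⟩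
      · rcases le_total (x j) (x i) with hle | hle
        · exact kss i j hi hj hij hle
        · have h3 := kss j i hj hi hij.symm hle
          rw [pairE_symm hs, hs i j]
          exact ⟨h3.1, by linarith [h3.2]⟩
  refine cert_bound hs hid C k hk htr x hx ar lam (cB ar lam gc dl gs An Ad C x) (cg gc gs C x)
    (cv Vc Vs C x) (fun _ => 0) (cγ ar lam Vc gc dl Vs gs An Ad C x) ?_ ?_ ?_ A hirr
    (fun i j hij => (key i j hij).2) (fun i j hij => (key i j hij).1)
  · refine Or.inr ⟨har, fun i => ?_⟩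
    unfold cg
    split_ifs with hi
    · exact hgc _ (hx0 i) (hlt i) (hX i hi)
    · exact hgs _ (hx0 i) (hlt i) (hR i hi)
  · intro i hi
    have h1 : 0 < 1 - x i := by linarith [hlt i]
    unfold cγ cv cB cg
    simp only [if_pos hi]
    rcases (hx0 i).eq_or_lt with h0 | h0
    · rw [← h0]
      ring_nf
      norm_num
    · have h2 : (Real.sqrt (1 - x i) * Vc (x i)) ^ 2 = (1 - x i) * Vc (x i) ^ 2 := by
        rw [mul_pow, Real.sq_sqrt h1.le]
      rw [h2]
      apply le_of_eq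
      field_simp
      ring
  · intro i hi
    have h1 : 0 < 1 - x i := by linarith [hlt i]
    unfold cγ cv cB cg
    simp only [if_neg hi]
    have h2 : (Real.sqrt (x i) * Vs (x i)) ^ 2 = x i * Vs (x i) ^ 2 := by
      rw [mul_pow, Real.sq_sqrt (hx0 i)]
    rw [h2]
    apply le_of_eq
    ring

end Pool.Agent.T2H40.BR
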