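import Pool.Agent.Y339.SB.Spec
import Pool.Statements.S10051

/-!
# Package A2: choice of the set `C` and the frozen statement
-/

set_option autoImplicit false

open Finset

namespace Pool.Agent.T2H40.BR

/-- a set of the `k` largest values -/
theorem exists_top {V : Type*} [Fintype V] [DecidableEq V] (p : V → ℝ) (k : ℕ)
    (hk : k ≤ Fintype.card V) :
    ∃ C : Finset V, C.card = k ∧ ∀ i ∈ C, ∀ j, j ∉ C → p j ≤ p i := by
  induction k with
  | zero => exact ⟨∅, rfl, fun i hi => absurd hi (Finset.notMem_empty i)⟩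
  | succ k ih =>
    obtain ⟨C, hC, h⟩ := ih (by omega)
    have hne : (Cᶜ).Nonempty := by
      rw [← Finset.card_pos, Finset.card_compl]
      omega
    obtain ⟨m, hm, hmax⟩ := Finset.exists_max_image Cᶜ p hne
    rw [Finset.mem_compl] at hm
    refine ⟨insert m C, by rw [Finset.card_insert_of_notMem hm, hC], ?_⟩
    intro i hi j hj
    rw [Finset.mem_insert, not_or] at hj
    rcases Finset.mem_insert.1 hi with rfl | hi
    · exact hmax j (Finset.mem_compl.2 hj.2)
    · exact h i hi j hj.2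

theorem final_of_bound
    (H : ∀ (V : Type) [Fintype V] [DecidableEq V] (P : V → V → ℝ) (_ : ∀ i j, P i j = P j i)
      (_ : ∀ i j, ∑ l, P i l * P l j = P i j) (C : Finset V) (k : ℕ) (_ : C.card = k)
      (_ : ∑ i, P i i = (k : ℝ)) (_ : ∀ i ∈ C, ∀ j, j ∉ C → P j j ≤ P i i)
      (A : V → V → Prop) [DecidableRel A] (_ : ∀ i, ¬ A i i),
      ∑ i, ∑ j, (if A i j then P i i + P j j + 2 * P i j - 1 else 0) ≤ (k : ℝ) ^ 2 + k) :
    ∀ (V : Type) [Fintype V] [DecidableEq V] (G : SimpleGraph V) [DecidableRel G.Adj]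
      (hQ : (G.degMatrix ℝ + G.adjMatrix ℝ).IsHermitian) (s : Finset V),
      ∑ i ∈ s, hQ.eigenvalues i
        ≤ (G.edgeFinset.card : ℝ) + (s.card : ℝ) * ((s.card : ℝ) + 1) / 2 := by
  intro V _ _ G _ hQ s
  obtain ⟨C, hC, htop⟩ := exists_top (fun i => Y339.SB.proj hQ s i i) s.card
    (Finset.card_le_univ s)
  have h1 := H V (Y339.SB.proj hQ s) (Y339.SB.proj_symm hQ s) (Y339.SB.proj_idem hQ s) C s.card hC
    (Y339.SB.proj_trace hQ s) htop G.Adj (fun i => G.loopless.irrefl i)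
  have h2 := Y339.SB.two_sum_eig G hQ s
  have h3 : (s.card : ℝ) ^ 2 + s.card = (s.card : ℝ) * ((s.card : ℝ) + 1) := by ring
  linarith

end Pool.Agent.T2H40.BR
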