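import Pool.Agent.T2H40.BR.Pkg.K2

/-!
# Package H1: polynomial inequalities (verified with the checker)
-/

set_option autoImplicit false

namespace Pool.Agent.T2H40.BR

namespace H1

theorem ev_add (v : Fin 3 → ℝ) (a b : Ex) : (a + b).ev v = a.ev v + b.ev v := rfl
theorem ev_sub (v : Fin 3 → ℝ) (a b : Ex) : (a - b).ev v = a.ev v - b.ev v := rfl
theorem ev_mul (v : Fin 3 → ℝ) (a b : Ex) : (a * b).ev v = a.ev v * b.ev v := rfl
theorem ev_cst (v : Fin 3 → ℝ) (n : ℤ) : (Ex.cst n).ev v = (n : ℝ) / 3000 := rfl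
theorem ev_int (v : Fin 3 → ℝ) (n : ℤ) : (Ex.int n).ev v = (n : ℝ) := rfl
theorem ev_var (v : Fin 3 → ℝ) (i : Fin 3) : (Ex.var i).ev v = v i := rfl

/-- `ψ` -/
noncomputable def ps (t : ℝ) : ℝ := 1 - 87 / 100 * t
/-- `χ` -/
noncomputable def ch (t : ℝ) : ℝ := (1 - t) * (ps t) ^ 2
/-- `β` -/
noncomputable def be (t : ℝ) : ℝ := 57 / 100 - 92 / 100 * t
/-- `w` -/
noncomputable def ww (t : ℝ) : ℝ := 32 / 100 - 92 / 100 * t

def psE (t : Ex) : Ex := .int 1 - .cst 2610 * t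
def chE (t : Ex) : Ex := (.int 1 - t) * (psE t * psE t)
def beE (t : Ex) : Ex := .cst 1710 - .cst 2760 * t
def wwE (t : Ex) : Ex := .cst 960 - .cst 2760 * t

theorem ev_ps (v : Fin 3 → ℝ) (t : Ex) : (psE t).ev v = ps (t.ev v) := by
  simp only [psE, ps, ev_sub, ev_mul, ev_int, ev_cst]; push_cast; ring
theorem ev_ch (v : Fin 3 → ℝ) (t : Ex) : (chE t).ev v = ch (t.ev v) := by
  simp only [chE, ch, ev_sub, ev_mul, ev_int, ev_ps]; push_cast; ring
theorem ev_be (v : Fin 3 → ℝ) (t : Ex) : (beE t).ev v = be (t.ev v) := by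
  simp only [beE, be, ev_sub, ev_mul, ev_cst]; push_cast; ring
theorem ev_ww (v : Fin 3 → ℝ) (t : Ex) : (wwE t).ev v = ww (t.ev v) := by
  simp only [wwE, ww, ev_sub, ev_mul, ev_cst]; push_cast; ring

def par : Par := ⟨600, 16, 16, 1⟩

theorem run (E : Ex) (T : Tree) (B : Box) (h : check par [[E]] T B = true) (v : Fin 3 → ℝ)
    (hv : B.mem v) : 0 ≤ E.ev v := by
  obtain ⟨es, hes, h⟩ := check_sound par [[E]] T B h v hv
  rw [List.mem_singleton] at hes
  subst hes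
  exact h E (List.mem_singleton.2 rfl)

/-! ### `P_k` -/

def exK : Ex :=
  (.int 2 * chE (.var 0) - wwE (.var 0) * (.var 0 - .var 1)) * (.int 1 - .var 1)
    - beE (.var 1) * (.var 0 + .var 1)

theorem pk {e x : ℝ} (h0 : 0 ≤ e) (h1 : e ≤ 1 / 2) (h2 : 0 ≤ x) (h3 : x ≤ 1 / 2) :
    0 ≤ (2 * ch e - ww e * (e - x)) * (1 - x) - be x * (e + x) := by
  have h := run exK (.n1 750 (.leaf 0) (.n1 1125 (.leaf 0) (.leaf 0))) ⟨0, 1500, 0, 1500, 0, 3000⟩
    (by decide +kernel) ![e, x, 0] (by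
      simp only [Box.mem, Matrix.cons_val_zero, Matrix.cons_val_one, Matrix.cons_val]
      refine ⟨?_, ?_, ?_, ?_, ?_, ?_⟩ <;> push_cast <;> linarith)
  simp only [exK, ev_sub, ev_mul, ev_add, ev_int, ev_ch, ev_ww, ev_be, ev_var,
    Matrix.cons_val_zero, Matrix.cons_val_one] at h
  push_cast at h
  exact h

/-! ### `P_A`: `x = t e` -/

def cdE (e t : Ex) : Ex :=
  .int 0 - (.int 1 + .cst 5220) + (.cst 5220 + .cst 2610 * .cst 2610 * .int 1) * e * (.int 1 + t)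
    - .cst 2610 * .cst 2610 * e * e * (.int 1 + t + t * t)

/-- divided difference of `χ` at `e`, `t e` -/
noncomputable def cd (e t : ℝ) : ℝ :=
  -(1 + 2 * (87 / 100)) + (2 * (87 / 100) + (87 / 100) ^ 2) * e * (1 + t)
    - (87 / 100) ^ 2 * e ^ 2 * (1 + t + t ^ 2)

theorem ev_cd (v : Fin 3 → ℝ) (e t : Ex) : (cdE e t).ev v = cd (e.ev v) (t.ev v) := by
  simp only [cdE, cd, ev_sub, ev_add, ev_mul, ev_int, ev_cst]; push_cast; ring

theorem cd_spec (e t : ℝ) : ch e - ch (t * e) = (e - t * e) * cd e t := by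
  simp only [ch, ps, cd]; ring

def exA : Ex :=
  let e := Ex.var 0
  let t := Ex.var 1
  (.int 1 - e) * (.cst 5220 * psE e - .cst 2610 * .cst 2610 * (t * e)) * ((.int 1 + t) * (.int 1 + t))
    - chE e * (.int 1 - e * cdE e t) * (.int 1 + t)
    + wwE e * ((.int 1 + t) - t * e * (.int 1 - e * cdE e t)) * (.int 1 + t)
    - (chE e + t * e * wwE e) * (chE e + t * e * wwE e) * (.int 1 - t * e)

theorem pa {e t : ℝ} (h0 : 0 ≤ e) (h1 : e ≤ 1 / 2) (h2 : 0 ≤ t) (h3 : t ≤ 1) :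
    0 ≤ (1 - e) * (2 * (87 / 100) * ps e - (87 / 100) ^ 2 * (t * e)) * (1 + t) ^ 2
      - ch e * (1 - e * cd e t) * (1 + t)
      + ww e * ((1 + t) - t * e * (1 - e * cd e t)) * (1 + t)
      - (ch e + t * e * ww e) ^ 2 * (1 - t * e) := by
  have h := run exA (.leaf 0) ⟨0, 1500, 0, 3000, 0, 3000⟩
    (by decide +kernel) ![e, t, 0] (by
      simp only [Box.mem, Matrix.cons_val_zero, Matrix.cons_val_one, Matrix.cons_val]
      refine ⟨?_, ?_, ?_, ?_, ?_, ?_⟩ <;> push_cast <;> linarith)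
  simp only [exA, ev_sub, ev_mul, ev_add, ev_int, ev_cst, ev_ch, ev_ww, ev_be, ev_ps, ev_cd, ev_var,
    Matrix.cons_val_zero, Matrix.cons_val_one] at h
  push_cast at h
  refine h.trans (le_of_eq ?_)
  ring

/-! ### `P_B`: `e = t x` -/

def exB : Ex :=
  let x := Ex.var 0
  let t := Ex.var 1
  let e := t * x
  (.int 1 - e) * (.cst 5220 * psE e - .cst 2610 * .cst 2610 * x) * ((.int 1 + t) * (.int 1 + t))
    - chE e * t * (.int 1 - e * cdE x t) * (.int 1 + t)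
    + wwE e * ((.int 1 + t) - x * t * (.int 1 - e * cdE x t)) * (.int 1 + t)
    - (chE e + x * wwE e) * (chE e + x * wwE e) * (.int 1 - x) * (t * t)

theorem pb {x t : ℝ} (h0 : 0 ≤ x) (h1 : x ≤ 1 / 2) (h2 : 0 ≤ t) (h3 : t ≤ 1) :
    0 ≤ (1 - t * x) * (2 * (87 / 100) * ps (t * x) - (87 / 100) ^ 2 * x) * (1 + t) ^ 2
      - ch (t * x) * t * (1 - t * x * cd x t) * (1 + t)
      + ww (t * x) * ((1 + t) - x * t * (1 - t * x * cd x t)) * (1 + t)
      - (ch (t * x) + x * ww (t * x)) ^ 2 * (1 - x) * t ^ 2 := by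
  have h := run exB (.leaf 0) ⟨0, 1500, 0, 3000, 0, 3000⟩
    (by decide +kernel) ![x, t, 0] (by
      simp only [Box.mem, Matrix.cons_val_zero, Matrix.cons_val_one, Matrix.cons_val]
      refine ⟨?_, ?_, ?_, ?_, ?_, ?_⟩ <;> push_cast <;> linarith)
  simp only [exB, ev_sub, ev_mul, ev_add, ev_int, ev_cst, ev_ch, ev_ww, ev_be, ev_ps, ev_cd, ev_var,
    Matrix.cons_val_zero, Matrix.cons_val_one] at h
  push_cast at h
  refine h.trans (le_of_eq ?_)
  ring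

/-! ### `P_E` -/

def exE : Ex :=
  let x := Ex.var 0
  let X := Ex.var 1
  (.int 1 - x * beE x - x * X) * ((.int 1 - x) * (.int 1 - x * (psE x * psE x)) + beE x * (x * x)
      - x * (.int 1 - x) * X) - x * (.int 1 - x) * (psE x * psE x) * X

theorem pe {x X : ℝ} (h0 : 0 ≤ x) (h1 : x ≤ 1 / 2) (h2 : 3 / 20 ≤ X) (h3 : X ≤ 1) :
    0 ≤ (1 - x * be x - x * X) * ((1 - x) * (1 - x * ps x ^ 2) + be x * x ^ 2
      - x * (1 - x) * X) - x * (1 - x) * ps x ^ 2 * X := by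
  have h := run exE (.leaf 0) ⟨0, 1500, 450, 3000, 0, 3000⟩
    (by decide +kernel) ![x, X, 0] (by
      simp only [Box.mem, Matrix.cons_val_zero, Matrix.cons_val_one, Matrix.cons_val]
      refine ⟨?_, ?_, ?_, ?_, ?_, ?_⟩ <;> push_cast <;> linarith)
  simp only [exE, ev_sub, ev_mul, ev_add, ev_int, ev_cst, ev_ch, ev_ww, ev_be, ev_ps, ev_cd, ev_var,
    Matrix.cons_val_zero, Matrix.cons_val_one] at h
  push_cast at h
  refine h.trans (le_of_eq ?_)
  ring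

/-! ### `P_3` -/

def exC : Ex :=
  let s := Ex.var 0
  let t := Ex.var 1
  let c := Ex.cst 2610
  let l := Ex.cst 1560
  let bb := Ex.cst 3420 - Ex.cst 2760 * s
  let D := .int 1 - s + s * s * t
  let L := .int 1 + c - c * s - c * c * s * t * (.int 1 - s)
  (bb + l) * (D - s * t * ((.int 2 - .int 2 * c * s + c * c * s * s * (.int 1 - .int 2 * t) + l) * D
      - s * (.cst 1710 - .cst 2760 * s * (.int 1 - .int 2 * t) - s * t * bb)))
    - s * (L * L) * D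

theorem p3 {s t : ℝ} (h0 : 0 ≤ s) (h1 : s ≤ 1 / 2) (h2 : 0 ≤ t) (h3 : t ≤ 1 / 4) :
    0 ≤ (114 / 100 - 92 / 100 * s + 52 / 100) * ((1 - s + s ^ 2 * t) -
      s * t * ((2 - 2 * (87 / 100) * s + (87 / 100) ^ 2 * s ^ 2 * (1 - 2 * t) + 52 / 100)
        * (1 - s + s ^ 2 * t) - s * (57 / 100 - 92 / 100 * s * (1 - 2 * t)
          - s * t * (114 / 100 - 92 / 100 * s))))
    - s * (1 + 87 / 100 - 87 / 100 * s - (87 / 100) ^ 2 * s * t * (1 - s)) ^ 2
      * (1 - s + s ^ 2 * t) := by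
  have h := run exC (.leaf 0) ⟨0, 1500, 0, 750, 0, 3000⟩
    (by decide +kernel) ![s, t, 0] (by
      simp only [Box.mem, Matrix.cons_val_zero, Matrix.cons_val_one, Matrix.cons_val]
      refine ⟨?_, ?_, ?_, ?_, ?_, ?_⟩ <;> push_cast <;> linarith)
  simp only [exC, ev_sub, ev_mul, ev_add, ev_int, ev_cst, ev_ch, ev_ww, ev_be, ev_ps, ev_cd, ev_var,
    Matrix.cons_val_zero, Matrix.cons_val_one] at h
  push_cast at h
  refine h.trans (le_of_eq ?_)
  ring

/-! ### the tangent line for `S`, `S` -/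

def exT : Ex :=
  let e := Ex.var 0
  (.int 1 - e) * chE e - .cst 1290 * (.int 1 - e) + .cst 2016 * e * e

theorem pt {e : ℝ} (h0 : 0 ≤ e) (h1 : e ≤ 1 / 2) :
    0 ≤ (1 - e) * ch e - 43 / 100 * (1 - e) + 672 / 1000 * e ^ 2 := by
  have h := run exT (.n0 750 (.leaf 0) (.n0 1125 (.leaf 0) (.leaf 0))) ⟨0, 1500, 0, 3000, 0, 3000⟩
    (by decide +kernel) ![e, 0, 0] (by
      simp only [Box.mem, Matrix.cons_val_zero, Matrix.cons_val_one, Matrix.cons_val]
      refine ⟨?_, ?_, ?_, ?_, ?_, ?_⟩ <;> push_cast <;> linarith)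
  simp only [exT, ev_sub, ev_mul, ev_add, ev_int, ev_cst, ev_ch, ev_ww, ev_be, ev_ps, ev_cd, ev_var,
    Matrix.cons_val_zero, Matrix.cons_val_one] at h
  push_cast at h
  refine h.trans (le_of_eq ?_)
  ring

end H1

end Pool.Agent.T2H40.BR
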