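import Pool.Agent.T2H40.BR.Defs

/-!
# Package K1: Kronecker substitution detects signs of coefficients
-/

set_option autoImplicit false

namespace Pool.Agent.T2H40.BR

namespace K1Aux

/-- bits of the geometric sum -/
lemma geom_bit (b : ℕ) (hb : 1 ≤ b) : ∀ (K k : ℕ), k < K →
    (∑ i ∈ Finset.range K, (2 ^ b) ^ i).testBit (b * k) = true := by
  intro K
  induction K with
  | zero => intro k hk; exact absurd hk (Nat.not_lt_zero k)
  | succ K ih =>
    intro k hk
    have e : ∑ i ∈ Finset.range (K + 1), (2 ^ b) ^ i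
        = 2 ^ b * (∑ i ∈ Finset.range K, (2 ^ b) ^ i) + 1 := by
      rw [Finset.sum_range_succ', Finset.mul_sum]
      simp [pow_succ, mul_comm]
    rw [e]
    cases k with
    | zero =>
      rw [Nat.mul_zero, Nat.testBit_zero, decide_eq_true_iff]
      have : 2 ∣ 2 ^ b := dvd_pow_self 2 (by omega)
      obtain ⟨c, hc⟩ := this
      rw [hc, mul_assoc]
      omega
    | succ k =>
      have h1 : b * (k + 1) = b * k + b := by ring
      rw [h1, Nat.testBit_add, Nat.mul_add_div (by positivity)]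
      have h2 : 1 / 2 ^ b = 0 := Nat.div_eq_of_lt (Nat.one_lt_two_pow (by omega))
      rw [h2, Nat.add_zero]
      exact ih k (by omega)

lemma kmask_eq (b K : ℕ) (hb : 1 ≤ b) :
    kmask b K = 2 ^ (b - 1) * ∑ i ∈ Finset.range K, (2 ^ b) ^ i := by
  unfold kmask
  have h2 : 2 ≤ 2 ^ b := by
    calc 2 = 2 ^ 1 := by norm_num
      _ ≤ 2 ^ b := Nat.pow_le_pow_right (by norm_num) hb
  rw [Nat.geomSum_eq h2, ← pow_mul]

lemma kmask_bit (b K k : ℕ) (hb : 1 ≤ b) (hk : k < K) :
    (kmask b K).testBit (b - 1 + b * k) = true := by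
  rw [kmask_eq b K hb, Nat.add_comm (b - 1) (b * k), Nat.testBit_add, Nat.mul_div_cancel_left _ (by positivity)]
  exact geom_bit b hb K k hk

lemma mask_bit (b K N : ℕ) (hb : 1 ≤ b) (hmask : Nat.land N (kmask b K) = 0) (k : ℕ) (hk : k < K) :
    N.testBit (b - 1 + b * k) = false := by
  have h := Nat.testBit_and N (kmask b K) (b - 1 + b * k)
  have h0 : N &&& kmask b K = 0 := hmask
  rw [h0, Nat.zero_testBit, kmask_bit b K k hb hk, Bool.and_true] at h
  exact h.symm

/-- digits -/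
lemma digits (b : ℕ) (hb : 1 ≤ b) : ∀ (K : ℕ) (f : ℕ → ℤ) (N : ℕ),
    (∀ k, |f k| < 2 ^ (b - 1)) → (N : ℤ) = ∑ k ∈ Finset.range K, f k * (2 ^ b) ^ k →
    (∀ k < K, N.testBit (b - 1 + b * k) = false) → ∀ k < K, 0 ≤ f k := by
  intro K
  induction K with
  | zero => intro f N _ _ _ k hk; exact absurd hk (Nat.not_lt_zero k)
  | succ K ih =>
    intro f N hf hN hbit k hk
    have hpow : (2 : ℤ) ^ b = 2 * 2 ^ (b - 1) := by
      rw [← pow_succ', Nat.sub_add_cancel hb]
    have hpowN : (2 : ℕ) ^ b = 2 * 2 ^ (b - 1) := by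
      rw [← pow_succ', Nat.sub_add_cancel hb]
    set M : ℤ := ∑ k ∈ Finset.range K, f (k + 1) * (2 ^ b) ^ k with hM
    have hN' : (N : ℤ) = f 0 + 2 ^ b * M := by
      rw [hN, Finset.sum_range_succ', hM, Finset.mul_sum, add_comm]
      congr 1
      · simp
      · refine Finset.sum_congr rfl fun k _ => ?_
        ring
    -- the last digit
    have hlt : N % 2 ^ b < 2 ^ (b - 1) := by
      have h1 := hbit 0 (Nat.succ_pos K)
      rw [Nat.mul_zero, Nat.add_zero] at h1
      have h2 : (N / 2 ^ (b - 1)) % 2 = 0 := by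
        have h3 := Nat.testBit_eq_decide_div_mod_eq (x := N) (i := b - 1)
        rw [h1] at h3
        have h4 := (decide_eq_false_iff_not.1 h3.symm)
        omega
      have h5 : N % 2 ^ b = N % 2 ^ (b - 1) + 2 ^ (b - 1) * ((N / 2 ^ (b - 1)) % 2) := by
        rw [hpowN, mul_comm 2 (2 ^ (b - 1)), Nat.mod_mul]
      rw [h5, h2, Nat.mul_zero, Nat.add_zero]
      exact Nat.mod_lt _ (by positivity)
    have hdm : (N : ℤ) = ((N % 2 ^ b : ℕ) : ℤ) + 2 ^ b * ((N / 2 ^ b : ℕ) : ℤ) := by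
      have := Nat.mod_add_div N (2 ^ b)
      exact_mod_cast this.symm
    have hlt' : ((N % 2 ^ b : ℕ) : ℤ) < 2 ^ (b - 1) := by exact_mod_cast hlt
    have hge' : (0 : ℤ) ≤ ((N % 2 ^ b : ℕ) : ℤ) := Int.natCast_nonneg _
    have hf0 := abs_lt.1 (hf 0)
    have hpos : (0 : ℤ) < 2 ^ (b - 1) := by positivity
    have hMeq : M = ((N / 2 ^ b : ℕ) : ℤ) := by
      set r : ℤ := ((N % 2 ^ b : ℕ) : ℤ) with hr
      set q : ℤ := ((N / 2 ^ b : ℕ) : ℤ) with hq
      set w : ℤ := 2 ^ (b - 1) with hw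
      have h1 : f 0 + 2 ^ b * M = r + 2 ^ b * q := by rw [← hN', hdm]
      rw [hpow] at h1
      have h2 : 2 * w * (M - q) = r - f 0 := by linarith
      have h3 : M - q < 1 := by
        by_contra h
        have h4 : 1 ≤ M - q := not_lt.1 h
        nlinarith
      have h5 : -1 < M - q := by
        by_contra h
        have h4 : M - q ≤ -1 := not_lt.1 h
        nlinarith
      omega
    have hf0' : f 0 = ((N % 2 ^ b : ℕ) : ℤ) := by
      rw [hMeq] at hN'
      linarith
    cases k with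
    | zero => rw [hf0']; exact hge'
    | succ k =>
      refine ih (fun k => f (k + 1)) (N / 2 ^ b) (fun k => hf (k + 1)) hMeq.symm ?_ k (by omega)
      intro l hl
      have h1 := hbit (l + 1) (by omega)
      have h2 : b - 1 + b * (l + 1) = b - 1 + b * l + b := by ring
      rw [h2, Nat.testBit_add] at h1
      exact h1

end K1Aux

open K1Aux in
/-- If an integer polynomial in three variables has small degrees and small coefficients and its
value at the Kronecker point is a natural number whose base `2 ^ b` digits (the first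
`D0 * D1 * D2` of them) all have top bit zero, then all coefficients are nonnegative.
Idea: `φ m = m 0 + D0 * m 1 + D0 * D1 * m 2` is injective on the support, so the value is
`∑ k < K, f k * (2 ^ b) ^ k` with `|f k| < 2 ^ (b - 1)`, `K = D0 * D1 * D2`; peel off the digits one
by one (`N % 2 ^ b < 2 ^ (b - 1)` from the mask, so `f 0 = N % 2 ^ b`). -/
theorem kron_nonneg (b D0 D1 D2 : ℕ) (hb : 1 ≤ b) (P : MvPolynomial (Fin 3) ℤ) (N : ℕ)
    (h0 : P.degreeOf 0 < D0) (h1 : P.degreeOf 1 < D1) (h2 : P.degreeOf 2 < D2)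
    (hco : ∀ m, |P.coeff m| < 2 ^ (b - 1))
    (hev : MvPolynomial.eval
      (![(2 : ℤ) ^ b, (2 : ℤ) ^ (b * D0), (2 : ℤ) ^ (b * (D0 * D1))] : Fin 3 → ℤ) P = (N : ℤ))
    (hmask : Nat.land N (kmask b (D0 * D1 * D2)) = 0) (m : Fin 3 →₀ ℕ) : 0 ≤ P.coeff m := by
  classical
  set φ : (Fin 3 →₀ ℕ) → ℕ := fun m => m 0 + D0 * (m 1 + D1 * m 2) with hφ
  set dg : ℕ → (Fin 3 →₀ ℕ) := fun k =>
    Finsupp.equivFunOnFinite.symm ![k % D0, (k / D0) % D1, (k / D0) / D1] with hdg
  have d0 : ∀ k, dg k 0 = k % D0 := fun k => rfl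
  have d1 : ∀ k, dg k 1 = (k / D0) % D1 := fun k => rfl
  have d2 : ∀ k, dg k 2 = (k / D0) / D1 := fun k => rfl
  have hφdg : ∀ k, φ (dg k) = k := by
    intro k
    simp only [hφ, d0, d1, d2]
    rw [Nat.mod_add_div, Nat.mod_add_div]
  have hdgφ : ∀ m : Fin 3 →₀ ℕ, m 0 < D0 → m 1 < D1 → dg (φ m) = m := by
    intro m hm0 hm1
    have e0 : φ m / D0 = m 1 + D1 * m 2 := by
      simp only [hφ]
      rw [Nat.add_mul_div_left _ _ (by omega), Nat.div_eq_of_lt hm0, Nat.zero_add]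
    have e1 : φ m % D0 = m 0 := by
      simp only [hφ]
      rw [Nat.add_mul_mod_self_left, Nat.mod_eq_of_lt hm0]
    ext i
    fin_cases i
    · change dg (φ m) 0 = m 0
      rw [d0, e1]
    · change dg (φ m) 1 = m 1
      rw [d1, e0, Nat.add_mul_mod_self_left, Nat.mod_eq_of_lt hm1]
    · change dg (φ m) 2 = m 2
      rw [d2, e0, Nat.add_mul_div_left _ _ (by omega), Nat.div_eq_of_lt hm1, Nat.zero_add]
  have hsup : ∀ m ∈ P.support, m 0 < D0 ∧ m 1 < D1 ∧ m 2 < D2 := fun m hm =>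
    ⟨(MvPolynomial.monomial_le_degreeOf 0 hm).trans_lt h0,
      (MvPolynomial.monomial_le_degreeOf 1 hm).trans_lt h1,
      (MvPolynomial.monomial_le_degreeOf 2 hm).trans_lt h2⟩
  have hlt : ∀ m ∈ P.support, φ m < D0 * D1 * D2 := by
    intro m hm
    obtain ⟨a0, a1, a2⟩ := hsup m hm
    simp only [hφ]
    have b1 : m 1 + D1 * m 2 + 1 ≤ D1 * D2 := by
      calc m 1 + D1 * m 2 + 1 ≤ D1 + D1 * m 2 := by omega
        _ = D1 * (m 2 + 1) := by ring
        _ ≤ D1 * D2 := Nat.mul_le_mul_left _ a2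
    calc m 0 + D0 * (m 1 + D1 * m 2) < D0 + D0 * (m 1 + D1 * m 2) := by omega
      _ = D0 * (m 1 + D1 * m 2 + 1) := by ring
      _ ≤ D0 * (D1 * D2) := Nat.mul_le_mul_left _ b1
      _ = D0 * D1 * D2 := by ring
  have hN : (N : ℤ) = ∑ k ∈ Finset.range (D0 * D1 * D2), P.coeff (dg k) * (2 ^ b) ^ k := by
    rw [← hev, MvPolynomial.eval_eq']
    refine Finset.sum_of_injOn φ ?_ ?_ ?_ ?_
    · intro x hx y hy hxy
      obtain ⟨x0, x1, _⟩ := hsup x (Finset.mem_coe.1 hx)
      obtain ⟨y0, y1, _⟩ := hsup y (Finset.mem_coe.1 hy)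
      rw [← hdgφ x x0 x1, ← hdgφ y y0 y1, hxy]
    · intro x hx
      exact Finset.mem_coe.2 (Finset.mem_range.2 (hlt x (Finset.mem_coe.1 hx)))
    · intro k _ hk'
      have : dg k ∉ P.support := fun h => hk' ⟨dg k, Finset.mem_coe.2 h, hφdg k⟩
      rw [MvPolynomial.notMem_support_iff.1 this, zero_mul]
    · intro x hx
      obtain ⟨x0, x1, _⟩ := hsup x hx
      rw [hdgφ x x0 x1]
      congr 1
      rw [Fin.prod_univ_three]
      simp only [Matrix.cons_val_zero, Matrix.cons_val_one, Matrix.cons_val, hφ]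
      rw [← pow_mul, ← pow_mul, ← pow_mul, ← pow_mul, ← pow_add, ← pow_add]
      congr 1
      ring
  by_cases hm : m ∈ P.support
  · obtain ⟨x0, x1, _⟩ := hsup m hm
    have := digits b hb (D0 * D1 * D2) (fun k => P.coeff (dg k)) N (fun k => hco _) hN
      (fun k hk => mask_bit b _ N hb hmask k hk) (φ m) (hlt m hm)
    rwa [hdgφ m x0 x1] at this
  · rw [MvPolynomial.notMem_support_iff.1 hm]

end Pool.Agent.T2H40.BR
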