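import Pool.Agent.T2H40.BR.Pkg.K1

/-!
# Package K2: soundness of the checker (uses `kron_nonneg` of K1)

Invariant for `e.qp p B` (with `q := e.qp p B`): there are `P Q : MvPolynomial (Fin 3) ℤ`
with `eval κ P = q.n` (`κ = ![p.x0, p.x1, p.x2]`), `P.degreeOf i ≤ q.di`, `|P.coeff m| ≤ Q.coeff m`
for all `m`, `eval 1 Q = q.m`, and for all `X : Fin 3 → ℝ` with `0 ≤ X i`,
`aeval X P = e.ev (fun i => (l_i + h_i * X i) / (1 + X i) / 3000) * 3000 ^ q.s *
   (1 + X 0) ^ q.d0 * (1 + X 1) ^ q.d1 * (1 + X 2) ^ q.d2`.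
-/

set_option autoImplicit false

open MvPolynomial

namespace Pool.Agent.T2H40.BR

namespace K2

/-- `Q` dominates `P` coefficient by coefficient -/
def Dom (P Q : MvPolynomial (Fin 3) ℤ) : Prop := ∀ m, |P.coeff m| ≤ Q.coeff m

lemma Dom.add {P Q P' Q' : MvPolynomial (Fin 3) ℤ} (h : Dom P Q) (h' : Dom P' Q') :
    Dom (P + P') (Q + Q') := fun m => by
  rw [coeff_add, coeff_add]
  exact (abs_add_le _ _).trans (add_le_add (h m) (h' m))

lemma Dom.sub {P Q P' Q' : MvPolynomial (Fin 3) ℤ} (h : Dom P Q) (h' : Dom P' Q') :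
    Dom (P - P') (Q + Q') := fun m => by
  rw [coeff_sub, coeff_add]
  exact (abs_sub _ _).trans (add_le_add (h m) (h' m))

lemma Dom.mul {P Q P' Q' : MvPolynomial (Fin 3) ℤ} (h : Dom P Q) (h' : Dom P' Q') :
    Dom (P * P') (Q * Q') := fun m => by
  classical
  rw [coeff_mul, coeff_mul]
  refine (Finset.abs_sum_le_sum_abs _ _).trans (Finset.sum_le_sum fun x _ => ?_)
  rw [abs_mul]
  exact mul_le_mul (h _) (h' _) (abs_nonneg _) ((abs_nonneg _).trans (h _))

lemma Dom.const (n : ℤ) : Dom (C n) (C (n.natAbs : ℤ)) := fun m => by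
  rw [coeff_C, coeff_C]
  split_ifs
  · rw [Int.natCast_natAbs]
  · simp

lemma Dom.X (i : Fin 3) : Dom (MvPolynomial.X i) (MvPolynomial.X i) := fun m => by
  classical
  rw [coeff_X]
  split_ifs <;> simp

lemma Dom.one : Dom 1 1 := fun m => by
  classical
  rw [coeff_one]
  split_ifs <;> simp

lemma Dom.pow {P Q : MvPolynomial (Fin 3) ℤ} (h : Dom P Q) (k : ℕ) : Dom (P ^ k) (Q ^ k) := by
  induction k with
  | zero => simpa using Dom.one
  | succ k ih => rw [pow_succ, pow_succ]; exact ih.mul h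

lemma Dom.nonneg {P Q : MvPolynomial (Fin 3) ℤ} (h : Dom P Q) (m : Fin 3 →₀ ℕ) : 0 ≤ Q.coeff m :=
  (abs_nonneg _).trans (h m)

lemma Dom.le_eval {P Q : MvPolynomial (Fin 3) ℤ} (h : Dom P Q) (m : Fin 3 →₀ ℕ) :
    |P.coeff m| ≤ eval 1 Q := by
  rw [eval_eq']
  simp only [Pi.one_apply, one_pow, Finset.prod_const_one, mul_one]
  by_cases hm : m ∈ Q.support
  · exact (h m).trans (Finset.single_le_sum (f := fun d => Q.coeff d) (fun i _ => h.nonneg i) hm)
  · have : Q.coeff m = 0 := by simpa using hm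
    exact (h m).trans (by rw [this]; exact Finset.sum_nonneg fun i _ => h.nonneg i)

/-- the Kronecker point -/
def kp (p : Par) : Fin 3 → ℤ := ![p.x0, p.x1, p.x2]

/-- the point of the box with parameter `X` -/
noncomputable def pt (B : Box) (X : Fin 3 → ℝ) : Fin 3 → ℝ :=
  ![((B.l0 : ℝ) + B.h0 * X 0) / (1 + X 0) / 3000, ((B.l1 : ℝ) + B.h1 * X 1) / (1 + X 1) / 3000,
    ((B.l2 : ℝ) + B.h2 * X 2) / (1 + X 2) / 3000]

/-- the invariant -/
structure Inv (p : Par) (B : Box) (f : (Fin 3 → ℝ) → ℝ) (q : QP) (P Q : MvPolynomial (Fin 3) ℤ) :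
    Prop where
  ev : eval (kp p) P = q.n
  d0 : P.degreeOf 0 ≤ q.d0
  d1 : P.degreeOf 1 ≤ q.d1
  d2 : P.degreeOf 2 ≤ q.d2
  dom : Dom P Q
  ev1 : eval 1 Q = (q.m : ℤ)
  re : ∀ X : Fin 3 → ℝ, (∀ i, 0 ≤ X i) → aeval X P = f (pt B X) * 3000 ^ q.s *
    (1 + X 0) ^ q.d0 * (1 + X 1) ^ q.d1 * (1 + X 2) ^ q.d2

/-- the factor for lifting -/
noncomputable def lf (a b c s : ℕ) : MvPolynomial (Fin 3) ℤ :=
  (1 + X 0) ^ a * (1 + X 1) ^ b * (1 + X 2) ^ c * C (3000 ^ s)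

lemma deg_one_add (i j : Fin 3) (k : ℕ) :
    degreeOf i ((1 + X j : MvPolynomial (Fin 3) ℤ) ^ k) ≤ if i = j then k else 0 := by
  refine (degreeOf_pow_le _ _ _).trans ?_
  have h1 : degreeOf i (1 + X j : MvPolynomial (Fin 3) ℤ) ≤ if i = j then 1 else 0 := by
    refine (degreeOf_add_le _ _ _).trans ?_
    have : degreeOf i (1 : MvPolynomial (Fin 3) ℤ) = 0 := by
      rw [← C_1]; exact degreeOf_C _ _
    rw [this, degreeOf_X]
    simp
  split_ifs with h
  · rw [if_pos h] at h1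
    nlinarith
  · rw [if_neg h] at h1
    nlinarith

lemma deg_lf (i : Fin 3) (a b c s : ℕ) : degreeOf i (lf a b c s) ≤
    (if i = 0 then a else 0) + (if i = 1 then b else 0) + (if i = 2 then c else 0) := by
  unfold lf
  refine (degreeOf_mul_le _ _ _).trans ?_
  rw [degreeOf_C, add_zero]
  refine (degreeOf_mul_le _ _ _).trans ?_
  refine add_le_add ?_ (deg_one_add _ _ _)
  refine (degreeOf_mul_le _ _ _).trans ?_
  exact add_le_add (deg_one_add _ _ _) (deg_one_add _ _ _)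

lemma deg_lf0 (a b c s : ℕ) : degreeOf 0 (lf a b c s) ≤ a := by
  have := deg_lf 0 a b c s
  rwa [if_pos rfl, if_neg (by decide), if_neg (by decide), add_zero, add_zero] at this

lemma deg_lf1 (a b c s : ℕ) : degreeOf 1 (lf a b c s) ≤ b := by
  have := deg_lf 1 a b c s
  rwa [if_neg (by decide), if_pos rfl, if_neg (by decide), add_zero, zero_add] at this

lemma deg_lf2 (a b c s : ℕ) : degreeOf 2 (lf a b c s) ≤ c := by
  have := deg_lf 2 a b c s
  rwa [if_neg (by decide), if_neg (by decide), if_pos rfl, add_zero, zero_add] at this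

lemma dom_one_add (j : Fin 3) : Dom (1 + X j) (1 + X j) := Dom.one.add (Dom.X j)

lemma dom_lf (a b c s : ℕ) : Dom (lf a b c s) (lf a b c s) := by
  refine ((((dom_one_add 0).pow a).mul ((dom_one_add 1).pow b)).mul ((dom_one_add 2).pow c)).mul ?_
  have := Dom.const (3000 ^ s)
  rw [Int.natAbs_pow] at this
  simpa using this

lemma ev_lf (p : Par) (a b c s : ℕ) : eval (kp p) (lf a b c s) =
    (1 + p.x0) ^ a * (1 + p.x1) ^ b * (1 + p.x2) ^ c * 3000 ^ s := by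
  simp [lf, kp]

lemma ev1_lf (a b c s : ℕ) : eval 1 (lf a b c s) = (2 ^ a * 2 ^ b * 2 ^ c * 3000 ^ s : ℤ) := by
  simp only [lf, map_mul, map_pow, map_add, map_one, eval_X, Pi.one_apply, eval_C]
  norm_num

lemma re_lf (X : Fin 3 → ℝ) (a b c s : ℕ) : aeval X (lf a b c s) =
    (1 + X 0) ^ a * (1 + X 1) ^ b * (1 + X 2) ^ c * 3000 ^ s := by
  simp [lf]

lemma Inv.lift {p : Par} {B : Box} {f : (Fin 3 → ℝ) → ℝ} {q : QP} {P Q : MvPolynomial (Fin 3) ℤ}
    (h : Inv p B f q P Q) {d0 d1 d2 s : ℕ} (h0 : q.d0 ≤ d0) (h1 : q.d1 ≤ d1) (h2 : q.d2 ≤ d2)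
    (hs : q.s ≤ s) :
    Inv p B f ⟨q.lift p d0 d1 d2 s, d0, d1, d2, s, q.liftm d0 d1 d2 s⟩
      (P * lf (d0 - q.d0) (d1 - q.d1) (d2 - q.d2) (s - q.s))
      (Q * lf (d0 - q.d0) (d1 - q.d1) (d2 - q.d2) (s - q.s)) where
  ev := by
    rw [map_mul, h.ev, ev_lf, QP.lift]
    ring
  d0 := by
    refine (degreeOf_mul_le _ _ _).trans ?_
    refine (add_le_add h.d0 (deg_lf0 _ _ _ _)).trans ?_
    show q.d0 + (d0 - q.d0) ≤ d0
    omega
  d1 := by
    refine (degreeOf_mul_le _ _ _).trans ?_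
    refine (add_le_add h.d1 (deg_lf1 _ _ _ _)).trans ?_
    show q.d1 + (d1 - q.d1) ≤ d1
    omega
  d2 := by
    refine (degreeOf_mul_le _ _ _).trans ?_
    refine (add_le_add h.d2 (deg_lf2 _ _ _ _)).trans ?_
    show q.d2 + (d2 - q.d2) ≤ d2
    omega
  dom := h.dom.mul (dom_lf _ _ _ _)
  ev1 := by
    rw [map_mul, h.ev1, ev1_lf, QP.liftm]
    push_cast
    ring
  re := by
    intro X hX
    rw [map_mul, h.re X hX, re_lf]
    have e0 : (1 + X 0) ^ d0 = (1 + X 0) ^ q.d0 * (1 + X 0) ^ (d0 - q.d0) := by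
      rw [← pow_add]; congr 1; omega
    have e1 : (1 + X 1) ^ d1 = (1 + X 1) ^ q.d1 * (1 + X 1) ^ (d1 - q.d1) := by
      rw [← pow_add]; congr 1; omega
    have e2 : (1 + X 2) ^ d2 = (1 + X 2) ^ q.d2 * (1 + X 2) ^ (d2 - q.d2) := by
      rw [← pow_add]; congr 1; omega
    have e3 : (3000 : ℝ) ^ s = 3000 ^ q.s * 3000 ^ (s - q.s) := by
      rw [← pow_add]; congr 1; omega
    simp only
    rw [e0, e1, e2, e3]
    ring

lemma Inv.add' {p : Par} {B : Box} {f g : (Fin 3 → ℝ) → ℝ} {n n' : ℤ} {d0 d1 d2 s m m' : ℕ}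
    {P Q P' Q' : MvPolynomial (Fin 3) ℤ}
    (h : Inv p B f ⟨n, d0, d1, d2, s, m⟩ P Q) (h' : Inv p B g ⟨n', d0, d1, d2, s, m'⟩ P' Q') :
    Inv p B (fun v => f v + g v) ⟨n + n', d0, d1, d2, s, m + m'⟩ (P + P') (Q + Q') where
  ev := by rw [map_add, h.ev, h'.ev]
  d0 := (degreeOf_add_le _ _ _).trans (max_le h.d0 h'.d0)
  d1 := (degreeOf_add_le _ _ _).trans (max_le h.d1 h'.d1)
  d2 := (degreeOf_add_le _ _ _).trans (max_le h.d2 h'.d2)
  dom := h.dom.add h'.dom
  ev1 := by rw [map_add, h.ev1, h'.ev1]; push_cast; rfl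
  re := by
    intro X hX
    rw [map_add, h.re X hX, h'.re X hX]
    simp only
    ring

lemma Inv.sub' {p : Par} {B : Box} {f g : (Fin 3 → ℝ) → ℝ} {n n' : ℤ} {d0 d1 d2 s m m' : ℕ}
    {P Q P' Q' : MvPolynomial (Fin 3) ℤ}
    (h : Inv p B f ⟨n, d0, d1, d2, s, m⟩ P Q) (h' : Inv p B g ⟨n', d0, d1, d2, s, m'⟩ P' Q') :
    Inv p B (fun v => f v - g v) ⟨n - n', d0, d1, d2, s, m + m'⟩ (P - P') (Q + Q') where
  ev := by rw [map_sub, h.ev, h'.ev]
  d0 := (degreeOf_sub_le _ _ _).trans (max_le h.d0 h'.d0)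
  d1 := (degreeOf_sub_le _ _ _).trans (max_le h.d1 h'.d1)
  d2 := (degreeOf_sub_le _ _ _).trans (max_le h.d2 h'.d2)
  dom := h.dom.sub h'.dom
  ev1 := by rw [map_add, h.ev1, h'.ev1]; push_cast; rfl
  re := by
    intro X hX
    rw [map_sub, h.re X hX, h'.re X hX]
    simp only
    ring

lemma Inv.mul' {p : Par} {B : Box} {f g : (Fin 3 → ℝ) → ℝ} {q r : QP}
    {P Q P' Q' : MvPolynomial (Fin 3) ℤ}
    (h : Inv p B f q P Q) (h' : Inv p B g r P' Q') :
    Inv p B (fun v => f v * g v) (QP.mul q r) (P * P') (Q * Q') where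
  ev := by rw [map_mul, h.ev, h'.ev]; rfl
  d0 := (degreeOf_mul_le _ _ _).trans (add_le_add h.d0 h'.d0)
  d1 := (degreeOf_mul_le _ _ _).trans (add_le_add h.d1 h'.d1)
  d2 := (degreeOf_mul_le _ _ _).trans (add_le_add h.d2 h'.d2)
  dom := h.dom.mul h'.dom
  ev1 := by rw [map_mul, h.ev1, h'.ev1]; simp [QP.mul]
  re := by
    intro X hX
    rw [map_mul, h.re X hX, h'.re X hX]
    simp only [QP.mul, pow_add]
    ring

lemma inv_var0 (p : Par) (B : Box) : Inv p B (fun v => v 0)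
    ⟨B.l0 + B.h0 * p.x0, 1, 0, 0, 1, B.l0.natAbs + B.h0.natAbs⟩
    (C B.l0 + C B.h0 * X 0) (C (B.l0.natAbs : ℤ) + C (B.h0.natAbs : ℤ) * X 0) where
  ev := by simp [kp]
  d0 := by
    refine (degreeOf_add_le _ _ _).trans (max_le ((degreeOf_C _ _).le.trans (Nat.zero_le _)) ?_)
    refine (degreeOf_mul_le _ _ _).trans ?_
    rw [degreeOf_C, degreeOf_X]; simp
  d1 := by
    refine (degreeOf_add_le _ _ _).trans (max_le ((degreeOf_C _ _).le.trans (Nat.zero_le _)) ?_)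
    refine (degreeOf_mul_le _ _ _).trans ?_
    rw [degreeOf_C, degreeOf_X]; simp
  d2 := by
    refine (degreeOf_add_le _ _ _).trans (max_le ((degreeOf_C _ _).le.trans (Nat.zero_le _)) ?_)
    refine (degreeOf_mul_le _ _ _).trans ?_
    rw [degreeOf_C, degreeOf_X]; simp
  dom := (Dom.const _).add ((Dom.const _).mul (Dom.X _))
  ev1 := by simp
  re := by
    intro X hX
    have := hX 0
    have h1 : (1 : ℝ) + X 0 ≠ 0 := by positivity
    simp [pt]
    field_simp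

lemma inv_var1 (p : Par) (B : Box) : Inv p B (fun v => v 1)
    ⟨B.l1 + B.h1 * p.x1, 0, 1, 0, 1, B.l1.natAbs + B.h1.natAbs⟩
    (C B.l1 + C B.h1 * X 1) (C (B.l1.natAbs : ℤ) + C (B.h1.natAbs : ℤ) * X 1) where
  ev := by simp [kp]
  d0 := by
    refine (degreeOf_add_le _ _ _).trans (max_le ((degreeOf_C _ _).le.trans (Nat.zero_le _)) ?_)
    refine (degreeOf_mul_le _ _ _).trans ?_
    rw [degreeOf_C, degreeOf_X]; simp
  d1 := by
    refine (degreeOf_add_le _ _ _).trans (max_le ((degreeOf_C _ _).le.trans (Nat.zero_le _)) ?_)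
    refine (degreeOf_mul_le _ _ _).trans ?_
    rw [degreeOf_C, degreeOf_X]; simp
  d2 := by
    refine (degreeOf_add_le _ _ _).trans (max_le ((degreeOf_C _ _).le.trans (Nat.zero_le _)) ?_)
    refine (degreeOf_mul_le _ _ _).trans ?_
    rw [degreeOf_C, degreeOf_X]; simp
  dom := (Dom.const _).add ((Dom.const _).mul (Dom.X _))
  ev1 := by simp
  re := by
    intro X hX
    have := hX 1
    have h1 : (1 : ℝ) + X 1 ≠ 0 := by positivity
    simp [pt]
    field_simp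

lemma inv_var2 (p : Par) (B : Box) : Inv p B (fun v => v 2)
    ⟨B.l2 + B.h2 * p.x2, 0, 0, 1, 1, B.l2.natAbs + B.h2.natAbs⟩
    (C B.l2 + C B.h2 * X 2) (C (B.l2.natAbs : ℤ) + C (B.h2.natAbs : ℤ) * X 2) where
  ev := by simp [kp]
  d0 := by
    refine (degreeOf_add_le _ _ _).trans (max_le ((degreeOf_C _ _).le.trans (Nat.zero_le _)) ?_)
    refine (degreeOf_mul_le _ _ _).trans ?_
    rw [degreeOf_C, degreeOf_X]; simp
  d1 := by
    refine (degreeOf_add_le _ _ _).trans (max_le ((degreeOf_C _ _).le.trans (Nat.zero_le _)) ?_)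
    refine (degreeOf_mul_le _ _ _).trans ?_
    rw [degreeOf_C, degreeOf_X]; simp
  d2 := by
    refine (degreeOf_add_le _ _ _).trans (max_le ((degreeOf_C _ _).le.trans (Nat.zero_le _)) ?_)
    refine (degreeOf_mul_le _ _ _).trans ?_
    rw [degreeOf_C, degreeOf_X]; simp
  dom := (Dom.const _).add ((Dom.const _).mul (Dom.X _))
  ev1 := by simp
  re := by
    intro X hX
    have := hX 2
    have h1 : (1 : ℝ) + X 2 ≠ 0 := by positivity
    simp [pt]
    field_simp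

lemma exists_inv (p : Par) (B : Box) (e : Ex) : ∃ P Q, Inv p B (fun v => e.ev v) (e.qp p B) P Q := by
  induction e with
  | cst n =>
    refine ⟨C n, C (n.natAbs : ℤ), ?_⟩
    constructor
    · simp [Ex.qp]
    · exact (degreeOf_C _ _).le.trans (Nat.zero_le _)
    · exact (degreeOf_C _ _).le.trans (Nat.zero_le _)
    · exact (degreeOf_C _ _).le.trans (Nat.zero_le _)
    · exact Dom.const n
    · simp [Ex.qp]
    · intro X hX
      simp [Ex.qp, Ex.ev]
  | int n =>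
    refine ⟨C n, C (n.natAbs : ℤ), ?_⟩
    constructor
    · simp [Ex.qp]
    · exact (degreeOf_C _ _).le.trans (Nat.zero_le _)
    · exact (degreeOf_C _ _).le.trans (Nat.zero_le _)
    · exact (degreeOf_C _ _).le.trans (Nat.zero_le _)
    · exact Dom.const n
    · simp [Ex.qp]
    · intro X hX
      simp [Ex.qp, Ex.ev]
  | var i =>
    match i with
    | ⟨0, _⟩ => exact ⟨_, _, inv_var0 p B⟩
    | ⟨1, _⟩ => exact ⟨_, _, inv_var1 p B⟩
    | ⟨2, _⟩ => exact ⟨_, _, inv_var2 p B⟩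
  | add a b iha ihb =>
    obtain ⟨P, Q, h⟩ := iha
    obtain ⟨P', Q', h'⟩ := ihb
    exact ⟨_, _, (h.lift (le_max_left _ _) (le_max_left _ _) (le_max_left _ _)
      (le_max_left _ _)).add' (h'.lift (le_max_right _ _) (le_max_right _ _) (le_max_right _ _)
      (le_max_right _ _))⟩
  | sub a b iha ihb =>
    obtain ⟨P, Q, h⟩ := iha
    obtain ⟨P', Q', h'⟩ := ihb
    exact ⟨_, _, (h.lift (le_max_left _ _) (le_max_left _ _) (le_max_left _ _)
      (le_max_left _ _)).sub' (h'.lift (le_max_right _ _) (le_max_right _ _) (le_max_right _ _)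
      (le_max_right _ _))⟩
  | mul a b iha ihb =>
    obtain ⟨P, Q, h⟩ := iha
    obtain ⟨P', Q', h'⟩ := ihb
    exact ⟨_, _, h.mul' h'⟩

lemma continuous_ev (e : Ex) : Continuous fun v : Fin 3 → ℝ => e.ev v := by
  induction e with
  | cst n => exact continuous_const
  | int n => exact continuous_const
  | var i => exact continuous_apply i
  | add a b iha ihb => exact iha.add ihb
  | sub a b iha ihb => exact iha.sub ihb
  | mul a b iha ihb => exact iha.mul ihb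

lemma coord {l h v : ℝ} (h1 : l / 3000 ≤ v) (h2 : v < h / 3000) :
    0 ≤ (3000 * v - l) / (h - 3000 * v) ∧
      v = (l + h * ((3000 * v - l) / (h - 3000 * v))) / (1 + (3000 * v - l) / (h - 3000 * v)) / 3000 := by
  have a1 : 0 ≤ 3000 * v - l := by linarith
  have a2 : 0 < h - 3000 * v := by linarith
  refine ⟨div_nonneg a1 a2.le, ?_⟩
  have a3 : h - 3000 * v ≠ 0 := a2.ne'
  have a4 : 0 ≤ (3000 * v - l) / (h - 3000 * v) := div_nonneg a1 a2.le
  have a5 : (3000 * v - l) / (h - 3000 * v) * (h - 3000 * v) = 3000 * v - l :=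
    div_mul_cancel₀ _ a3
  set t := (3000 * v - l) / (h - 3000 * v)
  have a6 : 1 + t ≠ 0 := by positivity
  rw [eq_div_iff (by norm_num), eq_div_iff a6]
  linear_combination -a5

lemma open_sound (p : Par) (B : Box) (e : Ex) (h : (e.qp p B).ok p = true)
    (v : Fin 3 → ℝ) (a0 : (B.l0 : ℝ) / 3000 ≤ v 0) (b0 : v 0 < (B.h0 : ℝ) / 3000)
    (a1 : (B.l1 : ℝ) / 3000 ≤ v 1) (b1 : v 1 < (B.h1 : ℝ) / 3000)
    (a2 : (B.l2 : ℝ) / 3000 ≤ v 2) (b2 : v 2 < (B.h2 : ℝ) / 3000) : 0 ≤ e.ev v := by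
  obtain ⟨P, Q, hI⟩ := exists_inv p B e
  set q := e.qp p B with hq
  simp only [QP.ok, Bool.and_eq_true, decide_eq_true_eq] at h
  obtain ⟨⟨⟨⟨⟨⟨hb, hd0⟩, hd1⟩, hd2⟩, hm⟩, hn⟩, hmask⟩ := h
  have hco : ∀ m, |P.coeff m| < 2 ^ (p.b - 1) := by
    intro m
    have h1 := hI.dom.le_eval m
    rw [hI.ev1] at h1
    refine h1.trans_lt ?_
    exact_mod_cast hm
  have hev : MvPolynomial.eval
      (![(2 : ℤ) ^ p.b, (2 : ℤ) ^ (p.b * p.D0), (2 : ℤ) ^ (p.b * (p.D0 * p.D1))] : Fin 3 → ℤ) P =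
        (q.n.toNat : ℤ) := by
    rw [Int.toNat_of_nonneg hn]
    exact hI.ev
  have hnn := kron_nonneg p.b p.D0 p.D1 p.D2 hb P q.n.toNat (hI.d0.trans_lt hd0)
    (hI.d1.trans_lt hd1) (hI.d2.trans_lt hd2) hco hev hmask
  obtain ⟨x0, e0⟩ := coord a0 b0
  obtain ⟨x1, e1⟩ := coord a1 b1
  obtain ⟨x2, e2⟩ := coord a2 b2
  set X : Fin 3 → ℝ := ![(3000 * v 0 - B.l0) / (B.h0 - 3000 * v 0),
    (3000 * v 1 - B.l1) / (B.h1 - 3000 * v 1), (3000 * v 2 - B.l2) / (B.h2 - 3000 * v 2)] with hX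
  have hX0 : ∀ i, 0 ≤ X i := by
    intro i
    match i with
    | ⟨0, _⟩ => exact x0
    | ⟨1, _⟩ => exact x1
    | ⟨2, _⟩ => exact x2
  have hv : pt B X = v := by
    funext i
    match i with
    | ⟨0, _⟩ => exact e0.symm
    | ⟨1, _⟩ => exact e1.symm
    | ⟨2, _⟩ => exact e2.symm
  have hre := hI.re X hX0
  rw [hv] at hre
  have hpos : 0 ≤ aeval X P := by
    rw [aeval_def, eval₂_eq']
    refine Finset.sum_nonneg fun d _ => mul_nonneg ?_ (Finset.prod_nonneg fun i _ => pow_nonneg (hX0 i) _)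
    have := hnn d
    simp only [algebraMap_int_eq, eq_intCast]
    exact_mod_cast this
  rw [hre] at hpos
  have c0 := hX0 0
  have c1 := hX0 1
  have c2 := hX0 2
  by_contra hneg
  push Not at hneg
  have : e.ev v * 3000 ^ q.s * (1 + X 0) ^ q.d0 * (1 + X 1) ^ q.d1 * (1 + X 2) ^ q.d2 < 0 := by
    have hp : 0 < 3000 ^ q.s * (1 + X 0) ^ q.d0 * (1 + X 1) ^ q.d1 * (1 + X 2) ^ q.d2 := by positivity
    have := mul_neg_of_neg_of_pos hneg hp
    calc _ = e.ev v * (3000 ^ q.s * (1 + X 0) ^ q.d0 * (1 + X 1) ^ q.d1 * (1 + X 2) ^ q.d2) := by ring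
      _ < 0 := this
  linarith

end K2

open K2 in
theorem leaf_sound (p : Par) (B : Box) (e : Ex) (hB : B.ok = true) (h : (e.qp p B).ok p = true)
    (v : Fin 3 → ℝ) (hv : B.mem v) : 0 ≤ e.ev v := by
  simp only [Box.ok, Bool.and_eq_true, decide_eq_true_eq] at hB
  obtain ⟨⟨q0, q1⟩, q2⟩ := hB
  have r0 : (B.l0 : ℝ) / 3000 < B.h0 / 3000 := by
    have : (B.l0 : ℝ) < B.h0 := by exact_mod_cast q0
    linarith
  have r1 : (B.l1 : ℝ) / 3000 < B.h1 / 3000 := by
    have : (B.l1 : ℝ) < B.h1 := by exact_mod_cast q1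
    linarith
  have r2 : (B.l2 : ℝ) / 3000 < B.h2 / 3000 := by
    have : (B.l2 : ℝ) < B.h2 := by exact_mod_cast q2
    linarith
  obtain ⟨a0, b0, a1, b1, a2, b2⟩ := hv
  let w : Fin 3 → ℝ := ![(B.l0 : ℝ) / 3000, (B.l1 : ℝ) / 3000, (B.l2 : ℝ) / 3000]
  let g : ℝ → Fin 3 → ℝ := fun t i => v i + t * (w i - v i)
  have hg : Continuous g := by
    refine continuous_pi fun i => ?_
    show Continuous fun t : ℝ => v i + t * (w i - v i)
    fun_prop
  have hlim : Filter.Tendsto (fun t => e.ev (g t)) (nhdsWithin 0 (Set.Ioi 0)) (nhds (e.ev v)) := by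
    have h1 : Filter.Tendsto (fun t => e.ev (g t)) (nhds 0) (nhds (e.ev (g 0))) :=
      ((continuous_ev e).comp hg).tendsto 0
    have h2 : g 0 = v := by
      funext i
      show v i + 0 * (w i - v i) = v i
      ring
    rw [h2] at h1
    exact h1.mono_left nhdsWithin_le_nhds
  refine ge_of_tendsto hlim ?_
  have hI : Set.Ioc (0 : ℝ) 1 ∈ nhdsWithin (0 : ℝ) (Set.Ioi 0) := Ioc_mem_nhdsGT one_pos
  filter_upwards [hI] with t ht
  obtain ⟨ht0, ht1⟩ := ht
  have key : ∀ l h x : ℝ, l ≤ x → x ≤ h → l < h → l ≤ x + t * (l - x) ∧ x + t * (l - x) < h := by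
    intro l h x h1 h2 h3
    constructor
    · nlinarith
    · rcases h1.eq_or_lt with h4 | h4
      · subst h4; simpa using h3
      · nlinarith
  have k0 := key _ _ _ a0 b0 r0
  have k1 := key _ _ _ a1 b1 r1
  have k2 := key _ _ _ a2 b2 r2
  exact open_sound p B e h (g t) k0.1 k0.2 k1.1 k1.2 k2.1 k2.2

theorem check_sound (p : Par) (opts : List (List Ex)) (T : Tree) (B : Box)
    (h : check p opts T B = true) (v : Fin 3 → ℝ) (hv : B.mem v) :
    ∃ es ∈ opts, ∀ e ∈ es, 0 ≤ e.ev v := by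
  induction T generalizing B with
  | leaf k =>
    simp only [check, Bool.and_eq_true, List.all_eq_true] at h
    obtain ⟨hB, hall⟩ := h
    by_cases hk : k < opts.length
    · refine ⟨opts[k], List.getElem_mem hk, fun e he => ?_⟩
      have h1 : opts.getD k [Ex.int (-1)] = opts[k] := by
        simp [List.getD, hk]
      rw [h1] at hall
      exact leaf_sound p B e hB (hall e he) v hv
    · exfalso
      have h1 : opts.getD k [Ex.int (-1)] = [Ex.int (-1)] := by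
        simp only [List.getD_eq_getElem?_getD]
        rw [List.getElem?_eq_none (by omega)]
        rfl
      rw [h1] at hall
      have h2 := hall (Ex.int (-1)) (by simp)
      have h3 := leaf_sound p B (Ex.int (-1)) hB h2 v hv
      simp [Ex.ev] at h3
      linarith
  | n0 m l r ihl ihr =>
    simp only [check, Bool.and_eq_true] at h
    obtain ⟨a0, b0, a1, b1, a2, b2⟩ := hv
    rcases le_total (v 0) ((m : ℝ) / 3000) with hm | hm
    · exact ihl _ h.1 ⟨a0, hm, a1, b1, a2, b2⟩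
    · exact ihr _ h.2 ⟨hm, b0, a1, b1, a2, b2⟩
  | n1 m l r ihl ihr =>
    simp only [check, Bool.and_eq_true] at h
    obtain ⟨a0, b0, a1, b1, a2, b2⟩ := hv
    rcases le_total (v 1) ((m : ℝ) / 3000) with hm | hm
    · exact ihl _ h.1 ⟨a0, b0, a1, hm, a2, b2⟩
    · exact ihr _ h.2 ⟨a0, b0, hm, b1, a2, b2⟩
  | n2 m l r ihl ihr =>
    simp only [check, Bool.and_eq_true] at h
    obtain ⟨a0, b0, a1, b1, a2, b2⟩ := hv
    rcases le_total (v 2) ((m : ℝ) / 3000) with hm | hm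
    · exact ihl _ h.1 ⟨a0, b0, a1, b1, a2, hm⟩
    · exact ihr _ h.2 ⟨a0, b0, a1, b1, hm, b2⟩

end Pool.Agent.T2H40.BR
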