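import Pool.Agent.T2H40.BR.Pkg.R4
import Pool.Agent.T2H40.BR.Build

/-!
# Package L1: types `C`, `C`, from the checked polynomials to the inequalities
(`cc_N`, `cc_E2`; `x = σ (1 - v)`, `y = σ v`, `σ = x + y`, `v = y / σ ≤ 1 / 2`; `ok` gives `σ ≤ a < 1`)
-/

set_option autoImplicit false

namespace Pool.Agent.T2H40.BR

namespace L1aux

lemma ev_add (a b : Ex) (v : Fin 3 → ℝ) : (a + b).ev v = a.ev v + b.ev v := rfl
lemma ev_sub (a b : Ex) (v : Fin 3 → ℝ) : (a - b).ev v = a.ev v - b.ev v := rfl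
lemma ev_mul (a b : Ex) (v : Fin 3 → ℝ) : (a * b).ev v = a.ev v * b.ev v := rfl
lemma ev_cst (n : ℤ) (v : Fin 3 → ℝ) : (Ex.cst n).ev v = (n : ℝ) / 3000 := rfl
lemma ev_int (n : ℤ) (v : Fin 3 → ℝ) : (Ex.int n).ev v = (n : ℝ) := rfl
lemma ev_var (i : Fin 3) (v : Fin 3 → ℝ) : (Ex.var i).ev v = v i := rfl

lemma last_neg (a σ w : ℝ) (h : σ ≤ a) : ¬ (0 ≤ (v1 - v0 - tau).ev ![a, σ, w]) := by
  simp only [v1, v0, tau, ev_sub, ev_mul, ev_cst, ev_var]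
  norm_num
  linarith

/-- data evaluated at the point -/
structure Dat (p : Piece) (a σ w : ℝ) (e : CCE) : Prop where
  ha : e.a.ev ![a, σ, w] = a
  hl : e.lam.ev ![a, σ, w] = p.lamR a
  hσ : e.σ.ev ![a, σ, w] = σ
  hv : e.v.ev ![a, σ, w] = w
  hW1 : e.W1.ev ![a, σ, w] = evalR p.W (σ * (1 - w)) (p.t a)
  hW2 : e.W2.ev ![a, σ, w] = evalR p.W (σ * w) (p.t a)
  hg : e.g.ev ![a, σ, w] = p.gcR a (σ * (1 - w))
  hh : e.h.ev ![a, σ, w] = p.gcR a (σ * w)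
  hd : e.d.ev ![a, σ, w] = p.dlR a (σ * (1 - w))
  he : e.e.ev ![a, σ, w] = p.dlR a (σ * w)
  hc : e.c.ev ![a, σ, w] = (p.ch : ℝ) / 3000

lemma dat (p : Piece) (a σ w : ℝ) : Dat p a σ w (p.cc v0 v1 v2) := by
  constructor <;>
    simp [Piece.cc, evalE_ev, v0, v1, v2, ev_sub, ev_mul, ev_cst, ev_int, ev_var, Piece.t,
      Piece.lamR, Piece.gcR, Piece.dlR]

section
variable {p : Piece} {a σ w : ℝ} {e : CCE} (D : Dat p a σ w e)
include D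

lemma ev_V : e.V.ev ![a, σ, w] = p.VcR a (σ * (1 - w)) := by
  simp only [CCE.V, CCE.x, ev_sub, ev_mul, ev_int, D.hW1, D.hσ, D.hv, Piece.VcR]
  norm_num

lemma ev_U : e.U.ev ![a, σ, w] = p.VcR a (σ * w) := by
  simp only [CCE.U, CCE.y, ev_sub, ev_mul, ev_int, D.hW2, D.hσ, D.hv, Piece.VcR]
  norm_num

lemma ev_ch : e.ch.ev ![a, σ, w] = p.dlR a (σ * (1 - w)) + p.dlR a (σ * w) + p.lamR a
    - p.gcR a (σ * (1 - w)) - p.gcR a (σ * w) := by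
  simp only [CCE.ch, ev_sub, ev_add, D.hd, D.he, D.hl, D.hg, D.hh]

lemma ev_D2 : e.D2.ev ![a, σ, w] = (1 - σ * (1 - w)) * (1 - σ * w) := by
  simp only [CCE.D2, CCE.x, CCE.y, ev_sub, ev_mul, ev_int, D.hσ, D.hv]
  norm_num

lemma ev_G1 : e.G1.ev ![a, σ, w] = G1 a (p.lamR a) (σ * (1 - w)) (p.VcR a (σ * (1 - w)))
    (p.gcR a (σ * (1 - w))) (p.dlR a (σ * (1 - w))) := by
  simp only [CCE.G1, CCE.x, ev_sub, ev_add, ev_mul, ev_int, ev_cst, D.hσ, D.hv, D.ha, D.hl, D.hg,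
    D.hd, ev_V D, G1]
  push_cast
  ring

lemma ev_G2 : e.G2.ev ![a, σ, w] = G1 a (p.lamR a) (σ * w) (p.VcR a (σ * w))
    (p.gcR a (σ * w)) (p.dlR a (σ * w)) := by
  simp only [CCE.G2, CCE.y, ev_sub, ev_add, ev_mul, ev_int, ev_cst, D.hσ, D.hv, D.ha, D.hl, D.hh,
    D.he, ev_U D, G1]
  push_cast
  ring

lemma ev_G : e.G.ev ![a, σ, w] = GC a (p.lamR a) σ w (p.VcR a (σ * (1 - w))) (p.VcR a (σ * w))
    (p.gcR a (σ * (1 - w))) (p.gcR a (σ * w)) (p.dlR a (σ * (1 - w))) (p.dlR a (σ * w)) := by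
  simp only [CCE.G, ev_sub, ev_add, ev_mul, ev_int, ev_D2 D, ev_G1 D, ev_G2 D, CCE.x, CCE.y,
    D.hσ, D.hv, GC]
  norm_num

lemma ev_A : e.A.ev ![a, σ, w] = 1 - σ + σ * σ * w * (1 - w) * (p.dlR a (σ * (1 - w))
    + p.dlR a (σ * w) + p.lamR a - p.gcR a (σ * (1 - w)) - p.gcR a (σ * w)) := by
  simp only [CCE.A, ev_sub, ev_add, ev_mul, ev_int, ev_ch D, D.hσ, D.hv]
  norm_num

lemma ev_Z1 : e.Z1.ev ![a, σ, w] = (1 / 2 + (p.ch : ℝ) / 3000 * (σ * (1 - w)))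
    + evalR p.W (σ * (1 - w)) (p.t a) - (σ * (1 - w)) * (1 / 2 + (p.ch : ℝ) / 3000 * (σ * (1 - w)))
      * evalR p.W (σ * (1 - w)) (p.t a) := by
  simp only [CCE.Z1, CCE.x, ev_sub, ev_add, ev_mul, ev_int, ev_cst, D.hσ, D.hv, D.hc, D.hW1]
  norm_num

lemma ev_Z2 : e.Z2.ev ![a, σ, w] = (1 / 2 + (p.ch : ℝ) / 3000 * (σ * w))
    + evalR p.W (σ * w) (p.t a) - (σ * w) * (1 / 2 + (p.ch : ℝ) / 3000 * (σ * w))
      * evalR p.W (σ * w) (p.t a) := by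
  simp only [CCE.Z2, CCE.y, ev_sub, ev_add, ev_mul, ev_cst, D.hσ, D.hv, D.hc, D.hW2]
  norm_num

lemma ev_Y1 : e.Y1.ev ![a, σ, w] = 1 / 2 + evalR p.W (σ * (1 - w)) (p.t a)
    - 1 / 2 * (σ * (1 - w)) * evalR p.W (σ * (1 - w)) (p.t a) := by
  simp only [CCE.Y1, CCE.x, ev_sub, ev_add, ev_mul, ev_int, ev_cst, D.hσ, D.hv, D.hW1]
  norm_num

lemma ev_Y2 : e.Y2.ev ![a, σ, w] = 1 / 2 + evalR p.W (σ * w) (p.t a)
    - 1 / 2 * (σ * w) * evalR p.W (σ * w) (p.t a) := by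
  simp only [CCE.Y2, CCE.y, ev_sub, ev_add, ev_mul, ev_cst, D.hσ, D.hv, D.hW2]
  norm_num

lemma ev_u : e.u.ev ![a, σ, w] = (1 - w) * e.Z1.ev ![a, σ, w] + w * e.Z2.ev ![a, σ, w]
    - σ * w * (1 - w) * e.Z1.ev ![a, σ, w] * e.Z2.ev ![a, σ, w] := by
  simp only [CCE.u, ev_sub, ev_add, ev_mul, ev_int, D.hσ, D.hv]
  norm_num

lemma ev_u' : e.u'.ev ![a, σ, w] = (1 - w) * e.Y1.ev ![a, σ, w] + w * e.Y2.ev ![a, σ, w]
    - σ * w * (1 - w) * e.Y1.ev ![a, σ, w] * e.Y2.ev ![a, σ, w] := by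
  simp only [CCE.u', ev_sub, ev_add, ev_mul, ev_int, D.hσ, D.hv]
  norm_num

end

lemma vc_nonneg (p : Piece) (hV : Chk (vCopts p) (vCBox p)) (a x : ℝ)
    (ha0 : (p.a0 : ℝ) / 3000 ≤ a) (ha1 : a ≤ (p.a1 : ℝ) / 3000) (hx : 0 ≤ x) (hxa : x ≤ a) :
    0 ≤ p.VcR a x := by
  obtain ⟨es, hes, he⟩ := hV ![a, x, 0] (by
    refine ⟨by simpa [vCBox] using ha0, by simpa [vCBox] using ha1, by simpa [vCBox] using hx,
      by simpa [vCBox] using hxa.trans ha1, by simp [vCBox], by simp [vCBox]⟩)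
  simp only [vCopts, List.mem_singleton] at hes
  subst hes
  have := he _ (List.mem_singleton.mpr rfl)
  simpa [evalE_ev, v0, v1, ev_sub, ev_mul, ev_cst, ev_int, ev_var, Piece.t, Piece.VcR] using this

end L1aux

open L1aux

theorem cc_of_chk (p : Piece) (hp : p.ok = true) (hN : Chk (ccNopts p) (ccBox p))
    (hE : Chk (ccEopts p) (ccBox p)) (hV : Chk (vCopts p) (vCBox p)) (a x y q : ℝ)
    (ha0 : (p.a0 : ℝ) / 3000 ≤ a) (ha1 : a ≤ (p.a1 : ℝ) / 3000) (hy : 0 < y) (hyx : y ≤ x)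
    (hxy : x + y ≤ a) (hq : q ^ 2 ≤ x * y) :
    0 ≤ ECC a (p.lamR a) x y q (p.VcR a x) (p.VcR a y) (p.gcR a x) (p.gcR a y)
        (p.dlR a x) (p.dlR a y) ∧
    1 - x - y + 2 * q ≤ ECC a (p.lamR a) x y q (p.VcR a x) (p.VcR a y) (p.gcR a x) (p.gcR a y)
        (p.dlR a x) (p.dlR a y) := by
  simp only [Piece.ok, Bool.and_eq_true, decide_eq_true_eq] at hp
  obtain ⟨⟨⟨⟨⟨⟨⟨k1, k2⟩, k3⟩, k4⟩, k5⟩, k6⟩, k7⟩, k8⟩ := hp
  have K3 : (p.a1 : ℝ) < 3000 := by exact_mod_cast k3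
  have K6 : (0 : ℝ) ≤ p.ch := by exact_mod_cast k6
  have K7 : 750 * (3000 : ℝ) ^ 3 - 2 * p.ch * 3000 ^ 3 + p.ch * p.a1 * 3000 ^ 2
      + (p.ch : ℝ) ^ 2 * (p.a1 : ℝ) ^ 2 ≤ 0 := by exact_mod_cast k7
  have K8 : 0 ≤ 2 * (3000 : ℝ) ^ 3 - p.a1 * 3000 ^ 2 - 2 * p.ch * (p.a1 : ℝ) ^ 2 := by
    exact_mod_cast k8
  obtain ⟨σ, hσ⟩ : ∃ σ : ℝ, σ = x + y := ⟨_, rfl⟩
  obtain ⟨w, hw⟩ : ∃ w : ℝ, w = y / σ := ⟨_, rfl⟩
  have hx0 : 0 < x := lt_of_lt_of_le hy hyx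
  have hσ0 : 0 < σ := by rw [hσ]; linarith
  have hye : σ * w = y := by rw [hw]; field_simp
  have hxe : σ * (1 - w) = x := by
    have : σ * (1 - w) = σ - σ * w := by ring
    rw [this, hye, hσ]; ring
  have hw0 : 0 < w := by rw [hw]; exact div_pos hy hσ0
  have hw2 : w ≤ 1 / 2 := by
    rw [hw, div_le_iff₀ hσ0, hσ]; linarith
  have hw1 : w < 1 := by linarith
  have hσa : σ ≤ a := by rw [hσ]; exact hxy
  have hmem : (ccBox p).mem ![a, σ, w] := by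
    refine ⟨by simpa [ccBox] using ha0, by simpa [ccBox] using ha1, by simpa [ccBox] using hσ0.le,
      by simpa [ccBox] using hσa.trans ha1, by simpa [ccBox] using hw0.le, ?_⟩
    have : ((ccBox p).h2 : ℝ) / 3000 = 1 / 2 := by simp [ccBox]; norm_num
    rw [this]
    simpa using hw2
  have D := dat p a σ w
  have hA1 : (p.a1 : ℝ) / 3000 < 1 := by rw [div_lt_one (by norm_num)]; exact K3
  have hx1 : σ * (1 - w) < 1 := by rw [hxe]; linarith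
  have hy1 : σ * w < 1 := by rw [hye]; linarith
  have hq' : q ^ 2 ≤ (σ * (1 - w)) * (σ * w) := by rw [hxe, hye]; exact hq
  constructor
  · obtain ⟨es, hes, he⟩ := hN _ hmem
    simp only [ccNopts, CCE.N, List.mem_append, List.mem_singleton] at hes
    rcases hes with hes | hes
    · subst hes
      have h1 := he (p.cc v0 v1 v2).G (by simp)
      have h2 := he (p.cc v0 v1 v2).A (by simp)
      have h3 := he ((p.cc v0 v1 v2).A * (p.cc v0 v1 v2).G - (p.cc v0 v1 v2).σ * (p.cc v0 v1 v2).v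
        * (.int 1 - (p.cc v0 v1 v2).v) * (p.cc v0 v1 v2).D2 * (p.cc v0 v1 v2).D2
        * ((p.cc v0 v1 v2).V * (p.cc v0 v1 v2).U) * ((p.cc v0 v1 v2).V * (p.cc v0 v1 v2).U))
        (by simp)
      simp only [ev_sub, ev_mul, ev_int, ev_G D, ev_A D, ev_V D, ev_U D, ev_D2 D, D.hσ, D.hv,
        Int.cast_one] at h1 h2 h3
      have := cc_N (q := q) hσ0 hw0 hw1 hx1 hy1 hq' h1 h2 h3
      rwa [hxe, hye] at this
    · subst hes
      exact absurd (he _ (List.mem_singleton.mpr rfl)) (last_neg a σ w hσa)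
  · obtain ⟨es, hes, he⟩ := hE _ hmem
    simp only [ccEopts, CCE.E, List.mem_append, List.mem_cons, List.not_mem_nil, or_false] at hes
    have evM : ∀ z : Ex, ((p.cc v0 v1 v2).M z).ev ![a, σ, w] =
        (p.dlR a (σ * (1 - w)) + p.dlR a (σ * w) + p.lamR a
          - p.gcR a (σ * (1 - w)) - p.gcR a (σ * w))
        * GC a (p.lamR a) σ w (p.VcR a (σ * (1 - w))) (p.VcR a (σ * w))
          (p.gcR a (σ * (1 - w))) (p.gcR a (σ * w)) (p.dlR a (σ * (1 - w))) (p.dlR a (σ * w))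
        - (1 - σ * (1 - w)) * (1 - σ * w) * σ * z.ev ![a, σ, w] * z.ev ![a, σ, w] := by
      intro z
      simp only [CCE.M, ev_sub, ev_mul, ev_G D, ev_ch D, ev_D2 D, D.hσ]
    have hcases : es = [v1 - v0 - tau] ∨ (0 ≤ (p.cc v0 v1 v2).G.ev ![a, σ, w] ∧
        0 ≤ (p.cc v0 v1 v2).ch.ev ![a, σ, w] ∧
        ((0 ≤ (p.cc v0 v1 v2).u.ev ![a, σ, w] + (p.cc v0 v1 v2).u'.ev ![a, σ, w] ∧
          0 ≤ ((p.cc v0 v1 v2).M (p.cc v0 v1 v2).u).ev ![a, σ, w]) ∨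
        ((p.cc v0 v1 v2).u.ev ![a, σ, w] + (p.cc v0 v1 v2).u'.ev ![a, σ, w] ≤ 0 ∧
          0 ≤ ((p.cc v0 v1 v2).M (p.cc v0 v1 v2).u').ev ![a, σ, w]) ∨
        (0 ≤ ((p.cc v0 v1 v2).M (p.cc v0 v1 v2).u).ev ![a, σ, w] ∧
          0 ≤ ((p.cc v0 v1 v2).M (p.cc v0 v1 v2).u').ev ![a, σ, w]))) := by
      rcases hes with (hes | hes | hes) | hes
      · subst hes
        refine Or.inr ⟨he _ (by simp), he _ (by simp), Or.inl ⟨?_, he _ (by simp)⟩⟩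
        have := he ((p.cc v0 v1 v2).u + (p.cc v0 v1 v2).u') (by simp)
        rwa [ev_add] at this
      · subst hes
        refine Or.inr ⟨he _ (by simp), he _ (by simp), Or.inr (Or.inl ⟨?_, he _ (by simp)⟩)⟩
        have := he (.int 0 - (p.cc v0 v1 v2).u - (p.cc v0 v1 v2).u') (by simp)
        rw [ev_sub, ev_sub, ev_int, Int.cast_zero] at this
        linarith
      · subst hes
        exact Or.inr ⟨he _ (by simp), he _ (by simp), Or.inr (Or.inr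
          ⟨he _ (by simp), he _ (by simp)⟩)⟩
      · exact Or.inl hes
    rcases hcases with hes | ⟨h1, h2, h3⟩
    · subst hes
      exact absurd (he _ (List.mem_singleton.mpr rfl)) (last_neg a σ w hσa)
    · rw [ev_G D] at h1
      rw [ev_ch D] at h2
      rw [evM, evM] at h3
      have hVx : 0 ≤ p.VcR a (σ * (1 - w)) := by
        rw [hxe]; exact vc_nonneg p hV a x ha0 ha1 hx0.le (by linarith)
      have hVy : 0 ≤ p.VcR a (σ * w) := by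
        rw [hye]; exact vc_nonneg p hV a y ha0 ha1 hy.le (by linarith)
      obtain ⟨A, hA⟩ : ∃ A : ℝ, A = (p.a1 : ℝ) / 3000 := ⟨_, rfl⟩
      obtain ⟨c, hc⟩ : ∃ c : ℝ, c = (p.ch : ℝ) / 3000 := ⟨_, rfl⟩
      have eA : (p.a1 : ℝ) = 3000 * A := by rw [hA]; ring
      have ec : (p.ch : ℝ) = 3000 * c := by rw [hc]; ring
      have c0 : 0 ≤ c := by rw [hc]; positivity
      have M7 : 1 / 4 - 2 * c + c * A + c ^ 2 * A ^ 2 ≤ 0 := by
        rw [eA, ec] at K7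
        have : (3000 : ℝ) ^ 4 * (1 / 4 - 2 * c + c * A + c ^ 2 * A ^ 2) ≤ 0 := by
          refine le_trans (le_of_eq ?_) K7
          ring
        by_contra hcon
        have : 0 < (3000 : ℝ) ^ 4 * (1 / 4 - 2 * c + c * A + c ^ 2 * A ^ 2) :=
          mul_pos (by norm_num) (not_le.mp hcon)
        linarith
      have M8 : 0 ≤ 1 - A / 2 - c * A ^ 2 := by
        rw [eA, ec] at K8
        have : 0 ≤ 2 * (3000 : ℝ) ^ 3 * (1 - A / 2 - c * A ^ 2) := by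
          refine le_trans K8 (le_of_eq ?_)
          ring
        by_contra hcon
        have : 2 * (3000 : ℝ) ^ 3 * (1 - A / 2 - c * A ^ 2) < 0 :=
          mul_neg_of_pos_of_neg (by norm_num) (not_le.mp hcon)
        linarith
      have key7 : ∀ z : ℝ, 0 ≤ z → z ≤ A → 1 / 4 - 2 * c + c * z + c ^ 2 * z ^ 2 ≤ 0 := by
        intro z hz hzA
        have e1 : c * z ≤ c * A := mul_le_mul_of_nonneg_left hzA c0
        have e2 : c ^ 2 * z ^ 2 ≤ c ^ 2 * A ^ 2 :=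
          mul_le_mul_of_nonneg_left (pow_le_pow_left₀ hz hzA 2) (sq_nonneg c)
        linarith
      have key8 : ∀ z : ℝ, 0 ≤ z → z ≤ A → 0 ≤ 1 - z / 2 - c * z ^ 2 := by
        intro z hz hzA
        have e2 : c * z ^ 2 ≤ c * A ^ 2 :=
          mul_le_mul_of_nonneg_left (pow_le_pow_left₀ hz hzA 2) c0
        linarith
      have xA : x ≤ A := by rw [hA]; linarith
      have yA : y ≤ A := by rw [hA]; linarith
      have := cc_E2 (q := q) (c := c) (W1 := evalR p.W (σ * (1 - w)) (p.t a))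
        (W2 := evalR p.W (σ * w) (p.t a)) hσ0 hw0 hw1 hx1 hy1 rfl rfl hq' hVx hVy c0
        (by rw [hxe]; exact key7 x hx0.le xA) (by rw [hye]; exact key7 y hy.le yA)
        (by rw [hxe]; exact key8 x hx0.le xA) (by rw [hye]; exact key8 y hy.le yA)
        ((p.cc v0 v1 v2).Z1.ev ![a, σ, w]) ((p.cc v0 v1 v2).Z2.ev ![a, σ, w])
        ((p.cc v0 v1 v2).Y1.ev ![a, σ, w]) ((p.cc v0 v1 v2).Y2.ev ![a, σ, w])
        ((p.cc v0 v1 v2).u.ev ![a, σ, w]) ((p.cc v0 v1 v2).u'.ev ![a, σ, w])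
        (by rw [ev_Z1 D, hc]) (by rw [ev_Z2 D, hc]) (ev_Y1 D) (ev_Y2 D) (ev_u D) (ev_u' D)
        h1 h2 h3
      rwa [hxe, hye] at this

end Pool.Agent.T2H40.BR
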