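import Pool.Agent.T2H40.BR.Pkg.R1
import Pool.Agent.T2H40.BR.Build

/-!
# Package L2: types `C`, `S`, from the checked polynomials to the inequalities

`w = √(r / (1 - x)) ≤ 1`. Nonedge: `cs_N` at `(a, x, r)`. Edge: `x ≤ e1`, `2 e1 ≤ w`: `(a, x, w)`;
`x ≤ e1`, `w ≤ 2 e1` (empty if `4 e1 ^ 2 < lo`): `w ≤ 2 x`: `η = w / x`; `2 x ≤ w`: `y = w - 2 x`;
`x ≥ e1`: `(a, a - x, w)` or `(a, x, w)`. The options of `CSE.E`: `cs_EB` with `s = 0, 1/2, 1, 2`, `cs_EA` (first alternative),
`cs_EA` (second alternative, uses the nonedge inequality); of `CSE.Es`: `cs_EA` (divide by `x ^ 2`,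
`x`), `cs_EB'`.
-/

set_option autoImplicit false

namespace Pool.Agent.T2H40.BR

namespace L2aux

variable (v : Fin 3 → ℝ)

lemma ev_add (a b : Ex) : (a + b).ev v = a.ev v + b.ev v := rfl
lemma ev_sub (a b : Ex) : (a - b).ev v = a.ev v - b.ev v := rfl
lemma ev_mul (a b : Ex) : (a * b).ev v = a.ev v * b.ev v := rfl
lemma ev_int (n : ℤ) : (Ex.int n).ev v = (n : ℝ) := rfl
lemma ev_cst (n : ℤ) : (Ex.cst n).ev v = (n : ℝ) / 3000 := rfl
lemma ev_var (i : Fin 3) : (Ex.var i).ev v = v i := rfl

lemma ev_tau : (0 : ℝ) < tau.ev v := by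
  unfold tau
  rw [ev_mul, ev_mul, ev_cst]
  norm_num

lemma Kn_ev (D : CSE) : D.Kn.ev v =
    Kn (D.a.ev v) (D.r.ev v) (D.gs.ev v) (D.dl.ev v) (D.An.ev v) (D.Ad.ev v) := by
  unfold CSE.Kn Kn
  simp only [ev_add, ev_sub, ev_mul, ev_int, Int.cast_one]

lemma Gn_ev (D : CSE) : D.Gn.ev v =
    Gn (D.a.ev v) (D.x.ev v) (D.r.ev v) (D.Vc.ev v) (D.Vs.ev v) (D.gc.ev v) (D.gs.ev v)
      (D.dl.ev v) (D.An.ev v) (D.Ad.ev v) := by
  unfold CSE.Gn Gn
  simp only [ev_add, ev_sub, ev_mul, ev_int, Int.cast_one]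

lemma L1_ev (D : CSE) (w : Ex) : (D.L1 w).ev v =
    1 - (1 - D.x.ev v) * w.ev v * D.Vc.ev v * D.Vs.ev v := by
  unfold CSE.L1
  simp only [ev_sub, ev_mul, ev_int, Int.cast_one]

/-- `ECS` from expressions -/
noncomputable def ecs (D : CSE) (q : ℝ) : ℝ :=
  ECS (D.a.ev v) (D.x.ev v) (D.r.ev v) q (D.Vc.ev v) (D.Vs.ev v) (D.gc.ev v) (D.gs.ev v)
      (D.dl.ev v) (D.An.ev v) (D.Ad.ev v)

lemma nonedge (D : CSE) (q : ℝ) (hx : 0 < D.x.ev v) (hx1 : D.x.ev v < 1) (hr : 0 ≤ D.r.ev v)
    (hAd : 0 < D.Ad.ev v) (hq : q ^ 2 ≤ (1 - D.x.ev v) * D.r.ev v) (es : List Ex)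
    (hes : es ∈ D.N) (h : ∀ e ∈ es, 0 ≤ e.ev v) : 0 ≤ ecs v D q := by
  unfold CSE.N at hes
  simp only [List.mem_cons, List.not_mem_nil, or_false] at hes
  unfold ecs
  refine cs_N hx hx1 hr hAd hq ?_
  rcases hes with rfl | rfl
  · left
    simp only [List.mem_cons, List.not_mem_nil, or_false, forall_eq_or_imp, forall_eq,
      ev_sub, ev_mul, ev_int, Kn_ev, Gn_ev, Int.cast_one] at h
    exact h
  · right
    simp only [List.mem_cons, List.not_mem_nil, or_false, forall_eq_or_imp, forall_eq, ev_add,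
      ev_sub, ev_mul, ev_int, Kn_ev, Gn_ev, Int.cast_one, Int.cast_ofNat] at h
    exact h

lemma edgeB (D : CSE) (w s : Ex) (q : ℝ) (hx : 0 < D.x.ev v) (hx1 : D.x.ev v < 1)
    (hw : 0 ≤ w.ev v) (hs : 0 ≤ s.ev v) (hr : D.r.ev v = (1 - D.x.ev v) * w.ev v * w.ev v)
    (hAd : 0 < D.Ad.ev v) (hq : q ^ 2 ≤ (1 - D.x.ev v) * D.r.ev v)
    (h : ∀ e ∈ D.B w s, 0 ≤ e.ev v) : D.r.ev v - D.x.ev v + 2 * q ≤ ecs v D q := by
  unfold CSE.B at h
  simp only [List.mem_cons, List.not_mem_nil, or_false, forall_eq_or_imp, forall_eq, ev_add,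
      ev_sub, ev_mul, ev_int, Kn_ev, Gn_ev, L1_ev, Int.cast_one] at h
  obtain ⟨h1, h2, h3⟩ := h
  exact cs_EB hx hx1 hw hs hr hAd hq h1 h2 h3

lemma edge (D : CSE) (w : Ex) (q : ℝ) (hx : 0 < D.x.ev v) (hx1 : D.x.ev v < 1)
    (hw : 0 ≤ w.ev v) (hr : D.r.ev v = (1 - D.x.ev v) * w.ev v * w.ev v)
    (hAd : 0 < D.Ad.ev v) (hq : q ^ 2 ≤ (1 - D.x.ev v) * D.r.ev v)
    (hN : 0 ≤ ecs v D q) (es : List Ex) (hes : es ∈ D.E w)
    (h : ∀ e ∈ es, 0 ≤ e.ev v) : D.r.ev v - D.x.ev v + 2 * q ≤ ecs v D q := by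
  unfold CSE.E at hes
  simp only [List.mem_cons, List.not_mem_nil, or_false] at hes
  rcases hes with rfl | rfl | rfl | rfl | rfl | rfl
  · exact edgeB v D w _ q hx hx1 hw (by rw [ev_int]; norm_num) hr hAd hq h
  · unfold CSE.A2 CSE.A3 at h
    simp only [List.mem_cons, List.not_mem_nil, or_false, forall_eq_or_imp, forall_eq, ev_add,
      ev_sub, ev_mul, ev_int, Kn_ev, Gn_ev, L1_ev, Int.cast_one, Int.cast_ofNat] at h
    obtain ⟨h1, h2, h3, h4, h5⟩ := h
    exact cs_EA hx hx1 hw hr hAd hq (Or.inl ⟨h1, h2⟩) h3 h4 h5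
  · exact edgeB v D w _ q hx hx1 hw (by rw [ev_cst]; norm_num) hr hAd hq h
  · exact edgeB v D w _ q hx hx1 hw (by rw [ev_int]; norm_num) hr hAd hq h
  · exact edgeB v D w _ q hx hx1 hw (by rw [ev_int]; norm_num) hr hAd hq h
  · unfold CSE.A2 CSE.A3 at h
    simp only [List.mem_cons, List.not_mem_nil, or_false, forall_eq_or_imp, forall_eq, ev_add,
      ev_sub, ev_mul, ev_int, Kn_ev, Gn_ev, L1_ev, Int.cast_one, Int.cast_ofNat] at h
    obtain ⟨h1, h3, h4, h5⟩ := h
    exact cs_EA hx hx1 hw hr hAd hq (Or.inr ⟨by linarith, hN⟩) h3 h4 h5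

lemma edges (D : CSE) (t : Ex) (q : ℝ) (hx : 0 < D.x.ev v) (hx1 : D.x.ev v < 1)
    (ht : 0 ≤ t.ev v)
    (hr : D.r.ev v = (1 - D.x.ev v) * (t.ev v * D.x.ev v) * (t.ev v * D.x.ev v))
    (hAd : 0 < D.Ad.ev v) (hq : q ^ 2 ≤ (1 - D.x.ev v) * D.r.ev v)
    (es : List Ex) (hes : es ∈ D.Es t)
    (h : ∀ e ∈ es, 0 ≤ e.ev v) : D.r.ev v - D.x.ev v + 2 * q ≤ ecs v D q := by
  unfold CSE.Es at hes
  simp only [List.mem_cons, List.not_mem_nil, or_false] at hes
  rcases hes with rfl | rfl
  · simp only [List.mem_cons, List.not_mem_nil, or_false, forall_eq_or_imp, forall_eq, ev_add,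
      ev_sub, ev_mul, ev_int, Kn_ev, Gn_ev, L1_ev, Int.cast_one, Int.cast_ofNat] at h
    obtain ⟨h1, h2, h3, h4, h5⟩ := h
    unfold ecs
    refine cs_EA (w := t.ev v * D.x.ev v) hx hx1 (by positivity) hr hAd hq (Or.inl ⟨h1, h2⟩) h3 ?_ ?_
    · have := mul_nonneg (mul_nonneg hx.le hx.le) h4
      calc (0 : ℝ) ≤ _ := this
        _ = _ := by ring
    · have := mul_nonneg hx.le h5
      calc (0 : ℝ) ≤ _ := this
        _ = _ := by ring
  · simp only [List.mem_cons, List.not_mem_nil, or_false, forall_eq_or_imp, forall_eq, ev_add,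
      ev_sub, ev_mul, ev_int, Kn_ev, Gn_ev, Int.cast_one, Int.cast_zero, Int.cast_ofNat] at h
    obtain ⟨h1, h2, h3⟩ := h
    exact cs_EB' hx hx1 ht hr hAd hq h1 h2 h3

lemma Ad_ev (p : Piece) (c : SCls) (A X R : Ex) :
    (p.cs c A X R).Ad.ev v = c.AdR (A.ev v) (R.ev v) := by
  show (AdE c.kd A R).ev v = c.AdR (A.ev v) (R.ev v)
  unfold AdE SCls.AdR
  rcases c.kd with _ | _ | k
  · simp only [ev_sub, ev_int, Int.cast_one]
  · rfl
  · rfl

/-- the values of the data of a pair -/
lemma ecs_cs (p : Piece) (c : SCls) (A X R : Ex) (q : ℝ) :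
    ecs v (p.cs c A X R) q = ECS (A.ev v) (X.ev v) (R.ev v) q (p.VcR (A.ev v) (X.ev v))
      (c.VR p (A.ev v) (R.ev v)) (p.gcR (A.ev v) (X.ev v)) (c.gR p (A.ev v) (R.ev v))
      (p.dlR (A.ev v) (X.ev v)) (c.AnR p (A.ev v) (R.ev v)) (c.AdR (A.ev v) (R.ev v)) := by
  have hAd : (AdE c.kd A R).ev v = c.AdR (A.ev v) (R.ev v) := Ad_ev v p c A X R
  have ht : (A - Ex.cst p.a0).ev v = p.t (A.ev v) := rfl
  unfold ecs Piece.cs
  simp only [evalE_ev, ev_sub, ev_mul, ev_int, Int.cast_one, ht, hAd]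
  rfl

end L2aux

open L2aux

theorem cs_of_chk (p : Piece) (hp : p.ok = true) (c : SCls) (hc : c.ok = true)
    (hN : Chk (csNopts p c) (csNBox p c)) (hE : Chk (csEopts p c) (csEBox p c))
    (hu : Chk (csEuopts p c) (csEuBox p))
    (ht : 4 * p.e1 ^ 2 < 3000 * c.lo ∨ Chk (csEtopts p c) (csEtBox p))
    (hs : 4 * p.e1 ^ 2 < 3000 * c.lo ∨ Chk (csEsopts p c) (csEsBox p)) (a x r q : ℝ)
    (ha0 : (p.a0 : ℝ) / 3000 ≤ a) (ha1 : a ≤ (p.a1 : ℝ) / 3000) (hx : 0 < x) (hxa : x ≤ a)
    (hr : 0 ≤ r) (hra : r ≤ a) (hrx : r ≤ 1 - x) (hlo : (c.lo : ℝ) / 3000 ≤ r)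
    (hhi : r ≤ (c.hi : ℝ) / 3000) (hq : q ^ 2 ≤ (1 - x) * r) :
    0 ≤ ECS a x r q (p.VcR a x) (c.VR p a r) (p.gcR a x) (c.gR p a r) (p.dlR a x)
        (c.AnR p a r) (c.AdR a r) ∧
    r - x + 2 * q ≤ ECS a x r q (p.VcR a x) (c.VR p a r) (p.gcR a x) (c.gR p a r) (p.dlR a x)
        (c.AnR p a r) (c.AdR a r) := by
  unfold Piece.ok at hp
  simp only [Bool.and_eq_true, decide_eq_true_eq] at hp
  obtain ⟨⟨⟨⟨⟨⟨⟨p1, p2⟩, p3⟩, p4⟩, p5⟩, p6⟩, -⟩, -⟩ := hp
  unfold SCls.ok at hc
  simp only [Bool.and_eq_true, Bool.or_eq_true, decide_eq_true_eq] at hc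
  obtain ⟨⟨c1, c2⟩, c3⟩ := hc
  have p1' : (0 : ℝ) < p.a0 := by exact_mod_cast p1
  have p3' : (p.a1 : ℝ) < 3000 := by exact_mod_cast p3
  have p4' : (0 : ℝ) < p.e1 := by exact_mod_cast p4
  have hx1 : x < 1 := by
    have : (p.a1 : ℝ) / 3000 < 1 := by rw [div_lt_one (by norm_num)]; exact p3'
    linarith
  have h1x : 0 < 1 - x := by linarith
  have ha : 0 < a := by
    have : (0 : ℝ) < p.a0 / 3000 := by positivity
    linarith
  have hAd : 0 < c.AdR a r := by
    unfold SCls.AdR
    rcases hk : c.kd with _ | _ | k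
    · simp only; linarith
    · exact ha
    · have hlo' : (0 : ℝ) < c.lo := by
        rcases c3 with h | h
        · omega
        · exact_mod_cast h
      have : (0 : ℝ) < c.lo / 3000 := by positivity
      exact mul_pos ha (by linarith)
  -- nonedge
  have hnon : 0 ≤ ECS a x r q (p.VcR a x) (c.VR p a r) (p.gcR a x) (c.gR p a r) (p.dlR a x)
        (c.AnR p a r) (c.AdR a r) := by
    have hmem : (csNBox p c).mem ![a, x, r] := by
      refine ⟨ha0, ha1, ?_, ?_, hlo, hhi⟩
      · simp only [csNBox]; simpa using hx.le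
      · exact hxa.trans ha1
    obtain ⟨es, hes, h⟩ := hN _ hmem
    have htau := ev_tau ![a, x, r]
    unfold csNopts at hes
    rw [List.mem_append] at hes
    rcases hes with hes | hes
    · have := nonedge ![a, x, r] (p.cs c v0 v1 v2) q hx hx1 hr (by
        rw [Ad_ev]; exact hAd) hq es hes h
      rw [ecs_cs] at this
      exact this
    · exfalso
      simp only [List.mem_cons, List.not_mem_nil, or_false] at hes
      rcases hes with rfl | rfl | rfl
      · have := h _ (List.mem_singleton_self _)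
        have h2 : (v1 - v0 - tau).ev ![a, x, r] = x - a - tau.ev ![a, x, r] := rfl
        linarith
      · have := h _ (List.mem_singleton_self _)
        have h2 : (v1 + v2 - .int 1 - tau).ev ![a, x, r] = x + r - ((1 : ℤ) : ℝ) - tau.ev ![a, x, r] := rfl
        rw [Int.cast_one] at h2
        linarith
      · have := h _ (List.mem_singleton_self _)
        have h2 : (v2 - v0 - tau).ev ![a, x, r] = r - a - tau.ev ![a, x, r] := rfl
        linarith
  refine ⟨hnon, ?_⟩
  -- the edge inequality; `w = √(r / (1 - x))`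
  obtain ⟨w, hw, hrw⟩ : ∃ w : ℝ, 0 ≤ w ∧ r = (1 - x) * w * w := by
    refine ⟨Real.sqrt (r / (1 - x)), Real.sqrt_nonneg _, ?_⟩
    rw [mul_assoc, Real.mul_self_sqrt (by positivity)]
    field_simp
  have hw1 : w ≤ 1 := by
    by_contra hcon
    push Not at hcon
    have h1 : (1 - x) * 1 < (1 - x) * (w * w) := mul_lt_mul_of_pos_left (by nlinarith) h1x
    nlinarith
  -- expressions with the right values
  have main : ∀ (v : Fin 3 → ℝ) (X R W : Ex), v 0 = a → X.ev v = x → R.ev v = r → W.ev v = w →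
      ∀ es ∈ (p.cs c v0 X R).E W, (∀ e ∈ es, 0 ≤ e.ev v) →
      r - x + 2 * q ≤ ECS a x r q (p.VcR a x) (c.VR p a r) (p.gcR a x) (c.gR p a r) (p.dlR a x)
        (c.AnR p a r) (c.AdR a r) := by
    intro v X R W hv hX hR hW es hes h
    have hA : v0.ev v = a := hv
    have e1 : (p.cs c v0 X R).x.ev v = x := hX
    have e2 : (p.cs c v0 X R).r.ev v = r := hR
    have e3 := ecs_cs v p c v0 X R q
    rw [hA, hX, hR] at e3
    have h4 := edge v (p.cs c v0 X R) W q (by rw [e1]; exact hx) (by rw [e1]; exact hx1)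
      (by rw [hW]; exact hw) (by rw [e1, e2, hW]; exact hrw)
      (by rw [Ad_ev, hA, hR]; exact hAd) (by rw [e1, e2]; exact hq) (by rw [e3]; exact hnon)
      es hes h
    rw [e1, e2, e3] at h4
    exact h4
  rcases le_total x ((p.e1 : ℝ) / 3000) with hxe | hxe
  · rcases le_total ((2 * p.e1 : ℤ) / 3000 : ℝ) w with hwe | hwe
    · -- `2 e1 ≤ w`
      have hmem : (csEuBox p).mem ![a, x, w] := by
        refine ⟨ha0, ha1, ?_, hxe, hwe, ?_⟩
        · simp only [csEuBox]; simpa using hx.le
        · simp only [csEuBox]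
          have h6 : (((3000 : ℤ) : ℝ) / 3000) = 1 := by norm_num
          rw [h6]
          exact hw1
      obtain ⟨es, hes, h⟩ := hu _ hmem
      have htau := ev_tau ![a, x, w]
      have eR : ((.int 1 - v1) * v2 * v2 : Ex).ev ![a, x, w] = r := by
        have : ((.int 1 - v1) * v2 * v2 : Ex).ev ![a, x, w] = (((1 : ℤ) : ℝ) - x) * w * w := rfl
        rw [this, Int.cast_one, hrw]
      unfold csEuopts at hes
      simp only [List.mem_append] at hes
      rcases hes with hes | hes
      · exact main _ _ _ _ rfl rfl eR rfl es hes h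
      · exfalso
        simp only [List.mem_cons, List.not_mem_nil, or_false] at hes
        rcases hes with rfl | rfl | rfl
        · have := h _ (List.mem_singleton_self _)
          rw [ev_sub, ev_sub, eR] at this
          have h2 : v0.ev ![a, x, w] = a := rfl
          rw [h2] at this
          linarith
        · have := h _ (List.mem_singleton_self _)
          rw [ev_sub, ev_sub, eR, ev_cst] at this
          linarith
        · have := h _ (List.mem_singleton_self _)
          rw [ev_sub, ev_sub, eR, ev_cst] at this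
          linarith
    -- `w ≤ 2 e1`
    have hsmall : 4 * p.e1 ^ 2 < 3000 * c.lo → False := by
      intro hs
      have h1 : (4 : ℝ) * p.e1 ^ 2 < 3000 * c.lo := by exact_mod_cast hs
      push_cast at hwe
      have h2 : w * w ≤ (2 * (p.e1 : ℝ) / 3000) * (2 * (p.e1 : ℝ) / 3000) :=
        mul_le_mul hwe hwe hw (by positivity)
      have h4 : r ≤ w * w := by nlinarith [mul_nonneg hx.le (mul_nonneg hw hw)]
      have h5 : (2 * (p.e1 : ℝ) / 3000) * (2 * (p.e1 : ℝ) / 3000) = 4 * (p.e1 : ℝ) ^ 2 / 9000000 := by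
        ring
      rw [h5] at h2
      nlinarith
    rcases le_total w (2 * x) with hwx | hwx
    · -- star limit
      rcases hs with hs | hs
      · exact absurd hs hsmall
      · -- `η = w / x`
        have hmem : (csEsBox p).mem ![a, x, w / x] := by
          refine ⟨ha0, ha1, ?_, hxe, ?_, ?_⟩
          · simp only [csEsBox]; simpa using hx.le
          · simp only [csEsBox]
            have : 0 ≤ w / x := by positivity
            simpa using this
          · simp only [csEsBox]
            have : w / x ≤ 2 := by rw [div_le_iff₀ hx]; exact hwx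
            have h6 : (((6000 : ℤ) : ℝ) / 3000) = 2 := by norm_num
            rw [h6]; exact this
        obtain ⟨es, hes, h⟩ := hs _ hmem
        have hwx' : w / x * x = w := by field_simp
        have e0 : v0.ev ![a, x, w / x] = a := rfl
        have e1 : (p.cs c v0 v1 ((Ex.int 1 - v1) * (v2 * v1) * (v2 * v1))).x.ev ![a, x, w / x] = x := rfl
        have e2 : ((.int 1 - v1) * (v2 * v1) * (v2 * v1) : Ex).ev ![a, x, w / x] = r := by
          have : ((.int 1 - v1) * (v2 * v1) * (v2 * v1) : Ex).ev ![a, x, w / x] =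
            (((1 : ℤ) : ℝ) - x) * (w / x * x) * (w / x * x) := rfl
          rw [this, hwx', Int.cast_one, hrw]
        have e2' : (p.cs c v0 v1 ((Ex.int 1 - v1) * (v2 * v1) * (v2 * v1))).r.ev ![a, x, w / x] = r := e2
        have e3 := ecs_cs ![a, x, w / x] p c v0 v1 ((Ex.int 1 - v1) * (v2 * v1) * (v2 * v1)) q
        have e4 : v1.ev ![a, x, w / x] = x := rfl
        have e5 : v2.ev ![a, x, w / x] = w / x := rfl
        rw [e0, e4, e2] at e3
        have h4 := edges ![a, x, w / x] (p.cs c v0 v1 ((Ex.int 1 - v1) * (v2 * v1) * (v2 * v1))) v2 q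
          (by rw [e1]; exact hx) (by rw [e1]; exact hx1) (by rw [e5]; positivity)
          (by rw [e1, e2', e5, hwx']; exact hrw) (by rw [Ad_ev, e0, e2]; exact hAd)
          (by rw [e1, e2']; exact hq) es hes h
        rw [e1, e2', e3] at h4
        exact h4
    · -- small `x`, `y = w - 2 x`
      rcases ht with ht | ht
      · exact absurd ht hsmall
      have hmem : (csEtBox p).mem ![a, x, w - 2 * x] := by
        refine ⟨ha0, ha1, ?_, hxe, ?_, ?_⟩
        · simp only [csEtBox]; simpa using hx.le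
        · simp only [csEtBox]
          have : 0 ≤ w - 2 * x := by linarith
          simpa using this
        · simp only [csEtBox]
          show w - 2 * x ≤ ((2 * p.e1 : ℤ) : ℝ) / 3000
          linarith
      obtain ⟨es, hes, h⟩ := ht _ hmem
      have htau := ev_tau ![a, x, w - 2 * x]
      have eW : (.int 2 * v1 + v2 : Ex).ev ![a, x, w - 2 * x] = w := by
        have : (.int 2 * v1 + v2 : Ex).ev ![a, x, w - 2 * x] = ((2 : ℤ) : ℝ) * x + (w - 2 * x) := rfl
        rw [this]; push_cast; ring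
      have eR : ((.int 1 - v1) * (.int 2 * v1 + v2) * (.int 2 * v1 + v2) : Ex).ev
          ![a, x, w - 2 * x] = r := by
        rw [ev_mul, ev_mul, eW]
        have : (.int 1 - v1 : Ex).ev ![a, x, w - 2 * x] = ((1 : ℤ) : ℝ) - x := rfl
        rw [this, Int.cast_one, hrw]
      unfold csEtopts at hes
      simp only [List.mem_append] at hes
      rcases hes with hes | hes
      · exact main _ _ _ _ rfl rfl eR eW es hes h
      · exfalso
        simp only [List.mem_cons, List.not_mem_nil, or_false] at hes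
        rcases hes with rfl | rfl | rfl | rfl
        · have := h _ (List.mem_singleton_self _)
          rw [ev_sub, ev_sub, eR] at this
          have h2 : v0.ev ![a, x, w - 2 * x] = a := rfl
          rw [h2] at this
          linarith
        · have := h _ (List.mem_singleton_self _)
          rw [ev_sub, ev_sub, eR, ev_cst] at this
          linarith
        · have := h _ (List.mem_singleton_self _)
          rw [ev_sub, ev_sub, eR, ev_cst] at this
          linarith
        · have := h _ (List.mem_singleton_self _)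
          rw [ev_sub, ev_sub, eW, ev_int, Int.cast_one] at this
          linarith
  · -- large `x`
    have fin : ∀ (v : Fin 3 → ℝ) (X : Ex), v 0 = a → X.ev v = x → v 2 = w →
        ∀ es ∈ (p.cs c v0 X ((.int 1 - X) * v2 * v2)).E v2
          ++ [[(.int 1 - X) * v2 * v2 - v0 - tau], [.cst p.e1 - X - tau],
              [.cst c.lo - (.int 1 - X) * v2 * v2 - tau],
              [(.int 1 - X) * v2 * v2 - .cst c.hi - tau], [X - v0 - tau]],
        (∀ e ∈ es, 0 ≤ e.ev v) →
        r - x + 2 * q ≤ ECS a x r q (p.VcR a x) (c.VR p a r) (p.gcR a x) (c.gR p a r) (p.dlR a x)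
          (c.AnR p a r) (c.AdR a r) := by
      intro v X hv0 hX hv2 es hes h
      have e0 : v0.ev v = a := hv0
      have e2 : v2.ev v = w := hv2
      have htau := ev_tau v
      have eR : ((.int 1 - X) * v2 * v2 : Ex).ev v = r := by
        rw [ev_mul, ev_mul, ev_sub, ev_int, hX, e2, Int.cast_one, hrw]
      rw [List.mem_append] at hes
      rcases hes with hes | hes
      · exact main _ _ _ _ hv0 hX eR e2 es hes h
      · exfalso
        simp only [List.mem_cons, List.not_mem_nil, or_false] at hes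
        rcases hes with rfl | rfl | rfl | rfl | rfl
        · have := h _ (List.mem_singleton_self _)
          rw [ev_sub, ev_sub, eR, e0] at this
          linarith
        · have := h _ (List.mem_singleton_self _)
          rw [ev_sub, ev_sub, hX, ev_cst] at this
          linarith
        · have := h _ (List.mem_singleton_self _)
          rw [ev_sub, ev_sub, eR, ev_cst] at this
          linarith
        · have := h _ (List.mem_singleton_self _)
          rw [ev_sub, ev_sub, eR, ev_cst] at this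
          linarith
        · have := h _ (List.mem_singleton_self _)
          rw [ev_sub, ev_sub, hX, e0] at this
          linarith
    by_cases htc : tcOf p c = true
    · have hmem : (csEBox p c).mem ![a, a - x, w] := by
        unfold csEBox
        rw [if_pos htc]
        refine ⟨ha0, ha1, ?_, ?_, ?_, ?_⟩
        · simp only
          have : 0 ≤ a - x := by linarith
          simpa using this
        · simp only
          show a - x ≤ ((p.a1 - p.e1 : ℤ) : ℝ) / 3000
          push_cast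
          rw [sub_div]
          linarith
        · simp only; simpa using hw
        · simp only
          have h6 : (((3000 : ℤ) : ℝ) / 3000) = 1 := by norm_num
          rw [h6]
          exact hw1
      obtain ⟨es, hes, h⟩ := hE _ hmem
      unfold csEopts at hes
      rw [if_pos htc] at hes
      refine fin ![a, a - x, w] (v0 - v1) rfl ?_ rfl es hes h
      show a - (a - x) = x
      ring
    · have hmem : (csEBox p c).mem ![a, x, w] := by
        unfold csEBox
        rw [if_neg htc]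
        refine ⟨ha0, ha1, hxe, hxa.trans ha1, ?_, ?_⟩
        · simp only; simpa using hw
        · simp only
          have h6 : (((3000 : ℤ) : ℝ) / 3000) = 1 := by norm_num
          rw [h6]
          exact hw1
      obtain ⟨es, hes, h⟩ := hE _ hmem
      unfold csEopts at hes
      rw [if_neg htc] at hes
      exact fin ![a, x, w] v1 rfl rfl rfl es hes h

end Pool.Agent.T2H40.BR
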