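import Pool.Agent.T2H40.BR.Pkg.R2
import Pool.Agent.T2H40.BR.Build

/-!
# Package L3: types `S`, `S`, from the checked polynomials to the inequalities

`ss_N`, `ss_ET`, `ss_EB` (`t = 0, 1/2, 1`), `ss_EA`; `r + s ≤ a < 1`, so the first alternative of `h0`
(with the nonedge inequality) applies.
-/

set_option autoImplicit false

namespace Pool.Agent.T2H40.BR

namespace L3aux

theorem ev_add (a b : Ex) (v : Fin 3 → ℝ) : (a + b : Ex).ev v = a.ev v + b.ev v := rfl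
theorem ev_sub (a b : Ex) (v : Fin 3 → ℝ) : (a - b : Ex).ev v = a.ev v - b.ev v := rfl
theorem ev_mul (a b : Ex) (v : Fin 3 → ℝ) : (a * b : Ex).ev v = a.ev v * b.ev v := rfl
theorem ev_int (n : ℤ) (v : Fin 3 → ℝ) : (Ex.int n).ev v = (n : ℝ) := rfl
theorem ev_cst (n : ℤ) (v : Fin 3 → ℝ) : (Ex.cst n).ev v = (n : ℝ) / 3000 := rfl
theorem ev_v0 (v : Fin 3 → ℝ) : v0.ev v = v 0 := rfl
theorem ev_v1 (v : Fin 3 → ℝ) : v1.ev v = v 1 := rfl
theorem ev_v2 (v : Fin 3 → ℝ) : v2.ev v = v 2 := rfl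

theorem tau_pos (v : Fin 3 → ℝ) : 0 < tau.ev v := by
  change 0 < ((1 : ℤ) : ℝ) / 3000 * (((1 : ℤ) : ℝ) / 3000) * (((1 : ℤ) : ℝ) / 3000)
  norm_num

theorem SSE_G (e : SSE) (v : Fin 3 → ℝ) : e.G.ev v =
    SG (e.a.ev v) (e.lam.ev v) (e.r.ev v) (e.s.ev v) (e.V.ev v) (e.W.ev v) (e.g.ev v) (e.h.ev v)
      (e.An.ev v) (e.Ad.ev v) (e.Bn.ev v) (e.Bd.ev v) := by
  simp only [SSE.G, SG, ev_add, ev_sub, ev_mul]

theorem SSE_H (e : SSE) (v : Fin 3 → ℝ) : e.H.ev v =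
    SH (e.a.ev v) (e.lam.ev v) (e.r.ev v) (e.s.ev v) (e.g.ev v) (e.h.ev v)
      (e.An.ev v) (e.Ad.ev v) (e.Bn.ev v) (e.Bd.ev v) := by
  simp only [SSE.H, SH, ev_add, ev_sub, ev_mul, ev_int, Int.cast_one]

theorem genN (e : SSE) (v : Fin 3 → ℝ) (q : ℝ) (hr : 0 ≤ e.r.ev v) (hs : 0 ≤ e.s.ev v)
    (hAd : 0 < e.Ad.ev v) (hBd : 0 < e.Bd.ev v) (hq : q ^ 2 ≤ e.r.ev v * e.s.ev v)
    (h : ∃ es ∈ e.N, ∀ x ∈ es, 0 ≤ x.ev v) :
    0 ≤ ESS (e.a.ev v) (e.lam.ev v) (e.r.ev v) (e.s.ev v) q (e.V.ev v) (e.W.ev v) (e.g.ev v)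
      (e.h.ev v) (e.An.ev v) (e.Ad.ev v) (e.Bn.ev v) (e.Bd.ev v) := by
  obtain ⟨es, hes, hx⟩ := h
  refine ss_N hr hs hAd hBd hq ?_
  rw [← SSE_G, ← SSE_H]
  simp only [SSE.N, List.mem_cons, List.not_mem_nil, or_false] at hes
  rcases hes with rfl | rfl
  · left
    simp only [List.mem_cons, List.not_mem_nil, or_false, forall_eq_or_imp, forall_eq] at hx
    simpa only [ev_sub, ev_mul] using hx
  · right
    simp only [List.mem_cons, List.not_mem_nil, or_false, forall_eq_or_imp, forall_eq] at hx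
    simpa only [ev_sub, ev_mul, ev_add, ev_int, Int.cast_ofNat] using hx

theorem genE (e : SSE) (v : Fin 3 → ℝ) (q : ℝ) (hr : 0 ≤ e.r.ev v) (hs : 0 ≤ e.s.ev v)
    (hrs : e.r.ev v + e.s.ev v ≤ 1)
    (hAd : 0 < e.Ad.ev v) (hBd : 0 < e.Bd.ev v) (hq : q ^ 2 ≤ e.r.ev v * e.s.ev v)
    (hV : 0 ≤ e.V.ev v) (hW : 0 ≤ e.W.ev v)
    (h0 : 0 ≤ ESS (e.a.ev v) (e.lam.ev v) (e.r.ev v) (e.s.ev v) q (e.V.ev v) (e.W.ev v) (e.g.ev v)
      (e.h.ev v) (e.An.ev v) (e.Ad.ev v) (e.Bn.ev v) (e.Bd.ev v))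
    (h : ∃ es ∈ e.E, ∀ x ∈ es, 0 ≤ x.ev v) :
    e.r.ev v + e.s.ev v + 2 * q - 1 ≤
      ESS (e.a.ev v) (e.lam.ev v) (e.r.ev v) (e.s.ev v) q (e.V.ev v) (e.W.ev v) (e.g.ev v)
      (e.h.ev v) (e.An.ev v) (e.Ad.ev v) (e.Bn.ev v) (e.Bd.ev v) := by
  obtain ⟨es, hes, hx⟩ := h
  have hVW : 0 ≤ e.V.ev v * e.W.ev v := mul_nonneg hV hW
  have h1 : 0 ≤ 1 - e.r.ev v - e.s.ev v := by linarith
  have hr1 : e.r.ev v ≤ 1 := by linarith
  have hs1 : e.s.ev v ≤ 1 := by linarith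
  simp only [SSE.E, List.mem_cons, List.not_mem_nil, or_false] at hes
  rcases hes with rfl | rfl | rfl | rfl | rfl
  · simp only [List.mem_cons, List.not_mem_nil, or_false, forall_eq_or_imp, forall_eq] at hx
    simp only [ev_sub, ev_mul, ev_add, ev_int, Int.cast_ofNat, Int.cast_one] at hx
    exact ss_ET hr hs hq h0 h1 hx.2
  · simp only [SSE.B, List.mem_cons, List.not_mem_nil, or_false, forall_eq_or_imp, forall_eq] at hx
    simp only [SSE.Gp, SSE.c, ev_sub, ev_mul, ev_add, ev_int, Int.cast_ofNat, Int.cast_one, ev_cst,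
      SSE_G, SSE_H, Int.cast_zero] at hx
    exact ss_EB (t := 0) hr hs le_rfl hr1 hs1 hAd hBd hq hVW (Or.inl ⟨h1, h0⟩) hx.1 hx.2.1 hx.2.2
  · simp only [SSE.B, List.mem_cons, List.not_mem_nil, or_false, forall_eq_or_imp, forall_eq] at hx
    simp only [SSE.Gp, SSE.c, ev_sub, ev_mul, ev_add, ev_int, Int.cast_ofNat, Int.cast_one, ev_cst,
      SSE_G, SSE_H] at hx
    exact ss_EB (t := 1500 / 3000) hr hs (by norm_num) hr1 hs1 hAd hBd hq hVW (Or.inl ⟨h1, h0⟩) hx.1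
      hx.2.1 hx.2.2
  · simp only [SSE.B, List.mem_cons, List.not_mem_nil, or_false, forall_eq_or_imp, forall_eq] at hx
    simp only [SSE.Gp, SSE.c, ev_sub, ev_mul, ev_add, ev_int, Int.cast_ofNat, Int.cast_one, ev_cst,
      SSE_G, SSE_H] at hx
    exact ss_EB (t := 1) hr hs (by norm_num) hr1 hs1 hAd hBd hq hVW (Or.inl ⟨h1, h0⟩) hx.1 hx.2.1 hx.2.2
  · simp only [List.mem_cons, List.not_mem_nil, or_false, forall_eq_or_imp, forall_eq] at hx
    simp only [SSE.Th, SSE.Gp, SSE.c, ev_sub, ev_mul, ev_add, ev_int, Int.cast_ofNat, Int.cast_one, ev_cst,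
      SSE_G, SSE_H] at hx
    exact ss_EA hr hs hr1 hs1 hAd hBd hq hVW (Or.inl ⟨h1, h0⟩) hx.1 hx.2.1 hx.2.2

theorem AdE_ev (c : SCls) (a r : Ex) (v : Fin 3 → ℝ) :
    (AdE c.kd a r).ev v = c.AdR (a.ev v) (r.ev v) := by
  unfold AdE SCls.AdR
  rcases c.kd with _ | _ | n
  · simp only [ev_sub, ev_int, Int.cast_one]
  · rfl
  · rfl

theorem AdR_pos (c : SCls) (hc : c.ok = true) (a r : ℝ) (ha : 0 < a) (hr1 : r < 1)
    (hlo : (c.lo : ℝ) / 3000 ≤ r) : 0 < c.AdR a r := by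
  simp only [SCls.ok, Bool.and_eq_true, Bool.or_eq_true, decide_eq_true_eq] at hc
  obtain ⟨-, h2⟩ := hc
  unfold SCls.AdR
  rcases hk : c.kd with _ | _ | n
  · change 0 < 1 - r; linarith
  · exact ha
  · change 0 < a * r
    have hl : 0 < c.lo := by
      rcases h2 with h2 | h2
      · rw [hk] at h2; omega
      · exact h2
    have : (0 : ℝ) < c.lo := by exact_mod_cast hl
    have : 0 < r := lt_of_lt_of_le (by positivity) hlo
    positivity

section inst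

variable (p : Piece) (c c' : SCls) (ea er es : Ex) (v : Fin 3 → ℝ)

theorem i_lam : (p.ss c c' ea er es).lam.ev v = p.lamR (ea.ev v) := by
  change (evalE [p.lam] (.int 0) (ea - .cst p.a0)).ev v = _
  rw [evalE_ev]
  simp only [ev_int, Int.cast_zero, ev_sub, ev_cst]
  rfl

theorem i_V : (p.ss c c' ea er es).V.ev v = c.VR p (ea.ev v) (er.ev v) := evalE_ev _ _ _ _

theorem i_W : (p.ss c c' ea er es).W.ev v = c'.VR p (ea.ev v) (es.ev v) := evalE_ev _ _ _ _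

theorem i_g : (p.ss c c' ea er es).g.ev v = c.gR p (ea.ev v) (er.ev v) := evalE_ev _ _ _ _

theorem i_h : (p.ss c c' ea er es).h.ev v = c'.gR p (ea.ev v) (es.ev v) := evalE_ev _ _ _ _

theorem i_An : (p.ss c c' ea er es).An.ev v = c.AnR p (ea.ev v) (er.ev v) := evalE_ev _ _ _ _

theorem i_Bn : (p.ss c c' ea er es).Bn.ev v = c'.AnR p (ea.ev v) (es.ev v) := evalE_ev _ _ _ _

theorem i_Ad : (p.ss c c' ea er es).Ad.ev v = c.AdR (ea.ev v) (er.ev v) := AdE_ev _ _ _ _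

theorem i_Bd : (p.ss c c' ea er es).Bd.ev v = c'.AdR (ea.ev v) (es.ev v) := AdE_ev _ _ _ _

end inst

end L3aux

open L3aux

theorem ss_of_chk (p : Piece) (hp : p.ok = true) (c c' : SCls) (hc : c.ok = true)
    (hc' : c'.ok = true) (hN : Chk (ssNopts p c c') (ssNBox p c c'))
    (hE : Chk (ssEopts p c c') (ssEBox p)) (hV : Chk (vSopts p c) (vSBox p c))
    (hV' : Chk (vSopts p c') (vSBox p c')) (a r s q : ℝ)
    (ha0 : (p.a0 : ℝ) / 3000 ≤ a) (ha1 : a ≤ (p.a1 : ℝ) / 3000) (hs0 : 0 ≤ s) (hsr : s ≤ r)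
    (hrs : r + s ≤ a) (hlo : (c.lo : ℝ) / 3000 ≤ r) (hhi : r ≤ (c.hi : ℝ) / 3000)
    (hlo' : (c'.lo : ℝ) / 3000 ≤ s) (hhi' : s ≤ (c'.hi : ℝ) / 3000) (hq : q ^ 2 ≤ r * s) :
    0 ≤ ESS a (p.lamR a) r s q (c.VR p a r) (c'.VR p a s) (c.gR p a r) (c'.gR p a s)
        (c.AnR p a r) (c.AdR a r) (c'.AnR p a s) (c'.AdR a s) ∧
    r + s + 2 * q - 1 ≤ ESS a (p.lamR a) r s q (c.VR p a r) (c'.VR p a s) (c.gR p a r)
        (c'.gR p a s) (c.AnR p a r) (c.AdR a r) (c'.AnR p a s) (c'.AdR a s) := by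
  simp only [Piece.ok, Bool.and_eq_true, decide_eq_true_eq] at hp
  obtain ⟨⟨⟨⟨⟨⟨⟨hp1, hp2⟩, hp3⟩, hp4⟩, hp5⟩, hp6⟩, -⟩, -⟩ := hp
  have ha : 0 < a := by
    have : (0 : ℝ) < p.a0 := by exact_mod_cast hp1
    exact lt_of_lt_of_le (by positivity) ha0
  have ha' : a < 1 := by
    have : (p.a1 : ℝ) < 3000 := by exact_mod_cast hp3
    linarith
  have hr0 : 0 ≤ r := hs0.trans hsr
  have hAd : 0 < c.AdR a r := AdR_pos c hc a r ha (by linarith) hlo
  have hBd : 0 < c'.AdR a s := AdR_pos c' hc' a s ha (by linarith) hlo'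
  -- positivity of `V`
  have hVr : ∀ (k : SCls), Chk (vSopts p k) (vSBox p k) → ∀ x : ℝ, (k.lo : ℝ) / 3000 ≤ x →
      x ≤ (k.hi : ℝ) / 3000 → 0 ≤ k.VR p a x := by
    intro k hk x hx1 hx2
    have z1 : (((0 : ℤ) : ℝ)) / 3000 ≤ 0 := by norm_num
    have z2 : (0 : ℝ) ≤ (((3000 : ℤ) : ℝ)) / 3000 := by norm_num
    obtain ⟨es, hes, hall⟩ := hk ![a, x, 0] ⟨ha0, ha1, hx1, hx2, z1, z2⟩
    simp only [vSopts, List.mem_cons, List.not_mem_nil, or_false] at hes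
    subst hes
    have := hall _ (List.mem_cons_self ..)
    rw [evalE_ev] at this
    exact this
  have hVR := hVr c hV r hlo hhi
  have hWR := hVr c' hV' s hlo' hhi'
  -- nonedge inequality
  have key0 : 0 ≤ ESS a (p.lamR a) r s q (c.VR p a r) (c'.VR p a s) (c.gR p a r) (c'.gR p a s)
        (c.AnR p a r) (c.AdR a r) (c'.AnR p a s) (c'.AdR a s) := by
    obtain ⟨es, hes, hall⟩ := hN ![a, r, s] ⟨ha0, ha1, hlo, hhi, hlo', hhi'⟩
    rw [ssNopts, List.mem_append] at hes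
    rcases hes with hes | hes
    · have := genN (p.ss c c' v0 v1 v2) ![a, r, s] q hr0 hs0 (by rw [i_Ad]; exact hAd)
        (by rw [i_Bd]; exact hBd) hq ⟨es, hes, hall⟩
      rw [i_lam, i_V, i_W, i_g, i_h, i_An, i_Bn, i_Ad, i_Bd] at this
      exact this
    · exfalso
      simp only [List.mem_cons, List.not_mem_nil, or_false] at hes
      rcases hes with rfl | rfl
      · have h1 := hall _ (List.mem_cons_self ..)
        have h2 := tau_pos ![a, r, s]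
        have h3 : 0 ≤ r + s - a - tau.ev ![a, r, s] := h1
        linarith
      · have h1 := hall _ (List.mem_cons_self ..)
        have h2 := tau_pos ![a, r, s]
        have h3 : 0 ≤ s - r - tau.ev ![a, r, s] := h1
        linarith
  refine ⟨key0, ?_⟩
  -- edge inequality, in general coordinates
  have main : ∀ (w : Fin 3 → ℝ) (er es : Ex), er.ev w = r → es.ev w = s → w 0 = a →
      (∃ l ∈ (p.ss c c' v0 er es).E ++ [[.int 0 - es - tau], [.cst c.lo - er - tau], [er - .cst c.hi - tau],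
      [.cst c'.lo - es - tau], [es - .cst c'.hi - tau], [er + es - v0 - tau], [es - er - tau]],
        ∀ e ∈ l, 0 ≤ e.ev w) →
      r + s + 2 * q - 1 ≤ ESS a (p.lamR a) r s q (c.VR p a r) (c'.VR p a s) (c.gR p a r)
        (c'.gR p a s) (c.AnR p a r) (c.AdR a r) (c'.AnR p a s) (c'.AdR a s) := by
    intro w er es h1 h2 h3 h
    obtain ⟨l, hl, hall⟩ := h
    have h3' : v0.ev w = a := h3
    rw [List.mem_append] at hl
    rcases hl with hl | hl
    · have := genE (p.ss c c' v0 er es) w q (by change 0 ≤ er.ev w; rw [h1]; exact hr0)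
        (by change 0 ≤ es.ev w; rw [h2]; exact hs0)
        (by change er.ev w + es.ev w ≤ 1; rw [h1, h2]; linarith)
        (by rw [i_Ad, h1, h3']; exact hAd) (by rw [i_Bd, h2, h3']; exact hBd)
        (by change q ^ 2 ≤ er.ev w * es.ev w; rw [h1, h2]; exact hq)
        (by rw [i_V, h1, h3']; exact hVR) (by rw [i_W, h2, h3']; exact hWR)
        (by
          rw [i_lam, i_V, i_W, i_g, i_h, i_An, i_Bn, i_Ad, i_Bd]
          change 0 ≤ ESS (v0.ev w) (p.lamR (v0.ev w)) (er.ev w) (es.ev w) q _ _ _ _ _ _ _ _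
          rw [h1, h2, h3']
          exact key0) ⟨l, hl, hall⟩
      rw [i_lam, i_V, i_W, i_g, i_h, i_An, i_Bn, i_Ad, i_Bd] at this
      change er.ev w + es.ev w + 2 * q - 1 ≤
        ESS (v0.ev w) (p.lamR (v0.ev w)) (er.ev w) (es.ev w) q _ _ _ _ _ _ _ _ at this
      rw [h1, h2, h3'] at this
      exact this
    · exfalso
      have h2' := tau_pos w
      simp only [List.mem_cons, List.not_mem_nil, or_false] at hl
      rcases hl with rfl | rfl | rfl | rfl | rfl | rfl | rfl <;>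
      · have h5 := hall _ (List.mem_cons_self ..)
        simp only [ev_sub, ev_add, ev_int, ev_cst, h1, h2, h3', Int.cast_zero] at h5
        linarith
  have hE' := hE
  unfold ssEopts ssEBox at hE'
  rcases htc : p.tc with _ | _
  · rw [htc] at hE'
    have h6 : (p.a1 : ℝ) ≤ 2 * (((p.a1 + 1) / 2 : ℤ) : ℝ) := by
      have : p.a1 ≤ 2 * ((p.a1 + 1) / 2) := by omega
      exact_mod_cast this
    refine main ![a, r, s] v1 v2 rfl rfl rfl (hE' ![a, r, s] ⟨ha0, ha1, ?_, ?_, ?_, ?_⟩)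
    · change (((0 : ℤ) : ℝ)) / 3000 ≤ r
      rw [Int.cast_zero, zero_div]; exact hr0
    · change r ≤ (p.a1 : ℝ) / 3000
      linarith
    · change (((0 : ℤ) : ℝ)) / 3000 ≤ s
      rw [Int.cast_zero, zero_div]; exact hs0
    · change s ≤ (((p.a1 + 1) / 2 : ℤ) : ℝ) / 3000
      linarith
  · rw [htc] at hE'
    refine main ![a, a - r - s, r - s] (.cst 1500 * (v0 - v1 + v2)) (.cst 1500 * (v0 - v1 - v2)) ?_ ?_ rfl
      (hE' ![a, a - r - s, r - s] ⟨ha0, ha1, ?_, ?_, ?_, ?_⟩)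
    · change ((1500 : ℤ) : ℝ) / 3000 * (a - (a - r - s) + (r - s)) = r
      push_cast; ring
    · change ((1500 : ℤ) : ℝ) / 3000 * (a - (a - r - s) - (r - s)) = s
      push_cast; ring
    · change (((0 : ℤ) : ℝ)) / 3000 ≤ a - r - s
      rw [Int.cast_zero, zero_div]; linarith
    · change a - r - s ≤ (p.a1 : ℝ) / 3000
      linarith
    · change (((0 : ℤ) : ℝ)) / 3000 ≤ r - s
      rw [Int.cast_zero, zero_div]; linarith
    · change r - s ≤ (p.a1 : ℝ) / 3000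
      linarith

end Pool.Agent.T2H40.BR
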