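import Pool.Agent.T2H40.BR.Pkg.L1
import Pool.Agent.T2H40.BR.Pkg.L2
import Pool.Agent.T2H40.BR.Pkg.L3
import Pool.Agent.T2H40.BR.Pkg.A1

/-!
# Package L4: one piece

Classes: consecutive intervals covering `[0, a1]`. `clsOf` (in `Build`) chooses the class.
-/

set_option autoImplicit false

open Finset

namespace Pool.Agent.T2H40.BR

/-- the classes are consecutive, start at `l`, and cover up to `h` -/
def coverOK : List SCls → ℤ → ℤ → Bool
  | [], _, _ => false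
  | [c], l, h => decide (c.lo = l) && decide (h ≤ c.hi)
  | c :: c' :: cs, l, h => decide (c.lo = l) && coverOK (c' :: cs) c.hi h

structure PieceChk (p : Piece) : Prop where
  ok : p.ok = true
  cok : ∀ c ∈ p.S, c.ok = true
  cov : coverOK p.S 0 p.a1 = true
  ccN : Chk (ccNopts p) (ccBox p)
  ccE : Chk (ccEopts p) (ccBox p)
  vC : Chk (vCopts p) (vCBox p)
  vS : ∀ c ∈ p.S, Chk (vSopts p c) (vSBox p c)
  csN : ∀ c ∈ p.S, Chk (csNopts p c) (csNBox p c)
  csE : ∀ c ∈ p.S, Chk (csEopts p c) (csEBox p c)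
  csEu : ∀ c ∈ p.S, Chk (csEuopts p c) (csEuBox p)
  csEt : ∀ c ∈ p.S, 4 * p.e1 ^ 2 < 3000 * c.lo ∨ Chk (csEtopts p c) (csEtBox p)
  csEs : ∀ c ∈ p.S, 4 * p.e1 ^ 2 < 3000 * c.lo ∨ Chk (csEsopts p c) (csEsBox p)
  ssN : ∀ (i j : ℕ) (hi : i < p.S.length) (hj : j < p.S.length), j ≤ i →
    Chk (ssNopts p p.S[i] p.S[j]) (ssNBox p p.S[i] p.S[j])
  ssE : ∀ (i j : ℕ) (hi : i < p.S.length) (hj : j < p.S.length), j ≤ i →
    Chk (ssEopts p p.S[i] p.S[j]) (ssEBox p)

/-- index of the class of `r` -/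
noncomputable def idxOf : List SCls → ℝ → ℕ
  | [], _ => 0
  | [_], _ => 0
  | c :: c' :: cs, r => open Classical in if r ≤ (c.hi : ℝ) / 3000 then 0 else idxOf (c' :: cs) r + 1

theorem idxOf_mono : ∀ (S : List SCls) {s r : ℝ}, s ≤ r → idxOf S s ≤ idxOf S r
  | [], _, _, _ => le_refl _
  | [_], _, _, _ => le_refl _
  | c :: c' :: cs, s, r, h => by
    unfold idxOf
    split_ifs with h1 h2 h2
    · exact le_refl _
    · exact Nat.zero_le _
    · exact absurd (h.trans h2) h1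
    · exact Nat.succ_le_succ (idxOf_mono (c' :: cs) h)

theorem clsOf_spec : ∀ (S : List SCls) (l h : ℤ) (r : ℝ), coverOK S l h = true →
    (l : ℝ) / 3000 ≤ r → r ≤ (h : ℝ) / 3000 →
    ∃ hi : idxOf S r < S.length, clsOf S r = S[idxOf S r] ∧
      ((S[idxOf S r]).lo : ℝ) / 3000 ≤ r ∧ r ≤ ((S[idxOf S r]).hi : ℝ) / 3000
  | [], _, _, _, h0, _, _ => by simp [coverOK] at h0
  | [c], l, h, r, h0, h1, h2 => by
    simp only [coverOK, Bool.and_eq_true, decide_eq_true_eq] at h0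
    obtain ⟨h3, h4⟩ := h0
    refine ⟨by simp [idxOf], rfl, ?_, ?_⟩
    · change ((c.lo : ℤ) : ℝ) / 3000 ≤ r
      rw [h3]
      exact h1
    · change r ≤ ((c.hi : ℤ) : ℝ) / 3000
      refine h2.trans ?_
      have h5 : (h : ℝ) ≤ (c.hi : ℝ) := by exact_mod_cast h4
      linarith
  | c :: c' :: cs, l, h, r, h0, h1, h2 => by
    simp only [coverOK, Bool.and_eq_true, decide_eq_true_eq] at h0
    obtain ⟨h3, h4⟩ := h0
    by_cases h5 : r ≤ (c.hi : ℝ) / 3000
    · have e1 : idxOf (c :: c' :: cs) r = 0 := by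
        unfold idxOf
        rw [if_pos h5]
      have e2 : clsOf (c :: c' :: cs) r = c := by
        unfold clsOf
        rw [if_pos h5]
      refine ⟨by rw [e1]; simp, ?_⟩
      simp only [e1, e2, List.getElem_cons_zero]
      refine ⟨trivial, ?_, h5⟩
      rw [h3]
      exact h1
    · have e1 : idxOf (c :: c' :: cs) r = idxOf (c' :: cs) r + 1 := by
        rw [idxOf, if_neg h5]
      have e2 : clsOf (c :: c' :: cs) r = clsOf (c' :: cs) r := by
        rw [clsOf, if_neg h5]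
      obtain ⟨hi, h6, h7, h8⟩ := clsOf_spec (c' :: cs) c.hi h r h4 (not_le.1 h5).le h2
      refine ⟨by rw [e1]; simpa using hi, ?_⟩
      simp only [e1, e2, List.getElem_cons_succ]
      exact ⟨h6, h7, h8⟩

/-- the pair inequalities of a piece -/
theorem pairOK_of_chk (p : Piece) (h : PieceChk p) (a : ℝ) (ha0 : (p.a0 : ℝ) / 3000 ≤ a)
    (ha1 : a ≤ (p.a1 : ℝ) / 3000) :
    PairOK a a (p.lamR a) (p.VcR a) (p.gcR a) (p.dlR a)
      (fun r => (clsOf p.S r).VR p a r) (fun r => (clsOf p.S r).gR p a r)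
      (fun r => (clsOf p.S r).AnR p a r) (fun r => (clsOf p.S r).AdR a r) := by
  have hok := h.ok
  unfold Piece.ok at hok
  simp only [Bool.and_eq_true, decide_eq_true_eq] at hok
  have hpos : (0 : ℝ) < (p.a0 : ℝ) := by exact_mod_cast hok.1.1.1.1.1.1.1
  have ha : 0 < a := lt_of_lt_of_le (by positivity) ha0
  have spec : ∀ r : ℝ, 0 ≤ r → r ≤ a → ∃ hi : idxOf p.S r < p.S.length,
      clsOf p.S r = p.S[idxOf p.S r] ∧
      ((p.S[idxOf p.S r]).lo : ℝ) / 3000 ≤ r ∧ r ≤ ((p.S[idxOf p.S r]).hi : ℝ) / 3000 := by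
    intro r h0 h1
    exact clsOf_spec p.S 0 p.a1 r h.cov (by simpa using h0) (h1.trans ha1)
  refine ⟨fun r hr0 hr1 hra => ?_, fun x y q hy hyx hx1 hxy hq hq' => ?_,
    fun x r q hx hx1 hxa hr0 hr1 hra hrx hq hq' => ?_,
    fun r s q hs0 hsr hr1 hrs hq hq' => ?_⟩
  · obtain ⟨hi, h1, h2, h3⟩ := spec r hr0 hra
    simp only [h1]
    have hc := h.cok _ (List.getElem_mem hi)
    unfold SCls.ok at hc
    simp only [Bool.and_eq_true, Bool.or_eq_true, decide_eq_true_eq] at hc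
    have key : ∀ kd : ℕ, (kd < 2 ∨ 0 < (p.S[idxOf p.S r]).lo) →
        0 < (match kd with
          | 0 => 1 - r
          | 1 => a
          | _ => a * r) := by
      intro kd hkd
      rcases kd with _ | _ | k
      · change 0 < 1 - r
        linarith
      · exact ha
      · change 0 < a * r
        rcases hkd with h4 | h4
        · omega
        · have h5 : (0 : ℝ) < ((p.S[idxOf p.S r]).lo : ℝ) := by exact_mod_cast h4
          exact mul_pos ha (lt_of_lt_of_le (by positivity) h2)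
    exact key _ hc.2
  · exact cc_of_chk p h.ok h.ccN h.ccE h.vC a x y q ha0 ha1 hy hyx hxy hq
  · obtain ⟨hi, h1, h2, h3⟩ := spec r hr0 hra
    simp only [h1]
    have hm := List.getElem_mem hi
    exact cs_of_chk p h.ok _ (h.cok _ hm) (h.csN _ hm) (h.csE _ hm) (h.csEu _ hm) (h.csEt _ hm)
      (h.csEs _ hm)
      a x r q ha0 ha1 hx hxa hr0 hra hrx h2 h3 hq
  · have hr0 : 0 ≤ r := hs0.trans hsr
    obtain ⟨hi, h1, h2, h3⟩ := spec r hr0 (by linarith)
    obtain ⟨hj, k1, k2, k3⟩ := spec s hs0 (by linarith)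
    simp only [h1, k1]
    have hm := List.getElem_mem hi
    have hm' := List.getElem_mem hj
    have hij := idxOf_mono p.S hsr
    exact ss_of_chk p h.ok _ _ (h.cok _ hm) (h.cok _ hm') (h.ssN _ _ hi hj hij)
      (h.ssE _ _ hi hj hij) (h.vS _ hm) (h.vS _ hm') a r s q ha0 ha1 hs0 hsr hrs h2 h3 k2 k3 hq

variable {V : Type*} [Fintype V] [DecidableEq V]

theorem bound_of_chk (p : Piece) (h : PieceChk p) {P : V → V → ℝ}
    (hs : ∀ i j, P i j = P j i)
    (hid : ∀ i j, ∑ l, P i l * P l j = P i j) (C : Finset V) (k : ℕ) (hk : C.card = k)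
    (htr : ∑ i, P i i = (k : ℝ)) (x : V → ℝ)
    (hx : ∀ i, x i = if i ∈ C then 1 - P i i else P i i)
    (htop : ∀ i ∈ C, ∀ j, j ∉ C → P j j ≤ P i i)
    (ha0 : (p.a0 : ℝ) / 3000 ≤ ∑ i ∈ C, x i) (ha1 : ∑ i ∈ C, x i ≤ (p.a1 : ℝ) / 3000)
    (A : V → V → Prop) [DecidableRel A] (hirr : ∀ i, ¬ A i i) :
    ∑ i, ∑ j, (if A i j then P i i + P j j + 2 * P i j - 1 else 0) ≤ (k : ℝ) ^ 2 + k := by
  have hok := h.ok
  unfold Piece.ok at hok
  simp only [Bool.and_eq_true, decide_eq_true_eq] at hok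
  have hpos : (0 : ℝ) < (p.a0 : ℝ) := by exact_mod_cast hok.1.1.1.1.1.1.1
  exact bound_of_pairs hs hid C k hk htr x hx htop (lt_of_lt_of_le (by positivity) ha0)
    _ _ _ _ _ _ _ _ _ (Or.inl rfl) (pairOK_of_chk p h _ ha0 ha1) A hirr

end Pool.Agent.T2H40.BR
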