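import Pool.Agent.T2H40.BR.Pkg.LU1
import Pool.Agent.T2H40.BR.BuildA

/-!
# Package LA1: types `C`, `C` of the pieces with `a` near or above `1`
-/

set_option autoImplicit false

namespace Pool.Agent.T2H40.BR

namespace LA1aux

open L1aux (ev_add ev_sub ev_mul ev_cst ev_int ev_var)
open LU1aux

lemma datA (p : Piece) (a x y : ℝ) : Dat p a x y ![a, x, y] (p.xy v0 v1 v2) := by
  constructor <;>
    simp [Piece.xy, evalE_ev, v0, v1, v2, ev_sub, ev_cst, ev_int, ev_var, Piece.t,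
      Piece.lamR, Piece.gcR, Piece.dlR]

lemma vc_nonnegA (p : Piece) (hV : Chk (avCopts p) (aCBox p)) (a x : ℝ)
    (ha0 : (p.a0 : ℝ) / 3000 ≤ a) (ha1 : a ≤ (p.a1 : ℝ) / 3000) (hx : 0 ≤ x) (hx1 : x ≤ 1)
    (hxa : x ≤ a) : 0 ≤ p.VcR a x := by
  obtain ⟨es, hes, he⟩ := hV ![a, x, 0] (by
    refine ⟨by simpa [aCBox] using ha0, by simpa [aCBox] using ha1, by simpa [aCBox] using hx,
      by simpa [aCBox] using hx1, by simp [aCBox], by simp [aCBox]⟩)
  simp only [avCopts, List.mem_cons, List.not_mem_nil, or_false] at hes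
  rcases hes with hes | hes
  · subst hes
    have := he _ (List.mem_singleton.mpr rfl)
    simpa [evalE_ev, v0, v1, ev_sub, ev_mul, ev_cst, ev_int, ev_var, Piece.t, Piece.VcR] using this
  · subst hes
    have h' := he _ (List.mem_singleton.mpr rfl)
    simp only [v1, v0, tau, ev_sub, ev_mul, ev_cst, ev_var] at h'
    have e1 : (![a, x, 0] : Fin 3 → ℝ) 0 = a := rfl
    have e2 : (![a, x, 0] : Fin 3 → ℝ) 1 = x := rfl
    rw [e1, e2] at h'
    norm_num at h'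
    linarith

lemma last_neg1 (a x y : ℝ) (h : y ≤ x) : ¬ (0 ≤ (v2 - v1 - tau).ev ![a, x, y]) := by
  intro h'
  simp only [v1, v2, tau, ev_sub, ev_mul, ev_cst, ev_var] at h'
  have e1 : (![a, x, y] : Fin 3 → ℝ) 1 = x := rfl
  have e2 : (![a, x, y] : Fin 3 → ℝ) 2 = y := rfl
  rw [e1, e2] at h'
  norm_num at h'
  linarith

lemma last_neg2 (a x y : ℝ) (h : x + y ≤ a) : ¬ (0 ≤ (v1 + v2 - v0 - tau).ev ![a, x, y]) := by
  intro h'
  simp only [v0, v1, v2, tau, ev_add, ev_sub, ev_mul, ev_cst, ev_var] at h'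
  have e0 : (![a, x, y] : Fin 3 → ℝ) 0 = a := rfl
  have e1 : (![a, x, y] : Fin 3 → ℝ) 1 = x := rfl
  have e2 : (![a, x, y] : Fin 3 → ℝ) 2 = y := rfl
  rw [e0, e1, e2] at h'
  norm_num at h'
  linarith

lemma EU_caseG {p : Piece} {a x y : ℝ} {pt : Fin 3 → ℝ} {e : XYE} (D : Dat p a x y pt e)
    (q : ℝ) (n : ℤ) (hn : 0 ≤ n) (hy : 0 < y) (hyx : y ≤ x)
    (hx1 : x < 1) (hq : q ^ 2 ≤ x * y)
    (hVx : 0 ≤ p.VcR a x) (hVy : 0 ≤ p.VcR a y)
    (es : List Ex) (hes : es ∈ e.EU n) (he : ∀ e ∈ es, 0 ≤ e.ev pt) :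
    1 - x - y + 2 * q ≤ ECC a (p.lamR a) x y q (p.VcR a x) (p.VcR a y)
      (p.gcR a x) (p.gcR a y) (p.dlR a x) (p.dlR a y) := by
  have hcases : (0 ≤ (Ex.int 2 * .cst n - .cst 750 - .cst n * e.x
        - .cst n * .cst n * (e.x * e.x)).ev pt ∧
      0 ≤ (Ex.int 2 - e.x - .int 2 * .cst n * (e.x * e.x)).ev pt) ∧
      (0 ≤ e.GX.ev pt ∧ 0 ≤ e.ch.ev pt ∧
        ((0 ≤ (e.b (.cst n)).ev pt + e.b'.ev pt ∧
          0 ≤ (e.M (e.b (.cst n))).ev pt) ∨
        ((e.b (.cst n)).ev pt + e.b'.ev pt ≤ 0 ∧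
          0 ≤ (e.M e.b').ev pt) ∨
        (0 ≤ (e.M (e.b (.cst n))).ev pt ∧ 0 ≤ (e.M e.b').ev pt))) := by
    simp only [XYE.EU, List.mem_cons, List.not_mem_nil, or_false] at hes
    rcases hes with hes' | hes' | hes'
    · subst hes'
      refine ⟨⟨he _ (by simp), he _ (by simp)⟩, he _ (by simp), he _ (by simp),
        Or.inl ⟨?_, he _ (by simp)⟩⟩
      have := he (e.b (.cst n) + e.b') (by simp)
      rwa [ev_add] at this
    · subst hes'
      refine ⟨⟨he _ (by simp), he _ (by simp)⟩, he _ (by simp), he _ (by simp),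
        Or.inr (Or.inl ⟨?_, he _ (by simp)⟩)⟩
      have := he (.int 0 - e.b (.cst n) - e.b') (by simp)
      rw [ev_sub, ev_sub, ev_int, Int.cast_zero] at this
      linarith
    · subst hes'
      exact ⟨⟨he _ (by simp), he _ (by simp)⟩, he _ (by simp), he _ (by simp),
        Or.inr (Or.inr ⟨he _ (by simp), he _ (by simp)⟩)⟩
  obtain ⟨⟨hk1, hk2⟩, h1, h2, h3⟩ := hcases
  rw [ev_ch D] at h2
  rw [ev_M D, ev_M D] at h3
  simp only [ev_sub, ev_mul, ev_cst, ev_int, D.hx] at hk1 hk2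
  have c0 : 0 ≤ (n : ℝ) / 3000 := by positivity
  push_cast at hk1 hk2
  have c7 : 1 / 4 - 2 * ((n : ℝ) / 3000) + (n : ℝ) / 3000 * x
      + ((n : ℝ) / 3000) ^ 2 * x ^ 2 ≤ 0 := by
    have e1 : 1 / 4 - 2 * ((n : ℝ) / 3000) + (n : ℝ) / 3000 * x
      + ((n : ℝ) / 3000) ^ 2 * x ^ 2 = -(2 * ((n : ℝ) / 3000) - 750 / 3000
        - (n : ℝ) / 3000 * x - (n : ℝ) / 3000 * ((n : ℝ) / 3000) * (x * x)) := by ring
    rw [e1]
    linarith
  have c8 : 0 ≤ 1 - x / 2 - (n : ℝ) / 3000 * x ^ 2 := by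
    have e1 : 1 - x / 2 - (n : ℝ) / 3000 * x ^ 2
      = (2 - x - 2 * ((n : ℝ) / 3000) * (x * x)) / 2 := by ring
    rw [e1]
    linarith
  exact E2X (q := q) (c := (n : ℝ) / 3000) (W1 := evalR p.W x (p.t a))
    (W2 := evalR p.W y (p.t a)) hy hyx hx1 rfl rfl hq hVx hVy c0 c7 c8
    ((e.Z1 (.cst n)).ev pt) ((e.Z2 (.cst n)).ev pt)
    (e.Y1.ev pt) (e.Y2.ev pt)
    ((e.b (.cst n)).ev pt) (e.b'.ev pt) (e.GX.ev pt)
    (ev_Z1 D _) (ev_Z2 D _) (ev_Y1 D) (ev_Y2 D) (ev_b D _) (ev_b' D) (ev_GX D)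
    h1 h2 h3

end LA1aux

open LU1aux LA1aux
open L1aux (ev_add ev_sub ev_mul ev_cst ev_int ev_var)

theorem acc_of_chk (p : Piece) (hp : p.okA = true) (hN : Chk (accNopts p) (accBox p))
    (hE : Chk (accEopts p) (accBox p)) (hV : Chk (avCopts p) (aCBox p)) (a x y q : ℝ)
    (ha0 : (p.a0 : ℝ) / 3000 ≤ a) (ha1 : a ≤ (p.a1 : ℝ) / 3000)
    (hy : 0 < y) (hyx : y ≤ x) (hx1 : x < 1) (hxy : x + y ≤ a) (hq : q ^ 2 ≤ x * y) :
    0 ≤ ECC a (p.lamR a) x y q (p.VcR a x) (p.VcR a y) (p.gcR a x) (p.gcR a y)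
        (p.dlR a x) (p.dlR a y) ∧
    1 - x - y + 2 * q ≤ ECC a (p.lamR a) x y q (p.VcR a x) (p.VcR a y) (p.gcR a x) (p.gcR a y)
        (p.dlR a x) (p.dlR a y) := by
  have hx0 : 0 < x := lt_of_lt_of_le hy hyx
  have hmem : (accBox p).mem ![a, x, y] := by
    refine ⟨by simpa [accBox] using ha0, by simpa [accBox] using ha1,
      by simpa [accBox] using hx0.le,
      by simpa [accBox] using hx1.le, by simpa [accBox] using hy.le, ?_⟩
    simpa [accBox] using (by linarith : y ≤ 1)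
  have D := datA p a x y
  constructor
  · obtain ⟨es, hes, he⟩ := hN _ hmem
    simp only [accNopts, List.mem_cons, List.not_mem_nil, or_false] at hes
    rcases hes with hes | hes | hes
    · subst hes
      have h1 := he (p.xy v0 v1 v2).GX (by simp)
      have h2 := he (p.xy v0 v1 v2).A (by simp)
      have h3 := he ((p.xy v0 v1 v2).A * (p.xy v0 v1 v2).GX - (p.xy v0 v1 v2).x
        * (p.xy v0 v1 v2).y * ((p.xy v0 v1 v2).D2 * (p.xy v0 v1 v2).D2)
        * (((p.xy v0 v1 v2).V * (p.xy v0 v1 v2).U)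
          * ((p.xy v0 v1 v2).V * (p.xy v0 v1 v2).U))) (by simp)
      simp only [ev_sub, ev_mul, ev_A D, ev_V D, ev_U D, ev_D2 D, D.hx, D.hy] at h2 h3
      exact NX hy hyx hx1 hq _ (ev_GX D) h1 h2 h3
    · subst hes
      exact absurd (he _ (List.mem_singleton.mpr rfl)) (last_neg1 a x y hyx)
    · subst hes
      exact absurd (he _ (List.mem_singleton.mpr rfl)) (last_neg2 a x y hxy)
  · have hVx : 0 ≤ p.VcR a x := vc_nonnegA p hV a x ha0 ha1 hx0.le hx1.le (by linarith)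
    have hVy : 0 ≤ p.VcR a y := vc_nonnegA p hV a y ha0 ha1 hy.le (by linarith) (by linarith)
    obtain ⟨es, hes, he⟩ := hE _ hmem
    simp only [accEopts, List.mem_append, List.mem_flatMap, List.mem_cons, List.not_mem_nil,
      or_false] at hes
    rcases hes with ⟨n, hn, hes⟩ | hes | hes | hes
    · refine EU_caseG D q n ?_ hy hyx hx1 hq hVx hVy es hes he
      simp only [cList, List.mem_cons, List.not_mem_nil, or_false] at hn
      omega
    · subst hes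
      have h1 := he (p.xy v0 v1 v2).GX (by simp [XYE.E1])
      have h2 := he (p.xy v0 v1 v2).ch (by simp [XYE.E1])
      have h3 := he (.int 2 - (p.xy v0 v1 v2).V * (p.xy v0 v1 v2).U) (by simp [XYE.E1])
      have h4 := he ((p.xy v0 v1 v2).ch * (p.xy v0 v1 v2).GX - (p.xy v0 v1 v2).D2)
        (by simp [XYE.E1])
      rw [ev_ch D] at h2
      simp only [ev_sub, ev_mul, ev_int, ev_V D, ev_U D] at h3
      simp only [ev_sub, ev_mul, ev_ch D, ev_D2 D] at h4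
      push_cast at h3
      exact E3X hy hyx hx1 hq hVx hVy (by linarith) _ (ev_GX D) h1 h2 h4
    · subst hes
      exact absurd (he _ (List.mem_singleton.mpr rfl)) (last_neg1 a x y hyx)
    · subst hes
      exact absurd (he _ (List.mem_singleton.mpr rfl)) (last_neg2 a x y hxy)

end Pool.Agent.T2H40.BR
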