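import Pool.Agent.T2H40.BR.Pkg.LU3
import Pool.Agent.T2H40.BR.BuildA

/-!
# Package LA3: types `S`, `S`, variable `a`
-/

set_option autoImplicit false

namespace Pool.Agent.T2H40.BR

open L3aux LU3aux

theorem avs_nonneg (p : Piece) (c : SCls) (h : Chk (avSopts p c) (aSBox p c)) (a r : ℝ)
    (ha0 : (p.a0 : ℝ) / 3000 ≤ a) (ha1 : a ≤ (p.a1 : ℝ) / 3000) (hra : r ≤ a)
    (h1 : (c.lo : ℝ) / 3000 ≤ r) (h2 : r ≤ (c.hi : ℝ) / 3000) : 0 ≤ c.VR p a r := by
  have z1 : (((0 : ℤ) : ℝ)) / 3000 ≤ 0 := by norm_num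
  have z2 : (0 : ℝ) ≤ (((3000 : ℤ) : ℝ)) / 3000 := by norm_num
  obtain ⟨es, hes, hall⟩ := h ![a, r, 0] ⟨ha0, ha1, h1, h2, z1, z2⟩
  simp only [avSopts, List.mem_cons, List.not_mem_nil, or_false] at hes
  rcases hes with rfl | rfl
  · have := hall _ (List.mem_cons_self ..)
    rw [evalE_ev] at this
    exact this
  · exfalso
    have h3 := hall _ (List.mem_cons_self ..)
    have h4 := tau_pos ![a, r, 0]
    have h5 : 0 ≤ r - a - tau.ev ![a, r, 0] := h3
    linarith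

theorem ass_of_chk (p : Piece) (hp : p.okA = true) (c c' : SCls) (hc : c.ok = true)
    (hc' : c'.ok = true) (hN : Chk (assNopts p c c') (assBox p c c'))
    (hE : Chk (assEopts p c c') (assBox p c c')) (hV : Chk (avSopts p c) (aSBox p c))
    (hV' : Chk (avSopts p c') (aSBox p c')) (a r s q : ℝ)
    (ha0 : (p.a0 : ℝ) / 3000 ≤ a) (ha1 : a ≤ (p.a1 : ℝ) / 3000)
    (hs : 0 ≤ s) (hsr : s ≤ r) (hr1 : r < 1) (hrs : r + s ≤ a)
    (h1 : (c.lo : ℝ) / 3000 ≤ r) (h2 : r ≤ (c.hi : ℝ) / 3000)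
    (k1 : (c'.lo : ℝ) / 3000 ≤ s) (k2 : s ≤ (c'.hi : ℝ) / 3000) (hq : q ^ 2 ≤ r * s)
    (hq' : q ^ 2 ≤ (1 - r) * (1 - s)) :
    0 ≤ ESS a (p.lamR a) r s q (c.VR p a r) (c'.VR p a s) (c.gR p a r) (c'.gR p a s)
        (c.AnR p a r) (c.AdR a r) (c'.AnR p a s) (c'.AdR a s) ∧
    r + s + 2 * q - 1 ≤ ESS a (p.lamR a) r s q (c.VR p a r) (c'.VR p a s) (c.gR p a r)
        (c'.gR p a s) (c.AnR p a r) (c.AdR a r) (c'.AnR p a s) (c'.AdR a s) := by
  simp only [Piece.okA, Bool.and_eq_true, decide_eq_true_eq] at hp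
  obtain ⟨⟨⟨hp1, -⟩, -⟩, -⟩ := hp
  have ha : 0 < a := by
    have : (0 : ℝ) < p.a0 := by exact_mod_cast hp1
    exact lt_of_lt_of_le (by positivity) ha0
  have hr0 : 0 ≤ r := hs.trans hsr
  have hAd : 0 < c.AdR a r := AdR_pos c hc a r ha hr1 h1
  have hBd : 0 < c'.AdR a s := AdR_pos c' hc' a s ha (by linarith) k1
  have hVR := avs_nonneg p c hV a r ha0 ha1 (by linarith) h1 h2
  have hWR := avs_nonneg p c' hV' a s ha0 ha1 (by linarith) k1 k2
  -- nonedge inequality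
  have key0 : 0 ≤ ESS a (p.lamR a) r s q (c.VR p a r) (c'.VR p a s) (c.gR p a r) (c'.gR p a s)
        (c.AnR p a r) (c.AdR a r) (c'.AnR p a s) (c'.AdR a s) := by
    obtain ⟨es, hes, hall⟩ := hN ![a, r, s] ⟨ha0, ha1, h1, h2, k1, k2⟩
    rw [assNopts, List.mem_append] at hes
    rcases hes with hes | hes
    · have := genN (p.ss c c' v0 v1 v2) ![a, r, s] q hr0 hs (by rw [i_Ad]; exact hAd)
        (by rw [i_Bd]; exact hBd) hq ⟨es, hes, hall⟩
      rw [i_lam, i_V, i_W, i_g, i_h, i_An, i_Bn, i_Ad, i_Bd] at this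
      exact this
    · exfalso
      simp only [List.mem_cons, List.not_mem_nil, or_false] at hes
      have h4 := tau_pos ![a, r, s]
      rcases hes with rfl | rfl
      · have h3 := hall _ (List.mem_cons_self ..)
        have h5 : 0 ≤ s - r - tau.ev ![a, r, s] := h3
        linarith
      · have h3 := hall _ (List.mem_cons_self ..)
        have h5 : 0 ≤ r + s - a - tau.ev ![a, r, s] := h3
        linarith
  refine ⟨key0, ?_⟩
  obtain ⟨es, hes, hall⟩ := hE ![a, r, s] ⟨ha0, ha1, h1, h2, k1, k2⟩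
  rw [assEopts, List.mem_append] at hes
  rcases hes with hes | hes
  · have := genEU (p.ss c c' v0 v1 v2) ![a, r, s] q hr0 hs hr1.le (hsr.trans hr1.le)
      (by rw [i_Ad]; exact hAd) (by rw [i_Bd]; exact hBd) hq hq'
      (by rw [i_V]; exact hVR) (by rw [i_W]; exact hWR)
      (by
        rw [i_lam, i_V, i_W, i_g, i_h, i_An, i_Bn, i_Ad, i_Bd]
        exact key0) ⟨es, hes, hall⟩
    rw [i_lam, i_V, i_W, i_g, i_h, i_An, i_Bn, i_Ad, i_Bd] at this
    exact this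
  · exfalso
    simp only [List.mem_cons, List.not_mem_nil, or_false] at hes
    have h4 := tau_pos ![a, r, s]
    rcases hes with rfl | rfl
    · have h3 := hall _ (List.mem_cons_self ..)
      have h5 : 0 ≤ s - r - tau.ev ![a, r, s] := h3
      linarith
    · have h3 := hall _ (List.mem_cons_self ..)
      have h5 : 0 ≤ r + s - a - tau.ev ![a, r, s] := h3
      linarith

end Pool.Agent.T2H40.BR
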