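import Pool.Agent.T2H40.BR.Pkg.L4
import Pool.Agent.T2H40.BR.Pkg.LA1
import Pool.Agent.T2H40.BR.Pkg.LA2
import Pool.Agent.T2H40.BR.Pkg.LA3

/-!
# Package LA4: one piece with `a` near or above `1`
-/

set_option autoImplicit false

open Finset

namespace Pool.Agent.T2H40.BR

structure AChk (p : Piece) : Prop where
  ok : p.okA = true
  cok : ∀ c ∈ p.S, c.ok = true
  cov : coverOK p.S 0 3000 = true
  ccN : Chk (accNopts p) (accBox p)
  ccE : Chk (accEopts p) (accBox p)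
  vC : Chk (avCopts p) (aCBox p)
  vS : ∀ c ∈ p.S, Chk (avSopts p c) (aSBox p c)
  csN : ∀ c ∈ p.S, Chk (acsNopts p c) (acsNBox p c)
  csE : ∀ c ∈ p.S, Chk (acsEuopts p c) (acsEBox p)
  csEu : ∀ c ∈ p.S, Chk (acsEuopts p c) (acsEuBox p)
  csEt : ∀ c ∈ p.S, 4 * p.e1 ^ 2 < 3000 * c.lo ∨ Chk (acsEtopts p c) (acsEtBox p)
  csEs : ∀ c ∈ p.S, 4 * p.e1 ^ 2 < 3000 * c.lo ∨ Chk (acsEsopts p c) (acsEsBox p)
  ssN : ∀ (i j : ℕ) (hi : i < p.S.length) (hj : j < p.S.length), j ≤ i →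
    Chk (assNopts p p.S[i] p.S[j]) (assBox p p.S[i] p.S[j])
  ssE : ∀ (i j : ℕ) (hi : i < p.S.length) (hj : j < p.S.length), j ≤ i →
    Chk (assEopts p p.S[i] p.S[j]) (assBox p p.S[i] p.S[j])

/-- the denominator is positive -/
theorem AdR_pos (c : SCls) (hc : c.ok = true) (a r : ℝ) (ha : 0 < a) (hr1 : r < 1)
    (h2 : (c.lo : ℝ) / 3000 ≤ r) : 0 < c.AdR a r := by
  unfold SCls.ok at hc
  simp only [Bool.and_eq_true, Bool.or_eq_true, decide_eq_true_eq] at hc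
  have key : ∀ kd : ℕ, (kd < 2 ∨ 0 < c.lo) →
      0 < (match kd with
        | 0 => 1 - r
        | 1 => a
        | _ => a * r) := by
    intro kd hkd
    rcases kd with _ | _ | k
    · change 0 < 1 - r
      linarith
    · exact ha
    · change 0 < a * r
      rcases hkd with h4 | h4
      · omega
      · have h5 : (0 : ℝ) < (c.lo : ℝ) := by exact_mod_cast h4
        exact mul_pos ha (lt_of_lt_of_le (by positivity) h2)
  exact key _ hc.2

theorem okA_pos (p : Piece) (h : p.okA = true) : (0 : ℝ) < (p.a0 : ℝ) / 3000 := by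
  unfold Piece.okA at h
  simp only [Bool.and_eq_true, decide_eq_true_eq] at h
  have hpos : (0 : ℝ) < (p.a0 : ℝ) := by exact_mod_cast h.1.1.1
  positivity

/-- the pair inequalities of a piece -/
theorem pairOK_of_achk (p : Piece) (h : AChk p) (a : ℝ) (ha0 : (p.a0 : ℝ) / 3000 ≤ a)
    (ha1 : a ≤ (p.a1 : ℝ) / 3000) :
    PairOK a a (p.lamR a) (p.VcR a) (p.gcR a) (p.dlR a)
      (fun r => (clsOf p.S r).VR p a r) (fun r => (clsOf p.S r).gR p a r)
      (fun r => (clsOf p.S r).AnR p a r) (fun r => (clsOf p.S r).AdR a r) := by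
  have ha : 0 < a := lt_of_lt_of_le (okA_pos p h.ok) ha0
  have spec : ∀ r : ℝ, 0 ≤ r → r < 1 → ∃ hi : idxOf p.S r < p.S.length,
      clsOf p.S r = p.S[idxOf p.S r] ∧
      ((p.S[idxOf p.S r]).lo : ℝ) / 3000 ≤ r ∧ r ≤ ((p.S[idxOf p.S r]).hi : ℝ) / 3000 := by
    intro r h0 h1
    exact clsOf_spec p.S 0 3000 r h.cov (by simpa using h0) (by
      have : (((3000 : ℤ) : ℝ)) / 3000 = 1 := by norm_num
      rw [this]
      exact h1.le)
  refine ⟨fun r hr0 hr1 hra => ?_, fun x y q hy hyx hx1 hxy hq hq' => ?_,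
    fun x r q hx hx1 hxa hr0 hr1 hra hrx hq hq' => ?_,
    fun r s q hs0 hsr hr1 hrs hq hq' => ?_⟩
  · obtain ⟨hi, h1, h2, h3⟩ := spec r hr0 hr1
    simp only [h1]
    exact AdR_pos _ (h.cok _ (List.getElem_mem hi)) a r ha hr1 h2
  · exact acc_of_chk p h.ok h.ccN h.ccE h.vC a x y q ha0 ha1 hy hyx hx1 hxy hq
  · obtain ⟨hi, h1, h2, h3⟩ := spec r hr0 hr1
    simp only [h1]
    have hm := List.getElem_mem hi
    exact acs_of_chk p h.ok _ (h.cok _ hm) (h.csN _ hm) (h.csE _ hm) (h.csEu _ hm) (h.csEt _ hm)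
      (h.csEs _ hm)
      a x r q ha0 ha1 hx hx1 hxa hr0 hr1 hra hrx h2 h3 hq
  · have hr0 : 0 ≤ r := hs0.trans hsr
    obtain ⟨hi, h1, h2, h3⟩ := spec r hr0 hr1
    obtain ⟨hj, k1, k2, k3⟩ := spec s hs0 (lt_of_le_of_lt hsr hr1)
    simp only [h1, k1]
    have hm := List.getElem_mem hi
    have hm' := List.getElem_mem hj
    have hij := idxOf_mono p.S hsr
    exact ass_of_chk p h.ok _ _ (h.cok _ hm) (h.cok _ hm') (h.ssN _ _ hi hj hij)
      (h.ssE _ _ hi hj hij) (h.vS _ hm) (h.vS _ hm') a r s q ha0 ha1 hs0 hsr hr1 hrs h2 h3 k2 k3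
      hq hq'

variable {V : Type*} [Fintype V] [DecidableEq V]

theorem bound_of_achk (p : Piece) (h : AChk p) {P : V → V → ℝ}
    (hs : ∀ i j, P i j = P j i)
    (hid : ∀ i j, ∑ l, P i l * P l j = P i j) (C : Finset V) (k : ℕ) (hk : C.card = k)
    (htr : ∑ i, P i i = (k : ℝ)) (x : V → ℝ)
    (hx : ∀ i, x i = if i ∈ C then 1 - P i i else P i i)
    (htop : ∀ i ∈ C, ∀ j, j ∉ C → P j j ≤ P i i)
    (ha0 : (p.a0 : ℝ) / 3000 ≤ ∑ i ∈ C, x i) (ha1 : ∑ i ∈ C, x i ≤ (p.a1 : ℝ) / 3000)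
    (A : V → V → Prop) [DecidableRel A] (hirr : ∀ i, ¬ A i i) :
    ∑ i, ∑ j, (if A i j then P i i + P j j + 2 * P i j - 1 else 0) ≤ (k : ℝ) ^ 2 + k :=
  bound_of_pairs hs hid C k hk htr x hx htop (lt_of_lt_of_le (okA_pos p h.ok) ha0)
    _ _ _ _ _ _ _ _ _ (Or.inl rfl) (pairOK_of_achk p h _ ha0 ha1) A hirr

end Pool.Agent.T2H40.BR
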