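import Pool.Agent.T2H40.BR.Pkg.L1
import Pool.Agent.T2H40.BR.BuildU

/-!
# Package LU1: types `C`, `C` of the universal piece
-/

set_option autoImplicit false

namespace Pool.Agent.T2H40.BR

namespace LU1aux

open L1aux (ev_add ev_sub ev_mul ev_cst ev_int ev_var)

theorem cc_E3' {a lam σ v q V U g h d e : ℝ} (hσ0 : 0 < σ) (hv0 : 0 < v)
    (hv1 : v < 1) (hx1 : σ * (1 - v) < 1) (hy1 : σ * v < 1)
    (hq : q ^ 2 ≤ (σ * (1 - v)) * (σ * v)) (hV0 : 0 ≤ V) (hU0 : 0 ≤ U) (hVU : V * U ≤ 2)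
    (h1 : 0 ≤ GC a lam σ v V U g h d e) (h2 : 0 ≤ d + e + lam - g - h)
    (h3 : 0 ≤ (d + e + lam - g - h) * σ * GC a lam σ v V U g h d e
      - (1 - σ * (1 - v)) * (1 - σ * v)) :
    1 - σ * (1 - v) - σ * v + 2 * q ≤ ECC a lam (σ * (1 - v)) (σ * v) q V U g h d e := by
  have p1 : 0 < 1 - σ * (1 - v) := by linarith
  have p2 : 0 < 1 - σ * v := by linarith
  have p3 : 0 < 1 - v := by linarith
  rw [← sub_nonneg, R3aux.cc_eq hσ0 hv0 hv1 hx1 hy1]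
  have hx0 : 0 < σ * (1 - v) := by positivity
  have hy0 : 0 < σ * v := by positivity
  have hVU0 : 0 ≤ V * U := mul_nonneg hV0 hU0
  set G := GC a lam σ v V U g h d e with hG
  set R1 := Real.sqrt (1 - σ * (1 - v)) with hR1
  set R2' := Real.sqrt (1 - σ * v) with hR2'
  have r1 : 0 ≤ R1 := Real.sqrt_nonneg _
  have r2 : 0 ≤ R2' := Real.sqrt_nonneg _
  have r1' : R1 ≤ 1 := Real.sqrt_le_one.2 (by linarith)
  have r2' : R2' ≤ 1 := Real.sqrt_le_one.2 (by linarith)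
  have rr : R1 * R2' ≤ 1 := mul_le_one₀ r1' r2 r2'
  have rr0 : 0 ≤ R1 * R2' := mul_nonneg r1 r2
  have k1 : R1 * R2' * (V * U) ≤ 2 := by
    calc R1 * R2' * (V * U) ≤ 1 * (V * U) := mul_le_mul_of_nonneg_right rr hVU0
      _ ≤ 2 := by linarith
  have k2 : 0 ≤ R1 * R2' * (V * U) := mul_nonneg rr0 hVU0
  have k4 : (1 - R1 * R2' * (V * U)) ^ 2 ≤ 1 := by nlinarith
  have key := R3aux.quad (A := G / (σ * v * (1 - v) * ((1 - σ * (1 - v)) * (1 - σ * v))))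
    (b := -(1 - R1 * R2' * (V * U))) (c := σ * σ * v * (1 - v) * (d + e + lam - g - h)) (q := q)
    (by positivity) (by positivity) (by
      rw [neg_sq]
      refine k4.trans ?_
      rw [div_mul_eq_mul_div, le_div_iff₀ (by positivity)]
      have h5 := mul_nonneg (by positivity : 0 ≤ σ * v * (1 - v)) h3
      have e3 : σ * v * (1 - v) * ((d + e + lam - g - h) * σ * G -
          (1 - σ * (1 - v)) * (1 - σ * v)) =
          G * (σ * σ * v * (1 - v) * (d + e + lam - g - h)) -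
          1 * (σ * v * (1 - v) * ((1 - σ * (1 - v)) * (1 - σ * v))) := by ring
      rw [e3] at h5
      linarith)
  calc (0 : ℝ) ≤ _ := key
    _ = _ := by ring


theorem sw {x y : ℝ} (hy : 0 < y) (hyx : y ≤ x) : ∃ σ w : ℝ, 0 < σ ∧ 0 < w ∧ w ≤ 1 / 2 ∧
    σ * (1 - w) = x ∧ σ * w = y := by
  have hx0 : 0 < x := lt_of_lt_of_le hy hyx
  have hσ0 : 0 < x + y := by linarith
  have hye : (x + y) * (y / (x + y)) = y := by field_simp
  refine ⟨x + y, y / (x + y), hσ0, div_pos hy hσ0, ?_, ?_, hye⟩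
  · rw [div_le_iff₀ hσ0]; linarith
  · have : (x + y) * (1 - y / (x + y)) = (x + y) - (x + y) * (y / (x + y)) := by ring
    rw [this, hye]; ring

theorem pos_of {s z : ℝ} (hs : 0 < s) (h : 0 ≤ s * z) : 0 ≤ z := by
  by_contra hc
  have := mul_neg_of_pos_of_neg hs (not_le.mp hc)
  linarith

theorem E2X {a lam x y q V U W1 W2 g h d e c : ℝ} (hy : 0 < y) (hyx : y ≤ x) (hx1 : x < 1)
    (hV : V = 1 - x * W1) (hU : U = 1 - y * W2)
    (hq : q ^ 2 ≤ x * y) (hV0 : 0 ≤ V) (hU0 : 0 ≤ U) (hc : 0 ≤ c)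
    (hcx : 1 / 4 - 2 * c + c * x + c ^ 2 * x ^ 2 ≤ 0) (hsx : 0 ≤ 1 - x / 2 - c * x ^ 2)
    (Z1 Z2 Y1 Y2 b b' GX : ℝ)
    (hZ1 : Z1 = (1 / 2 + c * x) + W1 - x * (1 / 2 + c * x) * W1)
    (hZ2 : Z2 = (1 / 2 + c * y) + W2 - y * (1 / 2 + c * y) * W2)
    (hY1 : Y1 = 1 / 2 + W1 - 1 / 2 * x * W1) (hY2 : Y2 = 1 / 2 + W2 - 1 / 2 * y * W2)
    (hb : b = x * Z1 + y * Z2 - x * y * (Z1 * Z2))
    (hb' : b' = x * Y1 + y * Y2 - x * y * (Y1 * Y2))
    (hGX : GX = (x + y) * ((1 - x) * (1 - y)) + x * y * (G1 a lam x V g d * (1 - y)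
      + G1 a lam y U h e * (1 - x)))
    (h1 : 0 ≤ GX) (h2 : 0 ≤ d + e + lam - g - h)
    (h3 : (0 ≤ b + b' ∧ 0 ≤ (d + e + lam - g - h) * GX - (1 - x) * (1 - y) * (b * b)) ∨
      (b + b' ≤ 0 ∧ 0 ≤ (d + e + lam - g - h) * GX - (1 - x) * (1 - y) * (b' * b')) ∨
      (0 ≤ (d + e + lam - g - h) * GX - (1 - x) * (1 - y) * (b * b) ∧
       0 ≤ (d + e + lam - g - h) * GX - (1 - x) * (1 - y) * (b' * b'))) :
    1 - x - y + 2 * q ≤ ECC a lam x y q V U g h d e := by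
  obtain ⟨σ, w, hσ0, hw0, hw2, hxe, hye⟩ := sw hy hyx
  have hcy : 1 / 4 - 2 * c + c * y + c ^ 2 * y ^ 2 ≤ 0 := by
    have e1 : c * y ≤ c * x := mul_le_mul_of_nonneg_left hyx hc
    have e2 : c ^ 2 * y ^ 2 ≤ c ^ 2 * x ^ 2 :=
      mul_le_mul_of_nonneg_left (pow_le_pow_left₀ hy.le hyx 2) (sq_nonneg c)
    linarith
  have hsy : 0 ≤ 1 - y / 2 - c * y ^ 2 := by
    have e2 : c * y ^ 2 ≤ c * x ^ 2 :=
      mul_le_mul_of_nonneg_left (pow_le_pow_left₀ hy.le hyx 2) hc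
    linarith
  have hy1 : y < 1 := by linarith
  subst hxe hye
  obtain ⟨G, hG⟩ : ∃ G : ℝ, G = GC a lam σ w V U g h d e := ⟨_, rfl⟩
  have eG : GX = σ * G := by rw [hGX, hG, GC]; ring
  obtain ⟨u, hu⟩ : ∃ u : ℝ, u = (1 - w) * Z1 + w * Z2 - σ * w * (1 - w) * Z1 * Z2 := ⟨_, rfl⟩
  obtain ⟨u', hu'⟩ : ∃ u' : ℝ, u' = (1 - w) * Y1 + w * Y2 - σ * w * (1 - w) * Y1 * Y2 := ⟨_, rfl⟩
  have eb : b = σ * u := by rw [hb, hu]; ring
  have eb' : b' = σ * u' := by rw [hb', hu']; ring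
  have eM : ∀ z : ℝ, (d + e + lam - g - h) * GX - (1 - σ * (1 - w)) * (1 - σ * w)
      * (σ * z * (σ * z)) = σ * ((d + e + lam - g - h) * G
        - (1 - σ * (1 - w)) * (1 - σ * w) * σ * z * z) := by
    intro z; rw [eG]; ring
  have hGG : 0 ≤ G := pos_of hσ0 (by rw [← eG]; exact h1)
  refine cc_E2 (q := q) (c := c) (W1 := W1) (W2 := W2) hσ0 hw0 (by linarith) hx1 hy1 hV hU hq
    hV0 hU0 hc hcx hcy hsx hsy Z1 Z2 Y1 Y2 u u' hZ1 hZ2 hY1 hY2 hu hu' (by rw [← hG]; exact hGG)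
    h2 ?_
  rw [← hG]
  rw [eb, eb', eM, eM] at h3
  rcases h3 with ⟨h4, h5⟩ | ⟨h4, h5⟩ | ⟨h4, h5⟩
  · refine Or.inl ⟨pos_of hσ0 (by rw [mul_add]; exact h4), pos_of hσ0 h5⟩
  · refine Or.inr (Or.inl ⟨?_, pos_of hσ0 h5⟩)
    have : 0 ≤ -(u + u') := pos_of hσ0 (by linarith)
    linarith
  · exact Or.inr (Or.inr ⟨pos_of hσ0 h4, pos_of hσ0 h5⟩)

theorem E3X {a lam x y q V U g h d e : ℝ} (hy : 0 < y) (hyx : y ≤ x) (hx1 : x < 1)
    (hq : q ^ 2 ≤ x * y) (hV0 : 0 ≤ V) (hU0 : 0 ≤ U) (hVU : V * U ≤ 2) (GX : ℝ)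
    (hGX : GX = (x + y) * ((1 - x) * (1 - y)) + x * y * (G1 a lam x V g d * (1 - y)
      + G1 a lam y U h e * (1 - x)))
    (h1 : 0 ≤ GX) (h2 : 0 ≤ d + e + lam - g - h)
    (h3 : 0 ≤ (d + e + lam - g - h) * GX - (1 - x) * (1 - y)) :
    1 - x - y + 2 * q ≤ ECC a lam x y q V U g h d e := by
  obtain ⟨σ, w, hσ0, hw0, hw2, hxe, hye⟩ := sw hy hyx
  have hy1 : y < 1 := by linarith
  subst hxe hye
  obtain ⟨G, hG⟩ : ∃ G : ℝ, G = GC a lam σ w V U g h d e := ⟨_, rfl⟩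
  have eG : GX = σ * G := by rw [hGX, hG, GC]; ring
  have hGG : 0 ≤ G := pos_of hσ0 (by rw [← eG]; exact h1)
  refine cc_E3' hσ0 hw0 (by linarith) hx1 hy1 hq hV0 hU0 hVU (by rw [← hG]; exact hGG) h2 ?_
  rw [← hG]
  rw [eG] at h3
  linarith

theorem NX {a lam x y q V U g h d e : ℝ} (hy : 0 < y) (hyx : y ≤ x) (hx1 : x < 1)
    (hq : q ^ 2 ≤ x * y) (GX : ℝ)
    (hGX : GX = (x + y) * ((1 - x) * (1 - y)) + x * y * (G1 a lam x V g d * (1 - y)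
      + G1 a lam y U h e * (1 - x)))
    (h1 : 0 ≤ GX) (h2 : 0 ≤ 1 - x - y + x * y * (d + e + lam - g - h))
    (h3 : 0 ≤ (1 - x - y + x * y * (d + e + lam - g - h)) * GX
      - x * y * ((1 - x) * (1 - y) * ((1 - x) * (1 - y))) * ((V * U) * (V * U))) :
    0 ≤ ECC a lam x y q V U g h d e := by
  obtain ⟨σ, w, hσ0, hw0, hw2, hxe, hye⟩ := sw hy hyx
  have hy1 : y < 1 := by linarith
  subst hxe hye
  obtain ⟨G, hG⟩ : ∃ G : ℝ, G = GC a lam σ w V U g h d e := ⟨_, rfl⟩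
  have eG : GX = σ * G := by rw [hGX, hG, GC]; ring
  have hGG : 0 ≤ G := pos_of hσ0 (by rw [← eG]; exact h1)
  refine cc_N hσ0 hw0 (by linarith) hx1 hy1 hq (by rw [← hG]; exact hGG)
    (le_trans h2 (le_of_eq (by ring))) ?_
  rw [← hG]
  rw [eG] at h3
  refine pos_of hσ0 (le_trans h3 (le_of_eq ?_))
  ring

/-- data evaluated at the point -/
structure Dat (p : Piece) (a x y : ℝ) (pt : Fin 3 → ℝ) (e : XYE) : Prop where
  ha : e.a.ev pt = a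
  hl : e.lam.ev pt = p.lamR a
  hx : e.x.ev pt = x
  hy : e.y.ev pt = y
  hW1 : e.W1.ev pt = evalR p.W x (p.t a)
  hW2 : e.W2.ev pt = evalR p.W y (p.t a)
  hg : e.g.ev pt = p.gcR a x
  hh : e.h.ev pt = p.gcR a y
  hd : e.d.ev pt = p.dlR a x
  he : e.e.ev pt = p.dlR a y

lemma dat (p : Piece) (x y : ℝ) :
    Dat p p.arU x y ![0, x, y] (p.xy p.aU v1 v2) := by
  constructor <;>
    simp [Piece.xy, evalE_ev, v1, v2, ev_sub, ev_cst, ev_int, ev_var, Piece.t,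
      Piece.lamR, Piece.gcR, Piece.dlR, Piece.aU, Piece.arU]

section
variable {p : Piece} {a x y : ℝ} {pt : Fin 3 → ℝ} {e : XYE} (D : Dat p a x y pt e)
include D

lemma ev_V : e.V.ev pt = p.VcR a x := by
  simp only [XYE.V, ev_sub, ev_mul, ev_int, D.hW1, D.hx, Piece.VcR]
  norm_num

lemma ev_U : e.U.ev pt = p.VcR a y := by
  simp only [XYE.U, ev_sub, ev_mul, ev_int, D.hW2, D.hy, Piece.VcR]
  norm_num

lemma ev_ch : e.ch.ev pt = p.dlR a x + p.dlR a y + p.lamR a - p.gcR a x - p.gcR a y := by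
  simp only [XYE.ch, ev_sub, ev_add, D.hd, D.he, D.hl, D.hg, D.hh]

lemma ev_D2 : e.D2.ev pt = (1 - x) * (1 - y) := by
  simp only [XYE.D2, ev_sub, ev_mul, ev_int, D.hx, D.hy]
  norm_num

lemma ev_G1 : e.G1.ev pt = G1 a (p.lamR a) x (p.VcR a x) (p.gcR a x) (p.dlR a x) := by
  simp only [XYE.G1, ev_sub, ev_add, ev_mul, ev_int, ev_cst, D.hx, D.ha, D.hl, D.hg,
    D.hd, ev_V D, G1]
  push_cast
  ring

lemma ev_G2 : e.G2.ev pt = G1 a (p.lamR a) y (p.VcR a y) (p.gcR a y) (p.dlR a y) := by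
  simp only [XYE.G2, ev_sub, ev_add, ev_mul, ev_int, ev_cst, D.hy, D.ha, D.hl, D.hh,
    D.he, ev_U D, G1]
  push_cast
  ring

lemma ev_GX : e.GX.ev pt = (x + y) * ((1 - x) * (1 - y)) + x * y * (G1 a (p.lamR a) x
    (p.VcR a x) (p.gcR a x) (p.dlR a x) * (1 - y)
      + G1 a (p.lamR a) y (p.VcR a y) (p.gcR a y) (p.dlR a y) * (1 - x)) := by
  simp only [XYE.GX, ev_sub, ev_add, ev_mul, ev_int, ev_D2 D, ev_G1 D, ev_G2 D, D.hx, D.hy]
  norm_num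

lemma ev_A : e.A.ev pt = 1 - x - y + x * y * (p.dlR a x + p.dlR a y + p.lamR a - p.gcR a x
    - p.gcR a y) := by
  simp only [XYE.A, ev_sub, ev_add, ev_mul, ev_int, ev_ch D, D.hx, D.hy]
  norm_num

lemma ev_Z1 (z : Ex) : (e.Z1 z).ev pt = (1 / 2 + z.ev pt * x) + evalR p.W x (p.t a)
    - x * (1 / 2 + z.ev pt * x) * evalR p.W x (p.t a) := by
  simp only [XYE.Z1, ev_sub, ev_add, ev_mul, ev_cst, D.hx, D.hW1]
  norm_num

lemma ev_Z2 (z : Ex) : (e.Z2 z).ev pt = (1 / 2 + z.ev pt * y) + evalR p.W y (p.t a)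
    - y * (1 / 2 + z.ev pt * y) * evalR p.W y (p.t a) := by
  simp only [XYE.Z2, ev_sub, ev_add, ev_mul, ev_cst, D.hy, D.hW2]
  norm_num

lemma ev_Y1 : e.Y1.ev pt = 1 / 2 + evalR p.W x (p.t a)
    - 1 / 2 * x * evalR p.W x (p.t a) := by
  simp only [XYE.Y1, ev_sub, ev_add, ev_mul, ev_cst, D.hx, D.hW1]
  norm_num

lemma ev_Y2 : e.Y2.ev pt = 1 / 2 + evalR p.W y (p.t a)
    - 1 / 2 * y * evalR p.W y (p.t a) := by
  simp only [XYE.Y2, ev_sub, ev_add, ev_mul, ev_cst, D.hy, D.hW2]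
  norm_num

lemma ev_b (z : Ex) : (e.b z).ev pt = x * (e.Z1 z).ev pt + y * (e.Z2 z).ev pt
    - x * y * ((e.Z1 z).ev pt * (e.Z2 z).ev pt) := by
  simp only [XYE.b, ev_sub, ev_add, ev_mul, D.hx, D.hy]

lemma ev_b' : e.b'.ev pt = x * e.Y1.ev pt + y * e.Y2.ev pt
    - x * y * (e.Y1.ev pt * e.Y2.ev pt) := by
  simp only [XYE.b', ev_sub, ev_add, ev_mul, D.hx, D.hy]

lemma ev_M (z : Ex) : (e.M z).ev pt = (p.dlR a x + p.dlR a y + p.lamR a - p.gcR a x - p.gcR a y)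
    * e.GX.ev pt - (1 - x) * (1 - y) * (z.ev pt * z.ev pt) := by
  simp only [XYE.M, ev_sub, ev_mul, ev_ch D, ev_D2 D]

end

lemma vc_nonneg (p : Piece) (hV : Chk (uvCopts p) (uCBox p)) (x : ℝ) (hx : 0 ≤ x) (hx1 : x ≤ (p.a1 : ℝ) / 3000) :
    0 ≤ p.VcR p.arU x := by
  obtain ⟨es, hes, he⟩ := hV ![0, x, 0] (by
    refine ⟨by simp [uCBox], by simp [uCBox], by simpa [uCBox] using hx,
      by simpa [uCBox] using hx1, by simp [uCBox], by simp [uCBox]⟩)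
  simp only [uvCopts, List.mem_singleton] at hes
  subst hes
  have := he _ (List.mem_singleton.mpr rfl)
  simpa [evalE_ev, v1, ev_sub, ev_mul, ev_cst, ev_int, ev_var, Piece.t, Piece.VcR, Piece.aU,
    Piece.arU] using this

lemma last_neg (x y : ℝ) (h : y ≤ x) : ¬ (0 ≤ (v2 - v1 - tau).ev ![0, x, y]) := by
  intro h'
  simp only [v1, v2, tau, ev_sub, ev_mul, ev_cst, ev_var] at h'
  have e1 : (![0, x, y] : Fin 3 → ℝ) 1 = x := rfl
  have e2 : (![0, x, y] : Fin 3 → ℝ) 2 = y := rfl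
  rw [e1, e2] at h'
  norm_num at h'
  linarith

lemma EU_case (p : Piece) (x y q : ℝ) (n : ℤ) (hn : 0 ≤ n) (hy : 0 < y) (hyx : y ≤ x)
    (hx1 : x < 1) (hq : q ^ 2 ≤ x * y)
    (hVx : 0 ≤ p.VcR p.arU x) (hVy : 0 ≤ p.VcR p.arU y)
    (es : List Ex) (hes : es ∈ (p.xy p.aU v1 v2).EU n) (he : ∀ e ∈ es, 0 ≤ e.ev ![0, x, y]) :
    1 - x - y + 2 * q ≤ ECC p.arU (p.lamR p.arU) x y q (p.VcR p.arU x) (p.VcR p.arU y)
      (p.gcR p.arU x) (p.gcR p.arU y) (p.dlR p.arU x) (p.dlR p.arU y) := by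
  have D := dat p x y
  obtain ⟨e, hee⟩ : ∃ e : XYE, e = p.xy p.aU v1 v2 := ⟨_, rfl⟩
  rw [← hee] at D hes
  have hcases : (0 ≤ (Ex.int 2 * .cst n - .cst 750 - .cst n * e.x
        - .cst n * .cst n * (e.x * e.x)).ev ![0, x, y] ∧
      0 ≤ (Ex.int 2 - e.x - .int 2 * .cst n * (e.x * e.x)).ev ![0, x, y]) ∧
      (0 ≤ e.GX.ev ![0, x, y] ∧ 0 ≤ e.ch.ev ![0, x, y] ∧
        ((0 ≤ (e.b (.cst n)).ev ![0, x, y] + e.b'.ev ![0, x, y] ∧
          0 ≤ (e.M (e.b (.cst n))).ev ![0, x, y]) ∨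
        ((e.b (.cst n)).ev ![0, x, y] + e.b'.ev ![0, x, y] ≤ 0 ∧
          0 ≤ (e.M e.b').ev ![0, x, y]) ∨
        (0 ≤ (e.M (e.b (.cst n))).ev ![0, x, y] ∧ 0 ≤ (e.M e.b').ev ![0, x, y]))) := by
    simp only [XYE.EU, List.mem_cons, List.not_mem_nil, or_false] at hes
    rcases hes with hes' | hes' | hes'
    · subst hes'
      refine ⟨⟨he _ (by simp), he _ (by simp)⟩, he _ (by simp), he _ (by simp),
        Or.inl ⟨?_, he _ (by simp)⟩⟩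
      have := he (e.b (.cst n) + e.b') (by simp)
      rwa [ev_add] at this
    · subst hes'
      refine ⟨⟨he _ (by simp), he _ (by simp)⟩, he _ (by simp), he _ (by simp),
        Or.inr (Or.inl ⟨?_, he _ (by simp)⟩)⟩
      have := he (.int 0 - e.b (.cst n) - e.b') (by simp)
      rw [ev_sub, ev_sub, ev_int, Int.cast_zero] at this
      linarith
    · subst hes'
      exact ⟨⟨he _ (by simp), he _ (by simp)⟩, he _ (by simp), he _ (by simp),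
        Or.inr (Or.inr ⟨he _ (by simp), he _ (by simp)⟩)⟩
  obtain ⟨⟨hk1, hk2⟩, h1, h2, h3⟩ := hcases
  rw [ev_ch D] at h2
  rw [ev_M D, ev_M D] at h3
  simp only [ev_sub, ev_mul, ev_cst, ev_int, D.hx] at hk1 hk2
  have c0 : 0 ≤ (n : ℝ) / 3000 := by positivity
  push_cast at hk1 hk2
  have c7 : 1 / 4 - 2 * ((n : ℝ) / 3000) + (n : ℝ) / 3000 * x
      + ((n : ℝ) / 3000) ^ 2 * x ^ 2 ≤ 0 := by
    have e1 : 1 / 4 - 2 * ((n : ℝ) / 3000) + (n : ℝ) / 3000 * x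
      + ((n : ℝ) / 3000) ^ 2 * x ^ 2 = -(2 * ((n : ℝ) / 3000) - 750 / 3000
        - (n : ℝ) / 3000 * x - (n : ℝ) / 3000 * ((n : ℝ) / 3000) * (x * x)) := by ring
    rw [e1]
    linarith
  have c8 : 0 ≤ 1 - x / 2 - (n : ℝ) / 3000 * x ^ 2 := by
    have e1 : 1 - x / 2 - (n : ℝ) / 3000 * x ^ 2
      = (2 - x - 2 * ((n : ℝ) / 3000) * (x * x)) / 2 := by ring
    rw [e1]
    linarith
  exact E2X (q := q) (c := (n : ℝ) / 3000) (W1 := evalR p.W x (p.t p.arU))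
    (W2 := evalR p.W y (p.t p.arU)) hy hyx hx1 rfl rfl hq hVx hVy c0 c7 c8
    ((e.Z1 (.cst n)).ev ![0, x, y]) ((e.Z2 (.cst n)).ev ![0, x, y])
    (e.Y1.ev ![0, x, y]) (e.Y2.ev ![0, x, y])
    ((e.b (.cst n)).ev ![0, x, y]) (e.b'.ev ![0, x, y]) (e.GX.ev ![0, x, y])
    (ev_Z1 D _) (ev_Z2 D _) (ev_Y1 D) (ev_Y2 D) (ev_b D _) (ev_b' D) (ev_GX D)
    h1 h2 h3

end LU1aux

open LU1aux
open L1aux (ev_add ev_sub ev_mul ev_cst ev_int ev_var)

/-- `g_c ≥ 0` on `[0, 1]` -/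
lemma ugc_nonneg (p : Piece) (h : Chk (ugCopts p) (uCBox p)) (t : ℝ) (h0 : 0 ≤ t)
    (h1 : t ≤ (p.a1 : ℝ) / 3000) :
    0 ≤ p.gcR p.arU t := by
  obtain ⟨es, hes, he⟩ := h ![0, t, 0] (by
    refine ⟨by simp [uCBox], by simp [uCBox], by simpa [uCBox] using h0,
      by simpa [uCBox] using h1, by simp [uCBox], by simp [uCBox]⟩)
  simp only [ugCopts, List.mem_singleton] at hes
  subst hes
  have := he _ (List.mem_singleton.mpr rfl)
  simpa [evalE_ev, v1, ev_sub, ev_mul, ev_cst, ev_int, ev_var, Piece.t, Piece.gcR, Piece.aU,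
    Piece.arU] using this

theorem ucc_of_chk (p : Piece) (hp : p.okU = true) (hN : Chk (uccNopts p) (uccBox p))
    (hE : Chk (uccEopts p) (uccBox p)) (hV : Chk (uvCopts p) (uCBox p)) (x y q : ℝ)
    (hy : 0 < y) (hyx : y ≤ x) (hx1 : x < 1) (hxX : x ≤ (p.a1 : ℝ) / 3000)
    (hq : q ^ 2 ≤ x * y) :
    0 ≤ ECC p.arU (p.lamR p.arU) x y q (p.VcR p.arU x) (p.VcR p.arU y) (p.gcR p.arU x)
        (p.gcR p.arU y) (p.dlR p.arU x) (p.dlR p.arU y) ∧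
    1 - x - y + 2 * q ≤ ECC p.arU (p.lamR p.arU) x y q (p.VcR p.arU x) (p.VcR p.arU y)
        (p.gcR p.arU x) (p.gcR p.arU y) (p.dlR p.arU x) (p.dlR p.arU y) := by
  have hx0 : 0 < x := lt_of_lt_of_le hy hyx
  have hmem : (uccBox p).mem ![0, x, y] := by
    refine ⟨by simp [uccBox], by simp [uccBox], by simpa [uccBox] using hx0.le,
      by simpa [uccBox] using hxX, by simpa [uccBox] using hy.le, ?_⟩
    simpa [uccBox] using hyx.trans hxX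
  have D := dat p x y
  constructor
  · obtain ⟨es, hes, he⟩ := hN _ hmem
    simp only [uccNopts, List.mem_cons, List.not_mem_nil, or_false] at hes
    rcases hes with hes | hes
    · subst hes
      have h1 := he (p.xy p.aU v1 v2).GX (by simp)
      have h2 := he (p.xy p.aU v1 v2).A (by simp)
      have h3 := he ((p.xy p.aU v1 v2).A * (p.xy p.aU v1 v2).GX - (p.xy p.aU v1 v2).x
        * (p.xy p.aU v1 v2).y * ((p.xy p.aU v1 v2).D2 * (p.xy p.aU v1 v2).D2)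
        * (((p.xy p.aU v1 v2).V * (p.xy p.aU v1 v2).U)
          * ((p.xy p.aU v1 v2).V * (p.xy p.aU v1 v2).U))) (by simp)
      simp only [ev_sub, ev_mul, ev_A D, ev_V D, ev_U D, ev_D2 D, D.hx, D.hy] at h2 h3
      exact NX hy hyx hx1 hq _ (ev_GX D) h1 h2 h3
    · subst hes
      exact absurd (he _ (List.mem_singleton.mpr rfl)) (last_neg x y hyx)
  · have hVx : 0 ≤ p.VcR p.arU x := vc_nonneg p hV x hx0.le hxX
    have hVy : 0 ≤ p.VcR p.arU y := vc_nonneg p hV y hy.le (hyx.trans hxX)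
    obtain ⟨es, hes, he⟩ := hE _ hmem
    simp only [uccEopts, List.mem_append, List.mem_flatMap, List.mem_cons, List.not_mem_nil,
      or_false] at hes
    rcases hes with ⟨n, hn, hes⟩ | hes | hes
    · refine EU_case p x y q n ?_ hy hyx hx1 hq hVx hVy es hes he
      simp only [cList, List.mem_cons, List.not_mem_nil, or_false] at hn
      omega
    · subst hes
      have h1 := he (p.xy p.aU v1 v2).GX (by simp [XYE.E1])
      have h2 := he (p.xy p.aU v1 v2).ch (by simp [XYE.E1])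
      have h3 := he (.int 2 - (p.xy p.aU v1 v2).V * (p.xy p.aU v1 v2).U) (by simp [XYE.E1])
      have h4 := he ((p.xy p.aU v1 v2).ch * (p.xy p.aU v1 v2).GX - (p.xy p.aU v1 v2).D2)
        (by simp [XYE.E1])
      rw [ev_ch D] at h2
      simp only [ev_sub, ev_mul, ev_int, ev_V D, ev_U D] at h3
      simp only [ev_sub, ev_mul, ev_ch D, ev_D2 D] at h4
      push_cast at h3
      exact E3X hy hyx hx1 hq hVx hVy (by linarith) _ (ev_GX D) h1 h2 h4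
    · subst hes
      exact absurd (he _ (List.mem_singleton.mpr rfl)) (last_neg x y hyx)

end Pool.Agent.T2H40.BR
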