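import Pool.Agent.T2H40.BR.Pkg.L2
import Pool.Agent.T2H40.BR.BuildU

/-!
# Package LU2: types `C`, `S` of the universal piece, from the checked polynomials to the inequalities
-/

set_option autoImplicit false

namespace Pool.Agent.T2H40.BR

open L2aux

theorem ucs_of_chk (p : Piece) (hp : p.okU = true) (c : SCls) (hc : c.ok = true)
    (hN : Chk (ucsNopts p c) (ucsNBox p c)) (hE : Chk (ucsEuopts p c) (ucsEBox p))
    (hu : Chk (ucsEuopts p c) (ucsEuBox p))
    (ht : 4 * p.e1 ^ 2 < 3000 * c.lo ∨ Chk (ucsEtopts p c) (ucsEtBox p))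
    (hs : 4 * p.e1 ^ 2 < 3000 * c.lo ∨ Chk (ucsEsopts p c) (ucsEsBox p)) (x r q : ℝ)
    (hx : 0 < x) (hx1 : x < 1) (hxX : x ≤ (p.a1 : ℝ) / 3000)
    (hr : 0 ≤ r) (hr1 : r < 1) (hrx : r ≤ 1 - x) (hlo : (c.lo : ℝ) / 3000 ≤ r)
    (hhi : r ≤ (c.hi : ℝ) / 3000) (hq : q ^ 2 ≤ (1 - x) * r) :
    0 ≤ ECS p.arU x r q (p.VcR p.arU x) (c.VR p p.arU r) (p.gcR p.arU x) (c.gR p p.arU r)
        (p.dlR p.arU x) (c.AnR p p.arU r) (c.AdR p.arU r) ∧
    r - x + 2 * q ≤ ECS p.arU x r q (p.VcR p.arU x) (c.VR p p.arU r) (p.gcR p.arU x)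
        (c.gR p p.arU r) (p.dlR p.arU x) (c.AnR p p.arU r) (c.AdR p.arU r) := by
  unfold Piece.okU at hp
  simp only [Bool.and_eq_true, decide_eq_true_eq] at hp
  obtain ⟨⟨⟨p1, p2⟩, p4⟩, p5⟩ := hp
  unfold SCls.ok at hc
  simp only [Bool.and_eq_true, Bool.or_eq_true, decide_eq_true_eq] at hc
  obtain ⟨⟨c1, c2⟩, c3⟩ := hc
  have p1' : (0 : ℝ) < p.a0 := by exact_mod_cast p1
  have p4' : (0 : ℝ) < p.e1 := by exact_mod_cast p4
  have h1x : 0 < 1 - x := by linarith
  have ha : 0 < p.arU := by unfold Piece.arU; positivity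
  have haU : ∀ v : Fin 3 → ℝ, (p.aU).ev v = p.arU := fun v => rfl
  have h31 : (((3000 : ℤ) : ℝ) / 3000) = 1 := by norm_num
  have hAd : 0 < c.AdR p.arU r := by
    unfold SCls.AdR
    rcases hk : c.kd with _ | _ | k
    · simp only; linarith
    · exact ha
    · have hlo' : (0 : ℝ) < c.lo := by
        rcases c3 with h | h
        · omega
        · exact_mod_cast h
      have : (0 : ℝ) < c.lo / 3000 := by positivity
      exact mul_pos ha (by linarith)
  -- nonedge
  have hnon : 0 ≤ ECS p.arU x r q (p.VcR p.arU x) (c.VR p p.arU r) (p.gcR p.arU x)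
      (c.gR p p.arU r) (p.dlR p.arU x) (c.AnR p p.arU r) (c.AdR p.arU r) := by
    have hmem : (ucsNBox p c).mem ![0, x, r] := by
      refine ⟨?_, ?_, ?_, ?_, hlo, hhi⟩
      · simp [ucsNBox]
      · simp [ucsNBox]
      · simp only [ucsNBox]; simpa using hx.le
      · simp only [ucsNBox]; exact hxX
    obtain ⟨es, hes, h⟩ := hN _ hmem
    have htau := ev_tau ![0, x, r]
    unfold ucsNopts at hes
    rw [List.mem_append] at hes
    rcases hes with hes | hes
    · have := nonedge ![0, x, r] (p.cs c p.aU v1 v2) q hx hx1 hr (by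
        rw [Ad_ev]; exact hAd) hq es hes h
      rw [ecs_cs] at this
      exact this
    · exfalso
      simp only [List.mem_cons, List.not_mem_nil, or_false] at hes
      rcases hes with rfl
      have := h _ (List.mem_singleton_self _)
      have h2 : (v1 + v2 - .int 1 - tau).ev ![0, x, r] = x + r - ((1 : ℤ) : ℝ) - tau.ev ![0, x, r] := rfl
      rw [Int.cast_one] at h2
      linarith
  refine ⟨hnon, ?_⟩
  -- the edge inequality; `w = √(r / (1 - x))`
  obtain ⟨w, hw, hrw⟩ : ∃ w : ℝ, 0 ≤ w ∧ r = (1 - x) * w * w := by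
    refine ⟨Real.sqrt (r / (1 - x)), Real.sqrt_nonneg _, ?_⟩
    rw [mul_assoc, Real.mul_self_sqrt (by positivity)]
    field_simp
  have hw1 : w ≤ 1 := by
    by_contra hcon
    push Not at hcon
    have h1 : (1 - x) * 1 < (1 - x) * (w * w) := mul_lt_mul_of_pos_left (by nlinarith) h1x
    nlinarith
  -- expressions with the right values
  have main : ∀ (v : Fin 3 → ℝ) (X R W : Ex), X.ev v = x → R.ev v = r → W.ev v = w →
      ∀ es ∈ (p.cs c p.aU X R).E W, (∀ e ∈ es, 0 ≤ e.ev v) →
      r - x + 2 * q ≤ ECS p.arU x r q (p.VcR p.arU x) (c.VR p p.arU r) (p.gcR p.arU x)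
        (c.gR p p.arU r) (p.dlR p.arU x) (c.AnR p p.arU r) (c.AdR p.arU r) := by
    intro v X R W hX hR hW es hes h
    have hA : (p.aU).ev v = p.arU := rfl
    have e1 : (p.cs c p.aU X R).x.ev v = x := hX
    have e2 : (p.cs c p.aU X R).r.ev v = r := hR
    have e3 := ecs_cs v p c p.aU X R q
    rw [hA, hX, hR] at e3
    have h4 := edge v (p.cs c p.aU X R) W q (by rw [e1]; exact hx) (by rw [e1]; exact hx1)
      (by rw [hW]; exact hw) (by rw [e1, e2, hW]; exact hrw)
      (by rw [Ad_ev, hA, hR]; exact hAd) (by rw [e1, e2]; exact hq) (by rw [e3]; exact hnon)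
      es hes h
    rw [e1, e2, e3] at h4
    exact h4
  -- the options at `(x, w)`
  have fin : ∀ es ∈ ucsEuopts p c, (∀ e ∈ es, 0 ≤ e.ev ![0, x, w]) →
      r - x + 2 * q ≤ ECS p.arU x r q (p.VcR p.arU x) (c.VR p p.arU r) (p.gcR p.arU x)
        (c.gR p p.arU r) (p.dlR p.arU x) (c.AnR p p.arU r) (c.AdR p.arU r) := by
    intro es hes h
    have htau := ev_tau ![0, x, w]
    have eR : ((.int 1 - v1) * v2 * v2 : Ex).ev ![0, x, w] = r := by
      have : ((.int 1 - v1) * v2 * v2 : Ex).ev ![0, x, w] = (((1 : ℤ) : ℝ) - x) * w * w := rfl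
      rw [this, Int.cast_one, hrw]
    unfold ucsEuopts at hes
    simp only [List.mem_append] at hes
    rcases hes with hes | hes
    · exact main _ _ _ _ rfl eR rfl es hes h
    · exfalso
      simp only [List.mem_cons, List.not_mem_nil, or_false] at hes
      rcases hes with rfl | rfl
      · have := h _ (List.mem_singleton_self _)
        rw [ev_sub, ev_sub, eR, ev_cst] at this
        linarith
      · have := h _ (List.mem_singleton_self _)
        rw [ev_sub, ev_sub, eR, ev_cst] at this
        linarith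
  rcases le_total x ((p.e1 : ℝ) / 3000) with hxe | hxe
  · rcases le_total ((2 * p.e1 : ℤ) / 3000 : ℝ) w with hwe | hwe
    · -- `2 e1 ≤ w`
      have hmem : (ucsEuBox p).mem ![0, x, w] := by
        refine ⟨?_, ?_, ?_, hxe, hwe, ?_⟩
        · simp [ucsEuBox]
        · simp [ucsEuBox]
        · simp only [ucsEuBox]; simpa using hx.le
        · simp only [ucsEuBox]
          rw [h31]
          exact hw1
      obtain ⟨es, hes, h⟩ := hu _ hmem
      exact fin es hes h
    -- `w ≤ 2 e1`
    have hsmall : 4 * p.e1 ^ 2 < 3000 * c.lo → False := by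
      intro hs
      have h1 : (4 : ℝ) * p.e1 ^ 2 < 3000 * c.lo := by exact_mod_cast hs
      push_cast at hwe
      have h2 : w * w ≤ (2 * (p.e1 : ℝ) / 3000) * (2 * (p.e1 : ℝ) / 3000) :=
        mul_le_mul hwe hwe hw (by positivity)
      have h4 : r ≤ w * w := by nlinarith [mul_nonneg hx.le (mul_nonneg hw hw)]
      have h5 : (2 * (p.e1 : ℝ) / 3000) * (2 * (p.e1 : ℝ) / 3000) = 4 * (p.e1 : ℝ) ^ 2 / 9000000 := by
        ring
      rw [h5] at h2
      nlinarith
    rcases le_total w (2 * x) with hwx | hwx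
    · -- star limit
      rcases hs with hs | hs
      · exact absurd hs hsmall
      · -- `η = w / x`
        have hmem : (ucsEsBox p).mem ![0, x, w / x] := by
          refine ⟨?_, ?_, ?_, hxe, ?_, ?_⟩
          · simp [ucsEsBox]
          · simp [ucsEsBox]
          · simp only [ucsEsBox]; simpa using hx.le
          · simp only [ucsEsBox]
            have : 0 ≤ w / x := by positivity
            simpa using this
          · simp only [ucsEsBox]
            have : w / x ≤ 2 := by rw [div_le_iff₀ hx]; exact hwx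
            have h6 : (((6000 : ℤ) : ℝ) / 3000) = 2 := by norm_num
            rw [h6]; exact this
        obtain ⟨es, hes, h⟩ := hs _ hmem
        have hwx' : w / x * x = w := by field_simp
        have e1 : (p.cs c p.aU v1 ((Ex.int 1 - v1) * (v2 * v1) * (v2 * v1))).x.ev ![0, x, w / x] = x := rfl
        have e2 : ((.int 1 - v1) * (v2 * v1) * (v2 * v1) : Ex).ev ![0, x, w / x] = r := by
          have : ((.int 1 - v1) * (v2 * v1) * (v2 * v1) : Ex).ev ![0, x, w / x] =
            (((1 : ℤ) : ℝ) - x) * (w / x * x) * (w / x * x) := rfl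
          rw [this, hwx', Int.cast_one, hrw]
        have e2' : (p.cs c p.aU v1 ((Ex.int 1 - v1) * (v2 * v1) * (v2 * v1))).r.ev ![0, x, w / x] = r := e2
        have e3 := ecs_cs ![0, x, w / x] p c p.aU v1 ((Ex.int 1 - v1) * (v2 * v1) * (v2 * v1)) q
        have e4 : v1.ev ![0, x, w / x] = x := rfl
        have e5 : v2.ev ![0, x, w / x] = w / x := rfl
        rw [haU, e4, e2] at e3
        have h4 := edges ![0, x, w / x] (p.cs c p.aU v1 ((Ex.int 1 - v1) * (v2 * v1) * (v2 * v1))) v2 q
          (by rw [e1]; exact hx) (by rw [e1]; exact hx1) (by rw [e5]; positivity)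
          (by rw [e1, e2', e5, hwx']; exact hrw) (by rw [Ad_ev, haU, e2]; exact hAd)
          (by rw [e1, e2']; exact hq) es hes h
        rw [e1, e2', e3] at h4
        exact h4
    · -- small `x`, `y = w - 2 x`
      rcases ht with ht | ht
      · exact absurd ht hsmall
      have hmem : (ucsEtBox p).mem ![0, x, w - 2 * x] := by
        refine ⟨?_, ?_, ?_, hxe, ?_, ?_⟩
        · simp [ucsEtBox]
        · simp [ucsEtBox]
        · simp only [ucsEtBox]; simpa using hx.le
        · simp only [ucsEtBox]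
          have : 0 ≤ w - 2 * x := by linarith
          simpa using this
        · simp only [ucsEtBox]
          show w - 2 * x ≤ ((2 * p.e1 : ℤ) : ℝ) / 3000
          linarith
      obtain ⟨es, hes, h⟩ := ht _ hmem
      have htau := ev_tau ![0, x, w - 2 * x]
      have eW : (.int 2 * v1 + v2 : Ex).ev ![0, x, w - 2 * x] = w := by
        have : (.int 2 * v1 + v2 : Ex).ev ![0, x, w - 2 * x] = ((2 : ℤ) : ℝ) * x + (w - 2 * x) := rfl
        rw [this]; push_cast; ring
      have eR : ((.int 1 - v1) * (.int 2 * v1 + v2) * (.int 2 * v1 + v2) : Ex).ev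
          ![0, x, w - 2 * x] = r := by
        rw [ev_mul, ev_mul, eW]
        have : (.int 1 - v1 : Ex).ev ![0, x, w - 2 * x] = ((1 : ℤ) : ℝ) - x := rfl
        rw [this, Int.cast_one, hrw]
      unfold ucsEtopts at hes
      simp only [List.mem_append] at hes
      rcases hes with hes | hes
      · exact main _ _ _ _ rfl eR eW es hes h
      · exfalso
        simp only [List.mem_cons, List.not_mem_nil, or_false] at hes
        rcases hes with rfl | rfl | rfl
        · have := h _ (List.mem_singleton_self _)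
          rw [ev_sub, ev_sub, eR, ev_cst] at this
          linarith
        · have := h _ (List.mem_singleton_self _)
          rw [ev_sub, ev_sub, eR, ev_cst] at this
          linarith
        · have := h _ (List.mem_singleton_self _)
          rw [ev_sub, ev_sub, eW, ev_int, Int.cast_one] at this
          linarith
  · -- large `x`
    have hmem : (ucsEBox p).mem ![0, x, w] := by
      refine ⟨?_, ?_, hxe, ?_, ?_, ?_⟩
      · simp [ucsEBox]
      · simp [ucsEBox]
      · simp only [ucsEBox]; exact hxX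
      · simp only [ucsEBox]; simpa using hw
      · simp only [ucsEBox]
        rw [h31]
        exact hw1
    obtain ⟨es, hes, h⟩ := hE _ hmem
    exact fin es hes h

end Pool.Agent.T2H40.BR
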