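import Pool.Agent.T2H40.BR.Pkg.R2

/-!
# Package RU: types `S`, `S`, edge inequality with `√(r s) ≥ q + (r + s - 1)`
-/

set_option autoImplicit false

namespace Pool.Agent.T2H40.BR

open R2aux

namespace RUaux

lemma root_le {r s : ℝ} (hr : 0 ≤ r) (hs : 0 ≤ s) :
    Real.sqrt r * Real.sqrt s ≤ (r + s) / 2 := by
  have h1 := Real.sq_sqrt hr
  have h2 := Real.sq_sqrt hs
  nlinarith [sq_nonneg (Real.sqrt r - Real.sqrt s)]

/-- `√(r s) ≥ q + (r + s - 1)` -/
lemma root_ge {r s q : ℝ} (hr : 0 ≤ r) (hs : 0 ≤ s) (hr1 : r ≤ 1) (hs1 : s ≤ 1)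
    (hq' : q ^ 2 ≤ (1 - r) * (1 - s)) (hρ : 0 ≤ r + s - 1) :
    q + (r + s - 1) ≤ Real.sqrt r * Real.sqrt s := by
  have hR0 : 0 ≤ Real.sqrt r * Real.sqrt s := by positivity
  have hR2 := sq_root hr hs
  have hR3 := root_le hr hs
  set R := Real.sqrt r * Real.sqrt s
  have h1 : (r + s - 1) ^ 2 ≤ R ^ 2 := by
    rw [hR2]
    have e1 : (r + s - 1) ^ 2 = (r * s - (1 - r) * (1 - s)) ^ 2 := by ring
    have hα : 0 ≤ r * s := mul_nonneg hr hs
    have hα1 : r * s ≤ 1 := by nlinarith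
    have hβ : 0 ≤ (1 - r) * (1 - s) := mul_nonneg (by linarith) (by linarith)
    have hβα : (1 - r) * (1 - s) ≤ r * s := by nlinarith
    rw [e1]
    have h2 : (r * s - (1 - r) * (1 - s)) ^ 2 ≤ (r * s) ^ 2 := by
      apply pow_le_pow_left₀ (by linarith)
      linarith
    nlinarith
  have h2 : r + s - 1 ≤ R := (abs_le.mp (abs_le_of_sq_le_sq h1 hR0)).2
  have h3 : q ^ 2 ≤ (R - (r + s - 1)) ^ 2 := by
    have h4 : 0 ≤ (r + s - 1) * (r + s - 2 * R) := mul_nonneg hρ (by linarith)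
    nlinarith
  have h4 := (abs_le.mp (abs_le_of_sq_le_sq h3 (by linarith))).2
  linarith

/-- `2 |q| ≤ 2 - r - s` -/
lemma q_le {r s q : ℝ} (hr1 : r ≤ 1) (hs1 : s ≤ 1)
    (hq' : q ^ 2 ≤ (1 - r) * (1 - s)) : -q ≤ (2 - r - s) / 2 := by
  have h1 : (-q) ^ 2 ≤ ((2 - r - s) / 2) ^ 2 := by nlinarith [sq_nonneg (r - s)]
  exact (abs_le.mp (abs_le_of_sq_le_sq h1 (by linarith))).2

end RUaux

open RUaux

theorem ss_EU {a lam r s q V W g h An Ad Bn Bd : ℝ} (hr : 0 ≤ r) (hs : 0 ≤ s)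
    (hr1 : r ≤ 1) (hs1 : s ≤ 1) (hAd : 0 < Ad) (hBd : 0 < Bd) (hq : q ^ 2 ≤ r * s)
    (hq' : q ^ 2 ≤ (1 - r) * (1 - s)) (hVW : 0 ≤ V * W) (c Gp : ℝ)
    (hc : c = (Ad * Bd) * (1 - r - s) + r * s * SH a lam r s g h An Ad Bn Bd)
    (hGp : Gp = SG a lam r s V W g h An Ad Bn Bd + 2 * (Ad * Bd) * (V * W))
    (hneg : (0 ≤ 1 - r - s ∧ 0 ≤ ESS a lam r s q V W g h An Ad Bn Bd) ∨
      (0 ≤ SG a lam r s V W g h An Ad Bn Bd ∧ 0 ≤ c ∧
        0 ≤ 2 * c - (Ad * Bd) * ((r + s) * (V * W) - 2) * (2 - r - s)) ∨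
      (0 ≤ SG a lam r s V W g h An Ad Bn Bd ∧ 0 ≤ c ∧
        0 ≤ 4 * c * SG a lam r s V W g h An Ad Bn Bd -
          ((Ad * Bd) * ((r + s) * (V * W) - 2)) * ((Ad * Bd) * ((r + s) * (V * W) - 2))))
    (hpos : (∃ t, 0 ≤ t ∧ 0 ≤ Gp ∧ 0 ≤ c - t * r * s * (Ad * Bd) ∧
        0 ≤ (c - t * r * s * (Ad * Bd)) * (Gp + t * (Ad * Bd)) - (Ad * Bd) * (Ad * Bd)) ∨
      (0 ≤ c + r * s * Gp ∧ 0 ≤ (c + r * s * Gp) * (c + r * s * Gp) -
        4 * r * s * (Ad * Bd) * (Ad * Bd) ∧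
        0 ≤ (Ad * Bd) * (Ad * Bd) - Gp * Gp * r * s ∧ 0 ≤ c) ∨
      (0 ≤ r + s - 1 ∧ ∃ t, 0 ≤ t ∧ 0 ≤ Gp ∧ 0 ≤ c - t * ((1 - r) * (1 - s)) * (Ad * Bd) ∧
        0 ≤ (c - t * ((1 - r) * (1 - s)) * (Ad * Bd)) * (Gp + t * (Ad * Bd)) -
          (Ad * Bd) * (Ad * Bd) * ((1 - (r + s - 1) * (V * W)) * (1 - (r + s - 1) * (V * W)))) ∨
      (0 ≤ r + s - 1 ∧ 0 ≤ 1 - (r + s - 1) * (V * W) ∧ 0 ≤ c + (1 - r) * (1 - s) * Gp ∧
        0 ≤ (c + (1 - r) * (1 - s) * Gp) * (c + (1 - r) * (1 - s) * Gp) -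
          4 * ((1 - r) * (1 - s)) * (Ad * Bd) * (Ad * Bd) *
            ((1 - (r + s - 1) * (V * W)) * (1 - (r + s - 1) * (V * W))) ∧
        0 ≤ (Ad * Bd) * (Ad * Bd) * ((1 - (r + s - 1) * (V * W)) * (1 - (r + s - 1) * (V * W))) -
          Gp * Gp * ((1 - r) * (1 - s)) ∧ 0 ≤ c)) :
    r + s + 2 * q - 1 ≤ ESS a lam r s q V W g h An Ad Bn Bd := by
  have hD : 0 < Ad * Bd := by positivity
  have hR0 : 0 ≤ Real.sqrt r * Real.sqrt s := by positivity
  have hR2 := sq_root hr hs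
  have hRle := root_le hr hs
  rcases le_total q 0 with hq0 | hq0
  · rcases hneg with ⟨g1, g2⟩ | ⟨g1, g2, g3⟩ | ⟨g1, g2, g3⟩
    · linarith
    · rw [← sub_nonneg]
      refine nonneg_of_mul_nonneg_right ?_ hD
      rw [mul_sub, ss_eq hAd hBd]
      have hql := q_le hr1 hs1 hq'
      set R := Real.sqrt r * Real.sqrt s
      set D := Ad * Bd
      set P := V * W
      set G := SG a lam r s V W g h An Ad Bn Bd
      have h3 := mul_nonneg g1 (sq_nonneg q)
      have hmain : 0 ≤ c + 2 * (D * ((1 - P * R) * (-q))) := by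
        rcases le_total (P * R) 1 with h1 | h1
        · have h2 : 0 ≤ D * ((1 - P * R) * (-q)) :=
            mul_nonneg hD.le (mul_nonneg (by linarith) (by linarith))
          linarith
        · have h2 : P * R ≤ P * ((r + s) / 2) := mul_le_mul_of_nonneg_left hRle hVW
          have h4 : (P * R - 1) * (-q) ≤ (P * ((r + s) / 2) - 1) * ((2 - r - s) / 2) :=
            mul_le_mul (by linarith) hql (by linarith) (by linarith)
          have h5 := mul_le_mul_of_nonneg_left h4 hD.le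
          nlinarith
      nlinarith
    · rw [← sub_nonneg]
      refine nonneg_of_mul_nonneg_right ?_ hD
      rw [mul_sub, ss_eq hAd hBd]
      set R := Real.sqrt r * Real.sqrt s
      set D := Ad * Bd
      set P := V * W
      set G := SG a lam r s V W g h An Ad Bn Bd
      have hmain : 0 ≤ G * q ^ 2 + 2 * (D * ((1 - P * R) * (-q))) + c := by
        rcases le_total (P * R) 1 with h1 | h1
        · have h2 : 0 ≤ D * ((1 - P * R) * (-q)) :=
            mul_nonneg hD.le (mul_nonneg (by linarith) (by linarith))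
          have h3 := mul_nonneg g1 (sq_nonneg q)
          linarith
        · have h2 : P * R ≤ P * ((r + s) / 2) := mul_le_mul_of_nonneg_left hRle hVW
          have h4 : (D * (P * R - 1)) ^ 2 ≤ (D * (P * ((r + s) / 2) - 1)) ^ 2 :=
            pow_le_pow_left₀ (mul_nonneg hD.le (by linarith))
              (mul_le_mul_of_nonneg_left (by linarith) hD.le) 2
          have h5 : (D * (P * R - 1)) ^ 2 ≤ c * G := by nlinarith
          have := quad (A := G) (b := D * (P * R - 1)) (c := c) (q := q) g1 g2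
            (by nlinarith)
          linarith
      linarith
  · rcases hpos with ⟨t, ht, g1, g2, g3⟩ | ⟨g1, g2, g3, g4⟩ | ⟨hρ, t, ht, g1, g2, g3⟩ |
      ⟨hρ, g0, g1, g2, g3, g4⟩
    · refine pos_case hr hs hAd hBd hVW hq hq0 ?_
      rw [← hc, ← hGp]
      have k1 := quad (A := Gp + t * (Ad * Bd)) (b := -(Ad * Bd))
        (c := c - t * r * s * (Ad * Bd)) (q := q) (by positivity) g2 (by nlinarith)
      have k2 : 0 ≤ t * (Ad * Bd) * (r * s - q ^ 2) := mul_nonneg (by positivity) (by linarith)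
      calc (0 : ℝ) ≤ _ := add_nonneg k1 k2
        _ = _ := by ring
    · refine pos_case hr hs hAd hBd hVW hq hq0 ?_
      rw [← hc, ← hGp]
      set R := Real.sqrt r * Real.sqrt s
      have k0 : (2 * R * (Ad * Bd)) ^ 2 ≤ (c + r * s * Gp) ^ 2 := by
        have e : (2 * R * (Ad * Bd)) ^ 2 = 4 * r * s * (Ad * Bd) * (Ad * Bd) := by
          calc _ = 4 * R ^ 2 * (Ad * Bd) * (Ad * Bd) := by ring
            _ = _ := by rw [hR2]; ring
        rw [e]
        nlinarith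
      have k1 := (abs_le.mp (abs_le_of_sq_le_sq k0 g1)).2
      have k2 : (Gp * R) ^ 2 ≤ (Ad * Bd) ^ 2 := by
        have e : (Gp * R) ^ 2 = Gp * Gp * r * s := by
          calc _ = Gp * Gp * R ^ 2 := by ring
            _ = _ := by rw [hR2]; ring
        rw [e]
        nlinarith
      have k3 := (abs_le.mp (abs_le_of_sq_le_sq k2 hD.le)).2
      have := endm (c := c) (G := Gp) (b := Ad * Bd) (R := R) (q := q)
        hR0 (by rw [hR2]; exact hq) hD.le k3 (by rw [hR2]; nlinarith)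
      calc (0 : ℝ) ≤ _ := this
        _ = _ := by ring
    · have hge := root_ge hr hs hr1 hs1 hq' hρ
      rw [← sub_nonneg]
      refine nonneg_of_mul_nonneg_right ?_ hD
      rw [mul_sub, ss_eq hAd hBd]
      have k1 := quad (A := Gp + t * (Ad * Bd)) (b := -((Ad * Bd) * (1 - (r + s - 1) * (V * W))))
        (c := c - t * ((1 - r) * (1 - s)) * (Ad * Bd)) (q := q) (by positivity) g2 (by nlinarith)
      have k2 : 0 ≤ t * (Ad * Bd) * ((1 - r) * (1 - s) - q ^ 2) :=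
        mul_nonneg (by positivity) (by linarith)
      have k3 : 0 ≤ (Ad * Bd) * ((V * W) * (q * (Real.sqrt r * Real.sqrt s - (q + (r + s - 1))))) :=
        mul_nonneg hD.le (mul_nonneg hVW (mul_nonneg hq0 (by linarith)))
      rw [hGp] at k1
      rw [hc] at k1
      linarith
    · have hge := root_ge hr hs hr1 hs1 hq' hρ
      rw [← sub_nonneg]
      refine nonneg_of_mul_nonneg_right ?_ hD
      rw [mul_sub, ss_eq hAd hBd]
      have hr1' : 0 ≤ 1 - r := by linarith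
      have hs1' : 0 ≤ 1 - s := by linarith
      have hS0 : 0 ≤ Real.sqrt (1 - r) * Real.sqrt (1 - s) := by positivity
      have hS2 := sq_root hr1' hs1'
      set T := 1 - (r + s - 1) * (V * W) with hT
      set Q := Real.sqrt (1 - r) * Real.sqrt (1 - s)
      have hDT : 0 ≤ Ad * Bd * T := mul_nonneg hD.le g0
      have k0 : (2 * Q * (Ad * Bd * T)) ^ 2 ≤ (c + (1 - r) * (1 - s) * Gp) ^ 2 := by
        have e : (2 * Q * (Ad * Bd * T)) ^ 2 =
            4 * ((1 - r) * (1 - s)) * (Ad * Bd) * (Ad * Bd) * (T * T) := by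
          calc _ = 4 * Q ^ 2 * (Ad * Bd) * (Ad * Bd) * (T * T) := by ring
            _ = _ := by rw [hS2]
        rw [e]
        nlinarith
      have k1 := (abs_le.mp (abs_le_of_sq_le_sq k0 g1)).2
      have k2 : (Gp * Q) ^ 2 ≤ (Ad * Bd * T) ^ 2 := by
        have e : (Gp * Q) ^ 2 = Gp * Gp * ((1 - r) * (1 - s)) := by
          calc _ = Gp * Gp * Q ^ 2 := by ring
            _ = _ := by rw [hS2]
        rw [e]
        nlinarith
      have k3 := (abs_le.mp (abs_le_of_sq_le_sq k2 hDT)).2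
      have k4 := endm (c := c) (G := Gp) (b := Ad * Bd * T) (R := Q) (q := q)
        hS0 (by rw [hS2]; exact hq') hDT k3 (by rw [hS2]; linarith)
      have k5 : 0 ≤ (Ad * Bd) * ((V * W) * (q * (Real.sqrt r * Real.sqrt s - (q + (r + s - 1))))) :=
        mul_nonneg hD.le (mul_nonneg hVW (mul_nonneg hq0 (by linarith)))
      rw [hGp, hc, hT] at k4
      linarith

end Pool.Agent.T2H40.BR
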