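import Pool.Agent.T2H40.BR.Pkg.L3
import Pool.Agent.T2H40.BR.Pkg.RU
import Pool.Agent.T2H40.BR.BuildU

/-!
# Package LU3: types `S`, `S` for the universal piece
-/

set_option autoImplicit false

namespace Pool.Agent.T2H40.BR

namespace LU3aux

open L3aux

theorem genEU (e : SSE) (v : Fin 3 → ℝ) (q : ℝ) (hr : 0 ≤ e.r.ev v) (hs : 0 ≤ e.s.ev v)
    (hr1 : e.r.ev v ≤ 1) (hs1 : e.s.ev v ≤ 1)
    (hAd : 0 < e.Ad.ev v) (hBd : 0 < e.Bd.ev v) (hq : q ^ 2 ≤ e.r.ev v * e.s.ev v)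
    (hq' : q ^ 2 ≤ (1 - e.r.ev v) * (1 - e.s.ev v))
    (hV : 0 ≤ e.V.ev v) (hW : 0 ≤ e.W.ev v)
    (h0 : 0 ≤ ESS (e.a.ev v) (e.lam.ev v) (e.r.ev v) (e.s.ev v) q (e.V.ev v) (e.W.ev v) (e.g.ev v)
      (e.h.ev v) (e.An.ev v) (e.Ad.ev v) (e.Bn.ev v) (e.Bd.ev v))
    (h : ∃ es ∈ e.EU, ∀ x ∈ es, 0 ≤ x.ev v) :
    e.r.ev v + e.s.ev v + 2 * q - 1 ≤
      ESS (e.a.ev v) (e.lam.ev v) (e.r.ev v) (e.s.ev v) q (e.V.ev v) (e.W.ev v) (e.g.ev v)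
      (e.h.ev v) (e.An.ev v) (e.Ad.ev v) (e.Bn.ev v) (e.Bd.ev v) := by
  obtain ⟨es, hes, hx⟩ := h
  have hVW : 0 ≤ e.V.ev v * e.W.ev v := mul_nonneg hV hW
  have hDD : 0 < e.Ad.ev v * e.Bd.ev v := mul_pos hAd hBd
  -- the values of `c` and `Gp`
  have hcE : e.c.ev v = (e.Ad.ev v * e.Bd.ev v) * (1 - e.r.ev v - e.s.ev v) +
      e.r.ev v * e.s.ev v * SH (e.a.ev v) (e.lam.ev v) (e.r.ev v) (e.s.ev v) (e.g.ev v)
        (e.h.ev v) (e.An.ev v) (e.Ad.ev v) (e.Bn.ev v) (e.Bd.ev v) := by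
    rw [← SSE_H]
    simp only [SSE.c, ev_sub, ev_mul, ev_add, ev_int, Int.cast_one]
  have hGpE : e.Gp.ev v = SG (e.a.ev v) (e.lam.ev v) (e.r.ev v) (e.s.ev v) (e.V.ev v) (e.W.ev v)
      (e.g.ev v) (e.h.ev v) (e.An.ev v) (e.Ad.ev v) (e.Bn.ev v) (e.Bd.ev v) +
      2 * (e.Ad.ev v * e.Bd.ev v) * (e.V.ev v * e.W.ev v) := by
    rw [← SSE_G]
    simp only [SSE.Gp, ev_mul, ev_add, ev_int, Int.cast_ofNat]
  -- the general form of `ss_EU`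
  have fin := fun hneg hpos => ss_EU (a := e.a.ev v) (lam := e.lam.ev v) (g := e.g.ev v)
    (h := e.h.ev v) (An := e.An.ev v) (Bn := e.Bn.ev v)
    hr hs hr1 hs1 hAd hBd hq hq' hVW (e.c.ev v) (e.Gp.ev v) hcE hGpE hneg hpos
  -- options `B t`
  have hB : ∀ (t : Ex) (τ : ℝ), t.ev v = τ → 0 ≤ τ → (∀ x ∈ e.B t, 0 ≤ x.ev v) →
      ∃ t, 0 ≤ t ∧ 0 ≤ e.Gp.ev v ∧ 0 ≤ e.c.ev v - t * e.r.ev v * e.s.ev v * (e.Ad.ev v * e.Bd.ev v) ∧
        0 ≤ (e.c.ev v - t * e.r.ev v * e.s.ev v * (e.Ad.ev v * e.Bd.ev v)) *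
          (e.Gp.ev v + t * (e.Ad.ev v * e.Bd.ev v)) -
          (e.Ad.ev v * e.Bd.ev v) * (e.Ad.ev v * e.Bd.ev v) := by
    intro t τ ht hτ hall
    refine ⟨τ, hτ, ?_⟩
    simp only [SSE.B, List.mem_cons, List.not_mem_nil, or_false, forall_eq_or_imp, forall_eq] at hall
    simp only [ev_sub, ev_mul, ev_add, ht] at hall
    exact hall
  have hAE : (∀ x ∈ e.AE, 0 ≤ x.ev v) →
      (0 ≤ e.c.ev v + e.r.ev v * e.s.ev v * e.Gp.ev v ∧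
        0 ≤ (e.c.ev v + e.r.ev v * e.s.ev v * e.Gp.ev v) *
            (e.c.ev v + e.r.ev v * e.s.ev v * e.Gp.ev v) -
            4 * e.r.ev v * e.s.ev v * (e.Ad.ev v * e.Bd.ev v) * (e.Ad.ev v * e.Bd.ev v) ∧
        0 ≤ (e.Ad.ev v * e.Bd.ev v) * (e.Ad.ev v * e.Bd.ev v) -
            e.Gp.ev v * e.Gp.ev v * e.r.ev v * e.s.ev v ∧ 0 ≤ e.c.ev v) := by
    intro hall
    simp only [SSE.AE, List.mem_cons, List.not_mem_nil, or_false, forall_eq_or_imp, forall_eq] at hall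
    simp only [SSE.Th, ev_sub, ev_mul, ev_add, ev_int, Int.cast_ofNat] at hall
    exact hall
  have hNG : (∀ x ∈ e.NG, 0 ≤ x.ev v) →
      (0 ≤ SG (e.a.ev v) (e.lam.ev v) (e.r.ev v) (e.s.ev v) (e.V.ev v) (e.W.ev v)
        (e.g.ev v) (e.h.ev v) (e.An.ev v) (e.Ad.ev v) (e.Bn.ev v) (e.Bd.ev v) ∧ 0 ≤ e.c.ev v ∧
        0 ≤ 2 * e.c.ev v - (e.Ad.ev v * e.Bd.ev v) *
          ((e.r.ev v + e.s.ev v) * (e.V.ev v * e.W.ev v) - 2) * (2 - e.r.ev v - e.s.ev v)) := by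
    intro hall
    simp only [SSE.NG, List.mem_cons, List.not_mem_nil, or_false, forall_eq_or_imp, forall_eq] at hall
    simp only [SSE_G, ev_sub, ev_mul, ev_add, ev_int, Int.cast_ofNat] at hall
    exact hall
  have hNG2 : (∀ x ∈ e.NG2, 0 ≤ x.ev v) →
      (0 ≤ SG (e.a.ev v) (e.lam.ev v) (e.r.ev v) (e.s.ev v) (e.V.ev v) (e.W.ev v)
        (e.g.ev v) (e.h.ev v) (e.An.ev v) (e.Ad.ev v) (e.Bn.ev v) (e.Bd.ev v) ∧ 0 ≤ e.c.ev v ∧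
        0 ≤ 4 * e.c.ev v * SG (e.a.ev v) (e.lam.ev v) (e.r.ev v) (e.s.ev v) (e.V.ev v) (e.W.ev v)
            (e.g.ev v) (e.h.ev v) (e.An.ev v) (e.Ad.ev v) (e.Bn.ev v) (e.Bd.ev v) -
          ((e.Ad.ev v * e.Bd.ev v) * ((e.r.ev v + e.s.ev v) * (e.V.ev v * e.W.ev v) - 2)) *
            ((e.Ad.ev v * e.Bd.ev v) * ((e.r.ev v + e.s.ev v) * (e.V.ev v * e.W.ev v) - 2))) := by
    intro hall
    simp only [SSE.NG2, List.mem_cons, List.not_mem_nil, or_false, forall_eq_or_imp, forall_eq] at hall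
    simp only [SSE_G, ev_sub, ev_mul, ev_add, ev_int, Int.cast_ofNat] at hall
    exact hall
  have hGp0 : 0 ≤ SG (e.a.ev v) (e.lam.ev v) (e.r.ev v) (e.s.ev v) (e.V.ev v) (e.W.ev v)
        (e.g.ev v) (e.h.ev v) (e.An.ev v) (e.Ad.ev v) (e.Bn.ev v) (e.Bd.ev v) → 0 ≤ e.Gp.ev v := by
    intro h1
    rw [hGpE]
    have := mul_nonneg hDD.le hVW
    nlinarith
  have hBU : ∀ (t : Ex) (τ : ℝ), t.ev v = τ → 0 ≤ τ → (∀ x ∈ e.BU t, 0 ≤ x.ev v) →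
      0 ≤ e.Gp.ev v →
      (0 ≤ e.r.ev v + e.s.ev v - 1 ∧ ∃ t, 0 ≤ t ∧ 0 ≤ e.Gp.ev v ∧
        0 ≤ e.c.ev v - t * ((1 - e.r.ev v) * (1 - e.s.ev v)) * (e.Ad.ev v * e.Bd.ev v) ∧
        0 ≤ (e.c.ev v - t * ((1 - e.r.ev v) * (1 - e.s.ev v)) * (e.Ad.ev v * e.Bd.ev v)) *
          (e.Gp.ev v + t * (e.Ad.ev v * e.Bd.ev v)) -
          (e.Ad.ev v * e.Bd.ev v) * (e.Ad.ev v * e.Bd.ev v) *
            ((1 - (e.r.ev v + e.s.ev v - 1) * (e.V.ev v * e.W.ev v)) *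
              (1 - (e.r.ev v + e.s.ev v - 1) * (e.V.ev v * e.W.ev v)))) := by
    intro t τ ht hτ hall hg
    simp only [SSE.BU, List.mem_cons, List.not_mem_nil, or_false, forall_eq_or_imp, forall_eq] at hall
    simp only [SSE.RS, SSE.T, ev_sub, ev_mul, ev_add, ev_int, Int.cast_one, ht] at hall
    exact ⟨hall.1, τ, hτ, hg, hall.2⟩
  have hAU : (∀ x ∈ e.AU, 0 ≤ x.ev v) → 0 ≤ e.c.ev v →
      (0 ≤ e.r.ev v + e.s.ev v - 1 ∧
        0 ≤ 1 - (e.r.ev v + e.s.ev v - 1) * (e.V.ev v * e.W.ev v) ∧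
        0 ≤ e.c.ev v + (1 - e.r.ev v) * (1 - e.s.ev v) * e.Gp.ev v ∧
        0 ≤ (e.c.ev v + (1 - e.r.ev v) * (1 - e.s.ev v) * e.Gp.ev v) *
            (e.c.ev v + (1 - e.r.ev v) * (1 - e.s.ev v) * e.Gp.ev v) -
          4 * ((1 - e.r.ev v) * (1 - e.s.ev v)) * (e.Ad.ev v * e.Bd.ev v) *
            (e.Ad.ev v * e.Bd.ev v) *
            ((1 - (e.r.ev v + e.s.ev v - 1) * (e.V.ev v * e.W.ev v)) *
              (1 - (e.r.ev v + e.s.ev v - 1) * (e.V.ev v * e.W.ev v))) ∧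
        0 ≤ (e.Ad.ev v * e.Bd.ev v) * (e.Ad.ev v * e.Bd.ev v) *
            ((1 - (e.r.ev v + e.s.ev v - 1) * (e.V.ev v * e.W.ev v)) *
              (1 - (e.r.ev v + e.s.ev v - 1) * (e.V.ev v * e.W.ev v))) -
            e.Gp.ev v * e.Gp.ev v * ((1 - e.r.ev v) * (1 - e.s.ev v)) ∧ 0 ≤ e.c.ev v) := by
    intro hall hc0
    simp only [SSE.AU, List.mem_cons, List.not_mem_nil, or_false, forall_eq_or_imp, forall_eq] at hall
    simp only [SSE.Th1, SSE.RS, SSE.T, ev_sub, ev_mul, ev_add, ev_int, Int.cast_one,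
      Int.cast_ofNat] at hall
    exact ⟨hall.1, hall.2.1, hall.2.2.1, hall.2.2.2.1, hall.2.2.2.2, hc0⟩
  have e0 : (Ex.int 0).ev v = 0 := by simp [ev_int]
  have e5 : (Ex.cst 1500).ev v = 1 / 2 := by rw [ev_cst]; norm_num
  have e1 : (Ex.int 1).ev v = 1 := by simp [ev_int]
  have e2 : (Ex.int 2).ev v = 2 := by simp [ev_int]
  -- splitting lists
  have hcons : ∀ (x : Ex) (l : List Ex), (∀ y ∈ x :: l, 0 ≤ y.ev v) →
      0 ≤ x.ev v ∧ ∀ y ∈ l, 0 ≤ y.ev v := fun x l hl =>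
    ⟨hl x (List.mem_cons_self ..), fun y hy => hl y (List.mem_cons_of_mem _ hy)⟩
  have happ : ∀ (l l' : List Ex), (∀ y ∈ l ++ l', 0 ≤ y.ev v) →
      (∀ y ∈ l, 0 ≤ y.ev v) ∧ ∀ y ∈ l', 0 ≤ y.ev v := fun l l' hl =>
    ⟨fun y hy => hl y (List.mem_append_left _ hy), fun y hy => hl y (List.mem_append_right _ hy)⟩
  have hfirst : 0 ≤ (.int 1 - e.r - e.s : Ex).ev v → 0 ≤ 1 - e.r.ev v - e.s.ev v := by
    intro hh
    simpa only [ev_sub, ev_int, Int.cast_one] using hh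
  have hnegT1 := fun hh => (Or.inr (Or.inl hh) :
      (0 ≤ 1 - e.r.ev v - e.s.ev v ∧ 0 ≤ ESS (e.a.ev v) (e.lam.ev v) (e.r.ev v) (e.s.ev v) q
        (e.V.ev v) (e.W.ev v) (e.g.ev v) (e.h.ev v) (e.An.ev v) (e.Ad.ev v) (e.Bn.ev v)
        (e.Bd.ev v)) ∨
      (0 ≤ SG (e.a.ev v) (e.lam.ev v) (e.r.ev v) (e.s.ev v) (e.V.ev v) (e.W.ev v)
        (e.g.ev v) (e.h.ev v) (e.An.ev v) (e.Ad.ev v) (e.Bn.ev v) (e.Bd.ev v) ∧ 0 ≤ e.c.ev v ∧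
        0 ≤ 2 * e.c.ev v - (e.Ad.ev v * e.Bd.ev v) *
          ((e.r.ev v + e.s.ev v) * (e.V.ev v * e.W.ev v) - 2) * (2 - e.r.ev v - e.s.ev v)) ∨
      (0 ≤ SG (e.a.ev v) (e.lam.ev v) (e.r.ev v) (e.s.ev v) (e.V.ev v) (e.W.ev v)
        (e.g.ev v) (e.h.ev v) (e.An.ev v) (e.Ad.ev v) (e.Bn.ev v) (e.Bd.ev v) ∧ 0 ≤ e.c.ev v ∧
        0 ≤ 4 * e.c.ev v * SG (e.a.ev v) (e.lam.ev v) (e.r.ev v) (e.s.ev v) (e.V.ev v) (e.W.ev v)
            (e.g.ev v) (e.h.ev v) (e.An.ev v) (e.Ad.ev v) (e.Bn.ev v) (e.Bd.ev v) -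
          ((e.Ad.ev v * e.Bd.ev v) * ((e.r.ev v + e.s.ev v) * (e.V.ev v * e.W.ev v) - 2)) *
            ((e.Ad.ev v * e.Bd.ev v) * ((e.r.ev v + e.s.ev v) * (e.V.ev v * e.W.ev v) - 2))))
  have hnegT2 := fun hh => (Or.inr (Or.inr hh) :
      (0 ≤ 1 - e.r.ev v - e.s.ev v ∧ 0 ≤ ESS (e.a.ev v) (e.lam.ev v) (e.r.ev v) (e.s.ev v) q
        (e.V.ev v) (e.W.ev v) (e.g.ev v) (e.h.ev v) (e.An.ev v) (e.Ad.ev v) (e.Bn.ev v)
        (e.Bd.ev v)) ∨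
      (0 ≤ SG (e.a.ev v) (e.lam.ev v) (e.r.ev v) (e.s.ev v) (e.V.ev v) (e.W.ev v)
        (e.g.ev v) (e.h.ev v) (e.An.ev v) (e.Ad.ev v) (e.Bn.ev v) (e.Bd.ev v) ∧ 0 ≤ e.c.ev v ∧
        0 ≤ 2 * e.c.ev v - (e.Ad.ev v * e.Bd.ev v) *
          ((e.r.ev v + e.s.ev v) * (e.V.ev v * e.W.ev v) - 2) * (2 - e.r.ev v - e.s.ev v)) ∨
      (0 ≤ SG (e.a.ev v) (e.lam.ev v) (e.r.ev v) (e.s.ev v) (e.V.ev v) (e.W.ev v)
        (e.g.ev v) (e.h.ev v) (e.An.ev v) (e.Ad.ev v) (e.Bn.ev v) (e.Bd.ev v) ∧ 0 ≤ e.c.ev v ∧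
        0 ≤ 4 * e.c.ev v * SG (e.a.ev v) (e.lam.ev v) (e.r.ev v) (e.s.ev v) (e.V.ev v) (e.W.ev v)
            (e.g.ev v) (e.h.ev v) (e.An.ev v) (e.Ad.ev v) (e.Bn.ev v) (e.Bd.ev v) -
          ((e.Ad.ev v * e.Bd.ev v) * ((e.r.ev v + e.s.ev v) * (e.V.ev v * e.W.ev v) - 2)) *
            ((e.Ad.ev v * e.Bd.ev v) * ((e.r.ev v + e.s.ev v) * (e.V.ev v * e.W.ev v) - 2))))
  rw [SSE.EU, List.mem_append, List.mem_append, List.mem_append] at hes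
  rcases hes with ((hes | hes) | hes) | hes
  · simp only [List.mem_cons, List.not_mem_nil, or_false] at hes
    subst hes
    simp only [List.mem_cons, List.not_mem_nil, or_false, forall_eq_or_imp, forall_eq] at hx
    simp only [ev_sub, ev_mul, ev_add, ev_int, Int.cast_ofNat, Int.cast_one] at hx
    exact ss_ET hr hs hq h0 hx.1 hx.2
  · rw [List.mem_map] at hes
    obtain ⟨l, hl, rfl⟩ := hes
    obtain ⟨hx1, hx2⟩ := hcons _ _ hx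
    have hneg := hfirst hx1
    simp only [List.mem_cons, List.not_mem_nil, or_false] at hl
    rcases hl with rfl | rfl | rfl | rfl
    · exact fin (Or.inl ⟨hneg, h0⟩) (Or.inl (hB _ 0 e0 le_rfl hx2))
    · exact fin (Or.inl ⟨hneg, h0⟩) (Or.inl (hB _ _ e5 (by norm_num) hx2))
    · exact fin (Or.inl ⟨hneg, h0⟩) (Or.inl (hB _ _ e1 (by norm_num) hx2))
    · exact fin (Or.inl ⟨hneg, h0⟩) (Or.inr (Or.inl (hAE hx2)))
  · rw [List.mem_map] at hes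
    obtain ⟨l, hl, rfl⟩ := hes
    obtain ⟨hx1, hx2⟩ := happ _ _ hx
    have hneg := hNG hx2
    have hg := hGp0 hneg.1
    have hn3 := hnegT1 hneg
    simp only [List.mem_cons, List.not_mem_nil, or_false] at hl
    rcases hl with rfl | rfl | rfl | rfl | rfl | rfl | rfl | rfl | rfl
    · exact fin hn3 (Or.inl (hB _ 0 e0 le_rfl hx1))
    · exact fin hn3 (Or.inl (hB _ _ e5 (by norm_num) hx1))
    · exact fin hn3 (Or.inl (hB _ _ e1 (by norm_num) hx1))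
    · exact fin hn3 (Or.inr (Or.inl (hAE hx1)))
    · exact fin hn3 (Or.inr (Or.inr (Or.inl (hBU _ 0 e0 le_rfl hx1 hg))))
    · exact fin hn3 (Or.inr (Or.inr (Or.inl (hBU _ _ e5 (by norm_num) hx1 hg))))
    · exact fin hn3 (Or.inr (Or.inr (Or.inl (hBU _ _ e1 (by norm_num) hx1 hg))))
    · exact fin hn3 (Or.inr (Or.inr (Or.inl (hBU _ _ e2 (by norm_num) hx1 hg))))
    · exact fin hn3 (Or.inr (Or.inr (Or.inr (hAU hx1 hneg.2.1))))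
  · rw [List.mem_map] at hes
    obtain ⟨l, hl, rfl⟩ := hes
    obtain ⟨hx1, hx2⟩ := happ _ _ hx
    have hneg := hNG2 hx2
    have hg := hGp0 hneg.1
    have hn3 := hnegT2 hneg
    simp only [List.mem_cons, List.not_mem_nil, or_false] at hl
    rcases hl with rfl | rfl | rfl | rfl | rfl | rfl | rfl | rfl | rfl
    · exact fin hn3 (Or.inl (hB _ 0 e0 le_rfl hx1))
    · exact fin hn3 (Or.inl (hB _ _ e5 (by norm_num) hx1))
    · exact fin hn3 (Or.inl (hB _ _ e1 (by norm_num) hx1))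
    · exact fin hn3 (Or.inr (Or.inl (hAE hx1)))
    · exact fin hn3 (Or.inr (Or.inr (Or.inl (hBU _ 0 e0 le_rfl hx1 hg))))
    · exact fin hn3 (Or.inr (Or.inr (Or.inl (hBU _ _ e5 (by norm_num) hx1 hg))))
    · exact fin hn3 (Or.inr (Or.inr (Or.inl (hBU _ _ e1 (by norm_num) hx1 hg))))
    · exact fin hn3 (Or.inr (Or.inr (Or.inl (hBU _ _ e2 (by norm_num) hx1 hg))))
    · exact fin hn3 (Or.inr (Or.inr (Or.inr (hAU hx1 hneg.2.1))))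

end LU3aux

open L3aux LU3aux

theorem ugs_nonneg (p : Piece) (c : SCls) (h : Chk (ugSopts p c) (uSBox c)) (r : ℝ)
    (h1 : (c.lo : ℝ) / 3000 ≤ r) (h2 : r ≤ (c.hi : ℝ) / 3000) : 0 ≤ c.gR p p.arU r := by
  have z1 : (((0 : ℤ) : ℝ)) / 3000 ≤ 0 := by norm_num
  have z2 : (0 : ℝ) ≤ (((3000 : ℤ) : ℝ)) / 3000 := by norm_num
  obtain ⟨es, hes, hall⟩ := h ![0, r, 0] ⟨z1, z2, h1, h2, z1, z2⟩
  simp only [ugSopts, List.mem_cons, List.not_mem_nil, or_false] at hes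
  subst hes
  have := hall _ (List.mem_cons_self ..)
  rw [evalE_ev] at this
  exact this

theorem uvs_nonneg (p : Piece) (c : SCls) (h : Chk (uvSopts p c) (uSBox c)) (r : ℝ)
    (h1 : (c.lo : ℝ) / 3000 ≤ r) (h2 : r ≤ (c.hi : ℝ) / 3000) : 0 ≤ c.VR p p.arU r := by
  have z1 : (((0 : ℤ) : ℝ)) / 3000 ≤ 0 := by norm_num
  have z2 : (0 : ℝ) ≤ (((3000 : ℤ) : ℝ)) / 3000 := by norm_num
  obtain ⟨es, hes, hall⟩ := h ![0, r, 0] ⟨z1, z2, h1, h2, z1, z2⟩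
  simp only [uvSopts, List.mem_cons, List.not_mem_nil, or_false] at hes
  subst hes
  have := hall _ (List.mem_cons_self ..)
  rw [evalE_ev] at this
  exact this

theorem uss_of_chk (p : Piece) (hp : p.okU = true) (c c' : SCls) (hc : c.ok = true)
    (hc' : c'.ok = true) (hN : Chk (ussNopts p c c') (ussBox c c'))
    (hE : Chk (ussEopts p c c') (ussBox c c')) (hV : Chk (uvSopts p c) (uSBox c))
    (hV' : Chk (uvSopts p c') (uSBox c')) (r s q : ℝ) (hs : 0 ≤ s) (hsr : s ≤ r) (hr1 : r < 1)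
    (h1 : (c.lo : ℝ) / 3000 ≤ r) (h2 : r ≤ (c.hi : ℝ) / 3000)
    (k1 : (c'.lo : ℝ) / 3000 ≤ s) (k2 : s ≤ (c'.hi : ℝ) / 3000) (hq : q ^ 2 ≤ r * s)
    (hq' : q ^ 2 ≤ (1 - r) * (1 - s)) :
    0 ≤ ESS p.arU (p.lamR p.arU) r s q (c.VR p p.arU r) (c'.VR p p.arU s) (c.gR p p.arU r)
        (c'.gR p p.arU s) (c.AnR p p.arU r) (c.AdR p.arU r) (c'.AnR p p.arU s)
        (c'.AdR p.arU s) ∧
    r + s + 2 * q - 1 ≤ ESS p.arU (p.lamR p.arU) r s q (c.VR p p.arU r) (c'.VR p p.arU s)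
        (c.gR p p.arU r) (c'.gR p p.arU s) (c.AnR p p.arU r) (c.AdR p.arU r) (c'.AnR p p.arU s)
        (c'.AdR p.arU s) := by
  simp only [Piece.okU, Bool.and_eq_true, decide_eq_true_eq] at hp
  obtain ⟨⟨⟨hp1, -⟩, -⟩, -⟩ := hp
  have ha : 0 < p.arU := by
    have : (0 : ℝ) < p.a0 := by exact_mod_cast hp1
    unfold Piece.arU
    positivity
  have hr0 : 0 ≤ r := hs.trans hsr
  have hAd : 0 < c.AdR p.arU r := AdR_pos c hc p.arU r ha hr1 h1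
  have hBd : 0 < c'.AdR p.arU s := AdR_pos c' hc' p.arU s ha (by linarith) k1
  have hVR := uvs_nonneg p c hV r h1 h2
  have hWR := uvs_nonneg p c' hV' s k1 k2
  have z1 : (((0 : ℤ) : ℝ)) / 3000 ≤ 0 := by norm_num
  have z2 : (0 : ℝ) ≤ (((3000 : ℤ) : ℝ)) / 3000 := by norm_num
  have haU : p.aU.ev ![0, r, s] = p.arU := rfl
  -- nonedge inequality
  have key0 : 0 ≤ ESS p.arU (p.lamR p.arU) r s q (c.VR p p.arU r) (c'.VR p p.arU s)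
        (c.gR p p.arU r) (c'.gR p p.arU s) (c.AnR p p.arU r) (c.AdR p.arU r) (c'.AnR p p.arU s)
        (c'.AdR p.arU s) := by
    obtain ⟨es, hes, hall⟩ := hN ![0, r, s] ⟨z1, z2, h1, h2, k1, k2⟩
    rw [ussNopts, List.mem_append] at hes
    rcases hes with hes | hes
    · have := genN (p.ss c c' p.aU v1 v2) ![0, r, s] q hr0 hs (by rw [i_Ad]; exact hAd)
        (by rw [i_Bd]; exact hBd) hq ⟨es, hes, hall⟩
      rw [i_lam, i_V, i_W, i_g, i_h, i_An, i_Bn, i_Ad, i_Bd] at this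
      exact this
    · exfalso
      simp only [List.mem_cons, List.not_mem_nil, or_false] at hes
      subst hes
      have h3 := hall _ (List.mem_cons_self ..)
      have h4 := tau_pos ![0, r, s]
      have h5 : 0 ≤ s - r - tau.ev ![0, r, s] := h3
      linarith
  refine ⟨key0, ?_⟩
  obtain ⟨es, hes, hall⟩ := hE ![0, r, s] ⟨z1, z2, h1, h2, k1, k2⟩
  rw [ussEopts, List.mem_append] at hes
  rcases hes with hes | hes
  · have := genEU (p.ss c c' p.aU v1 v2) ![0, r, s] q hr0 hs hr1.le (hsr.trans hr1.le)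
      (by rw [i_Ad]; exact hAd) (by rw [i_Bd]; exact hBd) hq hq'
      (by rw [i_V]; exact hVR) (by rw [i_W]; exact hWR)
      (by
        rw [i_lam, i_V, i_W, i_g, i_h, i_An, i_Bn, i_Ad, i_Bd]
        exact key0) ⟨es, hes, hall⟩
    rw [i_lam, i_V, i_W, i_g, i_h, i_An, i_Bn, i_Ad, i_Bd] at this
    exact this
  · exfalso
    simp only [List.mem_cons, List.not_mem_nil, or_false] at hes
    subst hes
    have h3 := hall _ (List.mem_cons_self ..)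
    have h4 := tau_pos ![0, r, s]
    have h5 : 0 ≤ s - r - tau.ev ![0, r, s] := h3
    linarith

end Pool.Agent.T2H40.BR
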