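import Pool.Agent.T2H40.BR.Pkg.L4
import Pool.Agent.T2H40.BR.Pkg.LU1
import Pool.Agent.T2H40.BR.Pkg.LU2
import Pool.Agent.T2H40.BR.Pkg.LU3
import Pool.Agent.T2H40.BR.Pkg.A1D

/-!
# Package LU4: the universal pieces
-/

set_option autoImplicit false

open Finset

namespace Pool.Agent.T2H40.BR

structure UChk (p : Piece) : Prop where
  ok : p.okU = true
  tr : 0 < p.tr
  cok : ∀ c ∈ p.S, c.ok = true
  cov : coverOK p.S 0 p.tr = true
  ccN : Chk (uccNopts p) (uccBox p)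
  ccE : Chk (uccEopts p) (uccBox p)
  vC : Chk (uvCopts p) (uCBox p)
  gC : Chk (ugCopts p) (uCBox p)
  vS : ∀ c ∈ p.S, Chk (uvSopts p c) (uSBox c)
  gS : ∀ c ∈ p.S, Chk (ugSopts p c) (uSBox c)
  csN : ∀ c ∈ p.S, Chk (ucsNopts p c) (ucsNBox p c)
  csE : ∀ c ∈ p.S, Chk (ucsEuopts p c) (ucsEBox p)
  csEu : ∀ c ∈ p.S, Chk (ucsEuopts p c) (ucsEuBox p)
  csEt : ∀ c ∈ p.S, 4 * p.e1 ^ 2 < 3000 * c.lo ∨ Chk (ucsEtopts p c) (ucsEtBox p)
  csEs : ∀ c ∈ p.S, 4 * p.e1 ^ 2 < 3000 * c.lo ∨ Chk (ucsEsopts p c) (ucsEsBox p)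
  ssN : ∀ (i j : ℕ) (hi : i < p.S.length) (hj : j < p.S.length), j ≤ i →
    Chk (ussNopts p p.S[i] p.S[j]) (ussBox p.S[i] p.S[j])
  ssE : ∀ (i j : ℕ) (hi : i < p.S.length) (hj : j < p.S.length), j ≤ i →
    Chk (ussEopts p p.S[i] p.S[j]) (ussBox p.S[i] p.S[j])

/-- the denominator is positive -/
theorem AdR_posU (c : SCls) (hc : c.ok = true) (a r : ℝ) (ha : 0 < a) (hr1 : r < 1)
    (h2 : (c.lo : ℝ) / 3000 ≤ r) : 0 < c.AdR a r := by
  unfold SCls.ok at hc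
  simp only [Bool.and_eq_true, Bool.or_eq_true, decide_eq_true_eq] at hc
  have key : ∀ kd : ℕ, (kd < 2 ∨ 0 < c.lo) →
      0 < (match kd with
        | 0 => 1 - r
        | 1 => a
        | _ => a * r) := by
    intro kd hkd
    rcases kd with _ | _ | k
    · change 0 < 1 - r
      linarith
    · exact ha
    · change 0 < a * r
      rcases hkd with h4 | h4
      · omega
      · have h5 : (0 : ℝ) < (c.lo : ℝ) := by exact_mod_cast h4
        exact mul_pos ha (lt_of_lt_of_le (by positivity) h2)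
  exact key _ hc.2

theorem arU_pos (p : Piece) (h : p.okU = true) : (0 : ℝ) < p.arU := by
  unfold Piece.okU at h
  simp only [Bool.and_eq_true, decide_eq_true_eq] at h
  have hpos : (0 : ℝ) < (p.a0 : ℝ) := by exact_mod_cast h.1.1.1
  unfold Piece.arU
  positivity

theorem uspec (p : Piece) (h : UChk p) (r : ℝ) (h0 : 0 ≤ r) (hR : r ≤ (p.tr : ℝ) / 3000) :
    ∃ hi : idxOf p.S r < p.S.length,
      clsOf p.S r = p.S[idxOf p.S r] ∧
      ((p.S[idxOf p.S r]).lo : ℝ) / 3000 ≤ r ∧ r ≤ ((p.S[idxOf p.S r]).hi : ℝ) / 3000 :=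
  clsOf_spec p.S 0 p.tr r h.cov (by simpa using h0) hR

/-- the pair inequalities of a universal piece -/
theorem pairOKD_of_uchk (p : Piece) (h : UChk p) :
    PairOKD p.arU (p.lamR p.arU) ((p.a1 : ℝ) / 3000) ((p.tr : ℝ) / 3000)
      (p.VcR p.arU) (p.gcR p.arU) (p.dlR p.arU)
      (fun r => (clsOf p.S r).VR p p.arU r) (fun r => (clsOf p.S r).gR p p.arU r)
      (fun r => (clsOf p.S r).AnR p p.arU r) (fun r => (clsOf p.S r).AdR p.arU r) := by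
  have ha : 0 < p.arU := arU_pos p h.ok
  refine ⟨fun r hr0 hr1 hrR => ?_, fun x y q hy hyx hx1 hxX hq hq' => ?_,
    fun x r q hx hx1 hxX hr0 hr1 hrR hrx hq hq' => ?_,
    fun r s q hs0 hsr hr1 hrR hq hq' => ?_⟩
  · obtain ⟨hi, h1, h2, h3⟩ := uspec p h r hr0 hrR
    simp only [h1]
    exact AdR_posU _ (h.cok _ (List.getElem_mem hi)) p.arU r ha hr1 h2
  · exact ucc_of_chk p h.ok h.ccN h.ccE h.vC x y q hy hyx hx1 hxX hq
  · obtain ⟨hi, h1, h2, h3⟩ := uspec p h r hr0 hrR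
    simp only [h1]
    have hm := List.getElem_mem hi
    exact ucs_of_chk p h.ok _ (h.cok _ hm) (h.csN _ hm) (h.csE _ hm) (h.csEu _ hm) (h.csEt _ hm)
      (h.csEs _ hm)
      x r q hx hx1 hxX hr0 hr1 hrx h2 h3 hq
  · have hr0 : 0 ≤ r := hs0.trans hsr
    obtain ⟨hi, h1, h2, h3⟩ := uspec p h r hr0 hrR
    obtain ⟨hj, k1, k2, k3⟩ := uspec p h s hs0 (hsr.trans hrR)
    simp only [h1, k1]
    have hm := List.getElem_mem hi
    have hm' := List.getElem_mem hj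
    have hij := idxOf_mono p.S hsr
    exact uss_of_chk p h.ok _ _ (h.cok _ hm) (h.cok _ hm') (h.ssN _ _ hi hj hij)
      (h.ssE _ _ hi hj hij) (h.vS _ hm) (h.vS _ hm') r s q hs0 hsr hr1 h2 h3 k2 k3
      hq hq'

variable {V : Type*} [Fintype V] [DecidableEq V]

theorem bound_of_uchk (p : Piece) (h : UChk p) {P : V → V → ℝ}
    (hs : ∀ i j, P i j = P j i)
    (hid : ∀ i j, ∑ l, P i l * P l j = P i j) (C : Finset V) (k : ℕ) (hk : C.card = k)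
    (htr : ∑ i, P i i = (k : ℝ)) (x : V → ℝ)
    (hx : ∀ i, x i = if i ∈ C then 1 - P i i else P i i)
    (htop : ∀ i ∈ C, ∀ j, j ∉ C → P j j ≤ P i i)
    (ha0 : (p.a0 : ℝ) / 3000 ≤ ∑ i ∈ C, x i)
    (hX : ∀ i ∈ C, x i ≤ (p.a1 : ℝ) / 3000) (hR : ∀ i, i ∉ C → x i ≤ (p.tr : ℝ) / 3000)
    (A : V → V → Prop) [DecidableRel A] (hirr : ∀ i, ¬ A i i) :
    ∑ i, ∑ j, (if A i j then P i i + P j j + 2 * P i j - 1 else 0) ≤ (k : ℝ) ^ 2 + k := by
  have har : p.arU ≤ ∑ i ∈ C, x i := ha0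
  refine bound_of_pairsD hs hid C k hk htr x hx htop (lt_of_lt_of_le (arU_pos p h.ok) har) hX hR
    p.arU (p.lamR p.arU) _ _ _ _ _ _ _ har (fun t h0 h1 hX' => ?_) (fun t h0 h1 hR' => ?_)
    (pairOKD_of_uchk p h) A hirr
  · exact ugc_nonneg p h.gC t h0 hX'
  · obtain ⟨hi, h1, h2, h3⟩ := uspec p h t h0 hR'
    simp only [h1]
    exact ugs_nonneg p _ (h.gS _ (List.getElem_mem hi)) t h2 h3

theorem bound_of_two (p p' : Piece) (h : UChk p) (h' : UChk p') (h1 : p.a1 = 1500)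
    (h2 : p.tr = 3000) (h3 : p'.a1 = 3000) (h4 : p'.tr = 1500) {P : V → V → ℝ}
    (hs : ∀ i j, P i j = P j i)
    (hid : ∀ i j, ∑ l, P i l * P l j = P i j) (C : Finset V) (k : ℕ) (hk : C.card = k)
    (htr : ∑ i, P i i = (k : ℝ)) (x : V → ℝ)
    (hx : ∀ i, x i = if i ∈ C then 1 - P i i else P i i)
    (htop : ∀ i ∈ C, ∀ j, j ∉ C → P j j ≤ P i i)
    (ha0 : (p.a0 : ℝ) / 3000 ≤ ∑ i ∈ C, x i) (ha0' : (p'.a0 : ℝ) / 3000 ≤ ∑ i ∈ C, x i)
    (A : V → V → Prop) [DecidableRel A] (hirr : ∀ i, ¬ A i i) :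
    ∑ i, ∑ j, (if A i j then P i i + P j j + 2 * P i j - 1 else 0) ≤ (k : ℝ) ^ 2 + k := by
  have e1 : (((1500 : ℤ) : ℝ)) / 3000 = 1 / 2 := by norm_num
  have e2 : (((3000 : ℤ) : ℝ)) / 3000 = 1 := by norm_num
  have hd0 : ∀ i, 0 ≤ P i i := fun i => Pool.Agent.Y339.SB.diag_nonneg hs hid i
  have hd1 : ∀ i, P i i ≤ 1 := fun i => Pool.Agent.Y339.SB.diag_le_one hs hid i
  by_cases hc : ∀ i ∈ C, x i ≤ 1 / 2
  · refine bound_of_uchk p h hs hid C k hk htr x hx htop ha0 (fun i hi => ?_) (fun i hi => ?_) A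
      hirr
    · rw [h1, e1]
      exact hc i hi
    · rw [h2, e2, hx i, if_neg hi]
      exact hd1 i
  · push Not at hc
    obtain ⟨i0, hi0, hc0⟩ := hc
    rw [hx i0, if_pos hi0] at hc0
    refine bound_of_uchk p' h' hs hid C k hk htr x hx htop ha0' (fun i hi => ?_) (fun i hi => ?_) A
      hirr
    · rw [h3, e2, hx i, if_pos hi]
      linarith [hd0 i]
    · rw [h4, e1, hx i, if_neg hi]
      have := htop i0 hi0 i hi
      linarith

end Pool.Agent.T2H40.BR
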