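import Pool.Agent.T2H40.BR.RDefs

/-!
# Package R1: types `C`, `S`

Paper: put `R ^ 2 = (1 - x) r`, `L = R Vc Vs`, `Γ = GCS`, `Â = Ad⁻¹ hn`, `hn = Ad - Kn x`,
`c = x Ad⁻¹ cn`, `cn = Ad - Kn r`; then `ECS = r Â + Γ q ^ 2 + 2 L q` and
`ECS - (r - x + 2 q) = c - 2 (1 - L) q + Γ q ^ 2`, and `|q| ≤ R`. Each option below makes the
quadratic nonnegative: discriminant (with multiplier `s (R ^ 2 - q ^ 2)`), or monotone up to the
endpoint `|q| = R`.
-/

set_option autoImplicit false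

namespace Pool.Agent.T2H40.BR

namespace R1aux

lemma quad {A b c q : ℝ} (hA : 0 ≤ A) (hc : 0 ≤ c) (h : b ^ 2 ≤ A * c) :
    0 ≤ c + A * q ^ 2 + 2 * b * q := by
  rcases hA.eq_or_lt with h0 | h0
  · subst h0
    have hb : b = 0 := by
      have : b ^ 2 ≤ 0 := by simpa using h
      exact pow_eq_zero_iff (two_ne_zero) |>.mp (le_antisymm this (sq_nonneg b))
    subst hb
    simpa using hc
  · have h1 : 0 ≤ A * (c + A * q ^ 2 + 2 * b * q) := by
      nlinarith [sq_nonneg (A * q + b)]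
    exact nonneg_of_mul_nonneg_right h1 h0

lemma endp {H G P R q : ℝ} (hR : 0 ≤ R) (hq : q ^ 2 ≤ R ^ 2) (hP : 0 ≤ P) (hG : G ≤ P)
    (h : 0 ≤ H + G - 2 * P) : 0 ≤ H * R ^ 2 + G * q ^ 2 + 2 * (P * R) * q := by
  obtain ⟨h1, h2⟩ := abs_le.mp (abs_le_of_sq_le_sq hq hR)
  have h3 : 0 ≤ (H + G - 2 * P) * R ^ 2 := mul_nonneg h (sq_nonneg R)
  have h4 : 0 ≤ (q + R) * (G * (q - R) + 2 * P * R) := by
    apply mul_nonneg (by linarith)
    rcases le_total 0 G with h5 | h5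
    · nlinarith [mul_nonneg h5 (by linarith : 0 ≤ q + R), mul_nonneg (sub_nonneg.mpr hG) hR]
    · nlinarith [mul_nonneg (neg_nonneg.mpr h5) (by linarith : 0 ≤ R - q), mul_nonneg hP hR]
  nlinarith

lemma endm {c G b R q : ℝ} (hR : 0 ≤ R) (hq : q ^ 2 ≤ R ^ 2) (hb : 0 ≤ b)
    (hG : G * R ≤ b) (h : 0 ≤ c + G * R ^ 2 - 2 * b * R) : 0 ≤ c + G * q ^ 2 - 2 * b * q := by
  obtain ⟨h1, h2⟩ := abs_le.mp (abs_le_of_sq_le_sq hq hR)
  have h4 : 0 ≤ (R - q) * (2 * b - G * (q + R)) := by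
    apply mul_nonneg (by linarith)
    rcases le_total 0 G with h5 | h5
    · nlinarith [mul_nonneg h5 (by linarith : 0 ≤ R - q)]
    · nlinarith [mul_nonneg (neg_nonneg.mpr h5) (by linarith : 0 ≤ q + R)]
  nlinarith

lemma cs_eq {a x r q Vc Vs gc gs dl An Ad : ℝ} (hx : 0 < x) (hx1 : x < 1) (hAd : 0 < Ad) :
    x * (1 - x) * Ad * ECS a x r q Vc Vs gc gs dl An Ad =
      x * (1 - x) * r * (Ad - Kn a r gs dl An Ad * x) + Gn a x r Vc Vs gc gs dl An Ad * q ^ 2 +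
        2 * (x * (1 - x) * Ad * (Vc * Vs) * (Real.sqrt (1 - x) * Real.sqrt r)) * q := by
  have h1 : (1 : ℝ) - x ≠ 0 := by linarith
  unfold ECS GCS Kn Gn
  field_simp
  ring

lemma sq_root {x r : ℝ} (hx1 : x < 1) (hr : 0 ≤ r) :
    (Real.sqrt (1 - x) * Real.sqrt r) ^ 2 = (1 - x) * r := by
  rw [mul_pow, Real.sq_sqrt (by linarith), Real.sq_sqrt hr]

lemma root_eq {x r w : ℝ} (hx1 : x < 1) (hw : 0 ≤ w) (hr : r = (1 - x) * w * w) :
    Real.sqrt (1 - x) * Real.sqrt r = (1 - x) * w := by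
  have h0 : 0 ≤ 1 - x := by linarith
  rw [← Real.sqrt_mul h0, hr]
  have : (1 - x) * ((1 - x) * w * w) = ((1 - x) * w) ^ 2 := by ring
  rw [this, Real.sqrt_sq (mul_nonneg h0 hw)]

lemma cs_diff {a x r q w Vc Vs gc gs dl An Ad : ℝ} (hx : 0 < x) (hx1 : x < 1) (hAd : 0 < Ad)
    (hw : 0 ≤ w) (hr : r = (1 - x) * w * w) :
    x * (1 - x) * Ad * (ECS a x r q Vc Vs gc gs dl An Ad - (r - x + 2 * q)) =
      x ^ 2 * (1 - x) * (Ad - Kn a r gs dl An Ad * r) + Gn a x r Vc Vs gc gs dl An Ad * q ^ 2 -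
        2 * (x * (1 - x) * Ad * (1 - (1 - x) * w * Vc * Vs)) * q := by
  rw [mul_sub, cs_eq hx hx1 hAd, root_eq hx1 hw hr]
  ring

end R1aux

open R1aux

theorem cs_N {a x r q Vc Vs gc gs dl An Ad : ℝ} (hx : 0 < x) (hx1 : x < 1) (hr : 0 ≤ r)
    (hAd : 0 < Ad) (hq : q ^ 2 ≤ (1 - x) * r)
    (h : (0 ≤ Gn a x r Vc Vs gc gs dl An Ad ∧ 0 ≤ Ad - Kn a r gs dl An Ad * x ∧
          0 ≤ Gn a x r Vc Vs gc gs dl An Ad * (Ad - Kn a r gs dl An Ad * x)
            - Ad * Ad * x * (1 - x) * (1 - x) * (Vc * Vs) * (Vc * Vs)) ∨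
        (0 ≤ Vc * Vs ∧ 0 ≤ x * (1 - x) * Ad * (Vc * Vs) - Gn a x r Vc Vs gc gs dl An Ad ∧
          0 ≤ x * (Ad - Kn a r gs dl An Ad * x) + Gn a x r Vc Vs gc gs dl An Ad
            - 2 * x * (1 - x) * Ad * (Vc * Vs))) :
    0 ≤ ECS a x r q Vc Vs gc gs dl An Ad := by
  have hD : 0 < x * (1 - x) * Ad := by
    have : 0 < 1 - x := by linarith
    positivity
  refine nonneg_of_mul_nonneg_right ?_ hD
  rw [cs_eq hx hx1 hAd]
  have hR2 := sq_root hx1 hr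
  have hR0 : 0 ≤ Real.sqrt (1 - x) * Real.sqrt r := by positivity
  set R := Real.sqrt (1 - x) * Real.sqrt r
  set G := Gn a x r Vc Vs gc gs dl An Ad
  set H := Ad - Kn a r gs dl An Ad * x
  have h1x : 0 < 1 - x := by linarith
  rcases h with ⟨g1, g2, g3⟩ | ⟨g1, g2, g3⟩
  · refine quad g1 (by positivity) ?_
    have e1 : (x * (1 - x) * Ad * (Vc * Vs) * R) ^ 2 =
        x * (1 - x) * r * (Ad * Ad * x * (1 - x) * (1 - x) * (Vc * Vs) * (Vc * Vs)) := by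
      calc _ = (x * (1 - x) * Ad * (Vc * Vs)) ^ 2 * R ^ 2 := by ring
        _ = _ := by rw [hR2]; ring
    rw [e1]
    have e2 : G * (x * (1 - x) * r * H) = x * (1 - x) * r * (G * H) := by ring
    rw [e2]
    exact mul_le_mul_of_nonneg_left (by linarith) (by positivity)
  · have := endp (H := x * H) (G := G) (P := x * (1 - x) * Ad * (Vc * Vs)) (R := R) (q := q) hR0
      (by rw [hR2]; exact hq) (by positivity) (by linarith) (by linarith)
    rw [hR2] at this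
    calc (0 : ℝ) ≤ _ := this
      _ = _ := by ring

/-- discriminant option with multiplier `s` -/
theorem cs_EB {a x r q w s Vc Vs gc gs dl An Ad : ℝ} (hx : 0 < x) (hx1 : x < 1) (hw : 0 ≤ w)
    (hs : 0 ≤ s) (hr : r = (1 - x) * w * w) (hAd : 0 < Ad) (hq : q ^ 2 ≤ (1 - x) * r)
    (h1 : 0 ≤ Gn a x r Vc Vs gc gs dl An Ad)
    (h2 : 0 ≤ x * (Ad - Kn a r gs dl An Ad * r) - s * (1 - x) * r * Ad)
    (h3 : 0 ≤ (Gn a x r Vc Vs gc gs dl An Ad + s * x * (1 - x) * Ad)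
        * (x * (Ad - Kn a r gs dl An Ad * r) - s * (1 - x) * r * Ad)
      - x * (1 - x) * Ad * Ad * (1 - (1 - x) * w * Vc * Vs) * (1 - (1 - x) * w * Vc * Vs)) :
    r - x + 2 * q ≤ ECS a x r q Vc Vs gc gs dl An Ad := by
  have h1x : 0 < 1 - x := by linarith
  have hD : 0 < x * (1 - x) * Ad := by positivity
  rw [← sub_nonneg]
  refine nonneg_of_mul_nonneg_right ?_ hD
  rw [cs_diff hx hx1 hAd hw hr]
  set G := Gn a x r Vc Vs gc gs dl An Ad
  set H := Ad - Kn a r gs dl An Ad * r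
  set L := 1 - (1 - x) * w * Vc * Vs
  have k1 := quad (A := G + s * x * (1 - x) * Ad) (b := -(x * (1 - x) * Ad * L))
    (c := x * (1 - x) * (x * H - s * (1 - x) * r * Ad)) (q := q) (by positivity)
    (mul_nonneg (by positivity) h2) (by
      have e2 : (G + s * x * (1 - x) * Ad) * (x * (1 - x) * (x * H - s * (1 - x) * r * Ad)) =
        x * (1 - x) * ((G + s * x * (1 - x) * Ad) * (x * H - s * (1 - x) * r * Ad)) := by ring
      rw [e2]
      have e1 : (-(x * (1 - x) * Ad * L)) ^ 2 = x * (1 - x) * (x * (1 - x) * Ad * Ad * L * L) := by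
        ring
      rw [e1]
      exact mul_le_mul_of_nonneg_left (by linarith) (by positivity))
  have k2 : 0 ≤ s * x * (1 - x) * Ad * ((1 - x) * r - q ^ 2) :=
    mul_nonneg (by positivity) (by linarith)
  calc (0 : ℝ) ≤ _ := add_nonneg k1 k2
    _ = _ := by ring

/-- endpoint option; for `q < 0` either `Γ ≥ 0` or `r ≤ x` together with `0 ≤ ECS` -/
theorem cs_EA {a x r q w Vc Vs gc gs dl An Ad : ℝ} (hx : 0 < x) (hx1 : x < 1) (hw : 0 ≤ w)
    (hr : r = (1 - x) * w * w) (hAd : 0 < Ad) (hq : q ^ 2 ≤ (1 - x) * r)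
    (h0 : (0 ≤ Gn a x r Vc Vs gc gs dl An Ad ∧ 0 ≤ Ad - Kn a r gs dl An Ad * r) ∨
      (r ≤ x ∧ 0 ≤ ECS a x r q Vc Vs gc gs dl An Ad))
    (h1 : 0 ≤ 1 - (1 - x) * w * Vc * Vs)
    (h2 : 0 ≤ x * x * (Ad - Kn a r gs dl An Ad * r)
      - 2 * x * (1 - x) * Ad * w * (1 - (1 - x) * w * Vc * Vs)
      + (1 - x) * w * w * Gn a x r Vc Vs gc gs dl An Ad)
    (h3 : 0 ≤ x * Ad * (1 - (1 - x) * w * Vc * Vs) - w * Gn a x r Vc Vs gc gs dl An Ad) :
    r - x + 2 * q ≤ ECS a x r q Vc Vs gc gs dl An Ad := by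
  have h1x : 0 < 1 - x := by linarith
  have hD : 0 < x * (1 - x) * Ad := by positivity
  rw [← sub_nonneg]
  refine nonneg_of_mul_nonneg_right ?_ hD
  rw [cs_diff hx hx1 hAd hw hr]
  set G := Gn a x r Vc Vs gc gs dl An Ad
  set H := Ad - Kn a r gs dl An Ad * r
  set L := 1 - (1 - x) * w * Vc * Vs
  have hq' : q ^ 2 ≤ ((1 - x) * w) ^ 2 := by
    rw [hr] at hq
    calc _ ≤ _ := hq
      _ = _ := by ring
  refine endm (R := (1 - x) * w) (by positivity) hq' (by positivity) ?_ ?_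
  · have := mul_nonneg h1x.le h3
    nlinarith
  · have := mul_nonneg h1x.le h2
    calc (0 : ℝ) ≤ _ := this
      _ = _ := by ring

/-- discriminant option near the star limit: `w = x * t` -/
theorem cs_EB' {a x r q t Vc Vs gc gs dl An Ad : ℝ} (hx : 0 < x) (hx1 : x < 1) (ht : 0 ≤ t)
    (hr : r = (1 - x) * (t * x) * (t * x)) (hAd : 0 < Ad) (hq : q ^ 2 ≤ (1 - x) * r)
    (h1 : 0 ≤ Gn a x r Vc Vs gc gs dl An Ad)
    (h2 : 0 ≤ Ad - Kn a r gs dl An Ad * r)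
    (h3 : 0 ≤ (Ad * (0 - 1 + (1 - x) * (a * gs - Vc * Vc - Vs * Vs) + x * dl + (a - x) * gc)
          + (1 - x) * r * An) * Ad
      + Ad * Ad * (1 + 2 * (1 - x) * ((1 - x) * t * Vc * Vs)
          - (1 - x) * x * ((1 - x) * t * Vc * Vs) * ((1 - x) * t * Vc * Vs))
      - x * Gn a x r Vc Vs gc gs dl An Ad * Kn a r gs dl An Ad * (1 - x) * t * t) :
    r - x + 2 * q ≤ ECS a x r q Vc Vs gc gs dl An Ad := by
  have h1x : 0 < 1 - x := by linarith
  have key := mul_nonneg (mul_nonneg hx.le hx.le) h3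
  refine cs_EB (w := t * x) (s := 0) hx hx1 (by positivity) le_rfl hr hAd hq h1 ?_ ?_
  · have := mul_nonneg hx.le h2
    calc (0 : ℝ) ≤ _ := this
      _ = _ := by ring
  · calc (0 : ℝ) ≤ _ := key
      _ = _ := by
        have e : Gn a x r Vc Vs gc gs dl An Ad = Ad + x * (Ad * (0 - 1 + (1 - x) * (a * gs - Vc * Vc - Vs * Vs) + x * dl + (a - x) * gc)
          + (1 - x) * r * An) := by
          unfold Gn; ring
        have e2 : Ad * (0 - 1 + (1 - x) * (a * gs - Vc * Vc - Vs * Vs) + x * dl + (a - x) * gc)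
          + (1 - x) * r * An = (Gn a x r Vc Vs gc gs dl An Ad - Ad) / x := by
          rw [e]; field_simp; ring
        rw [e2]
        generalize Gn a x r Vc Vs gc gs dl An Ad = G
        generalize hK : Kn a r gs dl An Ad = K
        rw [hr]
        field_simp
        ring

end Pool.Agent.T2H40.BR
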