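import Pool.Agent.T2H40.BR.RDefs

/-!
# Package R2: types `S`, `S`

Paper: `ESS = r s Â + Γ q ^ 2 + 2 √(r s) V W q` with `Ad Bd Γ = SG`, `Ad Bd Â = SH`; for `0 ≤ q ≤ √(r s)`
one has `2 √(r s) V W q ≥ 2 V W q ^ 2` if `V W ≥ 0`, so
`ESS - (r + s + 2 q - 1) ≥ c - 2 q + Γ' q ^ 2` with `c = 1 - r - s + r s Â`, `Γ' = Γ + 2 V W`.
-/

set_option autoImplicit false

namespace Pool.Agent.T2H40.BR

namespace R2aux

lemma quad {A b c q : ℝ} (hA : 0 ≤ A) (hc : 0 ≤ c) (h : b ^ 2 ≤ A * c) :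
    0 ≤ c + A * q ^ 2 + 2 * b * q := by
  rcases hA.eq_or_lt with h0 | h0
  · subst h0
    have hb : b = 0 := by
      have : b ^ 2 ≤ 0 := by simpa using h
      exact pow_eq_zero_iff (two_ne_zero) |>.mp (le_antisymm this (sq_nonneg b))
    subst hb
    simpa using hc
  · have h1 : 0 ≤ A * (c + A * q ^ 2 + 2 * b * q) := by
      nlinarith [sq_nonneg (A * q + b)]
    exact nonneg_of_mul_nonneg_right h1 h0

lemma endp {H G P R q : ℝ} (hR : 0 ≤ R) (hq : q ^ 2 ≤ R ^ 2) (hP : 0 ≤ P) (hG : G ≤ P)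
    (h : 0 ≤ H + G - 2 * P) : 0 ≤ H * R ^ 2 + G * q ^ 2 + 2 * (P * R) * q := by
  obtain ⟨h1, h2⟩ := abs_le.mp (abs_le_of_sq_le_sq hq hR)
  have h3 : 0 ≤ (H + G - 2 * P) * R ^ 2 := mul_nonneg h (sq_nonneg R)
  have h4 : 0 ≤ (q + R) * (G * (q - R) + 2 * P * R) := by
    apply mul_nonneg (by linarith)
    rcases le_total 0 G with h5 | h5
    · nlinarith [mul_nonneg h5 (by linarith : 0 ≤ q + R), mul_nonneg (sub_nonneg.mpr hG) hR]
    · nlinarith [mul_nonneg (neg_nonneg.mpr h5) (by linarith : 0 ≤ R - q), mul_nonneg hP hR]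
  nlinarith

lemma endm {c G b R q : ℝ} (hR : 0 ≤ R) (hq : q ^ 2 ≤ R ^ 2) (hb : 0 ≤ b)
    (hG : G * R ≤ b) (h : 0 ≤ c + G * R ^ 2 - 2 * b * R) : 0 ≤ c + G * q ^ 2 - 2 * b * q := by
  obtain ⟨h1, h2⟩ := abs_le.mp (abs_le_of_sq_le_sq hq hR)
  have h4 : 0 ≤ (R - q) * (2 * b - G * (q + R)) := by
    apply mul_nonneg (by linarith)
    rcases le_total 0 G with h5 | h5
    · nlinarith [mul_nonneg h5 (by linarith : 0 ≤ R - q)]
    · nlinarith [mul_nonneg (neg_nonneg.mpr h5) (by linarith : 0 ≤ q + R)]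
  nlinarith

lemma ss_eq {a lam r s q V W g h An Ad Bn Bd : ℝ} (hAd : 0 < Ad) (hBd : 0 < Bd) :
    (Ad * Bd) * ESS a lam r s q V W g h An Ad Bn Bd =
      r * s * SH a lam r s g h An Ad Bn Bd + SG a lam r s V W g h An Ad Bn Bd * q ^ 2 +
        2 * ((Ad * Bd) * (V * W) * (Real.sqrt r * Real.sqrt s)) * q := by
  unfold ESS SH SG
  field_simp
  ring

lemma sq_root {r s : ℝ} (hr : 0 ≤ r) (hs : 0 ≤ s) :
    (Real.sqrt r * Real.sqrt s) ^ 2 = r * s := by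
  rw [mul_pow, Real.sq_sqrt hr, Real.sq_sqrt hs]

lemma neg_case {a lam r s q V W g h An Ad Bn Bd : ℝ} (hr : 0 ≤ r) (hs : 0 ≤ s)
    (hr1 : r ≤ 1) (hs1 : s ≤ 1)
    (hAd : 0 < Ad) (hBd : 0 < Bd) (hVW : 0 ≤ V * W) (hq : q ≤ 0)
    (h0 : (0 ≤ 1 - r - s ∧ 0 ≤ ESS a lam r s q V W g h An Ad Bn Bd) ∨
      (0 ≤ SG a lam r s V W g h An Ad Bn Bd ∧ V * W ≤ 1 ∧
        0 ≤ (Ad * Bd) * (1 - r - s) + r * s * SH a lam r s g h An Ad Bn Bd)) :
    r + s + 2 * q - 1 ≤ ESS a lam r s q V W g h An Ad Bn Bd := by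
  rcases h0 with ⟨g1, g2⟩ | ⟨g1, g2, g3⟩
  · linarith
  · have hD : 0 < Ad * Bd := by positivity
    rw [← sub_nonneg]
    refine nonneg_of_mul_nonneg_right ?_ hD
    rw [mul_sub, ss_eq hAd hBd]
    have hR0 : 0 ≤ Real.sqrt r * Real.sqrt s := by positivity
    have hR1 : Real.sqrt r * Real.sqrt s ≤ 1 := by
      have := Real.sqrt_le_one.mpr hr1
      have := Real.sqrt_le_one.mpr hs1
      nlinarith [Real.sqrt_nonneg r, Real.sqrt_nonneg s]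
    set R := Real.sqrt r * Real.sqrt s
    have h1 : V * W * R ≤ 1 := by nlinarith
    have h2 : 0 ≤ (Ad * Bd) * ((1 - V * W * R) * (-q)) :=
      mul_nonneg hD.le (mul_nonneg (by linarith) (by linarith))
    have h3 := mul_nonneg g1 (sq_nonneg q)
    nlinarith

lemma pos_case {a lam r s q V W g h An Ad Bn Bd : ℝ} (hr : 0 ≤ r) (hs : 0 ≤ s)
    (hAd : 0 < Ad) (hBd : 0 < Bd) (hVW : 0 ≤ V * W) (hq : q ^ 2 ≤ r * s) (hq0 : 0 ≤ q)
    (h0 : 0 ≤ (Ad * Bd) * (1 - r - s) + r * s * SH a lam r s g h An Ad Bn Bd +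
      (SG a lam r s V W g h An Ad Bn Bd + 2 * (Ad * Bd) * (V * W)) * q ^ 2 - 2 * (Ad * Bd) * q) :
    r + s + 2 * q - 1 ≤ ESS a lam r s q V W g h An Ad Bn Bd := by
  have hD : 0 < Ad * Bd := by positivity
  rw [← sub_nonneg]
  refine nonneg_of_mul_nonneg_right ?_ hD
  rw [mul_sub, ss_eq hAd hBd]
  have hR0 : 0 ≤ Real.sqrt r * Real.sqrt s := by positivity
  have hR2 := sq_root hr hs
  set R := Real.sqrt r * Real.sqrt s
  have hqR : q ≤ R := (abs_le.mp (abs_le_of_sq_le_sq (by rw [hR2]; exact hq) hR0)).2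
  have h2 : 0 ≤ (Ad * Bd) * ((V * W) * (q * (R - q))) :=
    mul_nonneg hD.le (mul_nonneg hVW (mul_nonneg hq0 (by linarith)))
  nlinarith

end R2aux

open R2aux

theorem ss_N {a lam r s q V W g h An Ad Bn Bd : ℝ} (hr : 0 ≤ r) (hs : 0 ≤ s)
    (hAd : 0 < Ad) (hBd : 0 < Bd) (hq : q ^ 2 ≤ r * s)
    (hh : (0 ≤ SG a lam r s V W g h An Ad Bn Bd ∧ 0 ≤ SH a lam r s g h An Ad Bn Bd ∧
          0 ≤ SG a lam r s V W g h An Ad Bn Bd * SH a lam r s g h An Ad Bn Bd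
            - (Ad * Bd) * (Ad * Bd) * (V * W) * (V * W)) ∨
        (0 ≤ V * W ∧ 0 ≤ Ad * Bd * (V * W) - SG a lam r s V W g h An Ad Bn Bd ∧
          0 ≤ SH a lam r s g h An Ad Bn Bd + SG a lam r s V W g h An Ad Bn Bd
            - 2 * (Ad * Bd) * (V * W))) :
    0 ≤ ESS a lam r s q V W g h An Ad Bn Bd := by
  have hD : 0 < Ad * Bd := by positivity
  refine nonneg_of_mul_nonneg_right ?_ hD
  rw [ss_eq hAd hBd]
  have hR0 : 0 ≤ Real.sqrt r * Real.sqrt s := by positivity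
  have hR2 := sq_root hr hs
  set R := Real.sqrt r * Real.sqrt s
  set G := SG a lam r s V W g h An Ad Bn Bd
  set H := SH a lam r s g h An Ad Bn Bd
  rcases hh with ⟨g1, g2, g3⟩ | ⟨g1, g2, g3⟩
  · refine quad g1 (by positivity) ?_
    have e1 : ((Ad * Bd) * (V * W) * R) ^ 2 =
        r * s * ((Ad * Bd) * (Ad * Bd) * (V * W) * (V * W)) := by
      calc _ = ((Ad * Bd) * (V * W)) ^ 2 * R ^ 2 := by ring
        _ = _ := by rw [hR2]; ring
    rw [e1]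
    have e2 : G * (r * s * H) = r * s * (G * H) := by ring
    rw [e2]
    exact mul_le_mul_of_nonneg_left (by linarith) (by positivity)
  · have := endp (H := H) (G := G) (P := (Ad * Bd) * (V * W)) (R := R) (q := q) hR0
      (by rw [hR2]; exact hq) (by positivity) (by linarith) (by linarith)
    rw [hR2] at this
    calc (0 : ℝ) ≤ _ := this
      _ = _ := by ring

/-- no edge -/
theorem ss_ET {a lam r s q V W g h An Ad Bn Bd : ℝ} (hr : 0 ≤ r) (hs : 0 ≤ s)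
    (hq : q ^ 2 ≤ r * s) (h0 : 0 ≤ ESS a lam r s q V W g h An Ad Bn Bd)
    (h1 : 0 ≤ 1 - r - s) (h2 : 0 ≤ (1 - r - s) * (1 - r - s) - 4 * r * s) :
    r + s + 2 * q - 1 ≤ ESS a lam r s q V W g h An Ad Bn Bd := by
  have h3 : (2 * q) ^ 2 ≤ (1 - r - s) ^ 2 := by nlinarith
  have h4 := (abs_le.mp (abs_le_of_sq_le_sq h3 h1)).2
  linarith

/-- discriminant option with multiplier `t`; `q < 0` is covered by `1 - r - s ≥ 0` and `h0`, or by
`Γ ≥ 0`, `√(r s) V W ≤ 1` (here: `V W ≤ 1`, `r, s ≤ 1`) -/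
theorem ss_EB {a lam r s q t V W g h An Ad Bn Bd : ℝ} (hr : 0 ≤ r) (hs : 0 ≤ s) (ht : 0 ≤ t)
    (hr1 : r ≤ 1) (hs1 : s ≤ 1)
    (hAd : 0 < Ad) (hBd : 0 < Bd) (hq : q ^ 2 ≤ r * s) (hVW : 0 ≤ V * W)
    (h0 : (0 ≤ 1 - r - s ∧ 0 ≤ ESS a lam r s q V W g h An Ad Bn Bd) ∨
      (0 ≤ SG a lam r s V W g h An Ad Bn Bd ∧ V * W ≤ 1))
    (h1 : 0 ≤ SG a lam r s V W g h An Ad Bn Bd + 2 * (Ad * Bd) * (V * W))
    (h2 : 0 ≤ (Ad * Bd) * (1 - r - s) + r * s * SH a lam r s g h An Ad Bn Bd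
      - t * r * s * (Ad * Bd))
    (h3 : 0 ≤ ((Ad * Bd) * (1 - r - s) + r * s * SH a lam r s g h An Ad Bn Bd
        - t * r * s * (Ad * Bd))
        * (SG a lam r s V W g h An Ad Bn Bd + 2 * (Ad * Bd) * (V * W) + t * (Ad * Bd))
      - (Ad * Bd) * (Ad * Bd)) :
    r + s + 2 * q - 1 ≤ ESS a lam r s q V W g h An Ad Bn Bd := by
  have hD : 0 < Ad * Bd := by positivity
  rcases le_total q 0 with hq0 | hq0
  · refine neg_case hr hs hr1 hs1 hAd hBd hVW hq0 ?_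
    rcases h0 with h0 | ⟨g1, g2⟩
    · exact Or.inl h0
    · refine Or.inr ⟨g1, g2, ?_⟩
      have : 0 ≤ t * r * s * (Ad * Bd) := by positivity
      linarith
  · refine pos_case hr hs hAd hBd hVW hq hq0 ?_
    set G := SG a lam r s V W g h An Ad Bn Bd
    set H := SH a lam r s g h An Ad Bn Bd
    have k1 := quad (A := G + 2 * (Ad * Bd) * (V * W) + t * (Ad * Bd)) (b := -(Ad * Bd))
      (c := (Ad * Bd) * (1 - r - s) + r * s * H - t * r * s * (Ad * Bd)) (q := q)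
      (by positivity) h2 (by nlinarith)
    have k2 : 0 ≤ t * (Ad * Bd) * (r * s - q ^ 2) := mul_nonneg (by positivity) (by linarith)
    calc (0 : ℝ) ≤ _ := add_nonneg k1 k2
      _ = _ := by ring

/-- endpoint option: `Th = Ad Bd (c + Γ' r s)` -/
theorem ss_EA {a lam r s q V W g h An Ad Bn Bd : ℝ} (hr : 0 ≤ r) (hs : 0 ≤ s)
    (hr1 : r ≤ 1) (hs1 : s ≤ 1)
    (hAd : 0 < Ad) (hBd : 0 < Bd) (hq : q ^ 2 ≤ r * s) (hVW : 0 ≤ V * W)
    (h0 : (0 ≤ 1 - r - s ∧ 0 ≤ ESS a lam r s q V W g h An Ad Bn Bd) ∨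
      (0 ≤ SG a lam r s V W g h An Ad Bn Bd ∧ V * W ≤ 1 ∧
        0 ≤ (Ad * Bd) * (1 - r - s) + r * s * SH a lam r s g h An Ad Bn Bd))
    (h1 : 0 ≤ (Ad * Bd) * (1 - r - s) + r * s * SH a lam r s g h An Ad Bn Bd
      + r * s * (SG a lam r s V W g h An Ad Bn Bd + 2 * (Ad * Bd) * (V * W)))
    (h2 : 0 ≤ ((Ad * Bd) * (1 - r - s) + r * s * SH a lam r s g h An Ad Bn Bd
        + r * s * (SG a lam r s V W g h An Ad Bn Bd + 2 * (Ad * Bd) * (V * W)))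
        * ((Ad * Bd) * (1 - r - s) + r * s * SH a lam r s g h An Ad Bn Bd
        + r * s * (SG a lam r s V W g h An Ad Bn Bd + 2 * (Ad * Bd) * (V * W)))
      - 4 * r * s * (Ad * Bd) * (Ad * Bd))
    (h3 : 0 ≤ (Ad * Bd) * (Ad * Bd)
      - (SG a lam r s V W g h An Ad Bn Bd + 2 * (Ad * Bd) * (V * W))
        * (SG a lam r s V W g h An Ad Bn Bd + 2 * (Ad * Bd) * (V * W)) * r * s) :
    r + s + 2 * q - 1 ≤ ESS a lam r s q V W g h An Ad Bn Bd := by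
  have hD : 0 < Ad * Bd := by positivity
  rcases le_total q 0 with hq0 | hq0
  · exact neg_case hr hs hr1 hs1 hAd hBd hVW hq0 h0
  · refine pos_case hr hs hAd hBd hVW hq hq0 ?_
    have hR0 : 0 ≤ Real.sqrt r * Real.sqrt s := by positivity
    have hR2 := sq_root hr hs
    set R := Real.sqrt r * Real.sqrt s
    set G := SG a lam r s V W g h An Ad Bn Bd + 2 * (Ad * Bd) * (V * W)
    set H := SH a lam r s g h An Ad Bn Bd
    have k0 : (2 * R * (Ad * Bd)) ^ 2 ≤ ((Ad * Bd) * (1 - r - s) + r * s * H + r * s * G) ^ 2 := by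
      have e : (2 * R * (Ad * Bd)) ^ 2 = 4 * r * s * (Ad * Bd) * (Ad * Bd) := by
        calc _ = 4 * R ^ 2 * (Ad * Bd) * (Ad * Bd) := by ring
          _ = _ := by rw [hR2]; ring
      rw [e]
      nlinarith
    have k1 := (abs_le.mp (abs_le_of_sq_le_sq k0 h1)).2
    have k2 : (G * R) ^ 2 ≤ (Ad * Bd) ^ 2 := by
      have e : (G * R) ^ 2 = G * G * r * s := by
        calc _ = G * G * R ^ 2 := by ring
          _ = _ := by rw [hR2]; ring
      rw [e]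
      nlinarith
    have k3 := (abs_le.mp (abs_le_of_sq_le_sq k2 hD.le)).2
    have := endm (c := (Ad * Bd) * (1 - r - s) + r * s * H) (G := G) (b := Ad * Bd) (R := R) (q := q)
      hR0 (by rw [hR2]; exact hq) hD.le k3 (by rw [hR2]; nlinarith)
    calc (0 : ℝ) ≤ _ := this
      _ = _ := by ring

end Pool.Agent.T2H40.BR
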