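import Pool.Agent.T2H40.BR.RDefs

/-!
# Package R3: types `C`, `C`

`x = σ (1 - v)`, `y = σ v`, `V = 1 - x W1`, `U = 1 - y W2`. Paper: `x y Γ = σ GC / D2`,
`D2 = (1 - x) (1 - y)`, `√D2 ≥ 1 - σ S` (as `σ ≤ 1`), `V U = 1 - σ T`, so `1 - √D2 V U ≤ σ (S + T - σ S T)`.
-/

set_option autoImplicit false

namespace Pool.Agent.T2H40.BR

/-- `D2 * x y Γ / σ` -/
noncomputable def GC (a lam σ v V U g h d e : ℝ) : ℝ :=
  (1 - σ * (1 - v)) * (1 - σ * v) + σ * v * (1 - v) *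
    (G1 a lam (σ * (1 - v)) V g d * (1 - σ * v) + G1 a lam (σ * v) U h e * (1 - σ * (1 - v)))

namespace R3aux

lemma quad {A b c q : ℝ} (hA : 0 ≤ A) (hc : 0 ≤ c) (h : b ^ 2 ≤ A * c) :
    0 ≤ c + A * q ^ 2 + 2 * b * q := by
  rcases hA.eq_or_lt with h0 | h0
  · subst h0
    have hb : b = 0 := by
      have : b ^ 2 ≤ 0 := by simpa using h
      exact pow_eq_zero_iff (two_ne_zero) |>.mp (le_antisymm this (sq_nonneg b))
    subst hb
    simpa using hc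
  · have h1 : 0 ≤ A * (c + A * q ^ 2 + 2 * b * q) := by
      nlinarith [sq_nonneg (A * q + b)]
    exact nonneg_of_mul_nonneg_right h1 h0

lemma endp {H G P R q : ℝ} (hR : 0 ≤ R) (hq : q ^ 2 ≤ R ^ 2) (hP : 0 ≤ P) (hG : G ≤ P)
    (h : 0 ≤ H + G - 2 * P) : 0 ≤ H * R ^ 2 + G * q ^ 2 + 2 * (P * R) * q := by
  obtain ⟨h1, h2⟩ := abs_le.mp (abs_le_of_sq_le_sq hq hR)
  have h3 : 0 ≤ (H + G - 2 * P) * R ^ 2 := mul_nonneg h (sq_nonneg R)
  have h4 : 0 ≤ (q + R) * (G * (q - R) + 2 * P * R) := by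
    apply mul_nonneg (by linarith)
    rcases le_total 0 G with h5 | h5
    · nlinarith [mul_nonneg h5 (by linarith : 0 ≤ q + R), mul_nonneg (sub_nonneg.mpr hG) hR]
    · nlinarith [mul_nonneg (neg_nonneg.mpr h5) (by linarith : 0 ≤ R - q), mul_nonneg hP hR]
  nlinarith

lemma endm {c G b R q : ℝ} (hR : 0 ≤ R) (hq : q ^ 2 ≤ R ^ 2) (hb : 0 ≤ b)
    (hG : G * R ≤ b) (h : 0 ≤ c + G * R ^ 2 - 2 * b * R) : 0 ≤ c + G * q ^ 2 - 2 * b * q := by
  obtain ⟨h1, h2⟩ := abs_le.mp (abs_le_of_sq_le_sq hq hR)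
  have h4 : 0 ≤ (R - q) * (2 * b - G * (q + R)) := by
    apply mul_nonneg (by linarith)
    rcases le_total 0 G with h5 | h5
    · nlinarith [mul_nonneg h5 (by linarith : 0 ≤ R - q)]
    · nlinarith [mul_nonneg (neg_nonneg.mpr h5) (by linarith : 0 ≤ q + R)]
  nlinarith

lemma cc_eq {a lam σ v q V U g h d e : ℝ} (hσ0 : 0 < σ) (hv0 : 0 < v) (hv1 : v < 1)
    (hx1 : σ * (1 - v) < 1) (hy1 : σ * v < 1) :
    ECC a lam (σ * (1 - v)) (σ * v) q V U g h d e =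
      1 - σ + σ * σ * v * (1 - v) * (d + e + lam - g - h)
        + (GC a lam σ v V U g h d e /
            (σ * v * (1 - v) * ((1 - σ * (1 - v)) * (1 - σ * v)))) * q ^ 2
        + 2 * ((Real.sqrt (1 - σ * (1 - v)) * Real.sqrt (1 - σ * v)) * (V * U)) * q := by
  have h1 : 1 - σ * (1 - v) ≠ 0 := by linarith
  have h2 : 1 - σ * v ≠ 0 := by linarith
  have h3 : 1 - v ≠ 0 := by linarith
  unfold ECC GC
  generalize G1 a lam (σ * (1 - v)) V g d = A1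
  generalize G1 a lam (σ * v) U h e = A2
  generalize Real.sqrt (1 - σ * (1 - v)) = s1
  generalize Real.sqrt (1 - σ * v) = s2
  have e1 : 1 / (σ * (1 - v)) + A1 / (1 - σ * (1 - v)) + (1 / (σ * v) + A2 / (1 - σ * v)) =
      ((1 - σ * (1 - v)) * (1 - σ * v) + σ * v * (1 - v) * (A1 * (1 - σ * v) + A2 * (1 - σ * (1 - v)))) /
        (σ * v * (1 - v) * ((1 - σ * (1 - v)) * (1 - σ * v))) := by
    generalize hp : 1 - σ * (1 - v) = p at *
    generalize hq : 1 - σ * v = q at *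
    have : p + q = 2 - σ := by rw [← hp, ← hq]; ring
    field_simp
    ring
  rw [e1]
  ring

lemma sq_root {r s : ℝ} (hr : 0 ≤ r) (hs : 0 ≤ s) :
    (Real.sqrt r * Real.sqrt s) ^ 2 = r * s := by
  rw [mul_pow, Real.sq_sqrt hr, Real.sq_sqrt hs]

end R3aux

open R3aux

theorem cc_N {a lam σ v q V U g h d e : ℝ} (hσ0 : 0 < σ) (hv0 : 0 < v) (hv1 : v < 1)
    (hx1 : σ * (1 - v) < 1) (hy1 : σ * v < 1)
    (hq : q ^ 2 ≤ (σ * (1 - v)) * (σ * v))
    (h1 : 0 ≤ GC a lam σ v V U g h d e)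
    (h2 : 0 ≤ 1 - σ + σ * σ * v * (1 - v) * (d + e + lam - g - h))
    (h3 : 0 ≤ (1 - σ + σ * σ * v * (1 - v) * (d + e + lam - g - h)) * GC a lam σ v V U g h d e
      - σ * v * (1 - v) * ((1 - σ * (1 - v)) * (1 - σ * v)) * ((1 - σ * (1 - v)) * (1 - σ * v))
        * (V * U) * (V * U)) :
    0 ≤ ECC a lam (σ * (1 - v)) (σ * v) q V U g h d e := by
  rw [cc_eq hσ0 hv0 hv1 hx1 hy1]
  have p1 : 0 < 1 - σ * (1 - v) := by linarith
  have p2 : 0 < 1 - σ * v := by linarith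
  have p3 : 0 < 1 - v := by linarith
  have hR2 := sq_root p1.le p2.le
  set R := Real.sqrt (1 - σ * (1 - v)) * Real.sqrt (1 - σ * v)
  set H := 1 - σ + σ * σ * v * (1 - v) * (d + e + lam - g - h)
  set G := GC a lam σ v V U g h d e
  refine quad (by positivity) h2 ?_
  rw [div_mul_eq_mul_div, le_div_iff₀ (by positivity), mul_pow, hR2]
  nlinarith

theorem cc_E {a lam σ v q V U W1 W2 g h d e : ℝ} (hσ0 : 0 < σ) (hσ1 : σ ≤ 1) (hv0 : 0 < v)
    (hv1 : v < 1) (hx1 : σ * (1 - v) < 1) (hy1 : σ * v < 1)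
    (hV : V = 1 - σ * (1 - v) * W1) (hU : U = 1 - σ * v * W2)
    (hq : q ^ 2 ≤ (σ * (1 - v)) * (σ * v)) (hVU : 0 ≤ V * U)
    (h1 : 0 ≤ GC a lam σ v V U g h d e) (h2 : 0 ≤ d + e + lam - g - h)
    (S T : ℝ) (hS : S = 1 / 2 + 1 / 2 * σ * (1 - 2 * v) * (1 - 2 * v))
    (hT : T = (1 - v) * W1 + v * W2 - σ * v * (1 - v) * W1 * W2)
    (h4 : 0 ≤ 1 / 2 + T - 1 / 2 * σ * T)
    (h3 : 0 ≤ (d + e + lam - g - h) * GC a lam σ v V U g h d e
      - (1 - σ * (1 - v)) * (1 - σ * v) * σ * (S + T - σ * S * T) * (S + T - σ * S * T)) :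
    1 - σ * (1 - v) - σ * v + 2 * q ≤ ECC a lam (σ * (1 - v)) (σ * v) q V U g h d e := by
  have p1 : 0 < 1 - σ * (1 - v) := by linarith
  have p2 : 0 < 1 - σ * v := by linarith
  have p3 : 0 < 1 - v := by linarith
  rw [← sub_nonneg, cc_eq hσ0 hv0 hv1 hx1 hy1]
  have hR2 := sq_root p1.le p2.le
  have hR0 : 0 ≤ Real.sqrt (1 - σ * (1 - v)) * Real.sqrt (1 - σ * v) := by positivity
  set R := Real.sqrt (1 - σ * (1 - v)) * Real.sqrt (1 - σ * v)
  set G := GC a lam σ v V U g h d e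
  have hVU' : V * U = 1 - σ * T := by
    rw [hV, hU, hT]; ring
  have hm0 : 0 ≤ (1 - 2 * v) * (1 - 2 * v) := mul_self_nonneg _
  have hm1 : (1 - 2 * v) * (1 - 2 * v) ≤ 1 := by nlinarith
  -- upper bound of the root
  have up : R ≤ 1 - σ / 2 := by
    refine abs_le_of_sq_le_sq' (a := R) (b := 1 - σ / 2) ?_ (by linarith) |>.2
    rw [hR2]
    nlinarith [sq_nonneg (σ * (1 - 2 * v))]
  -- lower bound of the root
  have lo : 1 - σ * S ≤ R := by
    rcases le_total (1 - σ * S) 0 with h5 | h5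
    · linarith
    · refine abs_le_of_sq_le_sq' (a := 1 - σ * S) (b := R) ?_ hR0 |>.2
      rw [hR2, hS]
      have e : (1 - σ * (1 - v)) * (1 - σ * v) -
          (1 - σ * (1 / 2 + 1 / 2 * σ * (1 - 2 * v) * (1 - 2 * v))) ^ 2 =
          σ ^ 2 * ((1 - 2 * v) * (1 - 2 * v)) / 4 * (3 - 2 * σ - σ ^ 2 * ((1 - 2 * v) * (1 - 2 * v))) := by
        ring
      have h6 : 0 ≤ 3 - 2 * σ - σ ^ 2 * ((1 - 2 * v) * (1 - 2 * v)) := by
        have : σ ^ 2 * ((1 - 2 * v) * (1 - 2 * v)) ≤ 1 * 1 :=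
          mul_le_mul (by nlinarith) hm1 hm0 (by norm_num)
        linarith
      have h7 : 0 ≤ σ ^ 2 * ((1 - 2 * v) * (1 - 2 * v)) / 4 := by positivity
      have := mul_nonneg h7 h6
      linarith
  rw [hVU'] at hVU ⊢
  have k1 : 0 ≤ 1 - R * (1 - σ * T) := by
    have := mul_le_mul_of_nonneg_right up hVU
    nlinarith [mul_nonneg hσ0.le h4]
  have k2 : 1 - R * (1 - σ * T) ≤ σ * (S + T - σ * S * T) := by
    have := mul_le_mul_of_nonneg_right lo hVU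
    nlinarith
  have k3 : (1 - R * (1 - σ * T)) ^ 2 ≤ (σ * (S + T - σ * S * T)) ^ 2 :=
    pow_le_pow_left₀ k1 k2 2
  have key := quad (A := G / (σ * v * (1 - v) * ((1 - σ * (1 - v)) * (1 - σ * v))))
    (b := -(1 - R * (1 - σ * T))) (c := σ * σ * v * (1 - v) * (d + e + lam - g - h)) (q := q)
    (by positivity) (by positivity) (by
      rw [neg_sq]
      refine k3.trans ?_
      rw [div_mul_eq_mul_div, le_div_iff₀ (by positivity)]
      have := mul_nonneg (by positivity : 0 ≤ σ * σ * v * (1 - v)) h3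
      nlinarith)
  calc (0 : ℝ) ≤ _ := key
    _ = _ := by ring

end Pool.Agent.T2H40.BR
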