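import Pool.Agent.T2H40.BR.Pkg.R3

/-!
# Package R4: types `C`, `C`, edge, with a better bound for the square root

`s x = 1 - x / 2 - c x ^ 2 ≤ √(1 - x)` as soon as `1/4 - 2 c + c x + c ^ 2 x ^ 2 ≤ 0`. With
`1 - x Z1 = s x * V`, `1 - y Z2 = s y * U`: `1 - √D2 V U ≤ σ u`; and `√(1 - x) ≤ 1 - x / 2` gives
`1 - √D2 V U ≥ σ u'`, so `|1 - √D2 V U| ≤ σ max (u, -u')`. Rest as in `cc_E`.
-/

set_option autoImplicit false

namespace Pool.Agent.T2H40.BR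

theorem cc_E2 {a lam σ v q V U W1 W2 g h d e c : ℝ} (hσ0 : 0 < σ) (hv0 : 0 < v)
    (hv1 : v < 1) (hx1 : σ * (1 - v) < 1) (hy1 : σ * v < 1)
    (hV : V = 1 - σ * (1 - v) * W1) (hU : U = 1 - σ * v * W2)
    (hq : q ^ 2 ≤ (σ * (1 - v)) * (σ * v)) (hV0 : 0 ≤ V) (hU0 : 0 ≤ U) (hc : 0 ≤ c)
    (hcx : 1 / 4 - 2 * c + c * (σ * (1 - v)) + c ^ 2 * (σ * (1 - v)) ^ 2 ≤ 0)
    (hcy : 1 / 4 - 2 * c + c * (σ * v) + c ^ 2 * (σ * v) ^ 2 ≤ 0)
    (hsx : 0 ≤ 1 - (σ * (1 - v)) / 2 - c * (σ * (1 - v)) ^ 2)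
    (hsy : 0 ≤ 1 - (σ * v) / 2 - c * (σ * v) ^ 2)
    (Z1 Z2 Y1 Y2 u u' : ℝ)
    (hZ1 : Z1 = (1 / 2 + c * (σ * (1 - v))) + W1 - (σ * (1 - v)) * (1 / 2 + c * (σ * (1 - v))) * W1)
    (hZ2 : Z2 = (1 / 2 + c * (σ * v)) + W2 - (σ * v) * (1 / 2 + c * (σ * v)) * W2)
    (hY1 : Y1 = 1 / 2 + W1 - 1 / 2 * (σ * (1 - v)) * W1)
    (hY2 : Y2 = 1 / 2 + W2 - 1 / 2 * (σ * v) * W2)
    (hu : u = (1 - v) * Z1 + v * Z2 - σ * v * (1 - v) * Z1 * Z2)
    (hu' : u' = (1 - v) * Y1 + v * Y2 - σ * v * (1 - v) * Y1 * Y2)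
    (h1 : 0 ≤ GC a lam σ v V U g h d e) (h2 : 0 ≤ d + e + lam - g - h)
    (h3 : (0 ≤ u + u' ∧ 0 ≤ (d + e + lam - g - h) * GC a lam σ v V U g h d e
        - (1 - σ * (1 - v)) * (1 - σ * v) * σ * u * u) ∨
      (u + u' ≤ 0 ∧ 0 ≤ (d + e + lam - g - h) * GC a lam σ v V U g h d e
        - (1 - σ * (1 - v)) * (1 - σ * v) * σ * u' * u') ∨
      (0 ≤ (d + e + lam - g - h) * GC a lam σ v V U g h d e
        - (1 - σ * (1 - v)) * (1 - σ * v) * σ * u * u ∧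
       0 ≤ (d + e + lam - g - h) * GC a lam σ v V U g h d e
        - (1 - σ * (1 - v)) * (1 - σ * v) * σ * u' * u')) :
    1 - σ * (1 - v) - σ * v + 2 * q ≤ ECC a lam (σ * (1 - v)) (σ * v) q V U g h d e := by
  have p1 : 0 < 1 - σ * (1 - v) := by linarith
  have p2 : 0 < 1 - σ * v := by linarith
  have p3 : 0 < 1 - v := by linarith
  rw [← sub_nonneg, R3aux.cc_eq hσ0 hv0 hv1 hx1 hy1]
  have hR2 := R3aux.sq_root p1.le p2.le
  have hx0 : 0 < σ * (1 - v) := by positivity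
  have hy0 : 0 < σ * v := by positivity
  have sup : ∀ x : ℝ, 0 < x → x < 1 → Real.sqrt (1 - x) ≤ 1 - x / 2 := by
    intro x h0 h1'
    refine Real.sqrt_le_iff.2 ⟨by linarith, ?_⟩
    nlinarith [sq_nonneg x]
  have slo : ∀ x : ℝ, 0 < x → 1 / 4 - 2 * c + c * x + c ^ 2 * x ^ 2 ≤ 0 →
      1 - x / 2 - c * x ^ 2 ≤ Real.sqrt (1 - x) := by
    intro x h0 h1'
    refine Real.le_sqrt_of_sq_le ?_
    have e : (1 - x / 2 - c * x ^ 2) ^ 2 =
        1 - x + x ^ 2 * (1 / 4 - 2 * c + c * x + c ^ 2 * x ^ 2) := by ring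
    rw [e]
    have := mul_nonneg (sq_nonneg x) (neg_nonneg.2 h1')
    linarith
  have ux := sup _ hx0 hx1
  have uy := sup _ hy0 hy1
  have lx := slo _ hx0 hcx
  have ly := slo _ hy0 hcy
  have hVU : 0 ≤ V * U := mul_nonneg hV0 hU0
  set G := GC a lam σ v V U g h d e with hG
  set R1 := Real.sqrt (1 - σ * (1 - v)) with hR1
  set R2' := Real.sqrt (1 - σ * v) with hR2'
  have r1 : 0 ≤ R1 := Real.sqrt_nonneg _
  have r2 : 0 ≤ R2' := Real.sqrt_nonneg _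
  have up : R1 * R2' ≤ (1 - σ * (1 - v) / 2) * (1 - σ * v / 2) :=
    mul_le_mul ux uy r2 (r1.trans ux)
  have lo : (1 - σ * (1 - v) / 2 - c * (σ * (1 - v)) ^ 2) * (1 - σ * v / 2 - c * (σ * v) ^ 2) ≤
      R1 * R2' := mul_le_mul lx ly hsy r1
  have e1 : 1 - σ * u = (1 - σ * (1 - v) / 2 - c * (σ * (1 - v)) ^ 2) *
      (1 - σ * v / 2 - c * (σ * v) ^ 2) * (V * U) := by
    have z1 : 1 - σ * (1 - v) * Z1 = (1 - σ * (1 - v) / 2 - c * (σ * (1 - v)) ^ 2) * V := by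
      rw [hZ1, hV]; ring
    have z2 : 1 - σ * v * Z2 = (1 - σ * v / 2 - c * (σ * v) ^ 2) * U := by
      rw [hZ2, hU]; ring
    have z3 : 1 - σ * u = (1 - σ * (1 - v) * Z1) * (1 - σ * v * Z2) := by rw [hu]; ring
    rw [z3, z1, z2]
    ring
  have e2 : 1 - σ * u' = (1 - σ * (1 - v) / 2) * (1 - σ * v / 2) * (V * U) := by
    have z1 : 1 - σ * (1 - v) * Y1 = (1 - σ * (1 - v) / 2) * V := by
      rw [hY1, hV]; ring
    have z2 : 1 - σ * v * Y2 = (1 - σ * v / 2) * U := by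
      rw [hY2, hU]; ring
    have z3 : 1 - σ * u' = (1 - σ * (1 - v) * Y1) * (1 - σ * v * Y2) := by rw [hu']; ring
    rw [z3, z1, z2]
    ring
  have k1 : 1 - R1 * R2' * (V * U) ≤ σ * u := by
    have := mul_le_mul_of_nonneg_right lo hVU
    linarith
  have k2 : σ * u' ≤ 1 - R1 * R2' * (V * U) := by
    have := mul_le_mul_of_nonneg_right up hVU
    linarith
  have kA : 0 ≤ u + u' → (1 - R1 * R2' * (V * U)) ^ 2 ≤ (σ * u) ^ 2 := by
    intro h4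
    have k3 : -(σ * u) ≤ 1 - R1 * R2' * (V * U) := by
      have h5 := mul_nonneg hσ0.le h4
      rw [mul_add] at h5
      linarith
    exact sq_le_sq' k3 k1
  have kB : u + u' ≤ 0 → (1 - R1 * R2' * (V * U)) ^ 2 ≤ (σ * u') ^ 2 := by
    intro h4
    have k3 : 1 - R1 * R2' * (V * U) ≤ -(σ * u') := by
      have h5 := mul_nonneg hσ0.le (neg_nonneg.2 h4)
      rw [mul_neg, mul_add] at h5
      linarith
    have h6 : (1 - R1 * R2' * (V * U)) ^ 2 ≤ (-(σ * u')) ^ 2 := sq_le_sq' (by linarith) k3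
    rwa [neg_sq] at h6
  obtain ⟨z, k4, h3⟩ : ∃ z : ℝ, (1 - R1 * R2' * (V * U)) ^ 2 ≤ (σ * z) ^ 2 ∧
      0 ≤ (d + e + lam - g - h) * G - (1 - σ * (1 - v)) * (1 - σ * v) * σ * z * z := by
    rcases h3 with ⟨h4, h3⟩ | ⟨h4, h3⟩ | ⟨h3, h3'⟩
    · exact ⟨u, kA h4, h3⟩
    · exact ⟨u', kB h4, h3⟩
    · rcases le_total 0 (u + u') with h4 | h4
      · exact ⟨u, kA h4, h3⟩
      · exact ⟨u', kB h4, h3'⟩
  have key := R3aux.quad (A := G / (σ * v * (1 - v) * ((1 - σ * (1 - v)) * (1 - σ * v))))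
    (b := -(1 - R1 * R2' * (V * U))) (c := σ * σ * v * (1 - v) * (d + e + lam - g - h)) (q := q)
    (by positivity) (by positivity) (by
      rw [neg_sq]
      refine k4.trans ?_
      rw [div_mul_eq_mul_div, le_div_iff₀ (by positivity)]
      have h5 := mul_nonneg (by positivity : 0 ≤ σ * σ * v * (1 - v)) h3
      have e3 : σ * σ * v * (1 - v) * ((d + e + lam - g - h) * G -
          (1 - σ * (1 - v)) * (1 - σ * v) * σ * z * z) =
          G * (σ * σ * v * (1 - v) * (d + e + lam - g - h)) -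
          (σ * z) ^ 2 * (σ * v * (1 - v) * ((1 - σ * (1 - v)) * (1 - σ * v))) := by ring
      rw [e3] at h5
      linarith)
  calc (0 : ℝ) ≤ _ := key
    _ = _ := by ring

end Pool.Agent.T2H40.BR
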