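import Pool.Agent.Y339.SB.Core

/-!
# Package S1: the summation argument

`P` is a symmetric idempotent of trace `k`, `C` a set of `k` indices, `x i = 1 - P i i` on `C` and
`x i = P i i` outside. Everything is a double sum.
-/

set_option autoImplicit false

open Finset

namespace Pool.Agent.T2H40.BR

variable {V : Type*} [Fintype V] [DecidableEq V]

/-- the rank-free part of the pair function -/
noncomputable def base (C : Finset V) (x B g : V → ℝ) (i j : V) : ℝ :=
  if i ∈ C then
    if j ∈ C then 1 - x i - x j + (B i * x j + B j * x i)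
    else x j - (B i * x j + B j * x i) - (g i + g j) * (x i * x j)
  else
    if j ∈ C then x i - (B i * x j + B j * x i) - (g i + g j) * (x i * x j)
    else B i * x j + B j * x i

/-- the pair function -/
noncomputable def pairE (P : V → V → ℝ) (C : Finset V) (x B g v u γ : V → ℝ) (i j : V) : ℝ :=
  base C x B g i j + (γ i + γ j) * P i j ^ 2 + 2 * (v i * v j - u i * u j) * P i j

/-- the double sum of `base` -/
theorem sum_base (C : Finset V) (x B g : V → ℝ) (a : ℝ) (ha : ∑ i ∈ C, x i = a)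
    (ha' : ∑ i ∈ Cᶜ, x i = a) :
    ∑ i, ∑ j, base C x B g i j = (C.card : ℝ) ^ 2 - 2 * a * ∑ i, g i * x i := by
  have hc : ∀ i ∈ C, ∑ j, base C x B g i j
      = ((C.card : ℝ) - (C.card : ℝ) * x i - a + B i * a + (∑ j ∈ C, B j) * x i)
        + (a - (B i * a + (∑ j ∈ Cᶜ, B j) * x i)
          - (a * (g i * x i) + (∑ j ∈ Cᶜ, g j * x j) * x i)) := by
    intro i hi
    rw [← Finset.sum_add_sum_compl C]
    congr 1
    · have : ∀ j ∈ C, base C x B g i j = 1 - x i - x j + B i * x j + B j * x i := by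
        intro j hj
        rw [base, if_pos hi, if_pos hj]; ring
      rw [Finset.sum_congr rfl this]
      simp only [Finset.sum_add_distrib, Finset.sum_sub_distrib, ← Finset.mul_sum,
        ← Finset.sum_mul, Finset.sum_const, nsmul_eq_mul, ha, mul_one]
    · have : ∀ j ∈ Cᶜ, base C x B g i j
          = x j - B i * x j - B j * x i - (g i * x i) * x j - (g j * x j) * x i := by
        intro j hj
        rw [base, if_pos hi, if_neg (Finset.mem_compl.1 hj)]; ring
      rw [Finset.sum_congr rfl this]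
      simp only [Finset.sum_sub_distrib, ← Finset.mul_sum, ← Finset.sum_mul, ha']
      ring
  have hd : ∀ i ∈ Cᶜ, ∑ j, base C x B g i j
      = ((C.card : ℝ) * x i - (B i * a + (∑ j ∈ C, B j) * x i)
          - (a * (g i * x i) + (∑ j ∈ C, g j * x j) * x i))
        + (B i * a + (∑ j ∈ Cᶜ, B j) * x i) := by
    intro i hi
    rw [← Finset.sum_add_sum_compl C]
    congr 1
    · have : ∀ j ∈ C, base C x B g i j
          = x i - B i * x j - B j * x i - (g i * x i) * x j - (g j * x j) * x i := by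
        intro j hj
        rw [base, if_neg (Finset.mem_compl.1 hi), if_pos hj]; ring
      rw [Finset.sum_congr rfl this]
      simp only [Finset.sum_sub_distrib, ← Finset.mul_sum,
        ← Finset.sum_mul, Finset.sum_const, nsmul_eq_mul, ha]
      ring
    · have : ∀ j ∈ Cᶜ, base C x B g i j = B i * x j + B j * x i := by
        intro j hj
        rw [base, if_neg (Finset.mem_compl.1 hi), if_neg (Finset.mem_compl.1 hj)]
      rw [Finset.sum_congr rfl this]
      simp only [Finset.sum_add_distrib, ← Finset.mul_sum, ← Finset.sum_mul, ha']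
  rw [← Finset.sum_add_sum_compl C, Finset.sum_congr rfl hc, Finset.sum_congr rfl hd,
    ← Finset.sum_add_sum_compl C (fun i => g i * x i)]
  simp only [Finset.sum_add_distrib, Finset.sum_sub_distrib, ← Finset.mul_sum,
    ← Finset.sum_mul, Finset.sum_const, nsmul_eq_mul, ha, ha']
  ring

/-- Computation on paper (ordered pairs `i ≠ j`, `a = ∑_C x = ∑_{Cᶜ} x`):
`∑ base = k(k-1) + 2a - 2 ∑ B x - 2a ∑ g x`, `∑ (γ_i+γ_j) P_ij² = 2 ∑ γ x (1-x)` (`row_sq_erase`),
`∑ 2 v v P ≤ 2 ∑ v² (1 - P_ii)` (`quad_le`), `∑ -2 u u P ≤ 2 ∑ u² P_ii` (`uᵀPu ≥ 0`). The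
hypotheses `hBc`, `hBs` then give the bound `k (k + 1)`. -/
theorem cert_bound {P : V → V → ℝ} (hs : ∀ i j, P i j = P j i)
    (hid : ∀ i j, ∑ l, P i l * P l j = P i j) (C : Finset V) (k : ℕ) (hk : C.card = k)
    (htr : ∑ i, P i i = (k : ℝ)) (x : V → ℝ)
    (hx : ∀ i, x i = if i ∈ C then 1 - P i i else P i i)
    (a0 lam : ℝ) (B g v u γ : V → ℝ)
    (ha : a0 = ∑ i ∈ C, x i ∨ (a0 ≤ ∑ i ∈ C, x i ∧ ∀ i, 0 ≤ g i))
    (hBc : ∀ i ∈ C, γ i * (x i * (1 - x i)) + v i ^ 2 * x i + u i ^ 2 * (1 - x i) - B i * x i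
      - a0 * (g i * x i) ≤ (1 - x i) - lam / 2 * x i)
    (hBs : ∀ i, i ∉ C → γ i * (x i * (1 - x i)) + v i ^ 2 * (1 - x i) + u i ^ 2 * x i - B i * x i
      - a0 * (g i * x i) ≤ lam / 2 * x i)
    (A : V → V → Prop) [DecidableRel A] (hirr : ∀ i, ¬ A i i)
    (h1 : ∀ i j, i ≠ j → P i i + P j j + 2 * P i j - 1 ≤ pairE P C x B g v u γ i j)
    (h0 : ∀ i j, i ≠ j → 0 ≤ pairE P C x B g v u γ i j) :
    ∑ i, ∑ j, (if A i j then P i i + P j j + 2 * P i j - 1 else 0) ≤ (k : ℝ) ^ 2 + k := by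
  classical
  set a : ℝ := ∑ i ∈ C, x i with hadef
  have hxc : ∀ i ∈ C, P i i = 1 - x i := by
    intro i hi; rw [hx i, if_pos hi]; ring
  have hxs : ∀ i ∈ Cᶜ, P i i = x i := by
    intro i hi; rw [hx i, if_neg (Finset.mem_compl.1 hi)]
  have hx0 : ∀ i, 0 ≤ x i := by
    intro i
    rw [hx i]
    split_ifs
    · have := Pool.Agent.Y339.SB.diag_le_one hs hid i; linarith
    · exact Pool.Agent.Y339.SB.diag_nonneg hs hid i
  have ha' : ∑ i ∈ Cᶜ, x i = a := by
    have h := htr
    rw [← Finset.sum_add_sum_compl C, Finset.sum_congr rfl hxc, Finset.sum_congr rfl hxs,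
      Finset.sum_sub_distrib, Finset.sum_const, nsmul_eq_mul, mul_one, hk] at h
    linarith
  -- the sum over pairs
  have step1 : ∑ i, ∑ j, (if A i j then P i i + P j j + 2 * P i j - 1 else 0)
      ≤ ∑ i, ((∑ j, pairE P C x B g v u γ i j) - pairE P C x B g v u γ i i) := by
    refine Finset.sum_le_sum fun i _ => ?_
    rw [← Finset.add_sum_erase _ _ (Finset.mem_univ i),
      ← Finset.add_sum_erase univ (fun j => pairE P C x B g v u γ i j) (Finset.mem_univ i),
      if_neg (hirr i)]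
    have : ∑ j ∈ univ.erase i, (if A i j then P i i + P j j + 2 * P i j - 1 else 0)
        ≤ ∑ j ∈ univ.erase i, pairE P C x B g v u γ i j := by
      refine Finset.sum_le_sum fun j hj => ?_
      have hij : i ≠ j := (Finset.ne_of_mem_erase hj).symm
      split_ifs
      · exact h1 i j hij
      · exact h0 i j hij
    linarith
  -- the pieces
  have hrow : ∀ i, ∑ j, P i j ^ 2 = P i i := Pool.Agent.Y339.SB.row_sq hs hid
  have hcol : ∀ j, ∑ i, P i j ^ 2 = P j j := by
    intro j
    rw [← hrow j]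
    exact Finset.sum_congr rfl fun i _ => by rw [hs i j]
  have hγ : ∑ i, ∑ j, (γ i + γ j) * P i j ^ 2 = 2 * ∑ i, γ i * P i i := by
    have e : ∀ i j, (γ i + γ j) * P i j ^ 2 = γ i * P i j ^ 2 + γ j * P i j ^ 2 := by
      intro i j; ring
    simp only [e, Finset.sum_add_distrib]
    rw [Finset.sum_comm (f := fun i j => γ j * P i j ^ 2)]
    simp only [← Finset.mul_sum, hrow, hcol]
    ring
  have hv : ∑ i, ∑ j, v i * v j * P i j ≤ ∑ i, v i ^ 2 := Pool.Agent.Y339.SB.quad_le hs hid v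
  have hu : 0 ≤ ∑ i, ∑ j, u i * u j * P i j := by
    have e : ∑ l, (∑ i, u i * P i l) ^ 2 = ∑ i, ∑ j, u i * u j * P i j := by
      have e1 : ∀ l, (∑ i, u i * P i l) ^ 2 = ∑ i, ∑ j, u i * u j * (P i l * P l j) := by
        intro l
        rw [sq, Finset.sum_mul_sum]
        refine Finset.sum_congr rfl fun i _ => Finset.sum_congr rfl fun j _ => ?_
        rw [hs j l]; ring
      simp only [e1]
      rw [Finset.sum_comm]
      refine Finset.sum_congr rfl fun i _ => ?_
      rw [Finset.sum_comm]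
      refine Finset.sum_congr rfl fun j _ => ?_
      rw [← Finset.mul_sum, hid]
    rw [← e]
    exact Finset.sum_nonneg fun l _ => sq_nonneg _
  have hbase := sum_base C x B g a hadef.symm ha'
  have hE : ∑ i, ∑ j, pairE P C x B g v u γ i j
      = (∑ i, ∑ j, base C x B g i j) + (∑ i, ∑ j, (γ i + γ j) * P i j ^ 2)
        + 2 * (∑ i, ∑ j, v i * v j * P i j) - 2 * (∑ i, ∑ j, u i * u j * P i j) := by
    simp only [Finset.mul_sum, ← Finset.sum_add_distrib, ← Finset.sum_sub_distrib]
    refine Finset.sum_congr rfl fun i _ => Finset.sum_congr rfl fun j _ => ?_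
    rw [pairE]; ring
  have hD : ∑ i, pairE P C x B g v u γ i i
      = (∑ i, base C x B g i i) + 2 * (∑ i, γ i * P i i ^ 2)
        + 2 * (∑ i, v i ^ 2 * P i i) - 2 * (∑ i, u i ^ 2 * P i i) := by
    simp only [Finset.mul_sum, ← Finset.sum_add_distrib, ← Finset.sum_sub_distrib]
    refine Finset.sum_congr rfl fun i _ => ?_
    rw [pairE]; ring
  have hDb : ∑ i, base C x B g i i = (k : ℝ) - 2 * a + 2 * ∑ i, B i * x i := by
    rw [← Finset.sum_add_sum_compl C, ← Finset.sum_add_sum_compl C (fun i => B i * x i)]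
    have e1 : ∀ i ∈ C, base C x B g i i = 1 - 2 * x i + 2 * (B i * x i) := by
      intro i hi
      rw [base, if_pos hi, if_pos hi]; ring
    have e2 : ∀ i ∈ Cᶜ, base C x B g i i = 2 * (B i * x i) := by
      intro i hi
      rw [base, if_neg (Finset.mem_compl.1 hi), if_neg (Finset.mem_compl.1 hi)]; ring
    rw [Finset.sum_congr rfl e1, Finset.sum_congr rfl e2]
    simp only [Finset.sum_add_distrib, Finset.sum_sub_distrib, ← Finset.mul_sum,
      Finset.sum_const, nsmul_eq_mul, hk, ← hadef]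
    ring
  -- the two families of hypotheses, summed
  have hB : ∑ i, (γ i * (P i i - P i i ^ 2) + v i ^ 2 * (1 - P i i) + u i ^ 2 * P i i
      - B i * x i - a0 * (g i * x i)) ≤ (k : ℝ) - a := by
    rw [← Finset.sum_add_sum_compl C]
    have f1 : ∑ i ∈ C, (γ i * (P i i - P i i ^ 2) + v i ^ 2 * (1 - P i i) + u i ^ 2 * P i i
        - B i * x i - a0 * (g i * x i)) ≤ ∑ i ∈ C, ((1 - x i) - lam / 2 * x i) := by
      refine Finset.sum_le_sum fun i hi => ?_
      have := hBc i hi
      rw [hxc i hi]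
      have e : γ i * (1 - x i - (1 - x i) ^ 2) = γ i * (x i * (1 - x i)) := by ring
      rw [e]
      linarith
    have f2 : ∑ i ∈ Cᶜ, (γ i * (P i i - P i i ^ 2) + v i ^ 2 * (1 - P i i) + u i ^ 2 * P i i
        - B i * x i - a0 * (g i * x i)) ≤ ∑ i ∈ Cᶜ, (lam / 2 * x i) := by
      refine Finset.sum_le_sum fun i hi => ?_
      have := hBs i (Finset.mem_compl.1 hi)
      rw [hxs i hi]
      have e : γ i * (x i - (x i) ^ 2) = γ i * (x i * (1 - x i)) := by ring
      rw [e]
      linarith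
    have g1 : ∑ i ∈ C, ((1 - x i) - lam / 2 * x i) = (k : ℝ) - a - lam / 2 * a := by
      simp only [Finset.sum_sub_distrib, ← Finset.mul_sum, Finset.sum_const, nsmul_eq_mul, hk,
        ← hadef, mul_one]
    have g2 : ∑ i ∈ Cᶜ, (lam / 2 * x i) = lam / 2 * a := by
      rw [← Finset.mul_sum, ha']
    linarith
  have hB' : (∑ i, γ i * P i i) - (∑ i, γ i * P i i ^ 2) + (∑ i, v i ^ 2)
      - (∑ i, v i ^ 2 * P i i) + (∑ i, u i ^ 2 * P i i) - (∑ i, B i * x i)
      - a0 * (∑ i, g i * x i) ≤ (k : ℝ) - a := by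
    refine le_trans (le_of_eq ?_) hB
    simp only [Finset.mul_sum, ← Finset.sum_add_distrib, ← Finset.sum_sub_distrib]
    refine Finset.sum_congr rfl fun i _ => ?_
    ring
  have hG : a0 * (∑ i, g i * x i) ≤ a * (∑ i, g i * x i) := by
    rcases ha with h | ⟨h, hg⟩
    · rw [h]
    · exact mul_le_mul_of_nonneg_right h (Finset.sum_nonneg fun i _ => mul_nonneg (hg i) (hx0 i))
  refine step1.trans ?_
  rw [Finset.sum_sub_distrib, hE, hD, hbase, hγ, hDb, hk]
  nlinarith [hB', hG, hv, hu]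

end Pool.Agent.T2H40.BR
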